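import Mathlib
import Pool.Agent.W546.GHC.Conv
import Pool.Agent.W548.Sh.Flip

/-!
# Statements: exceptional Hodge classes on abelian varieties with multiquadratic multiplication
-/

set_option autoImplicit false

namespace Pool.Agent.Q43.RP

open NumberField Pool.Agent.H204R3.CM Pool.Agent.W546.GHC Pool.Agent.W548.Sh

open Classical in
/-- Second moment: for at least one fifth of the half systems `T` of an elementary abelian group of
order `2 g`, some character with `χ c = -1` has sum zero over `T`. -/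
def S_SH1 : Prop :=
  ∀ (Γ : Type) [CommGroup Γ] [Fintype Γ] (c : Γ) (g : ℕ), (∀ x : Γ, x * x = 1) → c ≠ 1 →
    Fintype.card Γ = 2 * g → 4 ≤ g →
    (2 : ℝ) ^ g ≤ 5 * (((Halves (fun x : Γ => c * x)).filter
      (fun T => ∃ χ : Γ →* ℤˣ, χ c = -1 ∧ ∑ x ∈ T, ((χ x : ℤˣ) : ℤ) = 0)).card : ℝ)

open Classical in
/-- A balanced word of `2 m` different letters without conjugate letters gives an exceptional rational
Hodge class of degree `2 m`. -/
def S_SH2 : Prop :=
  ∀ {ι J : Type} [Fintype ι] [Fintype J] (E : ι → Type) [∀ i, Field (E i)]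
    [∀ i, NumberField (E i)] [∀ i, IsCMField (E i)] (Φ : ∀ i, Set (E i →+* ℂ)) (t : J → ι),
    (∀ i, IsCMType (Φ i)) → Separated Φ → Function.Surjective t → ∀ m : ℕ, 0 < m →
    ∀ a : Fin (2 * m) → Σ i, (E i →+* ℂ), Function.Injective a →
    (∀ l l', a l ≠ (⟨(a l').1, ComplexEmbedding.conjugate (a l').2⟩ : Σ i, (E i →+* ℂ))) →
    (∀ σ : ℂ ≃+* ℂ,
      ∑ l, (if (σ : ℂ →+* ℂ).comp (a l).2 ∈ Φ (a l).1 then (1 : ℤ) else -1) = 0) →
    ∃ f : (∀ j, E (t j)) [⋀^Fin (2 * m)]→ₗ[ℚ] ℚ, IsHodge (per Φ t) f ∧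
      f ∉ Submodule.span ℚ (divisorProducts (per Φ t) (2 * m) m)

/-- For a CM field that is Galois over `ℚ` with an elementary abelian Galois group, about one fifth
of all CM types have an exceptional rational Hodge class of degree `g` on the abelian variety itself,
of dimension `g`. -/
def S_SH3 : Prop :=
  ∀ (E : Type) [Field E] [NumberField E] [IsCMField E] [IsGalois ℚ E] (g : ℕ),
    Module.finrank ℚ E = 2 * g → (∀ σ : E ≃ₐ[ℚ] E, σ * σ = 1) → 4 ≤ g →
    (2 : ℝ) ^ g ≤ 5 * (({Φ : Set (E →+* ℂ) | IsCMType Φ ∧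
      ∃ f : (∀ _ : Unit, E) [⋀^Fin g]→ₗ[ℚ] ℚ,
        IsHodge (per (fun _ : Unit => Φ) (fun _ : Unit => ())) f ∧
        f ∉ Submodule.span ℚ (divisorProducts (per (fun _ : Unit => Φ) (fun _ : Unit => ()))
          g (g / 2))}).ncard : ℝ) + 10 * g * 2 ^ (g / 2)

end Pool.Agent.Q43.RP
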