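import Mathlib

/-!
# The defect of finitely many Weil numbers
-/

set_option autoImplicit false

namespace Pool.Agent.Q43.RP

open NumberField Module

/-- The relations between the conjugates of the Weil numbers `π i` modulo the trivial ones: functions
`a` with integral values on the set of the complex embeddings of the fields `K i` that change their
sign under complex conjugation, such that the product of the `φ (π i) ^ a (φ)` is a root of unity. -/
def relations {I : Type} [Fintype I] (K : I → Type) [∀ i, Field (K i)] [∀ i, NumberField (K i)]
    (π : ∀ i, K i) : Set ((Σ i, (K i →+* ℂ)) → ℤ) :=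
  {a | (∀ y, a ⟨y.1, ComplexEmbedding.conjugate y.2⟩ = - a y) ∧
    ∃ s : ℕ, 0 < s ∧ (∏ y, y.2 (π y.1) ^ a y) ^ s = 1}

/-- The defect: the rank of the lattice of the relations. -/
noncomputable def defect {I : Type} [Fintype I] (K : I → Type) [∀ i, Field (K i)]
    [∀ i, NumberField (K i)] (π : ∀ i, K i) : ℕ :=
  finrank ℤ (Submodule.span ℤ (relations K π))

end Pool.Agent.Q43.RP
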