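import Mathlib

/-!
# An uncertainty principle for invariant spaces of functions on a set with a group action
-/

set_option autoImplicit false
set_option linter.unusedSectionVars false

namespace Pool.Agent.Q43.RP

open Finset
open scoped RealInnerProductSpace

noncomputable section

variable {Y : Type*} [Fintype Y] [DecidableEq Y] {G : Type*} [Group G] [MulAction G Y]

/-- the translate of a function -/
def trl (h : G) (f : EuclideanSpace ℝ Y) : EuclideanSpace ℝ Y := WithLp.toLp 2 (fun y => f (h • y))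

theorem trl_apply (h : G) (f : EuclideanSpace ℝ Y) (y : Y) : trl h f y = f (h • y) := rfl

theorem norm_trl (h : G) (f : EuclideanSpace ℝ Y) : ‖trl h f‖ = ‖f‖ := by
  rw [EuclideanSpace.norm_eq, EuclideanSpace.norm_eq]
  congr 1
  exact Equiv.sum_comp (MulAction.toPerm h) (fun y => ‖f y‖ ^ 2)

/-- the representer of the evaluation -/
def rep (K : Submodule ℝ (EuclideanSpace ℝ Y)) (y : Y) : EuclideanSpace ℝ Y :=
  K.starProjection (EuclideanSpace.single y (1 : ℝ))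

theorem rep_mem (K : Submodule ℝ (EuclideanSpace ℝ Y)) (y : Y) : rep K y ∈ K :=
  Submodule.starProjection_apply_mem K _

theorem inner_rep (K : Submodule ℝ (EuclideanSpace ℝ Y)) (y : Y) {f : EuclideanSpace ℝ Y}
    (hf : f ∈ K) : ⟪rep K y, f⟫ = f y := by
  unfold rep
  rw [Submodule.inner_starProjection_left_eq_right, Submodule.starProjection_eq_self_iff.2 hf,
    EuclideanSpace.inner_single_left]
  simp

theorem norm_rep_le (K : Submodule ℝ (EuclideanSpace ℝ Y))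
    (hK : ∀ h : G, ∀ f ∈ K, trl h f ∈ K) (h : G) (y : Y) : ‖rep K (h • y)‖ ≤ ‖rep K y‖ := by
  have h1 : ‖rep K (h • y)‖ * ‖rep K (h • y)‖ ≤ ‖rep K y‖ * ‖rep K (h • y)‖ := by
    calc ‖rep K (h • y)‖ * ‖rep K (h • y)‖ = ⟪rep K (h • y), rep K (h • y)⟫ := by
          rw [real_inner_self_eq_norm_mul_norm]
      _ = rep K (h • y) (h • y) := inner_rep K _ (rep_mem K _)
      _ = trl h (rep K (h • y)) y := rfl
      _ = ⟪rep K y, trl h (rep K (h • y))⟫ := (inner_rep K _ (hK h _ (rep_mem K _))).symm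
      _ ≤ ‖rep K y‖ * ‖trl h (rep K (h • y))‖ := real_inner_le_norm _ _
      _ = ‖rep K y‖ * ‖rep K (h • y)‖ := by rw [norm_trl]
  rcases (norm_nonneg (rep K (h • y))).eq_or_lt with h2 | h2
  · rw [← h2]
    exact norm_nonneg _
  · exact le_of_mul_le_mul_right h1 h2

theorem norm_rep_eq (K : Submodule ℝ (EuclideanSpace ℝ Y))
    (hK : ∀ h : G, ∀ f ∈ K, trl h f ∈ K) (h : G) (y : Y) : ‖rep K (h • y)‖ = ‖rep K y‖ := by
  refine le_antisymm (norm_rep_le K hK h y) ?_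
  have h1 := norm_rep_le K hK h⁻¹ (h • y)
  rwa [inv_smul_smul] at h1

theorem sum_norm_rep (K : Submodule ℝ (EuclideanSpace ℝ Y)) :
    ∑ y, ‖rep K y‖ ^ 2 = Module.finrank ℝ K := by
  let b := stdOrthonormalBasis ℝ K
  have h1 : ∀ y, ‖rep K y‖ ^ 2 = ∑ i, ((b i : EuclideanSpace ℝ Y) y) ^ 2 := by
    intro y
    have h2 := b.sum_sq_norm_inner_right (⟨rep K y, rep_mem K y⟩ : K)
    rw [Submodule.coe_norm] at h2
    rw [← h2]
    refine Finset.sum_congr rfl fun i _ => ?_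
    rw [Submodule.coe_inner, Real.norm_eq_abs, sq_abs, real_inner_comm]
    rw [inner_rep K y (b i).2]
  rw [Finset.sum_congr rfl fun y _ => h1 y, Finset.sum_comm]
  have h3 : ∀ i, ∑ y, ((b i : EuclideanSpace ℝ Y) y) ^ 2 = 1 := by
    intro i
    have h4 : ‖(b i : EuclideanSpace ℝ Y)‖ = 1 := by
      rw [← Submodule.coe_norm]
      exact b.orthonormal.1 i
    have h5 := EuclideanSpace.norm_sq_eq (b i : EuclideanSpace ℝ Y)
    rw [h4] at h5
    rw [← Finset.sum_congr rfl (fun y _ => by rw [Real.norm_eq_abs, sq_abs] :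
      ∀ y ∈ Finset.univ, ‖(b i : EuclideanSpace ℝ Y) y‖ ^ 2 = ((b i : EuclideanSpace ℝ Y) y) ^ 2),
      ← h5, one_pow]
  rw [Finset.sum_congr rfl fun i _ => h3 i, Finset.sum_const, Finset.card_univ, Fintype.card_fin,
    nsmul_eq_mul, mul_one]

/-- The evaluations are small. -/
theorem norm_rep_sq_le (K : Submodule ℝ (EuclideanSpace ℝ Y))
    (hK : ∀ h : G, ∀ f ∈ K, trl h f ∈ K) {g : ℕ}
    (horb : ∀ y : Y, 2 * g ≤ (MulAction.orbit G y).ncard) (y : Y) :
    2 * g * ‖rep K y‖ ^ 2 ≤ Module.finrank ℝ K := by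
  classical
  have hfin : (MulAction.orbit G y).Finite := Set.toFinite _
  rw [← sum_norm_rep K]
  calc 2 * (g : ℝ) * ‖rep K y‖ ^ 2 ≤ ((MulAction.orbit G y).ncard : ℝ) * ‖rep K y‖ ^ 2 := by
        refine mul_le_mul_of_nonneg_right ?_ (by positivity)
        exact_mod_cast horb y
    _ = ∑ z ∈ hfin.toFinset, ‖rep K z‖ ^ 2 := by
        have h1 : ∀ z ∈ hfin.toFinset, ‖rep K z‖ ^ 2 = ‖rep K y‖ ^ 2 := by
          intro z hz
          rw [Set.Finite.mem_toFinset] at hz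
          obtain ⟨h, rfl⟩ := hz
          change ‖rep K (h • y)‖ ^ 2 = _
          rw [norm_rep_eq K hK]
        rw [Finset.sum_congr rfl h1, Finset.sum_const, nsmul_eq_mul,
          Set.ncard_eq_toFinset_card _ hfin]
    _ ≤ ∑ z, ‖rep K z‖ ^ 2 :=
        Finset.sum_le_sum_of_subset_of_nonneg (Finset.subset_univ _) fun _ _ _ => by positivity

/-- **Uncertainty principle**: an integral function in an invariant space of small dimension is
large. -/
theorem uncertainty (K : Submodule ℝ (EuclideanSpace ℝ Y))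
    (hK : ∀ h : G, ∀ f ∈ K, trl h f ∈ K) {g : ℕ}
    (horb : ∀ y : Y, 2 * g ≤ (MulAction.orbit G y).ncard) (a : Y → ℤ) (ha : a ≠ 0)
    (haK : (WithLp.toLp 2 (fun y => (a y : ℝ)) : EuclideanSpace ℝ Y) ∈ K) :
    (2 * g : ℝ) ≤ Module.finrank ℝ K * ∑ y, |(a y : ℝ)| := by
  obtain ⟨y₁, hy₁⟩ : ∃ y, a y ≠ 0 := by
    by_contra hcon
    push Not at hcon
    exact ha (funext hcon)
  obtain ⟨y₀, -, hy₀⟩ := Finset.exists_max_image (Finset.univ : Finset Y) (fun y => |a y|)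
    ⟨y₁, Finset.mem_univ _⟩
  have hy₀' : ∀ y, |(a y : ℝ)| ≤ |(a y₀ : ℝ)| := fun y => by
    have := hy₀ y (Finset.mem_univ _)
    exact_mod_cast this
  have hA : (1 : ℝ) ≤ |(a y₀ : ℝ)| := by
    refine le_trans ?_ (hy₀' y₁)
    have : 1 ≤ |a y₁| := Int.one_le_abs hy₁
    exact_mod_cast this
  set A := |(a y₀ : ℝ)| with hAdef
  set f : EuclideanSpace ℝ Y := WithLp.toLp 2 (fun y => (a y : ℝ)) with hf
  have h1 : A ^ 2 ≤ ‖rep K y₀‖ ^ 2 * ‖f‖ ^ 2 := by
    have h2 : |f y₀| ≤ ‖rep K y₀‖ * ‖f‖ := by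
      rw [← inner_rep K y₀ haK]
      exact abs_real_inner_le_norm _ _
    calc A ^ 2 = |f y₀| ^ 2 := rfl
      _ ≤ (‖rep K y₀‖ * ‖f‖) ^ 2 := pow_le_pow_left₀ (abs_nonneg _) h2 2
      _ = _ := by ring
  have h2 : ‖f‖ ^ 2 ≤ A * ∑ y, |(a y : ℝ)| := by
    rw [EuclideanSpace.norm_sq_eq, Finset.mul_sum]
    refine Finset.sum_le_sum fun y _ => ?_
    rw [hf, Real.norm_eq_abs, sq]
    exact mul_le_mul_of_nonneg_right (hy₀' y) (abs_nonneg _)
  have h3 := norm_rep_sq_le K hK horb y₀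
  have h4 : 0 ≤ ∑ y, |(a y : ℝ)| := Finset.sum_nonneg fun _ _ => abs_nonneg _
  have h5 : 2 * (g : ℝ) * A ^ 2 ≤ Module.finrank ℝ K * (A * ∑ y, |(a y : ℝ)|) := by
    calc 2 * (g : ℝ) * A ^ 2 ≤ 2 * g * (‖rep K y₀‖ ^ 2 * ‖f‖ ^ 2) :=
          mul_le_mul_of_nonneg_left h1 (by positivity)
      _ = (2 * g * ‖rep K y₀‖ ^ 2) * ‖f‖ ^ 2 := by ring
      _ ≤ Module.finrank ℝ K * ‖f‖ ^ 2 := mul_le_mul_of_nonneg_right h3 (by positivity)
      _ ≤ Module.finrank ℝ K * (A * ∑ y, |(a y : ℝ)|) :=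
          mul_le_mul_of_nonneg_left h2 (Nat.cast_nonneg _)
  have h6 : A * (2 * g * A) ≤ A * (Module.finrank ℝ K * ∑ y, |(a y : ℝ)|) := by linarith
  have h7 := le_of_mul_le_mul_left h6 (by linarith)
  have h8 : (2 * g : ℝ) * 1 ≤ 2 * g * A := mul_le_mul_of_nonneg_left hA (by positivity)
  linarith

end

end Pool.Agent.Q43.RP
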