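import Mathlib
import Pool.Agent.Q43.RP.Unc
import Pool.Agent.TH170.LV.Types

/-!
# Words of families of CM types of small defect
-/

set_option autoImplicit false
set_option linter.unusedSectionVars false

namespace Pool.Agent.Q43.RP

open Finset Pool.Agent.W548.Sh

noncomputable section

section words

variable {Y : Type*} [Fintype Y] [DecidableEq Y] {G : Type*} [Group G] [MulAction G Y]

/-- the number of the occurrences of a letter minus the number of its conjugate -/
def exc (inv : Y → Y) {n : ℕ} (a : Fin n → Y) (y : Y) : ℤ :=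
  ((univ.filter (fun l => a l = y)).card : ℤ) - (univ.filter (fun l => a l = inv y)).card

theorem exc_ne_zero {inv : Y → Y} {n : ℕ} (a : Fin n → Y)
    (hred : ∀ l l', a l ≠ inv (a l')) (hn : n ≠ 0) : exc inv a ≠ 0 := by
  intro h
  have h1 := congrFun h (a ⟨0, by omega⟩)
  unfold exc at h1
  have h2 : (univ.filter (fun l => a l = inv (a ⟨0, by omega⟩))) = ∅ :=
    Finset.filter_eq_empty_iff.2 fun l _ => hred l _
  have h3 : 0 < (univ.filter (fun l => a l = a ⟨0, by omega⟩)).card :=
    Finset.card_pos.2 ⟨⟨0, by omega⟩, Finset.mem_filter.2 ⟨Finset.mem_univ _, rfl⟩⟩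
  rw [h2, Finset.card_empty] at h1
  simp only [Pi.zero_apply] at h1
  omega

theorem sum_card_fiber {n : ℕ} (a : Fin n → Y) :
    ∑ y, (univ.filter (fun l => a l = y)).card = n := by
  have h1 := Finset.card_eq_sum_card_fiberwise (s := (univ : Finset (Fin n)))
    (t := (univ : Finset Y)) (f := a) (fun _ _ => Finset.mem_coe.2 (Finset.mem_univ _))
  rw [Finset.card_univ, Fintype.card_fin] at h1
  exact h1.symm

theorem sum_abs_exc {inv : Y → Y} (hinv : ∀ y, inv (inv y) = y) {n : ℕ} (a : Fin n → Y) :
    ∑ y, |(exc inv a y : ℝ)| ≤ 2 * n := by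
  have h1 : ∑ y, (((univ.filter (fun l => a l = y)).card : ℝ) +
      (univ.filter (fun l => a l = inv y)).card) = 2 * n := by
    rw [Finset.sum_add_distrib]
    have h2 : ∑ y, ((univ.filter (fun l => a l = inv y)).card : ℝ) =
        ∑ y, ((univ.filter (fun l => a l = y)).card : ℝ) :=
      Equiv.sum_comp (Function.Involutive.toPerm inv hinv)
        (fun y => ((univ.filter (fun l => a l = y)).card : ℝ))
    have h3 : ∑ y, ((univ.filter (fun l => a l = y)).card : ℝ) = n := by
      exact_mod_cast sum_card_fiber a
    rw [h2, h3]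
    ring
  rw [← h1]
  refine Finset.sum_le_sum fun y _ => ?_
  unfold exc
  push_cast
  refine (abs_sub _ _).trans (le_of_eq ?_)
  rw [abs_of_nonneg (Nat.cast_nonneg _), abs_of_nonneg (Nat.cast_nonneg _)]

/-- The real span of an invariant rational space of functions. -/
theorem exists_real (Kq : Submodule ℚ (Y → ℚ))
    (hK : ∀ h : G, ∀ f ∈ Kq, (fun y => f (h • y)) ∈ Kq) :
    ∃ K : Submodule ℝ (EuclideanSpace ℝ Y), (∀ h : G, ∀ f ∈ K, trl h f ∈ K) ∧
      Module.finrank ℝ K ≤ Module.finrank ℚ Kq ∧
      ∀ f ∈ Kq, (WithLp.toLp 2 (fun y => (f y : ℝ)) : EuclideanSpace ℝ Y) ∈ K := by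
  classical
  let cast : (Y → ℚ) →ₗ[ℚ] EuclideanSpace ℝ Y :=
    { toFun := fun f => WithLp.toLp 2 (fun y => (f y : ℝ))
      map_add' := fun f f' => by
        ext y
        simp
      map_smul' := fun c f => by
        ext y
        simp [Rat.smul_def] }
  refine ⟨Submodule.span ℝ (cast '' (Kq : Set (Y → ℚ))), ?_, ?_,
    fun f hf => Submodule.subset_span ⟨f, hf, rfl⟩⟩
  · intro h f hf
    induction hf using Submodule.span_induction with
    | mem x hx =>
      obtain ⟨f, hf, rfl⟩ := hx
      exact Submodule.subset_span ⟨_, hK h f hf, rfl⟩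
    | zero =>
      have h1 : trl h (0 : EuclideanSpace ℝ Y) = 0 := by
        ext y
        rfl
      rw [h1]
      exact Submodule.zero_mem _
    | add x y _ _ hx hy =>
      have h1 : trl h (x + y) = trl h x + trl h y := by
        ext z
        rfl
      rw [h1]
      exact Submodule.add_mem _ hx hy
    | smul c x _ hx =>
      have h1 : trl h (c • x) = c • trl h x := by
        ext z
        rfl
      rw [h1]
      exact Submodule.smul_mem _ _ hx
  · let b := Module.finBasis ℚ Kq
    have h1 : Submodule.span ℝ (cast '' (Kq : Set (Y → ℚ))) ≤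
        Submodule.span ℝ (Set.range fun i => cast (b i : Y → ℚ)) := by
      refine Submodule.span_le.2 ?_
      rintro _ ⟨f, hf, rfl⟩
      have h2 := b.sum_repr ⟨f, hf⟩
      have h3 : f = ∑ i, b.repr ⟨f, hf⟩ i • (b i : Y → ℚ) := by
        have h4 := congrArg (Subtype.val) h2
        rw [Submodule.coe_sum] at h4
        exact h4.symm
      have h5 : cast f = ∑ i, ((b.repr ⟨f, hf⟩ i : ℚ) : ℝ) • cast (b i : Y → ℚ) := by
        conv_lhs => rw [h3]
        rw [map_sum]
        refine Finset.sum_congr rfl fun i _ => ?_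
        rw [map_smul]
        ext y
        simp [Rat.smul_def]
      rw [SetLike.mem_coe, h5]
      exact Submodule.sum_mem _ fun i _ =>
        Submodule.smul_mem _ _ (Submodule.subset_span ⟨i, rfl⟩)
    calc Module.finrank ℝ (Submodule.span ℝ (cast '' (Kq : Set (Y → ℚ)))) ≤
          Module.finrank ℝ (Submodule.span ℝ (Set.range fun i => cast (b i : Y → ℚ))) :=
          Submodule.finrank_mono h1
      _ ≤ Fintype.card (Fin (Module.finrank ℚ Kq)) := finrank_range_le_card _
      _ = Module.finrank ℚ Kq := Fintype.card_fin _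

/-- A reduced word whose exponents belong to an invariant space of dimension at most `D` has at least
`g / D` letters. -/
theorem le_length {inv : Y → Y} (hinv : ∀ y, inv (inv y) = y) {g D : ℕ}
    (horb : ∀ y : Y, 2 * g ≤ (MulAction.orbit G y).ncard) (Kq : Submodule ℚ (Y → ℚ))
    (hK : ∀ h : G, ∀ f ∈ Kq, (fun y => f (h • y)) ∈ Kq) (hD : Module.finrank ℚ Kq ≤ D) {n : ℕ}
    (a : Fin n → Y) (hred : ∀ l l', a l ≠ inv (a l')) (hn : n ≠ 0)
    (ha : (fun y => (exc inv a y : ℚ)) ∈ Kq) : g ≤ D * n := by
  obtain ⟨K, hKinv, hKD, hKmem⟩ := exists_real (G := G) Kq hK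
  have h1 := uncertainty K hKinv horb (exc inv a) (exc_ne_zero a hred hn) (by
    have h0 := hKmem _ ha
    have h2 : (fun y => (((exc inv a y : ℤ) : ℚ) : ℝ)) = fun y => ((exc inv a y : ℤ) : ℝ) := by
      funext y
      push_cast
      rfl
    rw [h2] at h0
    exact h0)
  have h2 := sum_abs_exc hinv a
  have h3 : (Module.finrank ℝ K : ℝ) ≤ D := by exact_mod_cast hKD.trans hD
  have h4 : (2 * g : ℝ) ≤ D * (2 * n) := by
    refine h1.trans (mul_le_mul h3 h2 (Finset.sum_nonneg fun _ _ => abs_nonneg _)
      (Nat.cast_nonneg _))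
  have h5 : (g : ℝ) ≤ D * n := by linarith
  exact_mod_cast h5

end words

section half

variable {Y : Type*} [Fintype Y] [DecidableEq Y] {G : Type*} [Group G] [MulAction G Y]

open Classical in
/-- the indicator function of a translate of a half system -/
def ind (T : Finset Y) (h : G) : Y → ℚ := fun y => if h • y ∈ T then 1 else 0

/-- the even functions -/
def evens (inv : Y → Y) : Submodule ℚ (Y → ℚ) where
  carrier := {f | ∀ y, f (inv y) = f y}
  zero_mem' := fun _ => rfl
  add_mem' := fun {f f'} hf hf' y => by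
    change f (inv y) + f' (inv y) = f y + f' y
    rw [hf, hf']
  smul_mem' := fun c f hf y => by
    change c * f (inv y) = c * f y
    rw [hf]

theorem card_le_evens {inv : Y → Y} (hinv : ∀ y, inv (inv y) = y) {T : Finset Y}
    (hT : T ∈ Halves inv) : T.card ≤ Module.finrank ℚ (evens inv) := by
  classical
  rw [mem_Halves] at hT
  let F : ({y // y ∈ T} → ℚ) →ₗ[ℚ] evens inv :=
    { toFun := fun f => ⟨fun y => if h : y ∈ T then f ⟨y, h⟩ else f ⟨inv y, by
          rw [hT, hinv]
          exact h⟩, by
        intro y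
        beta_reduce
        by_cases h : y ∈ T
        · have h' : inv y ∉ T := (hT y).1 h
          rw [dif_neg h', dif_pos h]
          congr 1
          exact Subtype.ext (hinv y)
        · have h' : inv y ∈ T := by
            rw [hT, hinv]
            exact h
          rw [dif_pos h', dif_neg h]⟩
      map_add' := fun f f' => by
        ext y
        simp only [Submodule.coe_add, Pi.add_apply]
        split_ifs <;> rfl
      map_smul' := fun c f => by
        ext y
        simp only [Submodule.coe_smul, Pi.smul_apply, RingHom.id_apply]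
        split_ifs <;> rfl }
  have hF : Function.Injective F := by
    intro f f' h
    funext y
    have h1 := congrFun (congrArg Subtype.val h) y.1
    have h2 : (F f).1 y.1 = f y := by
      change (if h : y.1 ∈ T then f ⟨y.1, h⟩ else _) = _
      rw [dif_pos y.2]
    have h3 : (F f').1 y.1 = f' y := by
      change (if h : y.1 ∈ T then f' ⟨y.1, h⟩ else _) = _
      rw [dif_pos y.2]
    rw [← h2, ← h3]
    exact h1
  have h1 := LinearMap.finrank_le_finrank_of_injective hF
  rw [Module.finrank_fintype_fun_eq_card, Fintype.card_coe] at h1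
  exact h1

/-- The translates of the half system and the even functions span a large space. -/
theorem rank_add_le {inv : Y → Y} (hinv : ∀ y, inv (inv y) = y)
    (hcomm : ∀ (h : G) (y : Y), inv (h • y) = h • inv y) {T : Finset Y} (hT : T ∈ Halves inv) :
    Module.finrank ℚ (Submodule.span ℚ (Set.range (ind (G := G) T))) + T.card ≤
      Module.finrank ℚ ((Submodule.span ℚ (Set.range (ind (G := G) T)) ⊔ evens inv :
        Submodule ℚ (Y → ℚ))) + 1 := by
  classical
  set S := Submodule.span ℚ (Set.range (ind (G := G) T)) with hS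
  have h1 := Submodule.finrank_sup_add_finrank_inf_eq S (evens inv)
  have h2 := card_le_evens hinv hT
  have h3 : Module.finrank ℚ (S ⊓ evens inv : Submodule ℚ (Y → ℚ)) ≤ 1 := by
    have h4 : S ⊓ evens inv ≤ Submodule.span ℚ {(fun _ => 1 : Y → ℚ)} := by
      rintro f ⟨hf, hfe⟩
      have h5 : ∀ f ∈ S, ∃ c : ℚ, ∀ y, f y + f (inv y) = c := by
        intro f hf
        induction hf using Submodule.span_induction with
        | mem x hx =>
          obtain ⟨h, rfl⟩ := hx
          refine ⟨1, fun y => ?_⟩
          unfold ind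
          rw [← hcomm]
          have h6 := mem_Halves.1 hT (h • y)
          by_cases h7 : h • y ∈ T
          · rw [if_pos h7, if_neg (h6.1 h7), add_zero]
          · rw [if_neg h7, if_pos (by
              by_contra h8
              exact h7 (h6.2 h8)), zero_add]
        | zero => exact ⟨0, fun y => by simp⟩
        | add x y _ _ hx hy =>
          obtain ⟨c, hc⟩ := hx
          obtain ⟨c', hc'⟩ := hy
          refine ⟨c + c', fun z => ?_⟩
          simp only [Pi.add_apply]
          linarith [hc z, hc' z]
        | smul r x _ hx =>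
          obtain ⟨c, hc⟩ := hx
          refine ⟨r * c, fun z => ?_⟩
          simp only [Pi.smul_apply, smul_eq_mul]
          rw [← mul_add, hc]
      obtain ⟨c, hc⟩ := h5 f hf
      refine Submodule.mem_span_singleton.2 ⟨c / 2, ?_⟩
      funext y
      have h6 := hc y
      have h7 : f (inv y) = f y := hfe y
      rw [h7] at h6
      simp only [Pi.smul_apply, smul_eq_mul]
      linarith
    refine (Submodule.finrank_mono h4).trans ?_
    refine (finrank_span_le_card _).trans ?_
    rw [Set.toFinset_singleton, Finset.card_singleton]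
  omega

/-- the pairing of functions -/
def dotL (Y : Type*) [Fintype Y] : (Y → ℚ) →ₗ[ℚ] Module.Dual ℚ (Y → ℚ) :=
  { toFun := fun f =>
      { toFun := fun f' => ∑ y, f y * f' y
        map_add' := fun u v => by
          rw [← Finset.sum_add_distrib]
          exact Finset.sum_congr rfl fun y _ => mul_add _ _ _
        map_smul' := fun c u => by
          rw [RingHom.id_apply, smul_eq_mul, Finset.mul_sum]
          exact Finset.sum_congr rfl fun y _ => by
            rw [Pi.smul_apply, smul_eq_mul]
            ring }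
    map_add' := fun u v => by
      ext f
      simp [add_mul, Finset.sum_add_distrib]
    map_smul' := fun c u => by
      ext f
      simp [Finset.mul_sum, mul_assoc] }

theorem dotL_apply (f f' : Y → ℚ) : dotL Y f f' = ∑ y, f y * f' y := rfl

theorem dotL_injective : Function.Injective (dotL Y) := by
  intro f f' h
  funext y
  have h1 := LinearMap.congr_fun h (Pi.single y 1)
  rw [dotL_apply, dotL_apply] at h1
  simpa [Pi.single_apply] using h1

/-- the functions orthogonal to a space -/
def perp (W : Submodule ℚ (Y → ℚ)) : Submodule ℚ (Y → ℚ) := W.dualAnnihilator.comap (dotL Y)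

theorem mem_perp {W : Submodule ℚ (Y → ℚ)} {f : Y → ℚ} :
    f ∈ perp W ↔ ∀ f' ∈ W, ∑ y, f y * f' y = 0 := by
  unfold perp
  rw [Submodule.mem_comap, Submodule.mem_dualAnnihilator]
  rfl

theorem finrank_perp_add_le (W : Submodule ℚ (Y → ℚ)) :
    Module.finrank ℚ (perp W) + Module.finrank ℚ W ≤ Fintype.card Y := by
  have h1 := Subspace.finrank_add_finrank_dualAnnihilator_eq W
  rw [Module.finrank_fintype_fun_eq_card] at h1
  have h2 : Module.finrank ℚ (perp W) ≤ Module.finrank ℚ W.dualAnnihilator := by
    let F : perp W →ₗ[ℚ] W.dualAnnihilator :=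
      ((dotL Y).comp (perp W).subtype).codRestrict W.dualAnnihilator (fun x => x.2)
    refine LinearMap.finrank_le_finrank_of_injective (f := F) ?_
    intro x x' h
    exact Subtype.ext (dotL_injective (congrArg Subtype.val h))
  omega

theorem card_half {inv : Y → Y} (hinv : ∀ y, inv (inv y) = y) {N : ℕ}
    (hN : Fintype.card Y = 2 * N) {T : Finset Y} (hT : T ∈ Halves inv) : T.card = N := by
  have hS := mem_Halves.1 hT
  have h1 : (Finset.univ \ T).card = T.card := by
    have h2 : Finset.univ \ T = T.image inv := by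
      ext x
      rw [Finset.mem_sdiff, Finset.mem_image]
      constructor
      · rintro ⟨_, hx⟩
        refine ⟨inv x, ?_, hinv x⟩
        rw [hS, hinv]
        exact hx
      · rintro ⟨a, ha, rfl⟩
        exact ⟨Finset.mem_univ _, (hS a).1 ha⟩
    rw [h2, Finset.card_image_of_injective]
    intro a b h
    rw [← hinv a, h, hinv]
  have h3 := Finset.card_sdiff_add_card_eq_card (Finset.subset_univ T)
  rw [h1, Finset.card_univ] at h3
  omega

/-- the functions orthogonal to the translates of the half system and to the even functions -/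
def kerQ (G : Type*) [Group G] [MulAction G Y] (inv : Y → Y) (T : Finset Y) :
    Submodule ℚ (Y → ℚ) :=
  perp (Submodule.span ℚ (Set.range (ind (G := G) T)) ⊔ evens inv)

theorem finrank_kerQ_le {inv : Y → Y} (hinv : ∀ y, inv (inv y) = y)
    (hcomm : ∀ (h : G) (y : Y), inv (h • y) = h • inv y) {N D : ℕ}
    (hN : Fintype.card Y = 2 * N) {T : Finset Y} (hT : T ∈ Halves inv)
    (hD : N + 1 ≤ Module.finrank ℚ (Submodule.span ℚ (Set.range (ind (G := G) T))) + D) :
    Module.finrank ℚ (kerQ G inv T) ≤ D := by
  classical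
  unfold kerQ
  set W : Submodule ℚ (Y → ℚ) := Submodule.span ℚ (Set.range (ind (G := G) T)) ⊔ evens inv with hW
  have hTN := card_half hinv hN hT
  have h1 := rank_add_le hinv hcomm hT
  rw [← hW] at h1
  have h2 := finrank_perp_add_le W
  rw [hN] at h2
  rw [hTN] at h1
  omega

theorem kerQ_inv {inv : Y → Y}
    (hcomm : ∀ (h : G) (y : Y), inv (h • y) = h • inv y) {T : Finset Y}
    (h : G) (f : Y → ℚ) (hf : f ∈ kerQ G inv T) : (fun y => f (h • y)) ∈ kerQ G inv T := by
  unfold kerQ at hf ⊢
  rw [mem_perp] at hf ⊢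
  intro f' hf'
  have h3 : ∑ y, f (h • y) * f' y = ∑ y, f y * f' (h⁻¹ • y) := by
    rw [← Equiv.sum_comp (MulAction.toPerm h) (fun y => f y * f' (h⁻¹ • y))]
    refine Finset.sum_congr rfl fun y _ => ?_
    rw [MulAction.toPerm_apply, inv_smul_smul]
  rw [h3]
  refine hf _ ?_
  obtain ⟨u, hu, v, hv, rfl⟩ := Submodule.mem_sup.1 hf'
  refine Submodule.add_mem_sup (?_ : (fun y => u (h⁻¹ • y)) ∈ _)
    (?_ : (fun y => v (h⁻¹ • y)) ∈ _)
  · clear hf' h3
    induction hu using Submodule.span_induction with
    | mem x hx =>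
      obtain ⟨k, rfl⟩ := hx
      refine Submodule.subset_span ⟨k * h⁻¹, ?_⟩
      funext y
      unfold ind
      rw [mul_smul]
    | zero => exact Submodule.zero_mem _
    | add x y _ _ hx hy => exact Submodule.add_mem _ hx hy
    | smul c x _ hx => exact Submodule.smul_mem _ _ hx
  · intro y
    change v (h⁻¹ • inv y) = v (h⁻¹ • y)
    rw [← hcomm]
    exact hv _

theorem exc_mem_kerQ {inv : Y → Y} (hinv : ∀ y, inv (inv y) = y)
    (hcomm : ∀ (h : G) (y : Y), inv (h • y) = h • inv y) {T : Finset Y} (hT : T ∈ Halves inv)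
    {n : ℕ} (a : Fin n → Y) (hsum : ∀ h : G, ∑ l, sgn T (h • a l) = 0) :
    (fun y => (exc inv a y : ℚ)) ∈ kerQ G inv T := by
  classical
  unfold kerQ
  rw [mem_perp]
  intro f' hf'
  have h3 : ∀ f' : Y → ℚ, ∑ y, (exc inv a y : ℚ) * f' y = ∑ l, (f' (a l) - f' (inv (a l))) := by
    intro f'
    have h4 : ∀ u : Y → ℚ, ∑ y, ((univ.filter (fun l => a l = y)).card : ℚ) * u y =
        ∑ l, u (a l) := by
      intro u
      rw [← Finset.sum_fiberwise (s := (univ : Finset (Fin n))) (g := a)]
      refine Finset.sum_congr rfl fun y _ => ?_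
      rw [Finset.sum_congr rfl (g := fun _ => u y) (fun l hl => by
        rw [(Finset.mem_filter.1 hl).2]), Finset.sum_const, nsmul_eq_mul]
    have h5 : ∑ y, ((univ.filter (fun l => a l = inv y)).card : ℚ) * f' y =
        ∑ l, f' (inv (a l)) := by
      rw [← h4 (fun y => f' (inv y))]
      rw [← Equiv.sum_comp (Function.Involutive.toPerm inv hinv)
        (fun y => ((univ.filter (fun l => a l = y)).card : ℚ) * f' (inv y))]
      refine Finset.sum_congr rfl fun y _ => ?_
      rw [Function.Involutive.coe_toPerm, hinv]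
    rw [Finset.sum_sub_distrib, ← h4 f', ← h5, ← Finset.sum_sub_distrib]
    refine Finset.sum_congr rfl fun y _ => ?_
    unfold exc
    push_cast
    ring
  rw [h3]
  obtain ⟨u, hu, v, hv, rfl⟩ := Submodule.mem_sup.1 hf'
  have h6 : ∀ u ∈ Submodule.span ℚ (Set.range (ind (G := G) T)),
      ∑ l, (u (a l) - u (inv (a l))) = 0 := by
    intro u hu
    induction hu using Submodule.span_induction with
    | mem x hx =>
      obtain ⟨k, rfl⟩ := hx
      have h7 : ∀ l, ind T k (a l) - ind T k (inv (a l)) = ((sgn T (k • a l) : ℤ) : ℚ) := by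
        intro l
        unfold ind sgn
        rw [← hcomm]
        have h8 := mem_Halves.1 hT (k • a l)
        by_cases h9 : k • a l ∈ T
        · rw [if_pos h9, if_pos h9, if_neg (h8.1 h9)]
          norm_num
        · rw [if_neg h9, if_neg h9, if_pos (by
            by_contra h10
            exact h9 (h8.2 h10))]
          norm_num
      rw [Finset.sum_congr rfl fun l _ => h7 l]
      exact_mod_cast hsum k
    | zero => simp
    | add x y _ _ hx hy =>
      simp only [Pi.add_apply]
      have : ∀ l, x (a l) + y (a l) - (x (inv (a l)) + y (inv (a l))) =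
          (x (a l) - x (inv (a l))) + (y (a l) - y (inv (a l))) := fun l => by ring
      rw [Finset.sum_congr rfl fun l _ => this l, Finset.sum_add_distrib, hx, hy, add_zero]
    | smul c x _ hx =>
      simp only [Pi.smul_apply, smul_eq_mul]
      have : ∀ l, c * x (a l) - c * x (inv (a l)) = c * (x (a l) - x (inv (a l))) :=
        fun l => by ring
      rw [Finset.sum_congr rfl fun l _ => this l, ← Finset.mul_sum, hx, mul_zero]
  have h7 : ∀ l, (u + v) (a l) - (u + v) (inv (a l)) = u (a l) - u (inv (a l)) := by
    intro l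
    have h8 : v (inv (a l)) = v (a l) := hv (a l)
    rw [Pi.add_apply, Pi.add_apply, h8]
    ring
  rw [Finset.sum_congr rfl fun l _ => h7 l]
  exact h6 u hu

/-- **Reduced words with vanishing sums have at least `g / D` letters**, if the rank of the half system
is at least `N + 1 - D`. -/
theorem le_length_half {inv : Y → Y} (hinv : ∀ y, inv (inv y) = y)
    (hcomm : ∀ (h : G) (y : Y), inv (h • y) = h • inv y) {g N D : ℕ}
    (hN : Fintype.card Y = 2 * N)
    (horb : ∀ y : Y, 2 * g ≤ (MulAction.orbit G y).ncard) {T : Finset Y} (hT : T ∈ Halves inv)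
    (hD : N + 1 ≤ Module.finrank ℚ (Submodule.span ℚ (Set.range (ind (G := G) T))) + D) {n : ℕ}
    (a : Fin n → Y) (hred : ∀ l l', a l ≠ inv (a l')) (hn : n ≠ 0)
    (hsum : ∀ h : G, ∑ l, sgn T (h • a l) = 0) : g ≤ D * n :=
  le_length (G := G) hinv horb (kerQ G inv T) (fun h f hf => kerQ_inv hcomm h f hf)
    (finrank_kerQ_le hinv hcomm hN hT hD) a hred hn (exc_mem_kerQ hinv hcomm hT a hsum)

end half

end

end Pool.Agent.Q43.RP
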