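import Mathlib
import Pool.Agent.Q43.RP.Def
import Pool.Agent.TH170.TT.Small

/-!
# Families of CM types whose Mumford-Tate group has small codimension
-/

set_option autoImplicit false
set_option linter.unusedSectionVars false

namespace Pool.Agent.Q43.RP

open Finset NumberField Pool.Agent.W548.Sh Pool.Agent.TH170.LV Pool.Agent.TH170.GH
  Pool.Agent.H204R3.CM Pool.Agent.W546.GHC

noncomputable section

variable {ι : Type} {E : ι → Type} [∀ i, Field (E i)]

open Classical in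
/-- The dimension of the Mumford-Tate group of the product of the abelian varieties of CM type
`(E i, Φ i)`: the dimension of the rational span of the conjugates of the type, as functions on the set
of the complex embeddings of the fields. -/
def mtDim (Φ : ∀ i, Set (E i →+* ℂ)) : ℕ :=
  Module.finrank ℚ (Submodule.span ℚ (Set.range (fun (σ : ℂ ≃+* ℂ) (y : Σ i, (E i →+* ℂ)) =>
    if (σ : ℂ →+* ℂ).comp y.2 ∈ Φ y.1 then (1 : ℚ) else 0)))

/-- The automorphisms of `ℂ` act on the embeddings. -/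
def actC (E : ι → Type) [∀ i, Field (E i)] : MulAction (ℂ ≃+* ℂ) (Σ i, (E i →+* ℂ)) where
  smul σ y := ⟨y.1, (σ : ℂ →+* ℂ).comp y.2⟩
  one_smul y := by
    obtain ⟨i, φ⟩ := y
    rfl
  mul_smul σ τ y := by
    obtain ⟨i, φ⟩ := y
    rfl

variable [∀ i, NumberField (E i)] [∀ i, IsCMField (E i)]

/-- **Words of families of types of small defect.** -/
theorem levelFree_of_mtDim [Fintype ι] (Φ : ∀ i, Set (E i →+* ℂ)) (hΦ : ∀ i, IsCMType (Φ i))
    {g N D k : ℕ} (hg : ∀ i, 2 * g ≤ Module.finrank ℚ (E i))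
    (hN : ∑ i, Module.finrank ℚ (E i) = 2 * N) (hD : N + 1 ≤ mtDim Φ + D) (hk : k * D < g) :
    LevelFree Φ k 0 := by
  classical
  let _ : MulAction (ℂ ≃+* ℂ) (Σ i, (E i →+* ℂ)) := actC E
  have hsm : ∀ (σ : ℂ ≃+* ℂ) (y : Σ i, (E i →+* ℂ)), σ • y = ⟨y.1, (σ : ℂ →+* ℂ).comp y.2⟩ :=
    fun _ _ => rfl
  let inv : (Σ i, (E i →+* ℂ)) → Σ i, (E i →+* ℂ) :=
    fun y => ⟨y.1, ComplexEmbedding.conjugate y.2⟩
  have hinv : ∀ y, inv (inv y) = y := by
    rintro ⟨i, φ⟩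
    simp only [inv, conj_conj]
  obtain ⟨L, _, _, jj, hL⟩ := exists_galois E
  have hlift : ∀ (i : ι) (φ : E i →+* ℂ) (σ : ℂ ≃+* ℂ),
      (σ : ℂ →+* ℂ).comp (ComplexEmbedding.conjugate φ) =
        ComplexEmbedding.conjugate ((σ : ℂ →+* ℂ).comp φ) := by
    intro i φ σ
    ext x
    have h1 : ComplexEmbedding.conjugate φ x = φ (IsCMField.complexConj (E i) x) :=
      (IsCMField.complexEmbedding_complexConj (E i) φ x).symm
    have h2 : ComplexEmbedding.conjugate ((σ : ℂ →+* ℂ).comp φ) x =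
        ((σ : ℂ →+* ℂ).comp φ) (IsCMField.complexConj (E i) x) :=
      (IsCMField.complexEmbedding_complexConj (E i) _ x).symm
    rw [h2]
    change σ (ComplexEmbedding.conjugate φ x) = σ (φ _)
    rw [h1]
  have hcomm : ∀ (σ : ℂ ≃+* ℂ) (y : Σ i, (E i →+* ℂ)), inv (σ • y) = σ • inv y := by
    rintro σ ⟨i, φ⟩
    rw [hsm, hsm]
    simp only [inv]
    rw [hlift]
  have hcard : Fintype.card (Σ i, (E i →+* ℂ)) = 2 * N := by
    rw [Fintype.card_sigma, ← hN]
    exact Finset.sum_congr rfl fun i _ => Embeddings.card (E i) ℂ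
  have horb : ∀ y : Σ i, (E i →+* ℂ), 2 * g ≤ (MulAction.orbit (ℂ ≃+* ℂ) y).ncard := by
    rintro ⟨i, φ⟩
    have h1 : Set.range (fun ψ : E i →+* ℂ => (⟨i, ψ⟩ : Σ i, (E i →+* ℂ))) ⊆
        MulAction.orbit (ℂ ≃+* ℂ) (⟨i, φ⟩ : Σ i, (E i →+* ℂ)) := by
      rintro _ ⟨ψ, rfl⟩
      obtain ⟨φ', hφ'⟩ := hL i φ
      obtain ⟨ψ', hψ'⟩ := hL i ψ
      obtain ⟨s, hs⟩ := MulAction.exists_smul_eq (L ≃ₐ[ℚ] L) φ' ψ'
      obtain ⟨σ, hσ⟩ := Pool.Agent.H977R3.CM.exists_aut jj (s : L ≃+* L)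
      refine ⟨σ, ?_⟩
      change (⟨i, (σ : ℂ →+* ℂ).comp φ⟩ : Σ i, (E i →+* ℂ)) = ⟨i, ψ⟩
      congr 1
      rw [← hφ', ← hψ', ← hs]
      ext x
      exact hσ _
    refine le_trans ?_ (Set.ncard_le_ncard h1 (Set.toFinite _))
    rw [Set.ncard_range_of_injective (fun ψ ψ' hh => by simpa using hh), Nat.card_eq_fintype_card,
      Embeddings.card]
    exact hg i
  let T : Finset (Σ i, (E i →+* ℂ)) := univ.filter (fun y => y.2 ∈ Φ y.1)
  have hT : ∀ y, y ∈ T ↔ y.2 ∈ Φ y.1 := fun y => by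
    simp only [T, Finset.mem_filter, Finset.mem_univ, true_and]
  have hTH : T ∈ Halves inv := by
    rw [mem_Halves]
    intro y
    rw [hT, hT]
    exact hΦ y.1 y.2
  have hrank : Set.range (ind (G := (ℂ ≃+* ℂ)) T) =
      Set.range (fun (σ : ℂ ≃+* ℂ) (y : Σ i, (E i →+* ℂ)) =>
        if (σ : ℂ →+* ℂ).comp y.2 ∈ Φ y.1 then (1 : ℚ) else 0) := by
    congr 1
    funext σ y
    unfold ind
    by_cases h : (σ : ℂ →+* ℂ).comp y.2 ∈ Φ y.1
    · rw [if_pos h, if_pos ((hT _).2 h)]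
    · rw [if_neg h, if_neg (fun h' => h ((hT _).1 h'))]
  intro n hn B hB hBn a ha
  by_contra hcon
  push Not at hcon
  have hB0 : B = 0 := by omega
  subst hB0
  have h1 := le_length_half (G := (ℂ ≃+* ℂ)) hinv hcomm hcard horb hTH (D := D) (by
    rw [hrank]
    exact hD) a ha (by omega) (fun σ => by
      have h2 := hcon σ
      have h3 : ∑ l, (if (σ : ℂ →+* ℂ).comp (a l).2 ∈ Φ (a l).1 then (1 : ℤ) else -1) = 0 := by
        have h4 := abs_nonneg
          (∑ l, (if (σ : ℂ →+* ℂ).comp (a l).2 ∈ Φ (a l).1 then (1 : ℤ) else -1))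
        rw [← abs_eq_zero]
        push_cast at h2
        omega
      rw [← h3]
      refine Finset.sum_congr rfl fun l _ => ?_
      unfold sgn
      by_cases h : (σ : ℂ →+* ℂ).comp (a l).2 ∈ Φ (a l).1
      · rw [if_pos h, if_pos ((hT _).2 h)]
      · rw [if_neg h, if_neg (fun h' => h ((hT _).1 h'))])
  have h2 : D * n ≤ D * k := Nat.mul_le_mul_left _ hn
  have h3 : k * D = D * k := mul_comm _ _
  omega

end

end Pool.Agent.Q43.RP
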