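import Mathlib
import Pool.Agent.Q43.RP.Def

/-!
# The case of equality in the uncertainty principle
-/

set_option autoImplicit false
set_option linter.unusedSectionVars false

namespace Pool.Agent.Q43.RP

open Finset Pool.Agent.W548.Sh
open scoped RealInnerProductSpace

noncomputable section

variable {Y : Type*} [Fintype Y] [DecidableEq Y] {G : Type*} [Group G] [MulAction G Y]

theorem rep_smul (K : Submodule ℝ (EuclideanSpace ℝ Y))
    (hK : ∀ h : G, ∀ f ∈ K, trl h f ∈ K) (h : G) (y : Y) :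
    trl h (rep K (h • y)) = rep K y := by
  have h1 : trl h (rep K (h • y)) ∈ K := hK h _ (rep_mem K _)
  have h2 : ∀ f ∈ K, ⟪trl h (rep K (h • y)), f⟫ = f y := by
    intro f hf
    have h3 : ⟪trl h (rep K (h • y)), f⟫ = ⟪rep K (h • y), trl h⁻¹ f⟫ := by
      rw [PiLp.inner_apply, PiLp.inner_apply]
      rw [← Equiv.sum_comp (MulAction.toPerm h)
        (fun z => ⟪rep K (h • y) z, trl h⁻¹ f z⟫)]
      refine Finset.sum_congr rfl fun z _ => ?_
      rw [MulAction.toPerm_apply, trl_apply, trl_apply, inv_smul_smul]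
    rw [h3, inner_rep K _ (hK h⁻¹ f hf), trl_apply, inv_smul_smul]
  have h4 : ⟪trl h (rep K (h • y)) - rep K y, trl h (rep K (h • y)) - rep K y⟫ = 0 := by
    rw [inner_sub_left, h2 _ (Submodule.sub_mem _ h1 (rep_mem K y)),
      inner_rep K y (Submodule.sub_mem _ h1 (rep_mem K y)), sub_self]
  rw [inner_self_eq_zero] at h4
  exact sub_eq_zero.1 h4

/-- The equality case for a transitive action: if an integral function `a` of norm one `2 n`, odd with
respect to `inv`, belongs to an invariant space of dimension at most `D`, where `n D = g`, then its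
support is the union of two blocks. -/
theorem eq_case {inv : Y → Y} (hcomm : ∀ (h : G) (y : Y), inv (h • y) = h • inv y)
    (K : Submodule ℝ (EuclideanSpace ℝ Y))
    (hK : ∀ h : G, ∀ f ∈ K, trl h f ∈ K) {g D n : ℕ} (hn : n * D = g) (hg : 0 < g)
    (htrans : MulAction.IsPretransitive G Y)
    (horb : ∀ y : Y, 2 * g ≤ (MulAction.orbit G y).ncard) (hD : Module.finrank ℝ K ≤ D)
    (a : Y → ℤ) (ha : a ≠ 0) (hodd : ∀ y, a (inv y) = - a y)
    (haK : (WithLp.toLp 2 (fun y => (a y : ℝ)) : EuclideanSpace ℝ Y) ∈ K)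
    (hsum : ∑ y, |(a y : ℝ)| ≤ 2 * n) :
    ∃ r : Y → Y → Prop, Equivalence r ∧ (∀ (h : G) (y z : Y), r y z → r (h • y) (h • z)) ∧
      (∀ y, ¬ r y (inv y)) ∧ (∀ y, a y = 0 ∨ a y = 1 ∨ a y = -1) ∧
      ∑ y, (a y : ℝ) ^ 2 = 2 * n ∧ ∀ y, ∃ h : G, ∀ z, r y z ↔ a (h • z) = 1 := by
  have hn0 : 0 < n := Nat.pos_of_ne_zero (by
    rintro rfl
    omega)
  have hD0 : 0 < D := Nat.pos_of_ne_zero (by
    rintro rfl
    omega)
  have hnr : (0 : ℝ) < n := by exact_mod_cast hn0
  have hDr : (0 : ℝ) < D := by exact_mod_cast hD0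
  have hgr : (g : ℝ) = n * D := by
    rw [← hn]
    push_cast
    rfl
  set f : EuclideanSpace ℝ Y := WithLp.toLp 2 (fun y => (a y : ℝ)) with hf
  have hfa : ∀ y, f y = (a y : ℝ) := fun y => rfl
  have hDK : (Module.finrank ℝ K : ℝ) ≤ D := by exact_mod_cast hD
  -- the evaluations
  have hrep : ∀ y, ‖rep K y‖ ^ 2 ≤ 1 / (2 * n) := by
    intro y
    have h1 := norm_rep_sq_le K hK horb y
    rw [le_div_iff₀ (by positivity)]
    have h2 : 2 * (g : ℝ) * ‖rep K y‖ ^ 2 ≤ D := h1.trans hDK
    rw [hgr] at h2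
    have h3 : D * (‖rep K y‖ ^ 2 * (2 * n)) ≤ D * 1 := by linarith
    exact le_of_mul_le_mul_left h3 hDr
  have hsq : ‖f‖ ^ 2 = ∑ y, (a y : ℝ) ^ 2 := by
    rw [EuclideanSpace.norm_sq_eq]
    exact Finset.sum_congr rfl fun y _ => by rw [Real.norm_eq_abs, sq_abs]
  have hle : ∀ y, (a y : ℝ) ^ 2 ≤ 1 / (2 * n) * ‖f‖ ^ 2 := by
    intro y
    have h2 : |f y| ≤ ‖rep K y‖ * ‖f‖ := by
      rw [← inner_rep K y haK]
      exact abs_real_inner_le_norm _ _
    calc (a y : ℝ) ^ 2 = |f y| ^ 2 := by rw [sq_abs]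
      _ ≤ (‖rep K y‖ * ‖f‖) ^ 2 := pow_le_pow_left₀ (abs_nonneg _) h2 2
      _ = ‖rep K y‖ ^ 2 * ‖f‖ ^ 2 := by ring
      _ ≤ _ := mul_le_mul_of_nonneg_right (hrep y) (by positivity)
  obtain ⟨y₁, hy₁⟩ : ∃ y, a y ≠ 0 := by
    by_contra hcon
    push Not at hcon
    exact ha (funext hcon)
  -- all values are at most one
  obtain ⟨y₀, -, hy₀⟩ := Finset.exists_max_image (Finset.univ : Finset Y) (fun y => |a y|)
    ⟨y₁, Finset.mem_univ _⟩
  have hy₀' : ∀ y, |(a y : ℝ)| ≤ |(a y₀ : ℝ)| := fun y => by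
    have := hy₀ y (Finset.mem_univ _)
    exact_mod_cast this
  have hA1 : (1 : ℝ) ≤ |(a y₀ : ℝ)| := by
    refine le_trans ?_ (hy₀' y₁)
    have : 1 ≤ |a y₁| := Int.one_le_abs hy₁
    exact_mod_cast this
  have hnorm : ‖f‖ ^ 2 ≤ |(a y₀ : ℝ)| * (2 * n) := by
    rw [hsq]
    calc ∑ y, (a y : ℝ) ^ 2 ≤ ∑ y, |(a y₀ : ℝ)| * |(a y : ℝ)| := by
          refine Finset.sum_le_sum fun y _ => ?_
          rw [← sq_abs, sq]
          exact mul_le_mul_of_nonneg_right (hy₀' y) (abs_nonneg _)
      _ = |(a y₀ : ℝ)| * ∑ y, |(a y : ℝ)| := by rw [Finset.mul_sum]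
      _ ≤ _ := mul_le_mul_of_nonneg_left hsum (abs_nonneg _)
  have hA2 : |(a y₀ : ℝ)| ≤ 1 := by
    have h1 := hle y₀
    rw [← sq_abs] at h1
    have h2 : 1 / (2 * (n : ℝ)) * ‖f‖ ^ 2 ≤ |(a y₀ : ℝ)| := by
      calc 1 / (2 * (n : ℝ)) * ‖f‖ ^ 2 ≤ 1 / (2 * n) * (|(a y₀ : ℝ)| * (2 * n)) :=
            mul_le_mul_of_nonneg_left hnorm (by positivity)
        _ = |(a y₀ : ℝ)| := by field_simp
    have h3 : |(a y₀ : ℝ)| * |(a y₀ : ℝ)| ≤ |(a y₀ : ℝ)| * 1 := by
      rw [← sq, mul_one]
      exact h1.trans h2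
    exact le_of_mul_le_mul_left h3 (by linarith)
  have hval : ∀ y, a y = 0 ∨ a y = 1 ∨ a y = -1 := by
    intro y
    have h1 : |(a y : ℝ)| ≤ 1 := (hy₀' y).trans hA2
    have h2 : |a y| ≤ 1 := by exact_mod_cast h1
    rw [abs_le] at h2
    omega
  have hnorm2 : ‖f‖ ^ 2 ≤ 2 * n := by
    refine hnorm.trans ?_
    calc |(a y₀ : ℝ)| * (2 * n) ≤ 1 * (2 * n) := mul_le_mul_of_nonneg_right hA2 (by positivity)
      _ = 2 * n := one_mul _
  have hnorm3 : 2 * (n : ℝ) ≤ ‖f‖ ^ 2 := by
    have h1 := hle y₀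
    rw [← sq_abs] at h1
    have h2 : (1 : ℝ) ≤ 1 / (2 * n) * ‖f‖ ^ 2 := by
      refine le_trans ?_ h1
      exact one_le_pow₀ hA1
    rw [one_div, le_inv_mul_iff₀ (by positivity), mul_one] at h2
    exact h2
  have hnf : ‖f‖ ^ 2 = 2 * n := le_antisymm hnorm2 hnorm3
  -- the representers on the support
  have hrepa : ∀ y, a y ≠ 0 → rep K y = ((a y : ℝ) / (2 * n)) • f := by
    intro y hy
    have h1 : (a y : ℝ) ^ 2 = 1 := by
      rcases hval y with h | h | h
      · exact absurd h hy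
      · rw [h]
        norm_num
      · rw [h]
        norm_num
    have h2 : ‖rep K y - ((a y : ℝ) / (2 * n)) • f‖ ^ 2 ≤ 0 := by
      rw [norm_sub_sq_real, inner_smul_right, inner_rep K y haK, norm_smul, mul_pow, hnf,
        Real.norm_eq_abs, sq_abs, hfa]
      have h3 : ((a y : ℝ) / (2 * n)) ^ 2 * (2 * n) = 1 / (2 * n) := by
        rw [div_pow, h1]
        field_simp
      have h4 : (a y : ℝ) / (2 * n) * (a y : ℝ) = 1 / (2 * n) := by
        rw [div_mul_eq_mul_div, ← sq, h1]
      rw [h3, h4]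
      have h5 := hrep y
      linarith
    have h3 : ‖rep K y - ((a y : ℝ) / (2 * n)) • f‖ = 0 := by
      have h4 := norm_nonneg (rep K y - ((a y : ℝ) / (2 * n)) • f)
      nlinarith
    exact sub_eq_zero.1 (norm_eq_zero.1 h3)
  -- a point with the value one
  obtain ⟨y₂, hy₂⟩ : ∃ y, a y = 1 := by
    rcases hval y₁ with h | h | h
    · exact absurd h hy₁
    · exact ⟨y₁, h⟩
    · refine ⟨inv y₁, ?_⟩
      rw [hodd, h]
      rfl
  have hrep2 : ∀ z, rep K z = rep K y₂ ↔ a z = 1 := by
    intro z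
    constructor
    · intro h
      have h1 : (0 : ℝ) < f z := by
        have h2 : rep K z z = ‖rep K z‖ ^ 2 := by
          rw [← inner_rep K z (rep_mem K z), real_inner_self_eq_norm_sq]
        have h3 : rep K y₂ = ((1 : ℝ) / (2 * n)) • f := by
          have h4 := hrepa y₂ (by rw [hy₂]; norm_num)
          rw [hy₂, Int.cast_one] at h4
          exact h4
        have h5 : ‖rep K y₂‖ ^ 2 = 1 / (2 * n) := by
          rw [h3, norm_smul, mul_pow, hnf, Real.norm_of_nonneg (by positivity)]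
          field_simp
        rw [h, h5] at h2
        rw [h3] at h2
        have h6 : ((1 : ℝ) / (2 * n)) * f z = 1 / (2 * n) := h2
        have h7 : (0 : ℝ) < 1 / (2 * n) := by positivity
        by_contra hcon
        push Not at hcon
        have h8 : ((1 : ℝ) / (2 * n)) * f z ≤ 0 := mul_nonpos_of_nonneg_of_nonpos h7.le hcon
        linarith
      rw [hfa] at h1
      rcases hval z with h2 | h2 | h2
      · rw [h2] at h1
        norm_num at h1
      · exact h2
      · rw [h2] at h1
        norm_num at h1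
    · intro h
      rw [hrepa z (by rw [h]; norm_num), hrepa y₂ (by rw [hy₂]; norm_num), h, hy₂]
  refine ⟨fun y z => rep K y = rep K z, ⟨fun _ => rfl, fun h => h.symm, fun h h' => h.trans h'⟩,
    ?_, ?_, hval, ?_, ?_⟩
  · intro h y z hyz
    have h1 := rep_smul K hK h⁻¹ (h • y)
    have h2 := rep_smul K hK h⁻¹ (h • z)
    rw [inv_smul_smul] at h1 h2
    rw [← h1, ← h2, hyz]
  · intro y hy
    obtain ⟨h, hh⟩ := htrans.exists_smul_eq y y₂
    have h1 : ∀ u, rep K (h • u) = trl h⁻¹ (rep K u) := by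
      intro u
      have h2 := rep_smul K hK h⁻¹ (h • u)
      rw [inv_smul_smul] at h2
      exact h2.symm
    have h2 : rep K (inv y₂) = rep K y₂ := by
      rw [← hh, hcomm, h1, h1, ← hy]
    have h3 := (hrep2 _).1 h2
    rw [hodd, hy₂] at h3
    norm_num at h3
  · rw [← hsq, hnf]
  · intro y
    obtain ⟨h, hh⟩ := htrans.exists_smul_eq y y₂
    refine ⟨h, fun z => ?_⟩
    rw [← hrep2]
    have h1 : ∀ u, rep K (h • u) = trl h⁻¹ (rep K u) := by
      intro u
      have h2 := rep_smul K hK h⁻¹ (h • u)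
      rw [inv_smul_smul] at h2
      exact h2.symm
    rw [← hh, h1, h1]
    constructor
    · intro h2
      rw [h2]
    · intro h2
      have h3 := congrArg (trl h) h2
      have h4 : ∀ u : EuclideanSpace ℝ Y, trl h (trl h⁻¹ u) = u := by
        intro u
        ext w
        rw [trl_apply, trl_apply, inv_smul_smul]
      rw [h4, h4] at h3
      exact h3.symm

/-- **Blocks from a word of minimal length.** -/
theorem blocks {inv : Y → Y} (hinv : ∀ y, inv (inv y) = y)
    (hcomm : ∀ (h : G) (y : Y), inv (h • y) = h • inv y)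
    (htrans : MulAction.IsPretransitive G Y) {g D n : ℕ} (hg : 0 < g)
    (hcard : Fintype.card Y = 2 * g) {T : Finset Y} (hT : T ∈ Halves inv)
    (hD : g + 1 ≤ Module.finrank ℚ (Submodule.span ℚ (Set.range (ind (G := G) T))) + D)
    (hn : n * D = g) (a : Fin n → Y) (hred : ∀ l l', a l ≠ inv (a l'))
    (hsum : ∀ h : G, ∑ l, sgn T (h • a l) = 0) :
    ∃ r : Y → Y → Prop, Equivalence r ∧ (∀ (h : G) (y z : Y), r y z → r (h • y) (h • z)) ∧
      (∀ y, ¬ r y (inv y)) ∧ (∀ y, {z | r y z}.ncard = n) ∧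
      ∀ y, 2 * {z | r y z ∧ z ∈ T}.ncard = n := by
  classical
  have hn0 : n ≠ 0 := by
    rintro rfl
    omega
  have horb : ∀ y : Y, 2 * g ≤ (MulAction.orbit G y).ncard := by
    intro y
    rw [MulAction.orbit_eq_univ, Set.ncard_univ, Nat.card_eq_fintype_card, hcard]
  obtain ⟨K, hKinv, hKD, hKmem⟩ := exists_real (G := G) (kerQ G inv T)
    (fun h f hf => kerQ_inv hcomm h f hf)
  have hodd : ∀ y, exc inv a (inv y) = - exc inv a y := by
    intro y
    unfold exc
    rw [hinv]
    ring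
  have hmem : (WithLp.toLp 2 (fun y => ((exc inv a y : ℤ) : ℝ)) : EuclideanSpace ℝ Y) ∈ K := by
    have h0 := hKmem _ (exc_mem_kerQ (G := G) hinv hcomm hT a hsum)
    have h2 : (fun y => (((exc inv a y : ℤ) : ℚ) : ℝ)) = fun y => ((exc inv a y : ℤ) : ℝ) := by
      funext y
      push_cast
      rfl
    rw [h2] at h0
    exact h0
  obtain ⟨r, hr1, hr2, hr3, hval, hsq, hr4⟩ := eq_case (G := G) hcomm K hKinv hn hg htrans horb
    (hKD.trans (finrank_kerQ_le hinv hcomm hcard hT hD)) (exc inv a) (exc_ne_zero a hred hn0)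
    hodd hmem (sum_abs_exc hinv a)
  -- the number of the points with the value one
  set P : Finset Y := univ.filter (fun z => exc inv a z = 1) with hP
  set M : Finset Y := univ.filter (fun z => exc inv a z = -1) with hM
  have hPM : M = P.image inv := by
    ext z
    rw [Finset.mem_image, hM, Finset.mem_filter]
    constructor
    · rintro ⟨-, h⟩
      refine ⟨inv z, ?_, hinv z⟩
      rw [hP, Finset.mem_filter, hodd, h]
      exact ⟨Finset.mem_univ _, rfl⟩
    · rintro ⟨w, hw, rfl⟩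
      rw [hP, Finset.mem_filter] at hw
      rw [hodd, hw.2]
      exact ⟨Finset.mem_univ _, rfl⟩
  have hinj : Function.Injective inv := fun x y h => by rw [← hinv x, h, hinv]
  have hMcard : M.card = P.card := by rw [hPM, Finset.card_image_of_injective _ hinj]
  have hsplit : ∀ u : Y → ℝ, ∑ y, (exc inv a y : ℝ) * u y = ∑ y ∈ P, u y - ∑ y ∈ M, u y := by
    intro u
    have h1 : ∀ y, (exc inv a y : ℝ) * u y =
        (if exc inv a y = 1 then u y else 0) - (if exc inv a y = -1 then u y else 0) := by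
      intro y
      rcases hval y with h | h | h
      · rw [h]
        norm_num
      · rw [h]
        norm_num
      · rw [h]
        norm_num
    rw [Finset.sum_congr rfl fun y _ => h1 y, Finset.sum_sub_distrib, ← Finset.sum_filter,
      ← Finset.sum_filter]
  have hPcard : P.card = n := by
    have h1 := hsplit (fun y => (exc inv a y : ℝ))
    have h2 : ∑ y, (exc inv a y : ℝ) * (exc inv a y : ℝ) = 2 * n := by
      rw [← hsq]
      exact Finset.sum_congr rfl fun y _ => (sq _).symm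
    have h3 : ∑ y ∈ P, (exc inv a y : ℝ) = P.card := by
      rw [Finset.sum_congr rfl (g := fun _ => (1 : ℝ)) (fun y hy => by
        rw [(Finset.mem_filter.1 hy).2, Int.cast_one]), Finset.sum_const, nsmul_eq_mul, mul_one]
    have h4 : ∑ y ∈ M, (exc inv a y : ℝ) = -(M.card : ℝ) := by
      rw [Finset.sum_congr rfl (g := fun _ => (-1 : ℝ)) (fun y hy => by
        rw [(Finset.mem_filter.1 hy).2, Int.cast_neg, Int.cast_one]), Finset.sum_const,
        nsmul_eq_mul, mul_neg, mul_one]
    rw [h2, h3, h4, hMcard] at h1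
    have h5 : (2 * n : ℝ) = 2 * P.card := by linarith
    have h6 : (n : ℝ) = P.card := by linarith
    exact_mod_cast h6.symm
  -- the sums over the points with the value one
  have hzero : ∀ h : G, ∑ y ∈ P, sgn T (h • y) = 0 := by
    intro h
    have h1 := hsplit (fun y => (sgn T (h • y) : ℝ))
    have h2 : ∑ y ∈ M, (sgn T (h • y) : ℝ) = - ∑ y ∈ P, (sgn T (h • y) : ℝ) := by
      rw [hPM, Finset.sum_image (fun x _ y _ hxy => hinj hxy), ← Finset.sum_neg_distrib]
      refine Finset.sum_congr rfl fun y _ => ?_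
      rw [← hcomm]
      have h8 := mem_Halves.1 hT (h • y)
      unfold sgn
      by_cases h9 : h • y ∈ T
      · rw [if_pos h9, if_neg (h8.1 h9)]
        norm_num
      · rw [if_neg h9, if_pos (by
          by_contra h10
          exact h9 (h8.2 h10))]
        norm_num
    have h3 : ∑ y, (exc inv a y : ℝ) * (sgn T (h • y) : ℝ) = 2 * ∑ l, (sgn T (h • a l) : ℝ) := by
      have h4 : ∀ u : Y → ℝ, ∑ y, ((univ.filter (fun l => a l = y)).card : ℝ) * u y =
          ∑ l, u (a l) := by
        intro u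
        rw [← Finset.sum_fiberwise (s := (univ : Finset (Fin n))) (g := a)]
        refine Finset.sum_congr rfl fun y _ => ?_
        rw [Finset.sum_congr rfl (g := fun _ => u y) (fun l hl => by
          rw [(Finset.mem_filter.1 hl).2]), Finset.sum_const, nsmul_eq_mul]
      have h5 : ∑ y, ((univ.filter (fun l => a l = inv y)).card : ℝ) * (sgn T (h • y) : ℝ) =
          - ∑ l, (sgn T (h • a l) : ℝ) := by
        rw [← h4 (fun y => (sgn T (h • y) : ℝ)), ← Finset.sum_neg_distrib]
        rw [← Equiv.sum_comp (Function.Involutive.toPerm inv hinv)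
          (fun y => -(((univ.filter (fun l => a l = y)).card : ℝ) * (sgn T (h • y) : ℝ)))]
        refine Finset.sum_congr rfl fun y _ => ?_
        rw [Function.Involutive.coe_toPerm, ← hcomm]
        have h8 := mem_Halves.1 hT (h • y)
        unfold sgn
        by_cases h9 : h • y ∈ T
        · rw [if_pos h9, if_neg (h8.1 h9)]
          push_cast
          ring
        · rw [if_neg h9, if_pos (by
            by_contra h10
            exact h9 (h8.2 h10))]
          push_cast
          ring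
      have h6 : ∀ y, (exc inv a y : ℝ) * (sgn T (h • y) : ℝ) =
          ((univ.filter (fun l => a l = y)).card : ℝ) * (sgn T (h • y) : ℝ) -
          ((univ.filter (fun l => a l = inv y)).card : ℝ) * (sgn T (h • y) : ℝ) := by
        intro y
        unfold exc
        push_cast
        ring
      rw [Finset.sum_congr rfl fun y _ => h6 y, Finset.sum_sub_distrib,
        h4 (fun y => (sgn T (h • y) : ℝ)), h5]
      ring
    have h4 : ∑ l, (sgn T (h • a l) : ℝ) = 0 := by exact_mod_cast hsum h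
    rw [h3, h4, h2] at h1
    have h5 : ∑ y ∈ P, (sgn T (h • y) : ℝ) = 0 := by linarith
    exact_mod_cast h5
  refine ⟨r, hr1, hr2, hr3, fun y => ?_, fun y => ?_⟩
  · obtain ⟨h, hh⟩ := hr4 y
    have h1 : {z | r y z} = ((P.image (fun z => h⁻¹ • z) : Finset Y) : Set Y) := by
      ext z
      rw [Set.mem_setOf_eq, hh, Finset.mem_coe, Finset.mem_image]
      constructor
      · intro h2
        exact ⟨h • z, by rw [hP, Finset.mem_filter]; exact ⟨Finset.mem_univ _, h2⟩,
          inv_smul_smul _ _⟩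
      · rintro ⟨w, hw, rfl⟩
        rw [smul_inv_smul]
        exact (Finset.mem_filter.1 hw).2
    rw [h1, Set.ncard_coe_finset, Finset.card_image_of_injective _
      (fun x y hxy => smul_left_cancel _ hxy), hPcard]
  · obtain ⟨h, hh⟩ := hr4 y
    have h1 : {z | r y z ∧ z ∈ T} =
        (((P.filter (fun w => h⁻¹ • w ∈ T)).image (fun z => h⁻¹ • z) : Finset Y) : Set Y) := by
      ext z
      rw [Set.mem_setOf_eq, hh, Finset.mem_coe, Finset.mem_image]
      constructor
      · rintro ⟨h2, h3⟩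
        refine ⟨h • z, ?_, inv_smul_smul _ _⟩
        rw [Finset.mem_filter, inv_smul_smul, hP, Finset.mem_filter]
        exact ⟨⟨Finset.mem_univ _, h2⟩, h3⟩
      · rintro ⟨w, hw, rfl⟩
        rw [Finset.mem_filter, hP, Finset.mem_filter] at hw
        rw [smul_inv_smul]
        exact ⟨hw.1.2, hw.2⟩
    rw [h1, Set.ncard_coe_finset, Finset.card_image_of_injective _
      (fun x y hxy => smul_left_cancel _ hxy)]
    have h2 := hzero h⁻¹
    have h3 : ∑ y ∈ P, sgn T (h⁻¹ • y) =
        2 * ((P.filter (fun w => h⁻¹ • w ∈ T)).card : ℤ) - P.card := by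
      have h4 : ∀ y, sgn T (h⁻¹ • y) = 2 * (if h⁻¹ • y ∈ T then 1 else 0) - 1 := by
        intro y
        unfold sgn
        split_ifs <;> norm_num
      rw [Finset.sum_congr rfl fun y _ => h4 y, Finset.sum_sub_distrib, ← Finset.mul_sum,
        Finset.sum_boole]
      simp
    rw [h3, hPcard] at h2
    omega

end

end Pool.Agent.Q43.RP
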