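import Mathlib
import Pool.Agent.Q43.RP.Eqc
import Pool.Agent.Q43.RP.Dh
import Pool.Agent.W548.Tt.Finite

/-!
# Relations between the Frobenius eigenvalues of abelian varieties over finite fields
-/

set_option autoImplicit false
set_option linter.unusedSectionVars false

namespace Pool.Agent.Q43.RP

open Finset NumberField Module Pool.Agent.H925R2 Pool.Agent.H485R3 Pool.Agent.H204R3.CM
  Pool.Agent.H868R3.TwoOdd Pool.Agent.W548.Tt

noncomputable section

section real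

variable {Y : Type*} [Fintype Y] [DecidableEq Y] {G : Type*} [Group G] [MulAction G Y]

/-- The real span of an invariant lattice of functions. -/
theorem exists_realZ (R : Submodule ℤ (Y → ℤ))
    (hR : ∀ h : G, ∀ f ∈ R, (fun y => f (h • y)) ∈ R) :
    ∃ K : Submodule ℝ (EuclideanSpace ℝ Y), (∀ h : G, ∀ f ∈ K, trl h f ∈ K) ∧
      Module.finrank ℝ K ≤ Module.finrank ℤ R ∧
      ∀ f ∈ R, (WithLp.toLp 2 (fun y => (f y : ℝ)) : EuclideanSpace ℝ Y) ∈ K := by
  classical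
  let cast : (Y → ℤ) →ₗ[ℤ] EuclideanSpace ℝ Y :=
    { toFun := fun f => WithLp.toLp 2 (fun y => (f y : ℝ))
      map_add' := fun f f' => by
        ext y
        simp
      map_smul' := fun c f => by
        ext y
        simp }
  refine ⟨Submodule.span ℝ (cast '' (R : Set (Y → ℤ))), ?_, ?_,
    fun f hf => Submodule.subset_span ⟨f, hf, rfl⟩⟩
  · intro h f hf
    induction hf using Submodule.span_induction with
    | mem x hx =>
      obtain ⟨f, hf, rfl⟩ := hx
      exact Submodule.subset_span ⟨_, hR h f hf, rfl⟩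
    | zero =>
      have h1 : trl h (0 : EuclideanSpace ℝ Y) = 0 := by
        ext y
        rfl
      rw [h1]
      exact Submodule.zero_mem _
    | add x y _ _ hx hy =>
      have h1 : trl h (x + y) = trl h x + trl h y := by
        ext z
        rfl
      rw [h1]
      exact Submodule.add_mem _ hx hy
    | smul c x _ hx =>
      have h1 : trl h (c • x) = c • trl h x := by
        ext z
        rfl
      rw [h1]
      exact Submodule.smul_mem _ _ hx
  · let b := Module.finBasis ℤ R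
    have h1 : Submodule.span ℝ (cast '' (R : Set (Y → ℤ))) ≤
        Submodule.span ℝ (Set.range fun i => cast (b i : Y → ℤ)) := by
      refine Submodule.span_le.2 ?_
      rintro _ ⟨f, hf, rfl⟩
      have h2 := b.sum_repr ⟨f, hf⟩
      have h3 : f = ∑ i, b.repr ⟨f, hf⟩ i • (b i : Y → ℤ) := by
        have h4 := congrArg (Subtype.val) h2
        rw [Submodule.coe_sum] at h4
        exact h4.symm
      have h5 : cast f = ∑ i, ((b.repr ⟨f, hf⟩ i : ℤ) : ℝ) • cast (b i : Y → ℤ) := by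
        conv_lhs => rw [h3]
        rw [map_sum]
        refine Finset.sum_congr rfl fun i _ => ?_
        rw [map_smul]
        ext y
        simp
      rw [SetLike.mem_coe, h5]
      exact Submodule.sum_mem _ fun i _ =>
        Submodule.smul_mem _ _ (Submodule.subset_span ⟨i, rfl⟩)
    calc Module.finrank ℝ (Submodule.span ℝ (cast '' (R : Set (Y → ℤ)))) ≤
          Module.finrank ℝ (Submodule.span ℝ (Set.range fun i => cast (b i : Y → ℤ))) :=
          Submodule.finrank_mono h1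
      _ ≤ Fintype.card (Fin (Module.finrank ℤ R)) := finrank_range_le_card _
      _ = Module.finrank ℤ R := Fintype.card_fin _

/-- A word whose exponents belong to an invariant lattice of rank at most `D` and do not vanish has at
least `g / D` letters. -/
theorem le_lengthZ {inv : Y → Y} (hinv : ∀ y, inv (inv y) = y) {g D : ℕ}
    (horb : ∀ y : Y, 2 * g ≤ (MulAction.orbit G y).ncard) (R : Submodule ℤ (Y → ℤ))
    (hR : ∀ h : G, ∀ f ∈ R, (fun y => f (h • y)) ∈ R) (hD : Module.finrank ℤ R ≤ D) {n : ℕ}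
    (a : Fin n → Y) (hne : exc inv a ≠ 0) (ha : exc inv a ∈ R) : g ≤ D * n := by
  obtain ⟨K, hKinv, hKD, hKmem⟩ := exists_realZ (G := G) R hR
  have h1 := uncertainty K hKinv horb (exc inv a) hne (hKmem _ ha)
  have h2 := sum_abs_exc hinv a
  have h3 : (Module.finrank ℝ K : ℝ) ≤ D := by exact_mod_cast hKD.trans hD
  have h4 : (2 * g : ℝ) ≤ D * (2 * n) := by
    refine h1.trans (mul_le_mul h3 h2 (Finset.sum_nonneg fun _ _ => abs_nonneg _)
      (Nat.cast_nonneg _))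
  have h5 : (g : ℝ) ≤ D * n := by linarith
  exact_mod_cast h5

end real

section rel

variable {I : Type} [Fintype I] (K : I → Type) [∀ i, Field (K i)] [∀ i, NumberField (K i)]

/-- the relations between the Frobenius eigenvalues modulo the trivial ones: functions `a` on the set
of the complex embeddings that change the sign under complex conjugation, such that the product of the
`y (π) ^ a (y)` is a root of unity -/
def relSet (π : ∀ i, K i) : Set ((Σ i, (K i →+* ℂ)) → ℤ) :=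
  {a | (∀ y, a ⟨y.1, ComplexEmbedding.conjugate y.2⟩ = - a y) ∧
    ∃ s : ℕ, 0 < s ∧ (∏ y, y.2 (π y.1) ^ a y) ^ s = 1}

/-- the lattice of the relations -/
def relLat (π : ∀ i, K i) : Submodule ℤ ((Σ i, (K i →+* ℂ)) → ℤ) :=
  Submodule.span ℤ (relSet K π)

variable [∀ i, IsCMField (K i)]

theorem conj_comp {K : Type} [Field K] [NumberField K] [IsCMField K] (φ : K →+* ℂ)
    (σ : ℂ ≃+* ℂ) :
    ComplexEmbedding.conjugate ((σ : ℂ →+* ℂ).comp φ) =
      (σ : ℂ →+* ℂ).comp (ComplexEmbedding.conjugate φ) := by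
  have hcj : ∀ (φ : K →+* ℂ) (x : K), ComplexEmbedding.conjugate φ x =
      φ (IsCMField.complexConj K x) := fun φ x =>
    (IsCMField.complexEmbedding_complexConj K φ x).symm
  ext x
  rw [hcj]
  change σ (φ _) = σ (ComplexEmbedding.conjugate φ x)
  rw [hcj]

theorem relSet_inv (π : ∀ i, K i) (σ : ℂ ≃+* ℂ) (x : (Σ i, (K i →+* ℂ)) → ℤ)
    (hx : x ∈ relSet K π) :
    (fun y : Σ i, (K i →+* ℂ) => x ⟨y.1, (σ : ℂ →+* ℂ).comp y.2⟩) ∈ relSet K π := by
  classical
  obtain ⟨h1, s, hs, h2⟩ := hx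
  refine ⟨fun y => ?_, s, hs, ?_⟩
  · beta_reduce
    rw [← h1]
    rw [conj_comp]
  · let e : (Σ i, (K i →+* ℂ)) ≃ Σ i, (K i →+* ℂ) :=
      { toFun := fun y => ⟨y.1, (σ : ℂ →+* ℂ).comp y.2⟩
        invFun := fun y => ⟨y.1, ((σ.symm : ℂ ≃+* ℂ) : ℂ →+* ℂ).comp y.2⟩
        left_inv := fun y => by
          obtain ⟨i, φ⟩ := y
          simp only [Sigma.mk.injEq, heq_eq_eq, true_and]
          ext x
          exact σ.symm_apply_apply _
        right_inv := fun y => by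
          obtain ⟨i, φ⟩ := y
          simp only [Sigma.mk.injEq, heq_eq_eq, true_and]
          ext x
          exact σ.apply_symm_apply _ }
    have h3 : (∏ y : Σ i, (K i →+* ℂ), y.2 (π y.1) ^ x ⟨y.1, (σ : ℂ →+* ℂ).comp y.2⟩) =
        σ.symm (∏ y : Σ i, (K i →+* ℂ), y.2 (π y.1) ^ x y) := by
      rw [map_prod]
      rw [← Equiv.prod_comp e (fun y => σ.symm (y.2 (π y.1) ^ x y))]
      refine Finset.prod_congr rfl fun y _ => ?_
      rw [map_zpow₀]
      congr 1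
      exact (σ.symm_apply_apply _).symm
    rw [h3, ← map_pow, h2, map_one]

theorem relLat_inv (π : ∀ i, K i) (σ : ℂ ≃+* ℂ) (f : (Σ i, (K i →+* ℂ)) → ℤ)
    (hf : f ∈ relLat K π) :
    (fun y : Σ i, (K i →+* ℂ) => f ⟨y.1, (σ : ℂ →+* ℂ).comp y.2⟩) ∈ relLat K π := by
  classical
  induction hf using Submodule.span_induction with
  | mem x hx => exact Submodule.subset_span (relSet_inv K π σ x hx)
  | zero => exact Submodule.zero_mem _
  | add x y _ _ hx hy => exact Submodule.add_mem _ hx hy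
  | smul c x _ hx => exact Submodule.smul_mem _ _ hx

/-- the complex conjugation of the embeddings -/
def invC (K : I → Type) [∀ i, Field (K i)] (y : Σ i, (K i →+* ℂ)) : Σ i, (K i →+* ℂ) :=
  ⟨y.1, ComplexEmbedding.conjugate y.2⟩

theorem invC_invC (y : Σ i, (K i →+* ℂ)) : invC K (invC K y) = y := by
  obtain ⟨i, φ⟩ := y
  exact congrArg (Sigma.mk i) (Pool.Agent.TH170.GH.conj_conj φ)

theorem weil_mul {K : Type} [Field K] [NumberField K] [IsCMField K] {q : ℚ} {π : K}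
    (φ : K →+* ℂ) (h : ‖φ π‖ ^ 2 = (q : ℝ)) :
    φ π * ComplexEmbedding.conjugate φ π = (q : ℂ) := by
  rw [ComplexEmbedding.conjugate_coe_eq, Complex.mul_conj, Complex.normSq_eq_norm_sq, h]
  push_cast
  rfl

/-- the exponents of a word with a relation -/
theorem exc_mem_relSet [DecidableEq (Σ i, (K i →+* ℂ))] (q : I → ℚ) (hq : ∀ i, 0 < q i) (π : ∀ i, K i)
    (hweil : ∀ i, ∀ φ : K i →+* ℂ, ‖φ (π i)‖ ^ 2 = (q i : ℝ)) {n : ℕ}
    (a : Fin n → Σ i, (K i →+* ℂ)) (s : ℕ) (hs : 0 < s)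
    (h : (∏ l, (a l).2 (π (a l).1)) ^ (2 * s) = (∏ l, (q (a l).1 : ℂ)) ^ s) :
    exc (invC K) a ∈ relSet K π := by
  classical
  have hne : ∀ y : Σ i, (K i →+* ℂ), y.2 (π y.1) ≠ 0 := by
    intro y h0
    have h1 := weil_mul y.2 (hweil y.1 y.2)
    rw [h0, zero_mul] at h1
    exact (hq y.1).ne' (by exact_mod_cast h1.symm)
  refine ⟨fun y => ?_, s, hs, ?_⟩
  · change exc (invC K) a (invC K y) = - exc (invC K) a y
    unfold exc
    rw [invC_invC]
    ring
  · have h1 : ∀ u : (Σ i, (K i →+* ℂ)) → ℂ,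
        ∏ y, u y ^ (univ.filter (fun l => a l = y)).card = ∏ l, u (a l) := by
      intro u
      rw [← Finset.prod_fiberwise (s := (univ : Finset (Fin n))) (g := a)]
      refine Finset.prod_congr rfl fun y _ => ?_
      rw [Finset.prod_congr rfl (g := fun _ => u y) (fun l hl => by
        rw [(Finset.mem_filter.1 hl).2]), Finset.prod_const]
    have h2 : ∏ y : Σ i, (K i →+* ℂ), y.2 (π y.1) ^ (univ.filter (fun l => a l = invC K y)).card =
        ∏ l, (invC K (a l)).2 (π (a l).1) := by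
      rw [← h1 (fun y => (invC K y).2 (π y.1))]
      let e : (Σ i, (K i →+* ℂ)) ≃ Σ i, (K i →+* ℂ) :=
        Function.Involutive.toPerm (invC K) (invC_invC K)
      rw [← Equiv.prod_comp e]
      refine Finset.prod_congr rfl fun y _ => ?_
      change (invC K y).2 (π y.1) ^ (univ.filter (fun l => a l = invC K (invC K y))).card = _
      rw [invC_invC]
    have h3 : ∏ y : Σ i, (K i →+* ℂ), y.2 (π y.1) ^ exc (invC K) a y =
        (∏ l, (a l).2 (π (a l).1)) / ∏ l, (invC K (a l)).2 (π (a l).1) := by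
      rw [← h2, ← h1 (fun y => y.2 (π y.1)), ← Finset.prod_div_distrib]
      refine Finset.prod_congr rfl fun y _ => ?_
      unfold exc
      rw [zpow_sub₀ (hne y), zpow_natCast, zpow_natCast]
    have h4 : ∏ l, (invC K (a l)).2 (π (a l).1) =
        (∏ l, (q (a l).1 : ℂ)) / ∏ l, (a l).2 (π (a l).1) := by
      rw [← Finset.prod_div_distrib]
      refine Finset.prod_congr rfl fun l _ => ?_
      rw [eq_div_iff (hne _), mul_comm]
      exact weil_mul _ (hweil _ _)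
    have h5 : ∏ l, (a l).2 (π (a l).1) ≠ 0 := Finset.prod_ne_zero_iff.2 fun l _ => hne _
    have h6 : ∏ l, (q (a l).1 : ℂ) ≠ 0 := Finset.prod_ne_zero_iff.2 fun l _ => by
      exact_mod_cast (hq _).ne'
    rw [h3, h4, div_div_eq_mul_div, div_pow, ← sq, ← pow_mul, h, div_self (pow_ne_zero _ h6)]

/-- If the relations between the eigenvalues are balanced, the forms are generated by pairings. -/
theorem form_mem'
    (q : I → ℚ) (hq : ∀ i, 0 < q i) (π : ∀ i, K i)
    (hgen : ∀ i, IntermediateField.adjoin ℚ {π i} = ⊤)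
    (hweil : ∀ i, ∀ φ : K i →+* ℂ, ‖φ (π i)‖ ^ 2 = (q i : ℝ))
    {Ω : Type*} [Field Ω] [IsAlgClosed Ω] [CharZero Ω]
    (V : I → Type*) [∀ i, AddCommGroup (V i)] [∀ i, Module Ω (V i)]
    [∀ i, FiniteDimensional Ω (V i)] (F : ∀ i, V i →ₗ[Ω] V i)
    (hF : ∀ i, Submodule.span Ω {v : V i | ∃ σ : K i →+* Ω, F i v = σ (π i) • v} = ⊤)
    {n : ℕ} (t : Fin n → I)
    (hcount : ∀ W : ∀ a, K (t a) →+* ℂ, (∃ s : ℕ, 0 < s ∧
        (∏ a, W a (π (t a))) ^ (2 * s) = (∏ a, (q (t a) : ℂ)) ^ s) →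
      ∀ (i : I) (φ : K i →+* ℂ), Nat.card {a // (⟨t a, W a⟩ : Σ i, (K i →+* ℂ)) = ⟨i, φ⟩} =
        Nat.card {a // (⟨t a, W a⟩ : Σ i, (K i →+* ℂ)) = ⟨i, ComplexEmbedding.conjugate φ⟩})
    (s : ℕ) (hs : 0 < s) (c : Ω) (hc : c ^ 2 = ∏ a, (q (t a) : Ω))
    (φ : MultilinearMap Ω (fun a => V (t a)) Ω)
    (hφ : ∀ v : ∀ a, V (t a), φ (fun a => (F (t a) ^ s) (v a)) = c ^ s * φ v) :
    φ ∈ Submodule.span Ω {ψ | IsProductOfPairings V F (fun i => (q i : Ω)) t ψ} := by
  classical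
  obtain ⟨L, _, _, j, h⟩ := exists_galois K
  refine multilinear_mixed V F (fun i => (q i : Ω))
    (fun i => {μ : Ω | ∃ σ : K i →+* Ω, σ (π i) = μ}) (conj_ne K q hq π hgen hweil)
    (fun i => Rat.cast_ne_zero.2 (hq i).ne') ?_ (conj_mem K q hq π hweil) t s c
    (fun y hy hprod i z hz => ?_) φ hφ
  · intro i
    rw [← hF i]
    congr 1
    ext v
    constructor
    · rintro ⟨μ, ⟨σ, rfl⟩, h⟩
      exact ⟨σ, h⟩
    · rintro ⟨σ, h⟩
      exact ⟨_, ⟨σ, rfl⟩, h⟩
  · let jΩ : L →ₐ[ℚ] Ω := IsAlgClosed.lift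
    have hlift := lift_of K j h jΩ
    choose σ hσ using hy
    choose W hW using fun a => hlift (t a) (σ a)
    obtain ⟨σz, hσz⟩ := hz
    obtain ⟨φ, hφ⟩ := hlift i σz
    have hWy : ∀ a, jΩ (W a (π (t a))) = y a := by
      intro a
      rw [← hσ a, ← hW a]
      rfl
    have hφz : jΩ (φ (π i)) = z := by
      rw [← hσz, ← hφ]
      rfl
    have hrel : (∏ a, W a (π (t a))) ^ (2 * s) = (∏ a, (q (t a) : L)) ^ s := by
      apply jΩ.injective
      change jΩ ((∏ a, W a (π (t a))) ^ (2 * s)) = jΩ ((∏ a, (q (t a) : L)) ^ s)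
      rw [map_pow, map_prod, map_pow, map_prod]
      simp only [hWy, map_ratCast]
      rw [mul_comm 2 s, pow_mul, hprod, ← hc, ← pow_mul, ← pow_mul, mul_comm]
    have hrelC : (∏ a, (j.comp (W a)) (π (t a))) ^ (2 * s) = (∏ a, (q (t a) : ℂ)) ^ s := by
      have h1 := congrArg j hrel
      rw [map_pow, map_prod, map_pow, map_prod] at h1
      simp only [map_ratCast] at h1
      exact h1
    have key := hcount (fun a => j.comp (W a)) ⟨s, hs, hrelC⟩ i (j.comp φ)
    have hjj : ∀ (ψ : K i →+* L) (a : Fin n),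
        (⟨t a, j.comp (W a)⟩ : Σ i, (K i →+* ℂ)) = ⟨i, j.comp ψ⟩ ↔
          (⟨t a, W a⟩ : Σ i, (K i →+* L)) = ⟨i, ψ⟩ := by
      intro ψ a
      constructor
      · intro h1
        have h2 : t a = i := congrArg Sigma.fst h1
        obtain rfl := h2
        have h3 : j.comp (W a) = j.comp ψ := eq_of_heq (Sigma.mk.inj_iff.1 h1).2
        have h4 : W a = ψ := RingHom.ext fun x => j.injective (RingHom.congr_fun h3 x)
        rw [h4]
      · intro h1
        have h2 : t a = i := congrArg Sigma.fst h1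
        obtain rfl := h2
        have h3 : W a = ψ := eq_of_heq (Sigma.mk.inj_iff.1 h1).2
        rw [h3]
    have hcj : ComplexEmbedding.conjugate (j.comp φ) = j.comp (cbar φ) :=
      (comp_cbar j φ).symm
    rw [hcj] at key
    rw [Nat.card_congr (Equiv.subtypeEquivRight (hjj φ)),
      Nat.card_congr (Equiv.subtypeEquivRight (hjj (cbar φ)))] at key
    have hiff : ∀ ψ : K i →+* L, ∀ w : Ω, jΩ (ψ (π i)) = w → ∀ a,
        (t a = i ∧ y a = w) ↔ (⟨t a, W a⟩ : Σ i, (K i →+* L)) = ⟨i, ψ⟩ := by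
      intro ψ w hw a
      constructor
      · rintro ⟨h1, h2⟩
        obtain rfl := h1
        rw [← hWy a, ← hw] at h2
        have h3 : W a (π (t a)) = ψ (π (t a)) := jΩ.injective h2
        rw [hom_ext_of_gen (hgen (t a)) h3]
      · intro h1
        have h2 : t a = i := congrArg Sigma.fst h1
        refine ⟨h2, ?_⟩
        obtain rfl := h2
        have h3 : W a = ψ := by
          have h4 := (Sigma.mk.inj_iff.1 h1).2
          exact eq_of_heq h4
        rw [← hWy a, ← hw, h3]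
    have hcz : jΩ (cbar φ (π i)) = (q i : Ω) / z := by
      rw [weil_cbar (hq i) (hweil i), map_div₀, map_ratCast, hφz]
    rw [Nat.card_congr (Equiv.subtypeEquivRight (hiff φ z hφz)),
      Nat.card_congr (Equiv.subtypeEquivRight (hiff (cbar φ) ((q i : Ω) / z) hcz))]
    exact key

theorem orb_le {g : ℕ} (hg : ∀ i, 2 * g ≤ Module.finrank ℚ (K i)) :
    let _ : MulAction (ℂ ≃+* ℂ) (Σ i, (K i →+* ℂ)) := actC K
    ∀ y : Σ i, (K i →+* ℂ), 2 * g ≤ (MulAction.orbit (ℂ ≃+* ℂ) y).ncard := by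
  intro _ 
  obtain ⟨L, _, _, jj, hL⟩ := exists_galois K
  rintro ⟨i, φ⟩
  have h1 : Set.range (fun ψ : K i →+* ℂ => (⟨i, ψ⟩ : Σ i, (K i →+* ℂ))) ⊆
      MulAction.orbit (ℂ ≃+* ℂ) (⟨i, φ⟩ : Σ i, (K i →+* ℂ)) := by
    rintro _ ⟨ψ, rfl⟩
    obtain ⟨φ', hφ'⟩ := hL i φ
    obtain ⟨ψ', hψ'⟩ := hL i ψ
    obtain ⟨s, hs⟩ := MulAction.exists_smul_eq (L ≃ₐ[ℚ] L) φ' ψ'
    obtain ⟨σ, hσ⟩ := Pool.Agent.H977R3.CM.exists_aut jj (s : L ≃+* L)
    refine ⟨σ, ?_⟩
    change (⟨i, (σ : ℂ →+* ℂ).comp φ⟩ : Σ i, (K i →+* ℂ)) = ⟨i, ψ⟩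
    congr 1
    rw [← hφ', ← hψ', ← hs]
    ext x
    exact hσ _
  refine le_trans ?_ (Set.ncard_le_ncard h1 (Set.toFinite _))
  rw [Set.ncard_range_of_injective (fun ψ ψ' hh => by simpa using hh), Nat.card_eq_fintype_card,
    Embeddings.card]
  exact hg i

/-- A word with a relation and nonzero exponents has at least `g / D` letters. -/
theorem le_length_rel [DecidableEq (Σ i, (K i →+* ℂ))] {g : ℕ} (hg : ∀ i, 2 * g ≤ Module.finrank ℚ (K i)) (q : I → ℚ)
    (hq : ∀ i, 0 < q i) (π : ∀ i, K i)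
    (hweil : ∀ i, ∀ φ : K i →+* ℂ, ‖φ (π i)‖ ^ 2 = (q i : ℝ)) {n : ℕ}
    (a : Fin n → Σ i, (K i →+* ℂ)) (hne : exc (invC K) a ≠ 0) (s : ℕ) (hs : 0 < s)
    (h : (∏ l, (a l).2 (π (a l).1)) ^ (2 * s) = (∏ l, (q (a l).1 : ℂ)) ^ s) :
    g ≤ Module.finrank ℤ (relLat K π) * n := by
  let _ : MulAction (ℂ ≃+* ℂ) (Σ i, (K i →+* ℂ)) := actC K
  exact le_lengthZ (G := (ℂ ≃+* ℂ)) (invC_invC K) (orb_le K hg) (relLat K π)
    (fun σ f hf => relLat_inv K π σ f hf) le_rfl a hne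
    (Submodule.subset_span (exc_mem_relSet K q hq π hweil a s hs h))

theorem gen_of_defect {g : ℕ} (hg : ∀ i, 2 * g ≤ Module.finrank ℚ (K i)) (q : I → ℚ)
    (hq : ∀ i, 0 < q i) (π : ∀ i, K i)
    (hweil : ∀ i, ∀ φ : K i →+* ℂ, ‖φ (π i)‖ ^ 2 = (q i : ℝ))
    (h2 : 2 * Module.finrank ℤ (relLat K π) < g) (i : I) :
    IntermediateField.adjoin ℚ {π i} = ⊤ := by
  classical
  rw [Field.primitive_element_iff_algHom_eq_of_eval' ℚ ℂ (fun x => IsAlgClosed.splits _)]
  intro ψ ψ' hψ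
  by_contra hne
  have hne' : (ψ : K i →+* ℂ) ≠ (ψ' : K i →+* ℂ) := fun h => hne (by
    ext x
    exact RingHom.congr_fun h x)
  let a : Fin 2 → Σ i, (K i →+* ℂ) := ![⟨i, (ψ : K i →+* ℂ)⟩, invC K ⟨i, (ψ' : K i →+* ℂ)⟩]
  have hinvne : ∀ y : Σ i, (K i →+* ℂ), invC K y ≠ y := by
    rintro ⟨i, φ⟩ h
    exact Pool.Agent.TH170.GH.conjugate_ne φ (eq_of_heq (Sigma.mk.inj_iff.1 h).2)
  have hyz : (⟨i, (ψ : K i →+* ℂ)⟩ : Σ i, (K i →+* ℂ)) ≠ ⟨i, (ψ' : K i →+* ℂ)⟩ := fun h =>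
    hne' (eq_of_heq (Sigma.mk.inj_iff.1 h).2)
  have hred : ∀ l l', a l ≠ invC K (a l') := by
    intro l l'
    fin_cases l <;> fin_cases l'
    · exact (hinvne _).symm
    · change (⟨i, (ψ : K i →+* ℂ)⟩ : Σ i, (K i →+* ℂ)) ≠ invC K (invC K _)
      rw [invC_invC]
      exact hyz
    · change invC K (⟨i, (ψ' : K i →+* ℂ)⟩ : Σ i, (K i →+* ℂ)) ≠
        invC K (⟨i, (ψ : K i →+* ℂ)⟩ : Σ i, (K i →+* ℂ))
      intro h
      exact hyz (by rw [← invC_invC K ⟨i, (ψ : K i →+* ℂ)⟩, ← h, invC_invC])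
    · change invC K _ ≠ invC K (invC K _)
      rw [invC_invC]
      exact hinvne _
  have h1 := le_length_rel K hg q hq π hweil a (exc_ne_zero a hred (by norm_num)) 1 one_pos (by
    rw [Fin.prod_univ_two, Fin.prod_univ_two]
    change (ψ (π i) * ComplexEmbedding.conjugate (ψ' : K i →+* ℂ) (π i)) ^ (2 * 1) =
      ((q i : ℂ) * (q i : ℂ)) ^ 1
    have h3 : ψ (π i) = (ψ' : K i →+* ℂ) (π i) := hψ
    rw [h3, weil_mul _ (hweil i _)]
    ring)
  omega

/-- **The defect bound for Tate classes.** -/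
theorem form_mem_defect {g k : ℕ} (hg : ∀ i, 2 * g ≤ Module.finrank ℚ (K i)) (q : I → ℚ)
    (hq : ∀ i, 0 < q i) (π : ∀ i, K i)
    (hweil : ∀ i, ∀ φ : K i →+* ℂ, ‖φ (π i)‖ ^ 2 = (q i : ℝ)) (hk2 : 2 ≤ k)
    (hk : k * Module.finrank ℤ (relLat K π) < g)
    {Ω : Type*} [Field Ω] [IsAlgClosed Ω] [CharZero Ω]
    (V : I → Type*) [∀ i, AddCommGroup (V i)] [∀ i, Module Ω (V i)]
    [∀ i, FiniteDimensional Ω (V i)] (F : ∀ i, V i →ₗ[Ω] V i)
    (hF : ∀ i, Submodule.span Ω {v : V i | ∃ σ : K i →+* Ω, F i v = σ (π i) • v} = ⊤)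
    {n : ℕ} (hn : n ≤ k) (t : Fin n → I) (s : ℕ) (hs : 0 < s) (c : Ω)
    (hc : c ^ 2 = ∏ a, (q (t a) : Ω)) (φ : MultilinearMap Ω (fun a => V (t a)) Ω)
    (hφ : ∀ v : ∀ a, V (t a), φ (fun a => (F (t a) ^ s) (v a)) = c ^ s * φ v) :
    φ ∈ Submodule.span Ω {ψ | IsProductOfPairings V F (fun i => (q i : Ω)) t ψ} := by
  classical
  have h2 : 2 * Module.finrank ℤ (relLat K π) < g :=
    (Nat.mul_le_mul_right _ hk2).trans_lt hk
  refine form_mem' K q hq π (gen_of_defect K hg q hq π hweil h2) hweil V F hF t ?_ s hs c hc φ hφ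
  rintro W ⟨s', hs', hrel⟩ i φ
  by_contra hcon
  have h3 := le_length_rel K hg q hq π hweil (fun a => ⟨t a, W a⟩) (fun h0 => hcon (by
    have h4 := congrFun h0 (⟨i, φ⟩ : Σ i, (K i →+* ℂ))
    unfold exc at h4
    simp only [Pi.zero_apply] at h4
    rw [Nat.card_eq_fintype_card, Nat.card_eq_fintype_card, Fintype.card_subtype,
      Fintype.card_subtype]
    have h5 : (univ.filter (fun l : Fin n => (⟨t l, W l⟩ : Σ i, (K i →+* ℂ)) =
        invC K ⟨i, φ⟩)) = univ.filter (fun l : Fin n => (⟨t l, W l⟩ : Σ i, (K i →+* ℂ)) =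
        ⟨i, ComplexEmbedding.conjugate φ⟩) := rfl
    rw [h5] at h4
    omega)) s' hs' hrel
  have h6 : Module.finrank ℤ (relLat K π) * n ≤ k * Module.finrank ℤ (relLat K π) := by
    rw [mul_comm]
    exact Nat.mul_le_mul_right _ hn
  omega

end rel

end

end Pool.Agent.Q43.RP
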