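import Mathlib
import Pool.Agent.H204R3.GP.FrobG
import Pool.Agent.Q43.RP.Lowl
import Pool.Agent.Q43.RP.Ang

/-!
# One Frobenius element of small defect
-/

set_option autoImplicit false
set_option linter.unusedSectionVars false

namespace Pool.Agent.Q43.RP

open NumberField Module Pool.Agent.H204R3.CM Pool.Agent.H204R3.SP Pool.Agent.H204R3.GP TensorProduct
  IntermediateField

noncomputable section

section count

variable {I : Type} [Fintype I] (K : I → Type) [∀ i, Field (K i)] [∀ i, NumberField (K i)]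
  [∀ i, IsCMField (K i)]

open Classical in
/-- Words of at most `k` letters with a relation are balanced. -/
def ShortFree (q : ℚ) (π : ∀ i, K i) (k : ℕ) : Prop :=
  ∀ n ≤ k, ∀ (w : Fin n → Σ i, (K i →+* ℂ)) (s : ℕ), 0 < s →
    (∏ l, (w l).2 (π (w l).1)) ^ (2 * s) = ((q : ℂ) ^ n) ^ s → exc (invC K) w = 0

theorem shortFree_of_defect {g : ℕ} (hg : ∀ i, 2 * g ≤ finrank ℚ (K i)) {q : ℚ} (hq : 0 < q)
    (π : ∀ i, K i) (hweil : ∀ i, ∀ φ : K i →+* ℂ, ‖φ (π i)‖ ^ 2 = (q : ℝ)) {k : ℕ}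
    (hk : finrank ℤ (relLat K π) * k < g) : ShortFree K q π k := by
  classical
  intro n hn w s hs h
  by_contra hne
  have h1 := le_length_rel K hg (fun _ => q) (fun _ => hq) π hweil w (by convert hne) s hs (by
    rw [Finset.prod_const, Finset.card_univ, Fintype.card_fin]
    exact h)
  have h2 : finrank ℤ (relLat K π) * n ≤ finrank ℤ (relLat K π) * k := Nat.mul_le_mul le_rfl hn
  omega

/-- Short words with a relation are balanced. -/
theorem count_eq {q : ℚ}
    (π : ∀ i, K i) {k : ℕ} (hsf : ShortFree K q π k) {n : ℕ}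
    (hn : n ≤ k) {L : Type*} [Field L] (j : L →+* ℂ)
    [DecidableEq (Σ i, (K i →+* L))]
    (a : Fin n → Σ i, (K i →+* L)) (s : ℕ) (hs : 0 < s)
    (h : (∏ l, val π (a l)) ^ (2 * s) = ((q : L) ^ n) ^ s) (y : Σ i, (K i →+* L)) :
    (Finset.univ.filter (fun l => a l = y)).card =
      (Finset.univ.filter (fun l => a l = bar y)).card := by
  classical
  let b : Fin n → Σ i, (K i →+* ℂ) := fun l => ⟨(a l).1, j.comp (a l).2⟩
  have hb : (∏ l, (b l).2 (π (b l).1)) ^ (2 * s) = ((q : ℂ) ^ n) ^ s := by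
    have h1 := congrArg j h
    rw [map_pow, map_prod, map_pow, map_pow, map_ratCast] at h1
    exact h1
  have h0 : exc (invC K) b = 0 := by
    have h1 := hsf n hn b s hs hb
    convert h1
  have h2 := congrFun h0 ⟨y.1, j.comp y.2⟩
  unfold exc at h2
  rw [Pi.zero_apply, sub_eq_zero] at h2
  have hjj : ∀ (z : Σ i, (K i →+* L)) (l : Fin n),
      b l = (⟨z.1, j.comp z.2⟩ : Σ i, (K i →+* ℂ)) ↔ a l = z := by
    intro z l
    obtain ⟨i, φ⟩ := z
    generalize ha : a l = w at *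
    constructor
    · intro h1
      change (⟨(a l).1, j.comp (a l).2⟩ : Σ i, (K i →+* ℂ)) = ⟨i, j.comp φ⟩ at h1
      rw [ha] at h1
      obtain ⟨i', φ'⟩ := w
      have h2 : i' = i := congrArg Sigma.fst h1
      obtain rfl := h2
      have h3 : j.comp φ' = j.comp φ := eq_of_heq (Sigma.mk.inj_iff.1 h1).2
      have h4 : φ' = φ := RingHom.ext fun x => j.injective (RingHom.congr_fun h3 x)
      rw [h4]
    · intro h1
      change (⟨(a l).1, j.comp (a l).2⟩ : Σ i, (K i →+* ℂ)) = ⟨i, j.comp φ⟩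
      rw [ha, h1]
  have hinv : invC K (⟨y.1, j.comp y.2⟩ : Σ i, (K i →+* ℂ)) = ⟨(bar y).1, j.comp (bar y).2⟩ := by
    obtain ⟨i, φ⟩ := y
    exact congrArg (Sigma.mk i) (comp_cbar j φ).symm
  rw [hinv] at h2
  have h3 : (Finset.univ.filter (fun l => b l = (⟨y.1, j.comp y.2⟩ : Σ i, (K i →+* ℂ)))) =
      Finset.univ.filter (fun l => a l = y) := Finset.filter_congr fun l _ => hjj y l
  have h4 : (Finset.univ.filter
      (fun l => b l = (⟨(bar y).1, j.comp (bar y).2⟩ : Σ i, (K i →+* ℂ)))) =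
      Finset.univ.filter (fun l => a l = bar y) := Finset.filter_congr fun l _ => hjj (bar y) l
  rw [h3, h4] at h2
  exact_mod_cast h2

theorem val_barC {q : ℚ} {π : ∀ i, K i}
    (hweil : ∀ i, ∀ φ : K i →+* ℂ, ‖φ (π i)‖ ^ 2 = (q : ℝ))
    {L : Type*} [Field L] (j : L →+* ℂ) (x : Σ i, (K i →+* L)) :
    val π x * val π (bar x) = (q : L) := by
  apply j.injective
  obtain ⟨i, φ⟩ := x
  rw [map_mul, map_ratCast]
  change (j.comp φ) (π i) * (j.comp (cbar φ)) (π i) = _
  rw [comp_cbar]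
  exact weil_mul _ (hweil i _)

/-- The Frobenius eigenvalues are distinct. -/
theorem val_injC {q : ℚ}
    (π : ∀ i, K i) (hweil : ∀ i, ∀ φ : K i →+* ℂ, ‖φ (π i)‖ ^ 2 = (q : ℝ)) {k : ℕ}
    (hk : 2 ≤ k) (hsf : ShortFree K q π k) {L : Type*} [Field L] (j : L →+* ℂ) :
    Function.Injective (val π (L := L)) := by
  classical
  intro x y hxy
  by_contra hne
  have h1 := count_eq K π hsf hk j ![x, bar y] 1 one_pos (by
    rw [Fin.prod_univ_two]
    change (val π x * val π (bar y)) ^ (2 * 1) = _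
    rw [hxy, val_barC K hweil j y, mul_one, pow_one]) x
  have h2 : 0 < (Finset.univ.filter (fun l => (![x, bar y] : Fin 2 → _) l = x)).card :=
    Finset.card_pos.2 ⟨0, by simp⟩
  rw [h1] at h2
  obtain ⟨l, hl⟩ := Finset.card_pos.1 h2
  rw [Finset.mem_filter] at hl
  fin_cases l
  · exact bar_ne x hl.2.symm
  · apply hne
    have h3 : bar y = bar x := hl.2
    rw [← bar_bar x, ← h3, bar_bar]

theorem gen_of_inj (π : ∀ i, K i) (hinj : Function.Injective (val π (L := ℂ))) (i : I) :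
    ℚ⟮π i⟯ = ⊤ := by
  rw [Field.primitive_element_iff_algHom_eq_of_eval' ℚ ℂ (fun x => IsAlgClosed.splits _)]
  intro ψ ψ' hψ
  have h1 : (⟨i, (ψ : K i →+* ℂ)⟩ : Σ i, (K i →+* ℂ)) = ⟨i, (ψ' : K i →+* ℂ)⟩ := hinj hψ
  have h2 : (ψ : K i →+* ℂ) = (ψ' : K i →+* ℂ) := eq_of_heq (Sigma.mk.inj_iff.1 h1).2
  ext x
  exact RingHom.congr_fun h2 x

end count

/-- Tate forms in few variables are combinations of products of Tate forms of degree two if there is
one Frobenius element of small defect. -/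
theorem tate_low {I : Type} [Fintype I] (K : I → Type) [∀ i, Field (K i)] [∀ i, NumberField (K i)]
    [∀ i, IsCMField (K i)] {q : ℚ} (hq : 0 < q)
    (π : ∀ i, K i) (hweil : ∀ i, ∀ φ : K i →+* ℂ, ‖φ (π i)‖ ^ 2 = (q : ℝ)) {M : ℕ} (hM : 1 ≤ M)
    (hsf : ShortFree K q π (2 * M))
    {k : Type*} [Field k] [CharZero k] {V : Type*} [AddCommGroup V]
    [Module k V] [FiniteDimensional k V]
    {Γ : Type*} [Group Γ] (ρ : Representation k Γ V) (χ : Γ →* k)
    (ω : V →ₗ[k] V →ₗ[k] k) (halt : ∀ v, ω v v = 0) (hnd : ∀ u, (∀ v, ω v u = 0) → u = 0)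
    (hωρ : ∀ s u v, ω (ρ s u) (ρ s v) = χ s * ω u v)
    (hss : ∀ Δ : Subgroup Γ, Δ.FiniteIndex → SemiUnder (ρ '' (Δ : Set Γ)))
    (γ : Γ) (hχ : χ γ = (q : k))
    (hγ : (ρ γ).charpoly = ∏ i, (minpoly ℚ (π i)).map (algebraMap ℚ k))
    {m : ℕ} (hm : m ≤ M) (φ : MultilinearMap k (fun _ : Fin m × Fin 2 => V) k)
    (hφ : IsTate ρ χ m φ) :
    φ ∈ Submodule.span k (PT ρ χ m) := by
  classical
  obtain ⟨L, hL1, hL2, j, h⟩ := exists_galois K
  obtain ⟨Ω, hΩ, ⟨jΩ⟩⟩ := exists_finite_ext k L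
  have hgen : ∀ i, ℚ⟮π i⟯ = ⊤ := fun i =>
    gen_of_inj K π (val_injC K π hweil (by omega) hsf (RingHom.id ℂ)) i
  have hinjv := val_injC K π hweil (by omega) hsf j
  have hcardE : ∀ i, Fintype.card (K i →+* L) = finrank ℚ (K i) := fun i => card_emb j (h i)
  have hanti : ∀ u v, ω u v = -ω v u := by
    intro u v
    have h1 := halt (u + v)
    simp only [map_add, LinearMap.add_apply, halt, zero_add, add_zero] at h1
    exact eq_neg_of_add_eq_zero_left (by rw [← h1]; ring)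
  have hnd' : ∀ u, (∀ v, ω u v = 0) → u = 0 := by
    intro u hu
    apply hnd
    intro v
    rw [hanti, hu, neg_zero]
  let b := Module.finBasis k V
  have hTchar : (bcr ρ Ω γ).charpoly = ∏ i, (minpoly ℚ (π i)).map (algebraMap ℚ Ω) := by
    change ((ρ γ).baseChange Ω).charpoly = _
    rw [LinearMap.charpoly_baseChange, hγ, Polynomial.map_prod]
    refine Finset.prod_congr rfl fun i _ => ?_
    rw [Polynomial.map_map]
    congr 1
  obtain ⟨e, he⟩ := exists_eigenbasisG (Ω := Ω) (L := L) hgen jΩ hcardE hinjv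
    (bcr ρ Ω γ) hTchar
  have hantiΩ : ∀ u v, bcb Ω ω u v = -bcb Ω ω v u := by
    have h1 : bcb Ω ω = -(bcb Ω ω).flip := by
      refine (b.baseChange Ω).ext fun i => (b.baseChange Ω).ext fun l => ?_
      rw [LinearMap.neg_apply, LinearMap.neg_apply, LinearMap.flip_apply, Basis.baseChange_apply,
        Basis.baseChange_apply, bcb_one, bcb_one, hanti, map_neg]
    intro u v
    exact congrArg (fun F : (Ω ⊗[k] V) →ₗ[Ω] (Ω ⊗[k] V) →ₗ[Ω] Ω => F u v) h1
  have hcast : algebraMap k Ω (q : k) = jΩ (q : L) := by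
    rw [map_ratCast, map_ratCast]
  have hq : ∀ x y : Σ i, (K i →+* L), y ≠ bar x → bcb Ω ω (e x) (e y) = 0 := by
    intro x y hxy
    by_contra h0
    apply hxy
    have h1 := bcb_inv ρ χ (Ω := Ω) ω hωρ γ (e x) (e y)
    rw [he, he, map_smul, map_smul, LinearMap.smul_apply, smul_eq_mul, smul_eq_mul, bcc_apply, hχ,
      ← mul_assoc, hcast] at h1
    have h2 := mul_right_cancel₀ h0 h1
    have h3 : jΩ (val π y * val π x) = jΩ (q : L) := by
      rw [map_mul]
      exact h2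
    have h4 := jΩ.injective h3
    have h5 := val_barC K hweil j x
    have hx0 : val π x ≠ 0 := by
      intro h6
      rw [h6, zero_mul] at h5
      exact (Rat.cast_ne_zero (α := L)).2 hq.ne' h5.symm
    apply hinjv
    apply mul_left_cancel₀ hx0
    rw [h5, mul_comm, h4]
  let jj : (Σ i, (K i →+* L)) → Ω := fun x => bcb Ω ω (e x) (e (bar x))
  have hjj : ∀ x, jj (bar x) = -jj x := by
    intro x
    simp only [jj, bar_bar]
    exact hantiΩ _ _
  have hj0 : ∀ x, jj x ≠ 0 := by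
    intro x h0
    apply e.ne_zero (bar x)
    apply bcb_nondeg b ω hnd hnd'
    have h1 : (bcb Ω ω).flip (e (bar x)) = 0 := by
      refine e.ext fun y => ?_
      rw [LinearMap.flip_apply, LinearMap.zero_apply]
      by_cases hy : bar x = bar y
      · have h2 : y = x := by rw [← bar_bar y, ← hy, bar_bar]
        rw [h2]
        exact h0
      · exact hq _ _ hy
    intro v
    exact congrArg (fun F : (Ω ⊗[k] V) →ₗ[Ω] Ω => F v) h1
  have hω : ∀ x y, bcb Ω ω (e x) (e y) = JJ bar jj x y := by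
    intro x y
    unfold JJ
    by_cases hy : y = bar x
    · rw [if_pos hy, hy]
    · rw [if_neg hy, hq x y hy]
  have hbal : ∀ (m : ℕ) (φ : MultilinearMap Ω (fun _ : Fin m × Fin 2 => Ω ⊗[k] V) Ω), m ≤ M →
      IsTate (bcr ρ Ω) (bcc χ Ω) m φ →
      ∀ I : Fin m × Fin 2 → (Σ i, (K i →+* L)), φ (fun l => e (I l)) ≠ 0 → ∀ y,
        (Finset.univ.filter (fun l => I l = y)).card =
          (Finset.univ.filter (fun l => I l = bar y)).card := by
    rintro m φ hm ⟨Δ, hΔ, hφ⟩ I hI y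
    obtain ⟨N, hN, -, hNΔ⟩ := Subgroup.exists_pow_mem_of_index_ne_zero hΔ.index_ne_zero γ
    have h1 := hφ (γ ^ N) hNΔ (fun l => e (I l))
    have h2 : ∀ (n : ℕ) (x : Σ i, (K i →+* L)),
        bcr ρ Ω (γ ^ n) (e x) = (jΩ (val π x)) ^ n • e x := by
      intro n x
      induction n with
      | zero => rw [pow_zero, pow_zero, one_smul, map_one]; rfl
      | succ n ih =>
        rw [pow_succ, map_mul, pow_succ, Module.End.mul_apply, he]
        change bcr ρ Ω (γ ^ n) ((jΩ (val π x)) • e x) = _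
        rw [map_smul, ih, smul_smul, mul_comm]
    simp only [h2] at h1
    rw [MultilinearMap.map_smul_univ, smul_eq_mul, map_pow, bcc_apply, hχ, hcast] at h1
    have h3 := mul_right_cancel₀ hI h1
    have h4 : (∏ l, val π (I l)) ^ N = ((q : L) ^ m) ^ N := by
      apply jΩ.injective
      rw [map_pow, map_prod, ← Finset.prod_pow, h3]
      simp only [map_pow]
      rw [← pow_mul, ← pow_mul, mul_comm]
    let t : Fin (m * 2) ≃ Fin m × Fin 2 := finProdFinEquiv.symm
    have h5 := count_eq K π hsf (n := m * 2) (by omega) j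
      (fun l => I (t l)) N hN (by
        rw [Equiv.prod_comp t (fun l => val π (I l)), mul_comm 2 N, pow_mul, h4, ← pow_mul, ← pow_mul,
          ← pow_mul]
        congr 1
        ring) y
    have h6 : ∀ z : Σ i, (K i →+* L), (Finset.univ.filter (fun l => I (t l) = z)).card =
        (Finset.univ.filter (fun l => I l = z)).card := by
      intro z
      refine Finset.card_bij (fun l _ => t l) (fun l hl => ?_) (fun l _ l' _ hh => t.injective hh)
        (fun l hl => ⟨t.symm l, ?_, t.apply_symm_apply l⟩)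
      · rw [Finset.mem_filter] at hl ⊢
        exact ⟨Finset.mem_univ _, hl.2⟩
      · rw [Finset.mem_filter] at hl ⊢
        rw [t.apply_symm_apply]
        exact ⟨Finset.mem_univ _, hl.2⟩
    rw [h6, h6] at h5
    exact h5
  refine tate_descentG (Ω := Ω) b ρ χ ?_ φ hφ
  intro φ' hφ'
  refine tateG_low e bar_bar bar_ne hjj hj0 (bcb Ω ω) hω (bcr ρ Ω) (bcc χ Ω) hM
    (bcb_inv ρ χ ω hωρ) ?_ hbal hm φ' hφ'
  intro Δ hΔ U hU
  obtain ⟨P, hP1, hP2, hP3⟩ := exists_proj_baseChange (Ω := Ω) (ρ '' (Δ : Set Γ)) (hss Δ hΔ) U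
    (by
      rintro _ ⟨s, hs, rfl⟩ u hu
      exact hU s hs u hu)
  exact ⟨P, hP1, hP2, fun s hs v => hP3 _ ⟨s, hs, rfl⟩ v⟩

end

end Pool.Agent.Q43.RP
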