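import Pool.Agent.TH776.FL.Main
import Pool.Agent.Q43.RP.Lowf

/-!
# One Frobenius element of small defect: number fields
-/

set_option autoImplicit false
set_option linter.unusedSectionVars false

namespace Pool.Agent.Q43.RP

open NumberField Module Pool.Agent.H204R3.CM Pool.Agent.H204R3.SP Pool.Agent.H204R3.GP
  Pool.Agent.W516.FT Pool.Agent.TH776.FM Pool.Agent.TH776.FL IntermediateField

noncomputable section

section four

variable {I : Type} [Fintype I] (K : I → Type) [∀ i, Field (K i)] [∀ i, NumberField (K i)]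
  [∀ i, IsCMField (K i)]

theorem charpoly_separable {q : ℚ}
    (π : ∀ i, K i) (hweil : ∀ i, ∀ φ : K i →+* ℂ, ‖φ (π i)‖ ^ 2 = (q : ℝ)) {k : ℕ}
    (hk : 2 ≤ k) (hsf : ShortFree K q π k) :
    (∏ i, minpoly ℚ (π i)).Separable := by
  classical
  have hinj := val_injC K π hweil hk hsf (RingHom.id ℂ)
  have hirr : ∀ i, Irreducible (minpoly ℚ (π i)) := fun i =>
    minpoly.irreducible (Algebra.IsIntegral.isIntegral (π i))
  refine Polynomial.separable_prod' (fun i _ j _ hij => ?_) (fun i _ => (hirr i).separable)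
  refine (hirr i).coprime_iff_not_dvd.2 fun hdvd => ?_
  -- a common root
  obtain ⟨φ⟩ : Nonempty (K i →+* ℂ) := inferInstance
  have h1 : Polynomial.aeval (φ (π i)) (minpoly ℚ (π i)) = 0 := by
    have h2 := minpoly.aeval ℚ (π i)
    let y : K i →ₐ[ℚ] ℂ := RingHom.equivRatAlgHom (K i) ℂ φ
    have h3 := congrArg y h2
    rw [← Polynomial.aeval_algHom_apply, map_zero] at h3
    exact h3
  have h2 : Polynomial.aeval (φ (π i)) (minpoly ℚ (π j)) = 0 := by
    obtain ⟨r, hr⟩ := hdvd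
    rw [hr, map_mul, h1, zero_mul]
  have h3 : φ (π i) ∈ (minpoly ℚ (π j)).rootSet ℂ := by
    rw [Polynomial.mem_rootSet]
    exact ⟨(minpoly.ne_zero (Algebra.IsIntegral.isIntegral (π j))), h2⟩
  rw [← NumberField.Embeddings.range_eval_eq_rootSet_minpoly (K j) ℂ (π j)] at h3
  obtain ⟨ψ, hψ⟩ := h3
  have h4 : (⟨i, φ⟩ : Σ i, (K i →+* ℂ)) = ⟨j, ψ⟩ := hinj (by
    change φ (π i) = ψ (π j)
    exact hψ.symm)
  exact hij (congrArg Sigma.fst h4)

theorem root_of_prod (π : ∀ i, K i) {a : ℂ}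
    (ha : a ∈ (∏ i, minpoly ℚ (π i)).rootSet ℂ) : ∃ y : Σ i, (K i →+* ℂ), val π y = a := by
  classical
  rw [Polynomial.mem_rootSet, map_prod] at ha
  obtain ⟨i, -, hi⟩ := Finset.prod_eq_zero_iff.1 ha.2
  have h3 : a ∈ (minpoly ℚ (π i)).rootSet ℂ := by
    rw [Polynomial.mem_rootSet]
    exact ⟨(minpoly.ne_zero (Algebra.IsIntegral.isIntegral (π i))), hi⟩
  rw [← NumberField.Embeddings.range_eval_eq_rootSet_minpoly (K i) ℂ (π i)] at h3
  obtain ⟨ψ, hψ⟩ := h3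
  exact ⟨⟨i, ψ⟩, hψ⟩

theorem two_of_free {q : ℚ}
    (π : ∀ i, K i) (hweil : ∀ i, ∀ φ : K i →+* ℂ, ‖φ (π i)‖ ^ 2 = (q : ℝ)) {k : ℕ}
    (hk : 2 ≤ k) (hsf : ShortFree K q π k) {s : ℕ} (hs : 0 < s) (x y : Σ i, (K i →+* ℂ))
    (h : (val π x * val π y) ^ (2 * s) = ((q : ℂ) ^ 2) ^ s) : val π x * val π y = (q : ℂ) := by
  classical
  have h1 := count_eq K π hsf hk (RingHom.id ℂ) ![x, y] s hs (by
    rw [Fin.prod_univ_two]
    exact h) x
  have h2 : 0 < (Finset.univ.filter (fun l => (![x, y] : Fin 2 → _) l = x)).card :=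
    Finset.card_pos.2 ⟨0, by simp⟩
  rw [h1] at h2
  obtain ⟨l, hl⟩ := Finset.card_pos.1 h2
  rw [Finset.mem_filter] at hl
  fin_cases l
  · exact absurd hl.2.symm (bar_ne x)
  · have h3 : y = bar x := hl.2
    rw [h3]
    exact val_barC K hweil (RingHom.id ℂ) x

/-- Only trivial relations of length four. -/
theorem four_of_free {q : ℕ} (hq : 0 < q)
    (π : ∀ i, K i) (hweil : ∀ i, ∀ φ : K i →+* ℂ, ‖φ (π i)‖ ^ 2 = (q : ℝ)) {k : ℕ}
    (hk : 4 ≤ k) (hsf : ShortFree K q π k) :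
    OnlyTrivialRelationsOfLengthFour (∏ i, minpoly ℚ (π i)) q := by
  classical
  have hweil' : ∀ i, ∀ φ : K i →+* ℂ, ‖φ (π i)‖ ^ 2 = (((q : ℚ) : ℝ)) := by
    intro i φ
    rw [hweil]
    norm_cast
  have hqC : ((q : ℚ) : ℂ) = (q : ℂ) := by norm_cast
  have hq0 : (q : ℂ) ≠ 0 := Nat.cast_ne_zero.2 hq.ne'
  intro M hM a ha b hb c hc d hd hrel
  obtain ⟨a, rfl⟩ := root_of_prod K π ha
  obtain ⟨b, rfl⟩ := root_of_prod K π hb
  obtain ⟨c, rfl⟩ := root_of_prod K π hc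
  obtain ⟨d, rfl⟩ := root_of_prod K π hd
  have h1 := count_eq K π hsf hk (RingHom.id ℂ) ![a, b, c, d] M hM (by
    rw [Fin.prod_univ_four, mul_comm 2 M, pow_mul]
    change ((val π a * val π b * val π c * val π d) ^ M) ^ 2 = _
    rw [hrel, hqC, ← pow_mul, ← pow_mul]
    congr 1
    ring) a
  have h2 : 0 < (Finset.univ.filter (fun l => (![a, b, c, d] : Fin 4 → _) l = a)).card :=
    Finset.card_pos.2 ⟨0, by simp⟩
  rw [h1] at h2
  obtain ⟨l, hl⟩ := Finset.card_pos.1 h2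
  rw [Finset.mem_filter] at hl
  have hrest : ∀ x y z w : Σ i, (K i →+* ℂ), y = bar x →
      (val π x * val π y * val π z * val π w) ^ M = (q : ℂ) ^ (2 * M) →
      val π x * val π y = q ∧ val π z * val π w = q := by
    rintro x y z w rfl hr
    have h3 : val π x * val π (bar x) = (q : ℂ) := by
      rw [val_barC K hweil' (RingHom.id ℂ) x, hqC]
    refine ⟨h3, ?_⟩
    rw [h3, mul_assoc, mul_pow, mul_comm 2 M, pow_mul, sq] at hr
    have h4 := mul_left_cancel₀ (pow_ne_zero M hq0) hr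
    rw [← hqC]
    apply two_of_free K π hweil' (by omega) hsf hM
    rw [mul_comm 2 M, pow_mul, h4, hqC, ← pow_mul, ← pow_mul]
    congr 1
    ring
  fin_cases l
  · exact absurd hl.2.symm (bar_ne a)
  · exact Or.inl (hrest a b c d hl.2 hrel)
  · refine Or.inr (Or.inl (hrest a c b d hl.2 ?_))
    rw [← hrel]
    congr 1
    ring
  · refine Or.inr (Or.inr ?_)
    have h5 := hrest a d b c hl.2 (by
      rw [← hrel]
      congr 1
      ring)
    exact h5

end four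

/-- Tate classes of low codimension are generated by divisors. -/
theorem codim_low {I : Type} [Fintype I] (K : I → Type) [∀ i, Field (K i)]
    [∀ i, NumberField (K i)] [∀ i, IsCMField (K i)]
    {q : ℚ} (hq : 0 < q)
    (π : ∀ i, K i) (hweil : ∀ i, ∀ φ : K i →+* ℂ, ‖φ (π i)‖ ^ 2 = (q : ℝ)) {m : ℕ} (hM : 1 ≤ m)
    (hsf : ShortFree K q π (2 * m))
    {k V Γ : Type} [Field k] [CharZero k] [AddCommGroup V] [Module k V]
    [FiniteDimensional k V] [Group Γ] {ρ : Representation k Γ V} {χ : Γ →* k}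
    {ω : V →ₗ[k] V →ₗ[k] k} (h : IsTateModule ρ χ ω) {γ : Γ} (hχ : χ γ = (q : k))
    (hγ : (ρ γ).charpoly = ∏ i, (minpoly ℚ (π i)).map (algebraMap ℚ k)) :
    GeneratedInCodimension ρ χ m := by
  intro n f hf
  obtain ⟨Δ, hΔ, hf⟩ := hf
  have hss' : ∀ Δ : Subgroup Γ, Δ.FiniteIndex → SemiUnder (ρ '' (Δ : Set Γ)) := by
    intro Δ hΔ U hU
    obtain ⟨U', h1, h2⟩ := h.semisimple Δ hΔ U (fun s hs u hu => hU _ ⟨s, hs, rfl⟩ u hu)
    refine ⟨U', ?_, h2⟩
    rintro _ ⟨s, hs, rfl⟩ u hu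
    exact h1 s hs u hu
  have h1 := altG_of_tate_mem ρ χ (n := n) (m := m) (fun φ hφ => tate_low K hq π hweil hM hsf
    ρ χ ω h.alt h.nondeg h.similitude hss' γ hχ hγ le_rfl φ hφ) f Δ hΔ hf
  refine Submodule.span_mono ?_ h1
  rintro g ⟨B, hB, hg⟩
  refine ⟨B, fun l => ?_, hg⟩
  obtain ⟨Δ', hΔ', h2⟩ := hB l
  refine ⟨Δ', hΔ', fun s hs v => ?_⟩
  rw [pow_one]
  exact h2 s hs v

end

end Pool.Agent.Q43.RP
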