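import Pool.Agent.TH776.FM.MTDefs
import Pool.Agent.W516.MT.AllFinal
import Pool.Agent.H204R3.GP.MT
import Pool.Agent.Q43.RP.Low4

/-!
# Hodge classes and Tate classes from one Frobenius element without short relations
-/

set_option autoImplicit false
set_option linter.unusedSectionVars false

namespace Pool.Agent.Q43.RP

open NumberField Module TensorProduct Pool.Agent.H204R3.CM Pool.Agent.H204R3.SP
  Pool.Agent.H204R3.GP Pool.Agent.W516.FT Pool.Agent.TH776.FM Pool.Agent.TH776.FL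
  Pool.Agent.W516.MTD

noncomputable section

variable {I : Type} [Fintype I] (K : I → Type) [∀ i, Field (K i)] [∀ i, NumberField (K i)]
  [∀ i, IsCMField (K i)]

/-- The Mumford-Tate conjecture from one Frobenius element without relations of length four. -/
theorem mt_free {q : ℕ} (hq : 0 < q) (π : ∀ i, K i)
    (hweil : ∀ i, ∀ φ : K i →+* ℂ, ‖φ (π i)‖ ^ 2 = (q : ℝ))
    (hsf : ShortFree K (q : ℚ) π 4)
    {k H T Γ : Type} [Field k] [CharZero k] [AddCommGroup H] [Module ℚ H] [FiniteDimensional ℚ H]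
    [AddCommGroup T] [Module ℂ T] [Group Γ] {per : H →+ T} {ω₀ : H →ₗ[ℚ] H →ₗ[ℚ] ℚ}
    {ρ : Representation k Γ (k ⊗[ℚ] H)} {χ : Γ →* k}
    {ω : k ⊗[ℚ] H →ₗ[k] k ⊗[ℚ] H →ₗ[k] k} (h : IsAbelianVariety per ω₀ ρ χ ω)
    (γ : Γ) (hχ : χ γ = q) (hγ : (ρ γ).charpoly = (∏ i, minpoly ℚ (π i)).map (algebraMap ℚ k))
    (m : ℕ) (φ : MultilinearMap k (fun _ : Fin m × Fin 2 => k ⊗[ℚ] H) k)
    (hφ : IsTateTensor ρ χ m φ) : IsHodgeCombination per φ := by
  have hweil' : ∀ i, ∀ φ : K i →+* ℂ, ‖φ (π i)‖ ^ 2 = (((q : ℚ) : ℝ)) := by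
    intro i φ
    rw [hweil]
    norm_cast
  exact Pool.Agent.W516.MTM.mt_of_four per ρ χ ω₀ ω h.hodge
    (fun u v => by rw [h.compatible, eq_ratCast])
    h.similitude h.deligne h.rational h.alt h.nondeg h.semisimple h.faltings h.centres γ hχ
    (charpoly_separable K π hweil' (by norm_num) hsf) hγ (four_of_free K hq π hweil le_rfl hsf) m φ hφ

/-- Tate classes of low codimension are generated by Hodge classes of degree two. -/
theorem hodge_low {q : ℚ} (hq : 0 < q) (π : ∀ i, K i)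
    (hweil : ∀ i, ∀ φ : K i →+* ℂ, ‖φ (π i)‖ ^ 2 = (q : ℝ)) {M : ℕ} (hM : 1 ≤ M)
    (hsf : ShortFree K q π (2 * M))
    {k H T Γ : Type} [Field k] [CharZero k] [AddCommGroup H] [Module ℚ H] [FiniteDimensional ℚ H]
    [AddCommGroup T] [Module ℂ T] [Group Γ] {per : H →+ T} {ω₀ : H →ₗ[ℚ] H →ₗ[ℚ] ℚ}
    {ρ : Representation k Γ (k ⊗[ℚ] H)} {χ : Γ →* k}
    {ω : k ⊗[ℚ] H →ₗ[k] k ⊗[ℚ] H →ₗ[k] k} (h : IsAbelianVariety per ω₀ ρ χ ω)
    (γ : Γ) (hχ : χ γ = q) (hγ : (ρ γ).charpoly = (∏ i, minpoly ℚ (π i)).map (algebraMap ℚ k))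
    {m : ℕ} (hm : m ≤ M) (φ : MultilinearMap k (fun _ : Fin m × Fin 2 => k ⊗[ℚ] H) k)
    (hφ : IsTateTensor ρ χ m φ) :
    φ ∈ Submodule.span k {φ' : MultilinearMap k (fun _ : Fin m × Fin 2 => k ⊗[ℚ] H) k |
      ∃ ψ : MultilinearMap ℚ (fun _ : Fin m × Fin 2 => H) ℚ, IsHodgeTensor per ψ ∧
        IsProductOfHodgeBilinear per ψ ∧
        ∀ v : Fin m × Fin 2 → H, φ' (fun l => (1 : k) ⊗ₜ[ℚ] v l) = ((ψ v : ℚ) : k)} := by
  classical
  have hanti : ∀ u v, ω u v = - ω v u := by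
    intro u v
    have h1 := h.alt (u + v)
    simp only [map_add, LinearMap.add_apply, h.alt, zero_add, add_zero] at h1
    linear_combination h1
  have hnd : ∀ u, (∀ v, ω v u = 0) → u = 0 := by
    intro u hu
    apply h.nondeg
    intro v
    rw [hanti, hu, neg_zero]
  have hss' : ∀ Δ : Subgroup Γ, Δ.FiniteIndex → SemiUnder (ρ '' (Δ : Set Γ)) := by
    intro Δ hΔ U hU
    obtain ⟨U', h1, h2⟩ := h.semisimple Δ hΔ U (fun s hs u hu => hU _ ⟨s, hs, rfl⟩ u hu)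
    refine ⟨U', ?_, h2⟩
    rintro _ ⟨s, hs, rfl⟩ u hu
    exact h1 s hs u hu
  let comp : H →+ k ⊗[ℚ] H :=
    { toFun := fun w => (1 : k) ⊗ₜ[ℚ] w
      map_zero' := TensorProduct.tmul_zero _ _
      map_add' := fun a b => TensorProduct.tmul_add _ _ _ }
  have hF : FaltingsEnd per comp ρ := by
    intro P hP
    refine Submodule.span_mono ?_ (h.faltings P hP)
    rintro _ ⟨P₀, hP₀, rfl⟩
    exact ⟨P₀, hP₀, fun w => LinearMap.baseChange_tmul _ _ _⟩
  have h1 : φ ∈ Submodule.span k (PT ρ χ m) :=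
    tate_low K hq π hweil hM hsf ρ χ ω h.alt hnd h.similitude hss' γ hχ
      (by rw [hγ, Polynomial.map_prod]) hm φ hφ
  refine Submodule.span_le.2 ?_ h1
  rintro _ ⟨σ, B, hB, rfl⟩
  have h2 := mmG_mem_span σ (HB (k := k) per comp) B fun l =>
    tate2_mem per comp ρ χ ω h.nondeg h.similitude ω₀ h.hodge h.compatible hF (B l) (hB l)
  refine Submodule.span_mono ?_ h2
  rintro _ ⟨B', hB', rfl⟩
  exact mm_good per comp σ B' hB'

end

end Pool.Agent.Q43.RP
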