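import Mathlib

/-!
# Averages and norms of functions on finite types
-/

set_option autoImplicit false
set_option linter.unusedSectionVars false

namespace Pool.Agent.Q43.RP

open Finset

noncomputable section

/-- average over a finite type -/
def av {Ω : Type*} [Fintype Ω] (F : Ω → ℝ) : ℝ := (∑ ω, F ω) / Fintype.card Ω

/-- the norm of exponent `p` -/
def nm {Ω : Type*} [Fintype Ω] (p : ℕ) (F : Ω → ℝ) : ℝ := (av fun ω => |F ω| ^ p) ^ (1 / (p : ℝ))

variable {Ω Ω' : Type*} [Fintype Ω] [Fintype Ω']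

theorem av_mono {F G : Ω → ℝ} (h : ∀ ω, F ω ≤ G ω) : av F ≤ av G := by
  unfold av
  exact div_le_div_of_nonneg_right (Finset.sum_le_sum fun ω _ => h ω) (Nat.cast_nonneg _)

theorem av_nonneg {F : Ω → ℝ} (h : ∀ ω, 0 ≤ F ω) : 0 ≤ av F :=
  div_nonneg (Finset.sum_nonneg fun ω _ => h ω) (Nat.cast_nonneg _)

theorem av_const [Nonempty Ω] (c : ℝ) : av (fun _ : Ω => c) = c := by
  unfold av
  rw [Finset.sum_const, Finset.card_univ, nsmul_eq_mul]
  have : (0 : ℝ) < Fintype.card Ω := by exact_mod_cast Fintype.card_pos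
  field_simp

theorem av_add (F G : Ω → ℝ) : av (fun ω => F ω + G ω) = av F + av G := by
  unfold av
  rw [Finset.sum_add_distrib, add_div]

theorem av_mul (c : ℝ) (F : Ω → ℝ) : av (fun ω => c * F ω) = c * av F := by
  unfold av
  rw [← Finset.mul_sum, mul_div_assoc]

theorem av_sum {ι : Type*} (s : Finset ι) (F : ι → Ω → ℝ) :
    av (fun ω => ∑ i ∈ s, F i ω) = ∑ i ∈ s, av (F i) := by
  unfold av
  rw [Finset.sum_comm, Finset.sum_div]

theorem av_equiv (e : Ω ≃ Ω') (F : Ω' → ℝ) : av (fun ω => F (e ω)) = av F := by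
  unfold av
  rw [Fintype.card_congr e, Equiv.sum_comp e F]

theorem av_comm (F : Ω → Ω' → ℝ) : av (fun ω => av (fun ω' => F ω ω')) =
    av (fun ω' => av (fun ω => F ω ω')) := by
  unfold av
  rw [← Finset.sum_div, ← Finset.sum_div, Finset.sum_comm, div_div, div_div, mul_comm (Fintype.card Ω : ℝ)]

theorem av_prod (F : Ω × Ω' → ℝ) : av F = av (fun ω' => av (fun ω => F (ω, ω'))) := by
  unfold av
  rw [Fintype.sum_prod_type_right, Fintype.card_prod, ← Finset.sum_div, div_div]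
  push_cast
  rfl

theorem nm_nonneg (p : ℕ) (F : Ω → ℝ) : 0 ≤ nm p F :=
  Real.rpow_nonneg (av_nonneg fun ω => by positivity) _

theorem nm_pow {p : ℕ} (hp : p ≠ 0) (F : Ω → ℝ) : nm p F ^ p = av fun ω => |F ω| ^ p := by
  unfold nm
  have h0 : 0 ≤ av fun ω => |F ω| ^ p := av_nonneg fun ω => by positivity
  rw [← Real.rpow_natCast, ← Real.rpow_mul h0, one_div, inv_mul_cancel₀ (by exact_mod_cast hp),
    Real.rpow_one]

theorem nm_le_of_av_le {p : ℕ} (hp : p ≠ 0) {F : Ω → ℝ} {c : ℝ} (hc : 0 ≤ c)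
    (h : (av fun ω => |F ω| ^ p) ≤ c ^ p) : nm p F ≤ c := by
  rw [← nm_pow hp] at h
  exact le_of_pow_le_pow_left₀ hp hc h

theorem av_le_of_nm_le {p : ℕ} (hp : p ≠ 0) {F : Ω → ℝ} {c : ℝ}
    (h : nm p F ≤ c) : (av fun ω => |F ω| ^ p) ≤ c ^ p := by
  rw [← nm_pow hp]
  exact pow_le_pow_left₀ (nm_nonneg p F) h p

theorem nm_mono {p : ℕ} {F G : Ω → ℝ} (h : ∀ ω, |F ω| ≤ |G ω|) : nm p F ≤ nm p G := by
  unfold nm
  refine Real.rpow_le_rpow (av_nonneg fun ω => by positivity) (av_mono fun ω => ?_) (by positivity)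
  exact pow_le_pow_left₀ (abs_nonneg _) (h ω) p

theorem nm_equiv (p : ℕ) (e : Ω ≃ Ω') (F : Ω' → ℝ) : nm p (fun ω => F (e ω)) = nm p F := by
  unfold nm
  rw [av_equiv e (fun ω => |F ω| ^ p)]

theorem nm_const [Nonempty Ω] {p : ℕ} (hp : p ≠ 0) (c : ℝ) : nm p (fun _ : Ω => c) = |c| := by
  unfold nm
  rw [av_const, ← Real.rpow_natCast, ← Real.rpow_mul (abs_nonneg c), one_div,
    mul_inv_cancel₀ (by exact_mod_cast hp), Real.rpow_one]

theorem nm_mul {p : ℕ} (hp : p ≠ 0) (c : ℝ) (F : Ω → ℝ) :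
    nm p (fun ω => c * F ω) = |c| * nm p F := by
  refine (pow_left_inj₀ (nm_nonneg _ _) (mul_nonneg (abs_nonneg _) (nm_nonneg _ _)) hp).1 ?_
  rw [mul_pow, nm_pow hp, nm_pow hp, ← av_mul]
  congr 1
  funext ω
  rw [abs_mul, mul_pow]

theorem nm_add_le {p : ℕ} (hp : p ≠ 0) (F G : Ω → ℝ) :
    nm p (fun ω => F ω + G ω) ≤ nm p F + nm p G := by
  have hp1 : (1 : ℝ) ≤ p := by exact_mod_cast Nat.one_le_iff_ne_zero.2 hp
  have h := Real.Lp_add_le Finset.univ F G hp1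
  simp only [Real.rpow_natCast] at h
  unfold nm av
  rw [Real.div_rpow (Finset.sum_nonneg fun _ _ => by positivity) (Nat.cast_nonneg _),
    Real.div_rpow (Finset.sum_nonneg fun _ _ => by positivity) (Nat.cast_nonneg _),
    Real.div_rpow (Finset.sum_nonneg fun _ _ => by positivity) (Nat.cast_nonneg _), ← add_div]
  exact div_le_div_of_nonneg_right h (by positivity)

theorem nm_zero {p : ℕ} (hp : p ≠ 0) : nm p (fun _ : Ω => (0 : ℝ)) = 0 := by
  refine le_antisymm (nm_le_of_av_le hp le_rfl ?_) (nm_nonneg _ _)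
  rw [zero_pow hp]
  unfold av
  simp [hp]

theorem nm_sum_le {p : ℕ} (hp : p ≠ 0) {ι : Type*} (s : Finset ι) (F : ι → Ω → ℝ) :
    nm p (fun ω => ∑ i ∈ s, F i ω) ≤ ∑ i ∈ s, nm p (F i) := by
  classical
  induction s using Finset.induction_on with
  | empty => simp only [Finset.sum_empty]; exact (nm_zero hp).le
  | insert a s ha ih =>
    simp only [Finset.sum_insert ha]
    exact (nm_add_le hp _ _).trans (add_le_add le_rfl ih)

/-- Minkowski's inequality for averages. -/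
theorem nm_av_le {p : ℕ} (hp : p ≠ 0) (F : Ω' → Ω → ℝ) :
    nm p (fun ω => av (fun i => F i ω)) ≤ av (fun i => nm p (F i)) := by
  have h1 : (fun ω => av (fun i => F i ω)) =
      fun ω => ((Fintype.card Ω' : ℝ))⁻¹ * ∑ i, F i ω := by
    funext ω
    unfold av
    rw [inv_mul_eq_div]
  have h2 : av (fun i => nm p (F i)) = ((Fintype.card Ω' : ℝ))⁻¹ * ∑ i, nm p (F i) := by
    unfold av
    rw [inv_mul_eq_div]
  rw [h1, nm_mul hp, abs_of_nonneg (by positivity), h2]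
  exact mul_le_mul_of_nonneg_left (nm_sum_le hp _ _) (by positivity)

/-- The norms are monotone in the exponent. -/
theorem nm_le_nm [Nonempty Ω] {p q : ℕ} (hp : p ≠ 0) (hpq : p ≤ q) (F : Ω → ℝ) :
    nm p F ≤ nm q F := by
  have hq : q ≠ 0 := by omega
  have hcard : (0 : ℝ) < Fintype.card Ω := by exact_mod_cast Fintype.card_pos
  have hp0 : (0 : ℝ) < p := by exact_mod_cast Nat.pos_of_ne_zero hp
  have h1 := Real.rpow_arith_mean_le_arith_mean_rpow Finset.univ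
    (fun _ : Ω => 1 / (Fintype.card Ω : ℝ)) (fun ω => |F ω| ^ p) (fun _ _ => by positivity)
    (by rw [Finset.sum_const, Finset.card_univ, nsmul_eq_mul]; field_simp)
    (fun _ _ => by positivity) (p := (q : ℝ) / p) (by
      rw [one_le_div hp0]
      exact_mod_cast hpq)
  have h2 : ∑ ω, 1 / (Fintype.card Ω : ℝ) * |F ω| ^ p = av fun ω => |F ω| ^ p := by
    unfold av
    rw [← Finset.mul_sum, one_div, inv_mul_eq_div]
  have h3 : ∑ ω, 1 / (Fintype.card Ω : ℝ) * (|F ω| ^ p) ^ ((q : ℝ) / p) =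
      av fun ω => |F ω| ^ q := by
    unfold av
    rw [← Finset.mul_sum, one_div, inv_mul_eq_div]
    congr 1
    refine Finset.sum_congr rfl fun ω _ => ?_
    change (|F ω| ^ p) ^ ((q : ℝ) / p) = |F ω| ^ q
    rw [← Real.rpow_natCast, ← Real.rpow_mul (abs_nonneg _), ← Real.rpow_natCast (|F ω|) q]
    congr 1
    field_simp
  rw [h2, h3] at h1
  refine nm_le_of_av_le hp (nm_nonneg _ _) ?_
  have h0 : 0 ≤ av fun ω => |F ω| ^ p := av_nonneg fun ω => by positivity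
  have h4 : ((av fun ω => |F ω| ^ p) ^ ((q : ℝ) / p)) ^ ((p : ℝ) / q) ≤
      (av fun ω => |F ω| ^ q) ^ ((p : ℝ) / q) :=
    Real.rpow_le_rpow (Real.rpow_nonneg h0 _) h1 (by positivity)
  rw [← Real.rpow_mul h0] at h4
  have hq0 : (0 : ℝ) < q := by exact_mod_cast Nat.pos_of_ne_zero hq
  have h5 : (q : ℝ) / p * (p / q) = 1 := by field_simp
  rw [h5, Real.rpow_one] at h4
  refine h4.trans (le_of_eq ?_)
  unfold nm
  rw [← Real.rpow_natCast, ← Real.rpow_mul (av_nonneg fun ω => by positivity)]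
  congr 1
  field_simp

/-- Markov's inequality. -/
theorem card_le {p : ℕ} (hp : p ≠ 0) (F : Ω → ℝ) {t : ℝ} (ht : 0 < t) :
    ((Finset.univ.filter (fun ω => t ≤ |F ω|)).card : ℝ) ≤
      Fintype.card Ω * (nm p F / t) ^ p := by
  rcases isEmpty_or_nonempty Ω with h | h
  · simp
  have hcard : (0 : ℝ) < Fintype.card Ω := by exact_mod_cast Fintype.card_pos
  rw [div_pow, nm_pow hp]
  have h1 : ((Finset.univ.filter (fun ω => t ≤ |F ω|)).card : ℝ) * t ^ p ≤ ∑ ω, |F ω| ^ p := by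
    calc ((Finset.univ.filter (fun ω => t ≤ |F ω|)).card : ℝ) * t ^ p =
          ∑ ω ∈ Finset.univ.filter (fun ω => t ≤ |F ω|), t ^ p := by
          rw [Finset.sum_const, nsmul_eq_mul]
      _ ≤ ∑ ω ∈ Finset.univ.filter (fun ω => t ≤ |F ω|), |F ω| ^ p :=
          Finset.sum_le_sum fun ω hω => pow_le_pow_left₀ ht.le (Finset.mem_filter.1 hω).2 p
      _ ≤ ∑ ω, |F ω| ^ p :=
          Finset.sum_le_sum_of_subset_of_nonneg (Finset.filter_subset _ _)
            (fun _ _ _ => by positivity)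
  have h2 : (Fintype.card Ω : ℝ) * ((av fun ω => |F ω| ^ p) / t ^ p) = (∑ ω, |F ω| ^ p) / t ^ p := by
    unfold av
    field_simp
  rw [h2, le_div_iff₀ (by positivity)]
  exact h1

/-- A function of the second variable. -/
theorem nm_snd [Nonempty Ω] (p : ℕ) (F : Ω' → ℝ) :
    nm p (fun x : Ω × Ω' => F x.2) = nm p F := by
  unfold nm
  rw [av_prod]
  congr 2
  funext ω'
  exact av_const (Ω := Ω) (|F ω'| ^ p)

theorem nm_fst [Nonempty Ω'] (p : ℕ) (F : Ω → ℝ) :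
    nm p (fun x : Ω × Ω' => F x.1) = nm p F := by
  unfold nm
  rw [av_prod]
  congr 1
  exact av_const (Ω := Ω') (av fun ω => |F ω| ^ p)

/-- Norms of functions on products. -/
theorem nm_prod_le {p : ℕ} (hp : p ≠ 0) {F : Ω × Ω' → ℝ} {G : Ω' → ℝ} {c : ℝ} (hc : 0 ≤ c)
    (hG : ∀ ω', 0 ≤ G ω')
    (h : ∀ ω', nm p (fun ω => F (ω, ω')) ≤ c * G ω') : nm p F ≤ c * nm p G := by
  refine nm_le_of_av_le hp (mul_nonneg hc (nm_nonneg _ _)) ?_
  rw [av_prod, mul_pow, nm_pow hp, ← av_mul]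
  refine av_mono fun ω' => ?_
  refine (av_le_of_nm_le hp (h ω')).trans (le_of_eq ?_)
  rw [mul_pow, abs_of_nonneg (hG ω')]

theorem nm_swap (p : ℕ) (F : Ω × Ω' → ℝ) :
    nm p (fun x : Ω' × Ω => F (x.2, x.1)) = nm p F :=
  nm_equiv p (Equiv.prodComm Ω' Ω) F

theorem nm_prod_le' {p : ℕ} (hp : p ≠ 0) {F : Ω × Ω' → ℝ} {G : Ω → ℝ} {c : ℝ} (hc : 0 ≤ c)
    (hG : ∀ ω, 0 ≤ G ω)
    (h : ∀ ω, nm p (fun ω' => F (ω, ω')) ≤ c * G ω) : nm p F ≤ c * nm p G := by
  rw [← nm_swap]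
  exact nm_prod_le hp hc hG h

end

end Pool.Agent.Q43.RP
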