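import Mathlib
import Pool.Agent.Q43.RP.Nm
import Pool.Agent.BAPp.Khin

/-!
# Sums with random signs
-/

set_option autoImplicit false
set_option linter.unusedSectionVars false

namespace Pool.Agent.Q43.RP

open Finset
open scoped RealInnerProductSpace

noncomputable section

/-- the sign -/
def sg (b : Bool) : ℝ := if b then 1 else -1

theorem sg_sq (b : Bool) : sg b ^ 2 = 1 := by
  cases b <;> simp [sg]

theorem sg_mul_self (b : Bool) : sg b * sg b = 1 := by
  cases b <;> simp [sg]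

theorem abs_sg (b : Bool) : |sg b| = 1 := by
  cases b <;> simp [sg]

variable {X : Type*} [Fintype X] [DecidableEq X]

/-- the vector of signs -/
def sv (ω : X → Bool) : EuclideanSpace ℝ X := WithLp.toLp 2 (fun x => sg (ω x))

/-- the vector with the coordinates outside of `I` replaced by zero -/
def res (I : Finset X) (v : EuclideanSpace ℝ X) : EuclideanSpace ℝ X :=
  WithLp.toLp 2 (fun x => if x ∈ I then v x else 0)

@[simp] theorem sv_apply (ω : X → Bool) (x : X) : sv ω x = sg (ω x) := rfl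

@[simp] theorem res_apply (I : Finset X) (v : EuclideanSpace ℝ X) (x : X) :
    res I v x = if x ∈ I then v x else 0 := rfl

theorem norm_res_le (I : Finset X) (v : EuclideanSpace ℝ X) : ‖res I v‖ ≤ ‖v‖ := by
  rw [EuclideanSpace.norm_eq, EuclideanSpace.norm_eq]
  refine Real.sqrt_le_sqrt (Finset.sum_le_sum fun x _ => ?_)
  rw [res_apply]
  split_ifs
  · exact le_rfl
  · simp only [norm_zero, ne_eq, OfNat.ofNat_ne_zero, not_false_eq_true, zero_pow]
    positivity

theorem inner_eq (u v : EuclideanSpace ℝ X) : ⟪u, v⟫ = ∑ x, u x * v x := by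
  rw [PiLp.inner_apply]
  refine Finset.sum_congr rfl fun x _ => ?_
  simp [mul_comm]

theorem inner_res (I : Finset X) (u v : EuclideanSpace ℝ X) : ⟪res I u, v⟫ = ⟪u, res I v⟫ := by
  rw [inner_eq, inner_eq]
  refine Finset.sum_congr rfl fun x _ => ?_
  rw [res_apply, res_apply]
  split_ifs <;> simp

theorem two_mul_factorial_le {n : ℕ} (hn : 2 ≤ n) : 2 * n.factorial ≤ n ^ n := by
  induction n, hn using Nat.le_induction with
  | base => decide
  | succ n hn ih =>
    rw [Nat.factorial_succ]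
    calc 2 * ((n + 1) * n.factorial) = (n + 1) * (2 * n.factorial) := by ring
      _ ≤ (n + 1) * n ^ n := Nat.mul_le_mul_left _ ih
      _ ≤ (n + 1) * (n + 1) ^ n := Nat.mul_le_mul_left _ (Nat.pow_le_pow_left (by omega) n)
      _ = (n + 1) ^ (n + 1) := by ring

/-- Even moments of sums with random signs. -/
theorem rad_moment (v : EuclideanSpace ℝ X) {m : ℕ} (hm : m ≠ 0) :
    av (fun ω : X → Bool => |⟪sv ω, v⟫| ^ (2 * m)) ≤ (2 * Real.exp 1 * m * ‖v‖ ^ 2) ^ m := by
  have hcard : (Fintype.card (X → Bool) : ℝ) = 2 ^ Fintype.card X := by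
    rw [Fintype.card_fun, Fintype.card_bool]
    push_cast
    rfl
  rcases (norm_nonneg v).eq_or_lt with h0 | h0
  · have hv : v = 0 := norm_eq_zero.1 h0.symm
    subst hv
    have h1 : (fun ω : X → Bool => |⟪sv ω, (0 : EuclideanSpace ℝ X)⟫| ^ (2 * m)) = fun _ => 0 := by
      funext ω
      rw [inner_zero_right, abs_zero, zero_pow (by omega)]
    rw [h1, av_const]
    positivity
  · set s := ‖v‖ with hs
    set lam : ℝ := Real.sqrt (2 * m) / s with hlam
    have hm0 : (0 : ℝ) < m := by exact_mod_cast Nat.pos_of_ne_zero hm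
    have hl0 : 0 < lam := div_pos (Real.sqrt_pos.2 (by positivity)) h0
    have hl2 : lam ^ 2 * s ^ 2 = 2 * m := by
      rw [hlam, div_pow, Real.sq_sqrt (by positivity)]
      field_simp
    have hnorm : ∑ x, v x ^ 2 = s ^ 2 := by
      rw [hs, EuclideanSpace.norm_eq, Real.sq_sqrt (Finset.sum_nonneg fun _ _ => by positivity)]
      refine Finset.sum_congr rfl fun x _ => ?_
      rw [Real.norm_eq_abs, sq_abs]
    have hinner : ∀ ω : X → Bool, ⟪sv ω, v⟫ = ∑ x, Pool.Agent.BAPp.sgn (ω x) * v x := by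
      intro ω
      rw [inner_eq]
      rfl
    -- the two exponential moments
    have e1 : ∀ c : ℝ, ∑ ω : X → Bool, Real.exp (c * ⟪sv ω, v⟫) ≤
        2 ^ Fintype.card X * Real.exp (c ^ 2 * s ^ 2 / 2) := by
      intro c
      have h1 := Pool.Agent.BAPp.Khin.sum_exp_le (fun x => c * v x)
      have h2 : ∀ ω : X → Bool, ∑ x, Pool.Agent.BAPp.sgn (ω x) * (c * v x) = c * ⟪sv ω, v⟫ := by
        intro ω
        rw [hinner, Finset.mul_sum]
        exact Finset.sum_congr rfl fun x _ => by ring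
      have h3 : ∑ x, (c * v x) ^ 2 = c ^ 2 * s ^ 2 := by
        rw [← hnorm, Finset.mul_sum]
        exact Finset.sum_congr rfl fun x _ => by ring
      simp only [h2, h3] at h1
      exact h1
    have key : ∀ y : ℝ, |y| ^ (2 * m) ≤ ((2 * m).factorial : ℝ) / lam ^ (2 * m) *
        (Real.exp (lam * y) + Real.exp (-lam * y)) := by
      intro y
      have h1 := Real.pow_div_factorial_le_exp (|lam * y|) (abs_nonneg _) (2 * m)
      have hf : (0 : ℝ) < ((2 * m).factorial : ℝ) := by exact_mod_cast Nat.factorial_pos _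
      rw [div_le_iff₀ hf, abs_mul, abs_of_pos hl0, mul_pow] at h1
      have h3 : Real.exp (lam * |y|) ≤ Real.exp (lam * y) + Real.exp (-lam * y) := by
        rcases abs_cases y with ⟨h, _⟩ | ⟨h, _⟩
        · rw [h]
          linarith [Real.exp_pos (-lam * y)]
        · rw [h, mul_neg, neg_mul]
          linarith [Real.exp_pos (lam * y)]
      rw [div_mul_eq_mul_div, le_div_iff₀ (by positivity), mul_comm]
      exact h1.trans (by
        rw [mul_comm]
        exact mul_le_mul_of_nonneg_left h3 hf.le)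
    unfold av
    rw [hcard, div_le_iff₀ (by positivity)]
    have hexp : lam ^ 2 * s ^ 2 / 2 = m := by
      rw [hl2]
      ring
    have e2 := e1 lam
    have e3 := e1 (-lam)
    rw [hexp] at e2
    rw [neg_sq, hexp] at e3
    have hfac : (2 : ℝ) * ((2 * m).factorial : ℝ) ≤ (2 * m) ^ (2 * m) := by
      have := two_mul_factorial_le (n := 2 * m) (by omega)
      exact_mod_cast this
    calc ∑ ω : X → Bool, |⟪sv ω, v⟫| ^ (2 * m)
        ≤ ∑ ω : X → Bool, ((2 * m).factorial : ℝ) / lam ^ (2 * m) *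
          (Real.exp (lam * ⟪sv ω, v⟫) + Real.exp (-lam * ⟪sv ω, v⟫)) :=
          Finset.sum_le_sum fun ω _ => key _
      _ = ((2 * m).factorial : ℝ) / lam ^ (2 * m) *
          ((∑ ω : X → Bool, Real.exp (lam * ⟪sv ω, v⟫)) +
            ∑ ω : X → Bool, Real.exp (-lam * ⟪sv ω, v⟫)) := by
          rw [← Finset.mul_sum, Finset.sum_add_distrib]
      _ ≤ ((2 * m).factorial : ℝ) / lam ^ (2 * m) *
          (2 ^ Fintype.card X * Real.exp m + 2 ^ Fintype.card X * Real.exp m) :=
          mul_le_mul_of_nonneg_left (add_le_add e2 e3) (by positivity)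
      _ = (2 * ((2 * m).factorial : ℝ)) / lam ^ (2 * m) * Real.exp m * 2 ^ Fintype.card X := by
          ring
      _ ≤ (2 * m) ^ (2 * m) / lam ^ (2 * m) * Real.exp m * 2 ^ Fintype.card X := by
          gcongr
      _ = (2 * Real.exp 1 * m * s ^ 2) ^ m * 2 ^ Fintype.card X := by
          congr 1
          have h5 : (lam ^ 2) ^ m * (s ^ 2) ^ m = (2 * m) ^ m := by rw [← mul_pow, hl2]
          have h6 : Real.exp (m : ℝ) = Real.exp 1 ^ m := by
            rw [← Real.exp_nat_mul, mul_one]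
          rw [pow_mul, pow_mul, h6]
          have h7 : ((2 * (m : ℝ)) ^ 2) ^ m = (2 * m) ^ m * ((lam ^ 2) ^ m * (s ^ 2) ^ m) := by
            rw [h5, ← mul_pow, sq]
          rw [h7]
          have h8 : (0 : ℝ) < (lam ^ 2) ^ m := by positivity
          field_simp
          rw [mul_pow, mul_pow, mul_pow]
          ring

/-- The maximum of few sums with random signs. -/
theorem rad_max {Z : Type*} [Fintype Z] (v : Z → EuclideanSpace ℝ X) {σ t : ℝ} (hσ : 0 ≤ σ)
    (ht : 0 ≤ t) (hv : ∀ z, ‖v z‖ ≤ σ) (hZ : (Fintype.card Z : ℝ) ≤ Real.exp t) {p : ℕ} (hp : p ≠ 0)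
    (F : (X → Bool) → ℝ) (hF : ∀ ω, ∃ z, |F ω| ≤ |⟪sv ω, v z⟫|) :
    nm p F ≤ 5 * Real.sqrt (p + t + 2) * σ := by
  set m : ℕ := ⌈((p : ℝ) + t) / 2⌉₊ with hm
  have hp0 : (0 : ℝ) < p := by exact_mod_cast Nat.pos_of_ne_zero hp
  have h1 : ((p : ℝ) + t) / 2 ≤ m := Nat.le_ceil _
  have h2 : (m : ℝ) < ((p : ℝ) + t) / 2 + 1 := Nat.ceil_lt_add_one (by positivity)
  have hm0 : m ≠ 0 := by
    intro h
    rw [h, Nat.cast_zero] at h1
    linarith
  have hpm : p ≤ 2 * m := by
    have : (p : ℝ) ≤ (2 * m : ℕ) := by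
      push_cast
      linarith
    exact_mod_cast this
  have htm : t ≤ 2 * m := by linarith
  refine (nm_le_nm hp hpm F).trans ?_
  have hm2 : 2 * m ≠ 0 := by omega
  set c : ℝ := 5 * Real.sqrt (p + t + 2) * σ with hc
  have hc0 : 0 ≤ c := by positivity
  refine nm_le_of_av_le hm2 hc0 ?_
  have h3 : av (fun ω => |F ω| ^ (2 * m)) ≤ av (fun ω => ∑ z, |⟪sv ω, v z⟫| ^ (2 * m)) := by
    refine av_mono fun ω => ?_
    obtain ⟨z, hz⟩ := hF ω
    exact (pow_le_pow_left₀ (abs_nonneg _) hz _).trans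
      (Finset.single_le_sum (f := fun z => |⟪sv ω, v z⟫| ^ (2 * m)) (fun _ _ => by positivity)
        (Finset.mem_univ z))
  refine h3.trans ?_
  rw [av_sum]
  have h4 : ∀ z, av (fun ω : X → Bool => |⟪sv ω, v z⟫| ^ (2 * m)) ≤
      (2 * Real.exp 1 * m * σ ^ 2) ^ m := by
    intro z
    refine (rad_moment (v z) hm0).trans ?_
    have := hv z
    gcongr
  have hE : Real.exp 1 < 2.7182818286 := Real.exp_one_lt_d9
  have hE0 : 0 < Real.exp 1 := Real.exp_pos _
  calc ∑ z, av (fun ω : X → Bool => |⟪sv ω, v z⟫| ^ (2 * m)) ≤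
        ∑ _z : Z, (2 * Real.exp 1 * m * σ ^ 2) ^ m := Finset.sum_le_sum fun z _ => h4 z
    _ = Fintype.card Z * (2 * Real.exp 1 * m * σ ^ 2) ^ m := by
        rw [Finset.sum_const, Finset.card_univ, nsmul_eq_mul]
    _ ≤ (Real.exp 1 ^ 2) ^ m * (2 * Real.exp 1 * m * σ ^ 2) ^ m := by
        refine mul_le_mul_of_nonneg_right (hZ.trans ?_) (by positivity)
        rw [← pow_mul, ← Real.exp_nat_mul, mul_one]
        refine Real.exp_le_exp.2 ?_
        push_cast
        exact htm
    _ = (Real.exp 1 ^ 3 * (2 * m) * σ ^ 2) ^ m := by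
        rw [← mul_pow]
        congr 1
        ring
    _ ≤ (c ^ 2) ^ m := by
        refine pow_le_pow_left₀ (by positivity) ?_ m
        rw [hc, mul_pow, mul_pow, Real.sq_sqrt (by positivity)]
        have h5 : Real.exp 1 ^ 3 ≤ 5 ^ 2 := by
          calc Real.exp 1 ^ 3 ≤ 2.7182818286 ^ 3 := pow_le_pow_left₀ hE0.le hE.le 3
            _ ≤ 5 ^ 2 := by norm_num
        have h6 : 2 * (m : ℝ) ≤ p + t + 2 := by linarith
        gcongr
    _ = c ^ (2 * m) := by rw [pow_mul]

end

end Pool.Agent.Q43.RP
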