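import Mathlib
import Pool.Agent.Q43.RP.Rad

/-!
# Sums of operators with signs
-/

set_option autoImplicit false
set_option linter.unusedSectionVars false

namespace Pool.Agent.Q43.RP

open Finset
open scoped RealInnerProductSpace

noncomputable section

theorem pow_expand {A R : Type*} [Fintype A] [Ring R] [Algebra ℝ R] (c : A → ℝ) (P : A → R)
    (p : ℕ) : (∑ a, c a • P a) ^ p =
      ∑ w : Fin p → A, (∏ i, c (w i)) • (List.ofFn (fun i => P (w i))).prod := by
  induction p with
  | zero => simp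
  | succ p ih =>
    rw [pow_succ', ih, ← (Fin.consEquiv (fun _ : Fin (p + 1) => A)).sum_comp,
      Fintype.sum_prod_type, Finset.sum_mul_sum]
    refine Finset.sum_congr rfl fun a _ => Finset.sum_congr rfl fun w _ => ?_
    have h1 : (Fin.consEquiv (fun _ : Fin (p + 1) => A)) (a, w) = Fin.cons a w := rfl
    rw [h1, Fin.prod_univ_succ, List.ofFn_succ, List.prod_cons]
    simp only [Fin.cons_zero, Fin.cons_succ]
    rw [smul_mul_smul_comm]

section signs

variable {L : Type*} [Fintype L] [DecidableEq L]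

/-- multiply the signs -/
def flipEquiv (η : L → Bool) : (L → Bool) ≃ (L → Bool) where
  toFun ω := fun l => (ω l == η l)
  invFun ω := fun l => (ω l == η l)
  left_inv ω := by
    funext l
    change ((ω l == η l) == η l) = ω l
    cases ω l <;> cases η l <;> rfl
  right_inv ω := by
    funext l
    change ((ω l == η l) == η l) = ω l
    cases ω l <;> cases η l <;> rfl

theorem sg_flip (η ω : L → Bool) (l : L) : sg (flipEquiv η ω l) = sg (ω l) * sg (η l) := by
  change sg (ω l == η l) = _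
  cases ω l <;> cases η l <;> simp [sg]

/-- The averages of products of signs are nonnegative. -/
theorem av_char_nonneg (m : (L → Bool) → ℝ) (hm : ∀ η ω, m (flipEquiv η ω) = m ω * m η) :
    0 ≤ av m := by
  have h1 : ∀ η, av m = av m * m η := by
    intro η
    have h2 := av_equiv (flipEquiv η) m
    have h3 : (fun ω => m (flipEquiv η ω)) = fun ω => m η * m ω := by
      funext ω
      rw [hm, mul_comm]
    rw [h3, av_mul] at h2
    rw [mul_comm, h2]
  have h4 : av m = av m * av m := by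
    have h5 : av (fun η => av m * m η) = av m * av m := av_mul _ _
    rw [← h5]
    have h6 : (fun η => av m * m η) = fun _ => av m := by
      funext η
      exact (h1 η).symm
    rw [h6, av_const]
  rw [h4]
  exact mul_self_nonneg _

end signs

section trace

variable {X : Type*} [Fintype X] [DecidableEq X]
variable {H : Type*} [NormedAddCommGroup H] [InnerProductSpace ℝ H] [CompleteSpace H]

/-- the unit vectors -/
abbrev ev (x : X) : EuclideanSpace ℝ X := EuclideanSpace.single x (1 : ℝ)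

/-- the trace -/
def tra (T : EuclideanSpace ℝ X →L[ℝ] EuclideanSpace ℝ X) : ℝ := ∑ x, ⟪ev x, T (ev x)⟫

theorem tra_sum {ι : Type*} (s : Finset ι) (T : ι → EuclideanSpace ℝ X →L[ℝ] EuclideanSpace ℝ X) :
    tra (∑ i ∈ s, T i) = ∑ i ∈ s, tra (T i) := by
  unfold tra
  rw [Finset.sum_comm]
  refine Finset.sum_congr rfl fun x _ => ?_
  rw [_root_.sum_apply, inner_sum]

theorem tra_smul (c : ℝ) (T : EuclideanSpace ℝ X →L[ℝ] EuclideanSpace ℝ X) :
    tra (c • T) = c * tra T := by
  unfold tra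
  rw [Finset.mul_sum]
  refine Finset.sum_congr rfl fun x _ => ?_
  rw [_root_.smul_apply, inner_smul_right]

theorem tra_le (T : EuclideanSpace ℝ X →L[ℝ] EuclideanSpace ℝ X) :
    tra T ≤ Fintype.card X * ‖T‖ := by
  unfold tra
  calc ∑ x, ⟪ev x, T (ev x)⟫ ≤ ∑ _x : X, ‖T‖ := by
        refine Finset.sum_le_sum fun x _ => ?_
        refine (real_inner_le_norm _ _).trans ?_
        have h1 : ‖(ev x : EuclideanSpace ℝ X)‖ = 1 := by simp [ev]
        rw [h1, one_mul]
        refine (T.le_opNorm _).trans ?_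
        rw [h1, mul_one]
    _ = Fintype.card X * ‖T‖ := by rw [Finset.sum_const, Finset.card_univ, nsmul_eq_mul]

theorem pow_expand' {A : Type*} [Fintype A] (c : A → ℝ)
    (P : A → EuclideanSpace ℝ X →L[ℝ] EuclideanSpace ℝ X)
    (p : ℕ) : (∑ a, c a • P a) ^ p =
      ∑ w : Fin p → A, (∏ i, c (w i)) • (List.ofFn (fun i => P (w i))).prod :=
  pow_expand c P p

theorem sum_ev (v : EuclideanSpace ℝ X) : v = ∑ x, v x • (ev x : EuclideanSpace ℝ X) := by
  ext y
  simp [ev, Pi.single_apply]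

/-- The operator norm is at most the Hilbert-Schmidt norm. -/
theorem norm_sq_le_hs (S : EuclideanSpace ℝ X →L[ℝ] H) : ‖S‖ ^ 2 ≤ ∑ x, ‖S (ev x)‖ ^ 2 := by
  have h0 : 0 ≤ ∑ x, ‖S (ev x)‖ ^ 2 := Finset.sum_nonneg fun _ _ => by positivity
  have h1 : ‖S‖ ≤ Real.sqrt (∑ x, ‖S (ev x)‖ ^ 2) := by
    refine S.opNorm_le_bound (Real.sqrt_nonneg _) fun v => ?_
    have h2 : S v = ∑ x, v x • S (ev x) := by
      conv_lhs => rw [sum_ev v]
      rw [map_sum]
      refine Finset.sum_congr rfl fun x _ => ?_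
      rw [map_smul]
    rw [h2]
    refine (norm_sum_le _ _).trans ?_
    have h3 : ∀ x, ‖v x • S (ev x)‖ = |v x| * ‖S (ev x)‖ := fun x => by
      rw [norm_smul, Real.norm_eq_abs]
    rw [Finset.sum_congr rfl fun x _ => h3 x]
    have h4 := Real.sum_mul_le_sqrt_mul_sqrt Finset.univ (fun x => |v x|) (fun x => ‖S (ev x)‖)
    refine h4.trans (le_of_eq ?_)
    rw [mul_comm, EuclideanSpace.norm_eq]
    congr 2
  calc ‖S‖ ^ 2 ≤ (Real.sqrt (∑ x, ‖S (ev x)‖ ^ 2)) ^ 2 := pow_le_pow_left₀ (norm_nonneg _) h1 2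
    _ = _ := Real.sq_sqrt h0

open ContinuousLinearMap in
/-- The norm of an operator and the traces of powers. -/
theorem norm_pow_le_tra (B : EuclideanSpace ℝ X →L[ℝ] H) (r : ℕ) :
    (‖B‖ ^ 2) ^ (2 ^ (r + 1)) ≤ tra (((adjoint B).comp B) ^ (2 ^ (r + 1))) := by
  set M : EuclideanSpace ℝ X →L[ℝ] EuclideanSpace ℝ X := (adjoint B).comp B with hM
  have hsa : adjoint M = M := by
    rw [hM, adjoint_comp, adjoint_adjoint]
  have hn : ‖M‖ = ‖B‖ ^ 2 := by
    rw [hM, ContinuousLinearMap.norm_adjoint_comp_self, sq]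
  set S := M ^ (2 ^ r) with hS
  have hpow : ∀ r : ℕ, adjoint (M ^ (2 ^ r)) = M ^ (2 ^ r) ∧ ‖M ^ (2 ^ r)‖ = ‖M‖ ^ (2 ^ r) := by
    intro r
    induction r with
    | zero => simp [hsa]
    | succ r ih =>
      have e1 : M ^ (2 ^ (r + 1)) = (M ^ (2 ^ r)).comp (M ^ (2 ^ r)) := by
        rw [pow_succ 2 r, pow_mul, sq]
        rfl
      refine ⟨?_, ?_⟩
      · rw [e1, adjoint_comp, ih.1]
      · have e2 := ContinuousLinearMap.norm_adjoint_comp_self (M ^ (2 ^ r))
        rw [ih.1, ih.2] at e2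
        rw [e1, e2, pow_succ 2 r, pow_mul, sq]
  have hsaS : adjoint S = S := (hpow r).1
  have h1 : ‖S‖ = ‖M‖ ^ (2 ^ r) := (hpow r).2
  have h2 : M ^ (2 ^ (r + 1)) = S * S := by
    rw [hS, pow_succ 2 r, mul_comm, two_mul, pow_add]
  have h3 : tra (S * S) = ∑ x, ‖S (ev x)‖ ^ 2 := by
    unfold tra
    refine Finset.sum_congr rfl fun x _ => ?_
    have h4 : (S * S) (ev x) = S (S (ev x)) := rfl
    rw [h4, ← real_inner_self_eq_norm_sq]
    have h6 := ContinuousLinearMap.adjoint_inner_right S (ev x) (S (ev x))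
    rw [hsaS] at h6
    exact h6
  rw [h2, h3, ← hn]
  have h7 : ‖M‖ ^ (2 ^ (r + 1)) = ‖S‖ ^ 2 := by
    rw [h1, ← pow_mul, pow_succ]
  rw [h7]
  exact norm_sq_le_hs S

end trace

section main

variable {X : Type*} [Fintype X] [DecidableEq X] [Nonempty X]
variable {H : Type*} [NormedAddCommGroup H] [InnerProductSpace ℝ H] [CompleteSpace H]
variable {L : Type*} [Fintype L] [DecidableEq L]

open ContinuousLinearMap in
/-- Moments of sums of operators with random signs. -/
theorem av_tra_le (U : L → EuclideanSpace ℝ X →L[ℝ] H) {τ : ℝ} (hτ : 0 ≤ τ)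
    (hU : ∀ l, ‖U l‖ ^ 2 ≤ τ) (p : ℕ) (hp : p ≠ 0) :
    av (fun η : L → Bool => tra (((adjoint (∑ l, sg (η l) • U l)).comp
      (∑ l, sg (η l) • U l)) ^ p)) ≤
      Fintype.card X * τ ^ p * (2 * Real.exp 1 * p * Fintype.card L) ^ p := by
  let P : L × L → EuclideanSpace ℝ X →L[ℝ] EuclideanSpace ℝ X :=
    fun a => (adjoint (U a.1)).comp (U a.2)
  let c : (L → Bool) → L × L → ℝ := fun η a => sg (η a.1) * sg (η a.2)
  let m : (Fin p → L × L) → (L → Bool) → ℝ := fun w η => ∏ i, c η (w i)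
  have hP : ∀ a, ‖P a‖ ≤ τ := by
    intro a
    have h1 : ‖P a‖ ≤ ‖adjoint (U a.1)‖ * ‖U a.2‖ := opNorm_comp_le _ _
    rw [LinearIsometryEquiv.norm_map] at h1
    nlinarith [hU a.1, hU a.2, sq_nonneg (‖U a.1‖ - ‖U a.2‖)]
  have hexp : ∀ η : L → Bool, (adjoint (∑ l, sg (η l) • U l)).comp (∑ l, sg (η l) • U l) =
      ∑ a, c η a • P a := by
    intro η
    rw [map_sum, Fintype.sum_prod_type]
    ext1 v
    simp only [comp_apply, _root_.sum_apply, _root_.smul_apply, map_sum, map_smulₛₗ,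
      conj_trivial, c, P, Finset.smul_sum, smul_smul, RingHom.id_apply]
    rw [Finset.sum_comm]
    refine Finset.sum_congr rfl fun l _ => Finset.sum_congr rfl fun l' _ => ?_
    rw [mul_comm (sg (η l')) (sg (η l))]
  have hPw : ∀ w : Fin p → L × L, ‖(List.ofFn (fun i => P (w i))).prod‖ ≤ τ ^ p := by
    intro w
    have h0 : ∀ (l : List (EuclideanSpace ℝ X →L[ℝ] EuclideanSpace ℝ X)),
        (∀ a ∈ l, ‖a‖ ≤ τ) → ‖l.prod‖ ≤ τ ^ l.length := by
      intro l
      induction l with
      | nil =>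
        intro _
        rw [List.prod_nil, List.length_nil, pow_zero]
        exact norm_id_le
      | cons a l ih =>
        intro h
        rw [List.prod_cons, List.length_cons, pow_succ']
        refine (norm_mul_le _ _).trans ?_
        exact mul_le_mul (h a List.mem_cons_self) (ih fun b hb => h b (List.mem_cons_of_mem _ hb))
          (norm_nonneg _) hτ
    have h1 := h0 (List.ofFn (fun i => P (w i))) (by
      intro a ha
      rw [List.mem_ofFn] at ha
      obtain ⟨i, rfl⟩ := ha
      exact hP _)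
    rwa [List.length_ofFn] at h1
  have hm : ∀ w, 0 ≤ av (m w) := by
    intro w
    refine av_char_nonneg _ fun η ω => ?_
    change ∏ i, c (flipEquiv η ω) (w i) = (∏ i, c ω (w i)) * ∏ i, c η (w i)
    rw [← Finset.prod_mul_distrib]
    refine Finset.prod_congr rfl fun i _ => ?_
    change sg (flipEquiv η ω (w i).1) * sg (flipEquiv η ω (w i).2) =
      (sg (ω (w i).1) * sg (ω (w i).2)) * (sg (η (w i).1) * sg (η (w i).2))
    rw [sg_flip, sg_flip]
    ring
  have h1 : (fun η : L → Bool => tra (((adjoint (∑ l, sg (η l) • U l)).comp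
      (∑ l, sg (η l) • U l)) ^ p)) = fun η => ∑ w : Fin p → L × L,
        m w η * tra (List.ofFn (fun i => P (w i))).prod := by
    funext η
    rw [hexp, pow_expand', tra_sum]
    refine Finset.sum_congr rfl fun w _ => ?_
    rw [tra_smul]
  rw [h1, av_sum]
  have h2 : ∀ w : Fin p → L × L, av (fun η => m w η * tra (List.ofFn (fun i => P (w i))).prod) ≤
      (Fintype.card X * τ ^ p) * av (m w) := by
    intro w
    have h3 : (fun η => m w η * tra (List.ofFn (fun i => P (w i))).prod) =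
        fun η => tra (List.ofFn (fun i => P (w i))).prod * m w η := by
      funext η
      rw [mul_comm]
    rw [h3, av_mul]
    refine mul_le_mul_of_nonneg_right ?_ (hm w)
    exact (tra_le _).trans (mul_le_mul_of_nonneg_left (hPw w) (Nat.cast_nonneg _))
  refine (Finset.sum_le_sum fun w _ => h2 w).trans ?_
  rw [← Finset.mul_sum, ← av_sum]
  refine mul_le_mul_of_nonneg_left ?_ (by positivity)
  let one : EuclideanSpace ℝ L := WithLp.toLp 2 (fun _ => 1)
  have h4 : ∀ η : L → Bool, ∑ w : Fin p → L × L, m w η = |⟪sv η, one⟫| ^ (2 * p) := by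
    intro η
    have h5 : ∑ w : Fin p → L × L, m w η = (∑ a, c η a) ^ p := (Fintype.sum_pow (c η) p).symm
    have h6 : ∑ a, c η a = ⟪sv η, one⟫ ^ 2 := by
      rw [inner_eq, Fintype.sum_prod_type, sq, Finset.sum_mul_sum]
      refine Finset.sum_congr rfl fun l _ => Finset.sum_congr rfl fun l' _ => ?_
      simp [c, one]
    rw [h5, h6, ← sq_abs, pow_mul]
  have h7 : ‖one‖ ^ 2 = Fintype.card L := by
    rw [EuclideanSpace.norm_eq, Real.sq_sqrt (Finset.sum_nonneg fun _ _ => by positivity)]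
    simp [one]
  simp only [h4]
  have h8 := rad_moment one hp
  rw [h7] at h8
  exact h8

/-- Some signs make the norm of a sum of operators small. -/
theorem exists_signs (U : L → EuclideanSpace ℝ X →L[ℝ] H) {τ : ℝ}
    (hU : ∀ l, ‖U l‖ ^ 2 ≤ τ) (hτ : 0 ≤ τ) :
    ∃ η : L → Bool, ‖∑ l, sg (η l) • U l‖ ^ 2 ≤
      30 * (1 + Real.log (Fintype.card X)) * Fintype.card L * τ := by
  have hX : (1 : ℝ) ≤ Fintype.card X := by exact_mod_cast Fintype.card_pos
  have hlog : 0 ≤ Real.log (Fintype.card X) := Real.log_nonneg hX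
  -- the exponent
  obtain ⟨r, hr1, hr2⟩ : ∃ r : ℕ, 1 + Real.log (Fintype.card X) ≤ 2 ^ (r + 1) ∧
      (2 : ℝ) ^ (r + 1) ≤ 2 * (1 + Real.log (Fintype.card X)) := by
    have hex : ∃ r : ℕ, 1 + Real.log (Fintype.card X) ≤ 2 ^ (r + 1) := by
      obtain ⟨n, hn⟩ := pow_unbounded_of_one_lt (1 + Real.log (Fintype.card X))
        (by norm_num : (1 : ℝ) < 2)
      refine ⟨n, hn.le.trans ?_⟩
      exact pow_le_pow_right₀ (by norm_num) (by omega)
    classical
    refine ⟨Nat.find hex, Nat.find_spec hex, ?_⟩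
    rcases Nat.eq_zero_or_pos (Nat.find hex) with h0 | h0
    · rw [h0]
      norm_num
      linarith
    · have h1 := Nat.find_min hex (m := Nat.find hex - 1) (by omega)
      push Not at h1
      have h2 : Nat.find hex - 1 + 1 = Nat.find hex := by omega
      rw [h2] at h1
      rw [pow_succ]
      linarith
  set p : ℕ := 2 ^ (r + 1) with hp
  have hp0 : p ≠ 0 := by positivity
  have hpr : (p : ℝ) = 2 ^ (r + 1) := by
    rw [hp]
    push_cast
    rfl
  have h1 := av_tra_le U hτ hU p hp0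
  -- some signs are below the average
  obtain ⟨η, hη⟩ : ∃ η : L → Bool, tra (((ContinuousLinearMap.adjoint (∑ l, sg (η l) • U l)).comp
      (∑ l, sg (η l) • U l)) ^ p) ≤
      Fintype.card X * τ ^ p * (2 * Real.exp 1 * p * Fintype.card L) ^ p := by
    by_contra hcon
    push Not at hcon
    have h2 : av (fun _ : L → Bool => (Fintype.card X * τ ^ p *
        (2 * Real.exp 1 * p * Fintype.card L) ^ p : ℝ)) < av (fun η : L → Bool =>
        tra (((ContinuousLinearMap.adjoint (∑ l, sg (η l) • U l)).comp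
      (∑ l, sg (η l) • U l)) ^ p)) := by
      unfold av
      refine div_lt_div_of_pos_right (Finset.sum_lt_sum_of_nonempty Finset.univ_nonempty
        fun η _ => hcon η) ?_
      exact_mod_cast Fintype.card_pos
    rw [av_const] at h2
    linarith
  refine ⟨η, ?_⟩
  have h3 := (norm_pow_le_tra (∑ l, sg (η l) • U l) r).trans hη
  have h4 : (Fintype.card X : ℝ) ≤ Real.exp 1 ^ p := by
    rw [← Real.exp_nat_mul, mul_one]
    calc (Fintype.card X : ℝ) = Real.exp (Real.log (Fintype.card X)) :=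
          (Real.exp_log (by linarith)).symm
      _ ≤ Real.exp p := Real.exp_le_exp.2 (by rw [hpr]; linarith)
  have h5 : (‖∑ l, sg (η l) • U l‖ ^ 2) ^ p ≤
      (2 * Real.exp 1 ^ 2 * p * Fintype.card L * τ) ^ p := by
    refine h3.trans ?_
    calc Fintype.card X * τ ^ p * (2 * Real.exp 1 * p * Fintype.card L) ^ p
        ≤ Real.exp 1 ^ p * τ ^ p * (2 * Real.exp 1 * p * Fintype.card L) ^ p := by
          gcongr
      _ = (2 * Real.exp 1 ^ 2 * p * Fintype.card L * τ) ^ p := by
          rw [← mul_pow, ← mul_pow]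
          congr 1
          ring
  have h6 := le_of_pow_le_pow_left₀ hp0 (by positivity) h5
  refine h6.trans ?_
  have hE : Real.exp 1 < 2.7182818286 := Real.exp_one_lt_d9
  have hE0 : 0 < Real.exp 1 := Real.exp_pos _
  have h7 : Real.exp 1 ^ 2 ≤ 7.5 := by
    calc Real.exp 1 ^ 2 ≤ 2.7182818286 ^ 2 := pow_le_pow_left₀ hE0.le hE.le 2
      _ ≤ 7.5 := by norm_num
  have h8 : 2 * Real.exp 1 ^ 2 * p ≤ 30 * (1 + Real.log (Fintype.card X)) := by
    rw [hpr]
    calc 2 * Real.exp 1 ^ 2 * 2 ^ (r + 1) ≤ 2 * 7.5 * (2 * (1 + Real.log (Fintype.card X))) := by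
          gcongr
      _ = 30 * (1 + Real.log (Fintype.card X)) := by ring
  gcongr

end main

end

end Pool.Agent.Q43.RP
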