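import Mathlib
import Pool.Agent.Q43.RP.Khin

/-!
# Decoupling: quadratic forms of random signs, uniformly over a finite set of operators
-/

set_option autoImplicit false
set_option linter.unusedSectionVars false

namespace Pool.Agent.Q43.RP

open Finset
open scoped RealInnerProductSpace

noncomputable section

variable {X : Type*} [Fintype X] [DecidableEq X]
variable {H : Type*} [NormedAddCommGroup H] [InnerProductSpace ℝ H]
variable {W : Type*} [Fintype W] [Nonempty W]

/-- the norm defined by a finite set of operators -/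
def NN (A : W → EuclideanSpace ℝ X →L[ℝ] H) (v : EuclideanSpace ℝ X) : ℝ := ⨆ w, ‖A w v‖

theorem le_NN (A : W → EuclideanSpace ℝ X →L[ℝ] H) (v : EuclideanSpace ℝ X) (w : W) :
    ‖A w v‖ ≤ NN A v :=
  le_ciSup (f := fun w => ‖A w v‖) (Finite.bddAbove_range _) w

theorem NN_nonneg (A : W → EuclideanSpace ℝ X →L[ℝ] H) (v : EuclideanSpace ℝ X) : 0 ≤ NN A v := by
  obtain ⟨w⟩ := ‹Nonempty W›
  exact (norm_nonneg _).trans (le_NN A v w)

/-- the maximum of the inner products -/
def SS (A : W → EuclideanSpace ℝ X →L[ℝ] H) (u v : EuclideanSpace ℝ X) : ℝ :=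
  ⨆ w, |⟪A w u, A w v⟫|

theorem le_SS (A : W → EuclideanSpace ℝ X →L[ℝ] H) (u v : EuclideanSpace ℝ X) (w : W) :
    |⟪A w u, A w v⟫| ≤ SS A u v :=
  le_ciSup (f := fun w => |⟪A w u, A w v⟫|) (Finite.bddAbove_range _) w

theorem SS_nonneg (A : W → EuclideanSpace ℝ X →L[ℝ] H) (u v : EuclideanSpace ℝ X) :
    0 ≤ SS A u v := by
  obtain ⟨w⟩ := ‹Nonempty W›
  exact (abs_nonneg _).trans (le_SS A u v w)

/-- the square of the Hilbert-Schmidt norm -/
def HS (A : EuclideanSpace ℝ X →L[ℝ] H) : ℝ := ∑ x, ‖A (EuclideanSpace.single x (1 : ℝ))‖ ^ 2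

/-- the largest deviation of the quadratic forms from their traces -/
def QQ (A : W → EuclideanSpace ℝ X →L[ℝ] H) (v : EuclideanSpace ℝ X) : ℝ :=
  ⨆ w, |‖A w v‖ ^ 2 - HS (A w)|

theorem le_QQ (A : W → EuclideanSpace ℝ X →L[ℝ] H) (v : EuclideanSpace ℝ X) (w : W) :
    |‖A w v‖ ^ 2 - HS (A w)| ≤ QQ A v :=
  le_ciSup (f := fun w => |‖A w v‖ ^ 2 - HS (A w)|) (Finite.bddAbove_range _) w

theorem QQ_nonneg (A : W → EuclideanSpace ℝ X →L[ℝ] H) (v : EuclideanSpace ℝ X) :
    0 ≤ QQ A v := by
  obtain ⟨w⟩ := ‹Nonempty W›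
  exact (abs_nonneg _).trans (le_QQ A v w)

/-- the set of the coordinates with positive sign -/
def pos (β : X → Bool) : Finset X := Finset.univ.filter (fun x => β x = true)

theorem mem_pos (β : X → Bool) (x : X) : x ∈ pos β ↔ β x = true := by
  simp [pos]

/-- Restrictions are averages. -/
theorem nm_NN_res_le (A : W → EuclideanSpace ℝ X →L[ℝ] H) {p : ℕ} (hp : p ≠ 0) (I : Finset X) :
    nm p (fun ω : X → Bool => NN A (res I (sv ω))) ≤ nm p (fun ω : X → Bool => NN A (sv ω)) := by
  let η : X → Bool := fun x => decide (x ∈ I)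
  have h1 : ∀ ω : X → Bool, NN A (res I (sv ω)) ≤
      (1 / 2) * (NN A (sv ω) + NN A (sv (flipEquiv η ω))) := by
    intro ω
    refine ciSup_le fun w => ?_
    have h2 : res I (sv ω) = (1 / 2 : ℝ) • (sv ω + sv (flipEquiv η ω)) := by
      ext x
      have h3 : sg (flipEquiv η ω x) = sg (ω x) * sg (η x) := sg_flip η ω x
      simp only [res_apply, sv_apply, PiLp.smul_apply, PiLp.add_apply, h3, smul_eq_mul, η]
      by_cases hx : x ∈ I
      · simp [hx, sg]
        ring
      · simp [hx, sg]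
    rw [h2, map_smul, norm_smul, map_add, Real.norm_of_nonneg (by norm_num : (0 : ℝ) ≤ 1 / 2)]
    refine mul_le_mul_of_nonneg_left ?_ (by norm_num)
    exact (norm_add_le _ _).trans (add_le_add (le_NN A _ w) (le_NN A _ w))
  calc nm p (fun ω : X → Bool => NN A (res I (sv ω))) ≤
        nm p (fun ω : X → Bool => (1 / 2) * (NN A (sv ω) + NN A (sv (flipEquiv η ω)))) := by
        refine nm_mono fun ω => ?_
        rw [abs_of_nonneg (NN_nonneg A _), abs_of_nonneg (by
          have := NN_nonneg A (sv ω)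
          have := NN_nonneg A (sv (flipEquiv η ω))
          positivity)]
        exact h1 ω
    _ = (1 / 2) * nm p (fun ω : X → Bool => (NN A (sv ω) + NN A (sv (flipEquiv η ω)))) := by
        rw [nm_mul hp, abs_of_nonneg (by norm_num : (0 : ℝ) ≤ 1 / 2)]
    _ ≤ (1 / 2) * (nm p (fun ω : X → Bool => NN A (sv ω)) +
          nm p (fun ω : X → Bool => NN A (sv (flipEquiv η ω)))) :=
        mul_le_mul_of_nonneg_left (nm_add_le hp _ _) (by norm_num)
    _ = nm p (fun ω : X → Bool => NN A (sv ω)) := by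
        have h4 := nm_equiv p (flipEquiv η) (fun ω : X → Bool => NN A (sv ω))
        rw [h4]
        ring

theorem av_sg (x : X) : av (fun β : X → Bool => sg (β x)) = 0 := by
  let η : X → Bool := fun _ => false
  have h1 := av_equiv (flipEquiv η) (fun β : X → Bool => sg (β x))
  have h2 : (fun ω => sg (flipEquiv η ω x)) = fun ω : X → Bool => (-1) * sg (ω x) := by
    funext ω
    rw [sg_flip]
    have h3 : sg (η x) = -1 := by simp [sg, η]
    rw [h3]
    ring
  rw [h2, av_mul] at h1
  linarith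

theorem av_sg_sg {x y : X} (hxy : x ≠ y) : av (fun β : X → Bool => sg (β x) * sg (β y)) = 0 := by
  let η : X → Bool := fun z => decide (z ≠ x)
  have h1 := av_equiv (flipEquiv η) (fun β : X → Bool => sg (β x) * sg (β y))
  have h2 : (fun ω => sg (flipEquiv η ω x) * sg (flipEquiv η ω y)) =
      fun ω : X → Bool => (-1) * (sg (ω x) * sg (ω y)) := by
    funext ω
    rw [sg_flip, sg_flip]
    have h3 : sg (η x) = -1 := by simp [sg, η]
    have h4 : sg (η y) = 1 := by simp [sg, η, hxy.symm]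
    rw [h3, h4]
    ring
  rw [h2, av_mul] at h1
  linarith

theorem av_const_mul_add (c : ℝ) (F : (X → Bool) → ℝ) :
    av (fun β => F β * c) = av F * c := by
  have h : (fun β => F β * c) = fun β => c * F β := by
    funext β
    rw [mul_comm]
  rw [h, av_mul, mul_comm]

/-- The average of the decoupled sums. -/
theorem av_decoupled (A : EuclideanSpace ℝ X →L[ℝ] H) (ω : X → Bool) :
    4 * av (fun β : X → Bool => ⟪A (res (pos β) (sv ω)), A (res (pos β)ᶜ (sv ω))⟫) =
      ‖A (sv ω)‖ ^ 2 - ∑ x, ‖A (ev x)‖ ^ 2 := by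
  have hexp : ∀ u : EuclideanSpace ℝ X, A u = ∑ x, u x • A (ev x) := by
    intro u
    conv_lhs => rw [sum_ev u]
    rw [map_sum]
    exact Finset.sum_congr rfl fun x _ => map_smul _ _ _
  have hin : ∀ u v : EuclideanSpace ℝ X, ⟪A u, A v⟫ =
      ∑ x, ∑ y, u x * v y * ⟪A (ev x), A (ev y)⟫ := by
    intro u v
    rw [hexp u, hexp v, sum_inner]
    refine Finset.sum_congr rfl fun x _ => ?_
    rw [inner_sum]
    refine Finset.sum_congr rfl fun y _ => ?_
    rw [real_inner_smul_left, real_inner_smul_right]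
    ring
  have h1 : (fun β : X → Bool => ⟪A (res (pos β) (sv ω)), A (res (pos β)ᶜ (sv ω))⟫) =
      fun β => ∑ x, ∑ y, ((1 + sg (β x)) / 2 * ((1 - sg (β y)) / 2)) *
        (sg (ω x) * sg (ω y) * ⟪A (ev x), A (ev y)⟫) := by
    funext β
    rw [hin]
    refine Finset.sum_congr rfl fun x _ => Finset.sum_congr rfl fun y _ => ?_
    simp only [res_apply, sv_apply, mem_compl, mem_pos]
    cases β x <;> cases β y <;> simp [sg]
  have hav : ∀ x y : X, av (fun β : X → Bool => (1 + sg (β x)) / 2 * ((1 - sg (β y)) / 2)) =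
      if x = y then 0 else 1 / 4 := by
    intro x y
    split_ifs with hxy
    · subst hxy
      have h2 : (fun β : X → Bool => (1 + sg (β x)) / 2 * ((1 - sg (β x)) / 2)) = fun _ => 0 := by
        funext β
        cases β x <;> simp [sg]
      rw [h2, av_const]
    · have h2 : (fun β : X → Bool => (1 + sg (β x)) / 2 * ((1 - sg (β y)) / 2)) =
          fun β => (1 / 4 + (1 / 4) * sg (β x)) + ((-1 / 4) * sg (β y) +
            (-1 / 4) * (sg (β x) * sg (β y))) := by
        funext β
        ring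
      rw [h2, av_add, av_add, av_add, av_mul, av_mul, av_mul, av_const, av_sg, av_sg,
        av_sg_sg hxy]
      ring
  rw [h1, av_sum]
  have h3 : ∀ x, av (fun β : X → Bool => ∑ y, ((1 + sg (β x)) / 2 * ((1 - sg (β y)) / 2)) *
        (sg (ω x) * sg (ω y) * ⟪A (ev x), A (ev y)⟫)) =
      ∑ y, (if x = y then 0 else 1 / 4) * (sg (ω x) * sg (ω y) * ⟪A (ev x), A (ev y)⟫) := by
    intro x
    rw [av_sum]
    refine Finset.sum_congr rfl fun y _ => ?_
    rw [av_const_mul_add, hav]
  rw [Finset.sum_congr rfl fun x _ => h3 x]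
  have h4 : ‖A (sv ω)‖ ^ 2 = ∑ x, ∑ y, sg (ω x) * sg (ω y) * ⟪A (ev x), A (ev y)⟫ := by
    rw [← real_inner_self_eq_norm_sq, hin]
    rfl
  have h5 : ∑ x, ‖A (ev x)‖ ^ 2 = ∑ x, ∑ y, (if x = y then 1 else 0) *
      (sg (ω x) * sg (ω y) * ⟪A (ev x), A (ev y)⟫) := by
    refine Finset.sum_congr rfl fun x _ => ?_
    rw [Finset.sum_eq_single x]
    · rw [if_pos rfl, one_mul, sg_mul_self, one_mul, real_inner_self_eq_norm_sq]
    · intro y _ hy
      rw [if_neg (Ne.symm hy), zero_mul]
    · intro h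
      exact absurd (Finset.mem_univ x) h
  rw [h4, h5, ← Finset.sum_sub_distrib, Finset.mul_sum]
  refine Finset.sum_congr rfl fun x _ => ?_
  rw [← Finset.sum_sub_distrib, Finset.mul_sum]
  refine Finset.sum_congr rfl fun y _ => ?_
  split_ifs <;> ring

/-- exchange the coordinates outside of `I` of two families of signs -/
def mixEquiv (I : Finset X) : (X → Bool) × (X → Bool) ≃ (X → Bool) × (X → Bool) where
  toFun a := (fun x => if x ∈ I then a.1 x else a.2 x, fun x => if x ∈ I then a.2 x else a.1 x)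
  invFun a := (fun x => if x ∈ I then a.1 x else a.2 x, fun x => if x ∈ I then a.2 x else a.1 x)
  left_inv a := by
    refine Prod.ext ?_ ?_ <;> funext x <;> by_cases hx : x ∈ I <;> simp [hx]
  right_inv a := by
    refine Prod.ext ?_ ?_ <;> funext x <;> by_cases hx : x ∈ I <;> simp [hx]

/-- The two parts of a family of signs are independent. -/
theorem nm_mix (p : ℕ) (I : Finset X)
    (F : EuclideanSpace ℝ X → EuclideanSpace ℝ X → ℝ) :
    nm p (fun ω : X → Bool => F (res I (sv ω)) (res Iᶜ (sv ω))) =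
      nm p (fun a : (X → Bool) × (X → Bool) => F (res I (sv a.1)) (res Iᶜ (sv a.2))) := by
  have h1 : (fun a : (X → Bool) × (X → Bool) => F (res I (sv a.1)) (res Iᶜ (sv a.2))) =
      fun a => (fun a : (X → Bool) × (X → Bool) => F (res I (sv a.1)) (res Iᶜ (sv a.1)))
        (mixEquiv I a) := by
    funext a
    have h2 : res I (sv a.1) = res I (sv (mixEquiv I a).1) := by
      ext x
      by_cases hx : x ∈ I <;> simp [hx, mixEquiv]
    have h3 : res Iᶜ (sv a.2) = res Iᶜ (sv (mixEquiv I a).1) := by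
      ext x
      by_cases hx : x ∈ I <;> simp [hx, mixEquiv]
    simp only
    rw [h2, h3]
  rw [h1, nm_equiv p (mixEquiv I)
    (fun a : (X → Bool) × (X → Bool) => F (res I (sv a.1)) (res Iᶜ (sv a.1))),
    nm_fst p (fun ω : X → Bool => F (res I (sv ω)) (res Iᶜ (sv ω)))]

theorem nm_sq {Ω : Type*} [Fintype Ω] {p : ℕ} (hp : p ≠ 0) (F : Ω → ℝ) :
    nm (2 * p) F ^ 2 = nm p (fun ω => F ω ^ 2) := by
  refine (pow_left_inj₀ (by positivity) (nm_nonneg _ _) hp).1 ?_
  rw [← pow_mul, nm_pow (by omega), nm_pow hp]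
  congr 1
  funext ω
  rw [pow_mul, sq_abs, abs_of_nonneg (sq_nonneg (F ω))]

/-- **Uniform estimate of the quadratic forms of random signs.** -/
theorem chaos (A : W → EuclideanSpace ℝ X →L[ℝ] H) (hA : ∀ w, HS (A w) ≤ 1)
    {p : ℕ} (hp : p ≠ 0) {γ : ℝ} (hγ : 0 ≤ γ)
    (h : ∀ I : Finset X, nm p (fun a : (X → Bool) × (X → Bool) =>
      SS A (res I (sv a.1)) (res Iᶜ (sv a.2))) ≤
      γ * (nm p (fun ω : X → Bool => NN A (res I (sv ω))) +
        nm p (fun ω : X → Bool => NN A (res Iᶜ (sv ω))))) :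
    nm p (fun ω : X → Bool => QQ A (sv ω)) ≤ 8 * γ * (1 + 8 * γ) := by
  set ν := nm p (fun ω : X → Bool => NN A (sv ω)) with hν
  have hν0 : 0 ≤ ν := nm_nonneg _ _
  have h1 : ∀ ω : X → Bool, QQ A (sv ω) ≤
      4 * av (fun β : X → Bool => SS A (res (pos β) (sv ω)) (res (pos β)ᶜ (sv ω))) := by
    intro ω
    refine ciSup_le fun w => ?_
    have h2 := av_decoupled (A w) ω
    change _ = _ - HS (A w) at h2
    rw [← h2, abs_mul, abs_of_pos (by norm_num : (0 : ℝ) < 4)]
    refine mul_le_mul_of_nonneg_left ?_ (by norm_num)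
    have h3 : |av (fun β : X → Bool => ⟪A w (res (pos β) (sv ω)), A w (res (pos β)ᶜ (sv ω))⟫)| ≤
        av (fun β : X → Bool => |⟪A w (res (pos β) (sv ω)), A w (res (pos β)ᶜ (sv ω))⟫|) := by
      unfold av
      rw [abs_div, abs_of_nonneg (Nat.cast_nonneg _ : (0 : ℝ) ≤ Fintype.card (X → Bool))]
      exact div_le_div_of_nonneg_right (Finset.abs_sum_le_sum_abs _ _) (Nat.cast_nonneg _)
    exact h3.trans (av_mono fun β => le_SS A _ _ w)
  have h2 : nm p (fun ω : X → Bool => QQ A (sv ω)) ≤ 8 * γ * ν := by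
    calc nm p (fun ω : X → Bool => QQ A (sv ω)) ≤ nm p (fun ω : X → Bool =>
          4 * av (fun β : X → Bool => SS A (res (pos β) (sv ω)) (res (pos β)ᶜ (sv ω)))) := by
          refine nm_mono fun ω => ?_
          rw [abs_of_nonneg (QQ_nonneg A _), abs_of_nonneg (mul_nonneg (by norm_num)
            (av_nonneg fun β => SS_nonneg A _ _))]
          exact h1 ω
      _ = 4 * nm p (fun ω : X → Bool =>
          av (fun β : X → Bool => SS A (res (pos β) (sv ω)) (res (pos β)ᶜ (sv ω)))) := by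
          rw [nm_mul hp, abs_of_pos (by norm_num : (0 : ℝ) < 4)]
      _ ≤ 4 * av (fun β : X → Bool => nm p (fun ω : X → Bool =>
          SS A (res (pos β) (sv ω)) (res (pos β)ᶜ (sv ω)))) :=
          mul_le_mul_of_nonneg_left (nm_av_le hp _) (by norm_num)
      _ ≤ 4 * av (fun _ : X → Bool => γ * (ν + ν)) := by
          refine mul_le_mul_of_nonneg_left (av_mono fun β => ?_) (by norm_num)
          rw [nm_mix p (pos β) (fun u v => SS A u v)]
          refine (h (pos β)).trans (mul_le_mul_of_nonneg_left ?_ hγ)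
          exact add_le_add (nm_NN_res_le A hp _) (nm_NN_res_le A hp _)
      _ = 8 * γ * ν := by
          rw [av_const]
          ring
  have h3 : ν ^ 2 ≤ 1 + 8 * γ * ν := by
    calc ν ^ 2 ≤ nm (2 * p) (fun ω : X → Bool => NN A (sv ω)) ^ 2 :=
          pow_le_pow_left₀ hν0 (nm_le_nm hp (by omega) _) 2
      _ = nm p (fun ω : X → Bool => NN A (sv ω) ^ 2) := nm_sq hp _
      _ ≤ nm p (fun ω : X → Bool => 1 + QQ A (sv ω)) := by
          refine nm_mono fun ω => ?_
          have hQ := QQ_nonneg A (sv ω)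
          rw [abs_of_nonneg (sq_nonneg _), abs_of_nonneg (by positivity)]
          have h4 : NN A (sv ω) ≤ Real.sqrt (1 + QQ A (sv ω)) := by
            refine ciSup_le fun w => Real.le_sqrt_of_sq_le ?_
            have := (abs_le.1 (le_QQ A (sv ω) w)).2
            have := hA w
            linarith
          calc NN A (sv ω) ^ 2 ≤ Real.sqrt (1 + QQ A (sv ω)) ^ 2 :=
                pow_le_pow_left₀ (NN_nonneg A _) h4 2
            _ = 1 + QQ A (sv ω) := Real.sq_sqrt (by positivity)
      _ ≤ nm p (fun _ : X → Bool => (1 : ℝ)) + nm p (fun ω : X → Bool => QQ A (sv ω)) :=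
          nm_add_le hp _ _
      _ ≤ 1 + 8 * γ * ν := by
          rw [nm_const hp, abs_one]
          exact add_le_add le_rfl h2
  have h4 : ν ≤ 1 + 8 * γ := by
    by_contra hcon
    push Not at hcon
    nlinarith
  refine h2.trans ?_
  exact mul_le_mul_of_nonneg_left h4 (by positivity)

end

end Pool.Agent.Q43.RP
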