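import Mathlib
import Pool.Agent.Q43.RP.Dec

/-!
# The chaining estimate
-/

set_option autoImplicit false
set_option linter.unusedSectionVars false

namespace Pool.Agent.Q43.RP

open Finset
open scoped RealInnerProductSpace

noncomputable section

variable {X : Type*} [Fintype X] [DecidableEq X]
variable {H : Type*} [NormedAddCommGroup H] [InnerProductSpace ℝ H] [CompleteSpace H]
variable {W : Type*} [Fintype W] [Nonempty W]

/-- the maximum of the inner products of the values of two sets of operators -/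
def TT (D R : W → EuclideanSpace ℝ X →L[ℝ] H) (u v : EuclideanSpace ℝ X) : ℝ :=
  ⨆ w, |⟪D w u, R w v⟫|

theorem le_TT (D R : W → EuclideanSpace ℝ X →L[ℝ] H) (u v : EuclideanSpace ℝ X) (w : W) :
    |⟪D w u, R w v⟫| ≤ TT D R u v :=
  le_ciSup (f := fun w => |⟪D w u, R w v⟫|) (Finite.bddAbove_range _) w

theorem TT_nonneg (D R : W → EuclideanSpace ℝ X →L[ℝ] H) (u v : EuclideanSpace ℝ X) :
    0 ≤ TT D R u v := by
  obtain ⟨w⟩ := ‹Nonempty W›
  exact (abs_nonneg _).trans (le_TT D R u v w)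

open ContinuousLinearMap in
/-- One link of the chain. -/
theorem link (A : W → EuclideanSpace ℝ X →L[ℝ] H) (D R : W → EuclideanSpace ℝ X →L[ℝ] H)
    {Z : Type*} [Fintype Z] (c : W → Z) (hc : ∀ w w', c w = c w' → D w = D w' ∧ R w = R w')
    {δ t : ℝ} (hδ0 : 0 ≤ δ) (ht : 0 ≤ t) (hD : ∀ w, ‖D w‖ ≤ δ)
    (hR : ∀ w v, ‖R w v‖ ≤ NN A v) (hZ : (Fintype.card Z : ℝ) ≤ Real.exp t) {p : ℕ} (hp : p ≠ 0)
    (I : Finset X) (v : EuclideanSpace ℝ X) :
    nm p (fun ω : X → Bool => TT D R (res I (sv ω)) v) ≤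
      (5 * Real.sqrt (p + t + 2) * δ) * NN A v := by
  classical
  change nm p (fun ω : X → Bool => ⨆ w, |⟪D w (res I (sv ω)), R w v⟫|) ≤ _
  let rep : Z → Option W := fun z => if h : ∃ w, c w = z then some h.choose else none
  let vec : Z → EuclideanSpace ℝ X := fun z =>
    match rep z with
    | some w => res I (adjoint (D w) (R w v))
    | none => 0
  have hvec : ∀ z, ‖vec z‖ ≤ δ * NN A v := by
    intro z
    simp only [vec]
    split
    · next w _ =>
      refine (norm_res_le _ _).trans ?_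
      refine (le_opNorm _ _).trans ?_
      rw [LinearIsometryEquiv.norm_map]
      exact mul_le_mul (hD w) (hR w v) (norm_nonneg _) hδ0
    · rw [norm_zero]
      exact mul_nonneg hδ0 (NN_nonneg A v)
  have h1 := rad_max vec (mul_nonneg hδ0 (NN_nonneg A v)) ht hvec hZ hp
    (fun ω => ⨆ w, |⟪D w (res I (sv ω)), R w v⟫|) (by
      intro ω
      obtain ⟨w, hw⟩ := exists_eq_ciSup_of_finite (f := fun w => |⟪D w (res I (sv ω)), R w v⟫|)
      refine ⟨c w, ?_⟩
      have h2 : ∃ w', c w' = c w := ⟨w, rfl⟩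
      have h3 : rep (c w) = some h2.choose := by
        simp only [rep]
        rw [dif_pos h2]
      have h4 : vec (c w) = res I (adjoint (D w) (R w v)) := by
        simp only [vec]
        rw [h3]
        change res I (adjoint (D h2.choose) (R h2.choose v)) = _
        obtain ⟨e1, e2⟩ := hc _ _ h2.choose_spec
        rw [e1, e2]
      rw [h4, ← hw, abs_abs]
      refine le_of_eq ?_
      congr 1
      rw [← inner_res, adjoint_inner_right])
  refine h1.trans (le_of_eq ?_)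
  ring

/-- the differences of the chain -/
def DD (P : ℕ → W → EuclideanSpace ℝ X →L[ℝ] H) (j : ℕ) (w : W) :
    EuclideanSpace ℝ X →L[ℝ] H := P j w - P (j + 1) w

open ContinuousLinearMap in
/-- **The chaining estimate.** -/
theorem chain_bound (A : W → EuclideanSpace ℝ X →L[ℝ] H) (J : ℕ)
    (P : ℕ → W → EuclideanSpace ℝ X →L[ℝ] H)
    (hP0 : ∀ w, P 0 w = A w) (hPJ : ∀ w, P J w = 0)
    (hPN : ∀ j w v, ‖P j w v‖ ≤ NN A v) (δ t : ℕ → ℝ)
    (hδ : ∀ j < J, ∀ w, ‖P j w - P (j + 1) w‖ ≤ δ j) (hδ0 : ∀ j, 0 ≤ δ j) (ht : ∀ j, 0 ≤ t j)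
    {Z : ℕ → Type*} [∀ j, Fintype (Z j)] (c : ∀ j, W → Z j)
    (hc : ∀ j < J, ∀ w w', c j w = c j w' → P j w = P j w' ∧ P (j + 1) w = P (j + 1) w')
    (hZ : ∀ j < J, (Fintype.card (Z j) : ℝ) ≤ Real.exp (t j)) {p : ℕ} (hp : p ≠ 0)
    (I : Finset X) :
    nm p (fun a : (X → Bool) × (X → Bool) => SS A (res I (sv a.1)) (res Iᶜ (sv a.2))) ≤
      (∑ j ∈ range J, 5 * Real.sqrt (p + t j + 2) * δ j) *
        (nm p (fun ω : X → Bool => NN A (res I (sv ω))) +
          nm p (fun ω : X → Bool => NN A (res Iᶜ (sv ω)))) := by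
  have hsplit : ∀ u v, SS A u v ≤ ∑ j ∈ range J,
      (TT (DD P j) (P j) u v + TT (DD P j) (P (j + 1)) v u) := by
    intro u v
    refine ciSup_le fun w => ?_
    have h1 : ∀ n, ⟪P 0 w u, P 0 w v⟫ = ∑ j ∈ range n, (⟪P j w u, P j w v⟫ -
        ⟪P (j + 1) w u, P (j + 1) w v⟫) + ⟪P n w u, P n w v⟫ := by
      intro n
      induction n with
      | zero => simp
      | succ n ih =>
        rw [ih, Finset.sum_range_succ]
        ring
    have h2 := h1 J
    rw [hPJ w, hP0 w] at h2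
    simp only [_root_.zero_apply, inner_zero_left, add_zero] at h2
    rw [h2]
    refine (Finset.abs_sum_le_sum_abs _ _).trans (Finset.sum_le_sum fun j _ => ?_)
    have h3 : ⟪P j w u, P j w v⟫ - ⟪P (j + 1) w u, P (j + 1) w v⟫ =
        ⟪DD P j w u, P j w v⟫ + ⟪DD P j w v, P (j + 1) w u⟫ := by
      simp only [DD, _root_.sub_apply, inner_sub_left]
      rw [real_inner_comm (P (j + 1) w u) (P j w v), real_inner_comm (P (j + 1) w u) (P (j + 1) w v)]
      ring
    rw [h3]
    exact (abs_add_le _ _).trans (add_le_add (le_TT (DD P j) (P j) u v w)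
      (le_TT (DD P j) (P (j + 1)) v u w))
  set κ : ℕ → ℝ := fun j => 5 * Real.sqrt (p + t j + 2) * δ j with hκ
  have hκ0 : ∀ j, 0 ≤ κ j := fun j => mul_nonneg (by positivity) (hδ0 j)
  have hN0 : ∀ (I : Finset X) (ω : X → Bool), 0 ≤ NN A (res I (sv ω)) := fun I ω => NN_nonneg _ _
  have hl1 : ∀ j ∈ range J, nm p (fun a : (X → Bool) × (X → Bool) =>
      TT (DD P j) (P j) (res I (sv a.1)) (res Iᶜ (sv a.2))) ≤
      κ j * nm p (fun ω : X → Bool => NN A (res Iᶜ (sv ω))) := by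
    intro j hj
    have hj := Finset.mem_range.1 hj
    refine nm_prod_le (F := fun a : (X → Bool) × (X → Bool) =>
      TT (DD P j) (P j) (res I (sv a.1)) (res Iᶜ (sv a.2)))
      (G := fun ω : X → Bool => NN A (res Iᶜ (sv ω))) hp (hκ0 j) (hN0 _) fun ω' => ?_
    have key := link A (DD P j) (P j) (c j) (fun w w' h => by
      obtain ⟨e1, e2⟩ := hc j hj w w' h
      exact ⟨by simp only [DD, e1, e2], e1⟩) (hδ0 j) (ht j) (hδ j hj) (hPN j) (hZ j hj) hp I
        (res Iᶜ (sv ω'))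
    exact key
  have hl2 : ∀ j ∈ range J, nm p (fun a : (X → Bool) × (X → Bool) =>
      TT (DD P j) (P (j + 1)) (res Iᶜ (sv a.2)) (res I (sv a.1))) ≤
      κ j * nm p (fun ω : X → Bool => NN A (res I (sv ω))) := by
    intro j hj
    have hj := Finset.mem_range.1 hj
    refine nm_prod_le' (F := fun a : (X → Bool) × (X → Bool) =>
      TT (DD P j) (P (j + 1)) (res Iᶜ (sv a.2)) (res I (sv a.1)))
      (G := fun ω : X → Bool => NN A (res I (sv ω))) hp (hκ0 j) (hN0 _) fun ω => ?_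
    have key := link A (DD P j) (P (j + 1)) (c j) (fun w w' h => by
      obtain ⟨e1, e2⟩ := hc j hj w w' h
      exact ⟨by simp only [DD, e1, e2], e2⟩) (hδ0 j) (ht j) (hδ j hj) (hPN (j + 1)) (hZ j hj) hp
        Iᶜ (res I (sv ω))
    exact key
  calc nm p (fun a : (X → Bool) × (X → Bool) => SS A (res I (sv a.1)) (res Iᶜ (sv a.2)))
      ≤ nm p (fun a : (X → Bool) × (X → Bool) => ∑ j ∈ range J,
          (TT (DD P j) (P j) (res I (sv a.1)) (res Iᶜ (sv a.2)) +
            TT (DD P j) (P (j + 1)) (res Iᶜ (sv a.2)) (res I (sv a.1)))) := by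
        refine nm_mono fun a => ?_
        rw [abs_of_nonneg (SS_nonneg A _ _), abs_of_nonneg (Finset.sum_nonneg fun j _ =>
          add_nonneg (TT_nonneg _ _ _ _) (TT_nonneg _ _ _ _))]
        exact hsplit _ _
    _ ≤ ∑ j ∈ range J, nm p (fun a : (X → Bool) × (X → Bool) =>
          (TT (DD P j) (P j) (res I (sv a.1)) (res Iᶜ (sv a.2)) +
            TT (DD P j) (P (j + 1)) (res Iᶜ (sv a.2)) (res I (sv a.1)))) :=
        nm_sum_le hp _ _
    _ ≤ ∑ j ∈ range J, (κ j * nm p (fun ω : X → Bool => NN A (res Iᶜ (sv ω))) +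
          κ j * nm p (fun ω : X → Bool => NN A (res I (sv ω)))) :=
        Finset.sum_le_sum fun j hj => (nm_add_le hp _ _).trans (add_le_add (hl1 j hj) (hl2 j hj))
    _ = _ := by
        rw [Finset.sum_mul]
        refine Finset.sum_congr rfl fun j _ => ?_
        ring

end

end Pool.Agent.Q43.RP
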