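import Mathlib
import Pool.Agent.Q43.RP.Chain

/-!
# Halving of words
-/

set_option autoImplicit false
set_option linter.unusedSectionVars false

namespace Pool.Agent.Q43.RP

open Finset
open scoped RealInnerProductSpace

noncomputable section

variable {X : Type*} [Fintype X] [DecidableEq X] [Nonempty X]
variable {H : Type*} [NormedAddCommGroup H] [InnerProductSpace ℝ H] [CompleteSpace H]
variable {S : Type*}

/-- the operator of a letter or a blank -/
def Uo (U : S → EuclideanSpace ℝ X →L[ℝ] H) : Option S → EuclideanSpace ℝ X →L[ℝ] H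
  | none => 0
  | some s => U s

/-- the operator of a word -/
def OP (U : S → EuclideanSpace ℝ X →L[ℝ] H) (n : ℕ) (a : ℕ → Option S) :
    EuclideanSpace ℝ X →L[ℝ] H := ∑ i ∈ range n, Uo U (a i)

/-- the word has blanks from the place `m` on -/
def Below (m : ℕ) (a : ℕ → Option S) : Prop := ∀ i, m ≤ i → a i = none

theorem OP_eq (U : S → EuclideanSpace ℝ X →L[ℝ] H) {n m : ℕ} (hmn : m ≤ n) {a : ℕ → Option S}
    (ha : Below m a) : OP U n a = ∑ i ∈ range m, Uo U (a i) := by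
  unfold OP
  symm
  refine Finset.sum_subset (Finset.range_subset_range.2 hmn) fun i _ hi => ?_
  rw [ha i (by simpa using hi)]
  rfl

/-- a part of a word -/
theorem exists_part (U : S → EuclideanSpace ℝ X →L[ℝ] H) {n k : ℕ} (hkn : k ≤ n)
    (a : ℕ → Option S) (P : Finset ℕ) (hP : P.card ≤ k) :
    ∃ a' : ℕ → Option S, Below k a' ∧ OP U n a' = ∑ i ∈ P, Uo U (a i) := by
  classical
  let e := P.equivFin.symm
  let a' : ℕ → Option S := fun j => if h : j < P.card then a (e ⟨j, h⟩) else none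
  have h1 : Below P.card a' := by
    intro i hi
    simp only [a']
    rw [dif_neg (by omega)]
  refine ⟨a', fun i hi => h1 i (hP.trans hi), ?_⟩
  rw [OP_eq U (hP.trans hkn) h1, ← Fin.sum_univ_eq_sum_range (fun i => Uo U (a' i)) P.card]
  have h2 : ∀ j : Fin P.card, Uo U (a' j) = Uo U (a (e j)) := by
    intro j
    simp only [a']
    rw [dif_pos j.2]
  rw [Finset.sum_congr rfl fun j _ => h2 j, Equiv.sum_comp e (fun x : P => Uo U (a x))]
  exact Finset.sum_coe_sort P (fun i => Uo U (a i))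

/-- Halving of a word. -/
theorem exists_half (U : S → EuclideanSpace ℝ X →L[ℝ] H) {τ : ℝ} (hτ : 0 ≤ τ)
    (hU : ∀ s, ‖U s‖ ^ 2 ≤ τ) (n m : ℕ) (hmn : m ≤ n) (a : ℕ → Option S) (ha : Below m a) :
    ∃ a' : ℕ → Option S, Below (m / 2) a' ∧
      ‖OP U n a - (2 : ℝ) • OP U n a'‖ ^ 2 ≤ 30 * (1 + Real.log (Fintype.card X)) * m * τ := by
  classical
  have hUo : ∀ o : Option S, ‖Uo U o‖ ^ 2 ≤ τ := by
    rintro (_ | s)
    · simp only [Uo, norm_zero]
      rw [zero_pow two_ne_zero]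
      exact hτ
    · exact hU s
  obtain ⟨η, hη⟩ := exists_signs (fun l : Fin m => Uo U (a l)) (fun l => hUo _) hτ
  rw [Fintype.card_fin] at hη
  let f : ℕ → Bool := fun i => if h : i < m then η ⟨i, h⟩ else true
  let P : Finset ℕ := (range m).filter (fun i => f i = true)
  let Q : Finset ℕ := (range m).filter (fun i => ¬ f i = true)
  have hcard : P.card + Q.card = m := by
    rw [Finset.card_filter_add_card_filter_not, Finset.card_range]
  have hsum : OP U n a = ∑ i ∈ P, Uo U (a i) + ∑ i ∈ Q, Uo U (a i) := by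
    rw [OP_eq U hmn ha, Finset.sum_filter_add_sum_filter_not]
  have hB : ∑ l : Fin m, sg (η l) • Uo U (a l) =
      ∑ i ∈ P, Uo U (a i) - ∑ i ∈ Q, Uo U (a i) := by
    have h1 : ∀ l : Fin m, sg (η l) • Uo U (a l) = (fun i => sg (f i) • Uo U (a i)) l := by
      intro l
      simp only [f]
      rw [dif_pos l.2]
    rw [Finset.sum_congr rfl fun l _ => h1 l, Fin.sum_univ_eq_sum_range
      (fun i => sg (f i) • Uo U (a i)) m,
      ← Finset.sum_filter_add_sum_filter_not (range m) (fun i => f i = true), sub_eq_add_neg,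
      ← Finset.sum_neg_distrib]
    congr 1
    · refine Finset.sum_congr rfl fun i hi => ?_
      have h2 : f i = true := (Finset.mem_filter.1 hi).2
      simp [h2, sg]
    · refine Finset.sum_congr rfl fun i hi => ?_
      have h2 : ¬ f i = true := (Finset.mem_filter.1 hi).2
      simp [h2, sg]
  rcases le_total P.card Q.card with h | h
  · obtain ⟨a', h1, h2⟩ := exists_part U (k := m / 2) (n := n) (by omega) a P (by omega)
    refine ⟨a', h1, ?_⟩
    rw [h2, hsum, two_smul]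
    have h3 : ∑ i ∈ P, Uo U (a i) + ∑ i ∈ Q, Uo U (a i) -
        (∑ i ∈ P, Uo U (a i) + ∑ i ∈ P, Uo U (a i)) =
        -(∑ i ∈ P, Uo U (a i) - ∑ i ∈ Q, Uo U (a i)) := by abel
    rw [h3, norm_neg, ← hB]
    exact hη
  · obtain ⟨a', h1, h2⟩ := exists_part U (k := m / 2) (n := n) (by omega) a Q (by omega)
    refine ⟨a', h1, ?_⟩
    rw [h2, hsum, two_smul]
    have h3 : ∑ i ∈ P, Uo U (a i) + ∑ i ∈ Q, Uo U (a i) -
        (∑ i ∈ Q, Uo U (a i) + ∑ i ∈ Q, Uo U (a i)) =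
        ∑ i ∈ P, Uo U (a i) - ∑ i ∈ Q, Uo U (a i) := by abel
    rw [h3, ← hB]
    exact hη

/-- Repeated halving of a word. -/
theorem exists_seq (U : S → EuclideanSpace ℝ X →L[ℝ] H) {τ : ℝ} (hτ : 0 ≤ τ)
    (hU : ∀ s, ‖U s‖ ^ 2 ≤ τ) (n : ℕ) (a : ℕ → Option S) (ha : Below n a) :
    ∃ b : ℕ → ℕ → Option S, b 0 = a ∧ (∀ j, Below (n / 2 ^ j) (b j)) ∧
      ∀ j, ‖OP U n a - (2 : ℝ) ^ j • OP U n (b j)‖ ≤
        3 * Real.sqrt (30 * (1 + Real.log (Fintype.card X)) * n * τ) * Real.sqrt 2 ^ j := by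
  classical
  set K : ℝ := 30 * (1 + Real.log (Fintype.card X)) with hK
  have hX : (1 : ℝ) ≤ Fintype.card X := by exact_mod_cast Fintype.card_pos
  have hK0 : 0 ≤ K := by
    have := Real.log_nonneg hX
    positivity
  have hstep : ∀ (m : ℕ) (a : {a : ℕ → Option S // Below m a}), ∃ a' : ℕ → Option S,
      Below (m / 2) a' ∧ (m ≤ n → ‖OP U n a.1 - (2 : ℝ) • OP U n a'‖ ^ 2 ≤ K * m * τ) := by
    intro m a
    by_cases hm : m ≤ n
    · obtain ⟨a', h1, h2⟩ := exists_half U hτ hU n m hm a.1 a.2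
      exact ⟨a', h1, fun _ => h2⟩
    · exact ⟨fun _ => none, fun _ _ => rfl, fun h => absurd h hm⟩
  choose nx hnx1 hnx2 using hstep
  have hdiv : ∀ j, n / 2 ^ j / 2 = n / 2 ^ (j + 1) := fun j => by
    rw [Nat.div_div_eq_div_mul, pow_succ]
  let B : ∀ j, {a : ℕ → Option S // Below (n / 2 ^ j) a} := fun j =>
    Nat.rec ⟨a, by simpa using ha⟩
      (fun j b => ⟨nx (n / 2 ^ j) b, by rw [← hdiv]; exact hnx1 _ _⟩) j
  have hB0 : (B 0).1 = a := rfl
  have hBs : ∀ j, (B (j + 1)).1 = nx (n / 2 ^ j) (B j) := fun j => rfl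
  refine ⟨fun j => (B j).1, hB0, fun j => (B j).2, fun j => ?_⟩
  have hs2 : Real.sqrt 2 ^ 2 = 2 := Real.sq_sqrt (by norm_num)
  have hs0 : 0 < Real.sqrt 2 := Real.sqrt_pos.2 (by norm_num)
  have hs4 : 4 ≤ 3 * Real.sqrt 2 := by nlinarith [Real.sqrt_nonneg 2]
  induction j with
  | zero =>
    change ‖OP U n a - (2 : ℝ) ^ 0 • OP U n (B 0).1‖ ≤ _
    rw [hB0, pow_zero, one_smul, sub_self, norm_zero]
    positivity
  | succ j ih =>
    change ‖OP U n a - (2 : ℝ) ^ (j + 1) • OP U n (B (j + 1)).1‖ ≤ _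
    have h1 := hnx2 (n / 2 ^ j) (B j) (Nat.div_le_self _ _)
    rw [← hBs j] at h1
    have h2 : (2 : ℝ) ^ j * ‖OP U n (B j).1 - (2 : ℝ) • OP U n (B (j + 1)).1‖ ≤
        Real.sqrt (K * n * τ) * Real.sqrt 2 ^ j := by
      refine le_of_pow_le_pow_left₀ two_ne_zero (by positivity) ?_
      rw [mul_pow, mul_pow, Real.sq_sqrt (by positivity), ← pow_mul (Real.sqrt 2), mul_comm j 2,
        pow_mul, hs2]
      have h3 : ((n / 2 ^ j : ℕ) : ℝ) * 2 ^ j ≤ n := by
        exact_mod_cast Nat.div_mul_le_self n (2 ^ j)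
      calc ((2 : ℝ) ^ j) ^ 2 * ‖OP U n (B j).1 - (2 : ℝ) • OP U n (B (j + 1)).1‖ ^ 2
          ≤ ((2 : ℝ) ^ j) ^ 2 * (K * ((n / 2 ^ j : ℕ) : ℝ) * τ) :=
            mul_le_mul_of_nonneg_left h1 (by positivity)
        _ = K * τ * 2 ^ j * (((n / 2 ^ j : ℕ) : ℝ) * 2 ^ j) := by ring
        _ ≤ K * τ * 2 ^ j * n := mul_le_mul_of_nonneg_left h3 (by positivity)
        _ = K * n * τ * 2 ^ j := by ring
    have h4 : OP U n a - (2 : ℝ) ^ (j + 1) • OP U n (B (j + 1)).1 =
        (OP U n a - (2 : ℝ) ^ j • OP U n (B j).1) +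
          (2 : ℝ) ^ j • (OP U n (B j).1 - (2 : ℝ) • OP U n (B (j + 1)).1) := by
      rw [smul_sub, smul_smul, ← pow_succ]
      abel
    rw [h4]
    refine (norm_add_le _ _).trans ?_
    rw [norm_smul, Real.norm_of_nonneg (by positivity)]
    calc _ ≤ 3 * Real.sqrt (K * n * τ) * Real.sqrt 2 ^ j +
          Real.sqrt (K * n * τ) * Real.sqrt 2 ^ j := add_le_add ih h2
      _ = Real.sqrt (K * n * τ) * Real.sqrt 2 ^ j * 4 := by ring
      _ ≤ Real.sqrt (K * n * τ) * Real.sqrt 2 ^ j * (3 * Real.sqrt 2) :=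
          mul_le_mul_of_nonneg_left hs4 (by positivity)
      _ = 3 * Real.sqrt (K * n * τ) * Real.sqrt 2 ^ (j + 1) := by ring

end

end Pool.Agent.Q43.RP
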