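import Mathlib
import Pool.Agent.Q43.RP.Half

/-!
# The restricted isometry property
-/

set_option autoImplicit false
set_option linter.unusedSectionVars false

namespace Pool.Agent.Q43.RP

open Finset
open scoped RealInnerProductSpace

noncomputable section

theorem sqrt_add_le {x y : ℝ} (hx : 0 ≤ x) (hy : 0 ≤ y) :
    Real.sqrt (x + y) ≤ Real.sqrt x + Real.sqrt y := by
  refine Real.sqrt_le_iff.2 ⟨by positivity, ?_⟩
  nlinarith [Real.sq_sqrt hx, Real.sq_sqrt hy, Real.sqrt_nonneg x, Real.sqrt_nonneg y,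
    mul_nonneg (Real.sqrt_nonneg x) (Real.sqrt_nonneg y)]

theorem sum_sqrt_two_pow (J : ℕ) : ∑ j ∈ range J, Real.sqrt 2 ^ j ≤ 3 * Real.sqrt 2 ^ J := by
  have hs2 : Real.sqrt 2 ^ 2 = 2 := Real.sq_sqrt (by norm_num)
  have hs0 : 0 < Real.sqrt 2 := Real.sqrt_pos.2 (by norm_num)
  have hs4 : 4 ≤ 3 * Real.sqrt 2 := by nlinarith [Real.sqrt_nonneg 2]
  induction J with
  | zero => simp
  | succ J ih =>
    rw [Finset.sum_range_succ]
    calc _ ≤ 3 * Real.sqrt 2 ^ J + Real.sqrt 2 ^ J := add_le_add ih le_rfl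
      _ = Real.sqrt 2 ^ J * 4 := by ring
      _ ≤ Real.sqrt 2 ^ J * (3 * Real.sqrt 2) := mul_le_mul_of_nonneg_left hs4 (by positivity)
      _ = 3 * Real.sqrt 2 ^ (J + 1) := by ring

/-- The sum of the estimates of the links. -/
theorem gamma_le {n p : ℕ} (hn : n ≠ 0) (hp : p ≠ 0) {L g K : ℝ} (hg : 0 < g) (hL : 1 ≤ L)
    (hLn : Real.log (2 * n) ≤ L) (hK0 : 0 ≤ K) (hK : K ≤ 30 * L) :
    ∑ j ∈ range (Nat.log 2 n + 1), 5 * Real.sqrt (p + 2 * ((n / 2 ^ j : ℕ) : ℝ) * L + 2) *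
      (15 * Real.sqrt (K / g) * Real.sqrt 2 ^ j) ≤
      3100 * Real.sqrt (n * L * p / g) + 900 * Real.sqrt (n * L ^ 4 / g) := by
  set J := Nat.log 2 n + 1 with hJ
  have hL0 : 0 < L := by linarith
  have hn0 : (0 : ℝ) < n := by exact_mod_cast Nat.pos_of_ne_zero hn
  have hp0 : (1 : ℝ) ≤ p := by exact_mod_cast Nat.one_le_iff_ne_zero.2 hp
  have hs2 : Real.sqrt 2 ^ 2 = 2 := Real.sq_sqrt (by norm_num)
  have hs0 : 0 < Real.sqrt 2 := Real.sqrt_pos.2 (by norm_num)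
  -- the number of the levels
  have h2J : (2 : ℝ) ^ J ≤ 2 * n := by
    have h1 : 2 ^ Nat.log 2 n ≤ n := Nat.pow_log_le_self 2 hn
    have h2 : 2 ^ J ≤ 2 * n := by
      rw [hJ, pow_succ]
      omega
    exact_mod_cast h2
  have hJL : (J : ℝ) ≤ 1.5 * L := by
    have h1 : Real.log ((2 : ℝ) ^ J) ≤ Real.log (2 * n) := Real.log_le_log (by positivity) h2J
    rw [Real.log_pow] at h1
    have h2 := Real.log_two_gt_d9
    have h3 : (J : ℝ) * 0.69 ≤ L := by
      have : (J : ℝ) * 0.69 ≤ J * Real.log 2 :=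
        mul_le_mul_of_nonneg_left (by linarith) (Nat.cast_nonneg _)
      linarith
    linarith
  have hsJ : Real.sqrt 2 ^ J ≤ Real.sqrt (2 * n) := by
    refine Real.le_sqrt_of_sq_le ?_
    rw [← pow_mul, mul_comm J 2, pow_mul, hs2]
    exact h2J
  have hterm : ∀ j ∈ range J, 5 * Real.sqrt (p + 2 * ((n / 2 ^ j : ℕ) : ℝ) * L + 2) *
      (15 * Real.sqrt (K / g) * Real.sqrt 2 ^ j) ≤
      75 * Real.sqrt (K / g) * (Real.sqrt (3 * p) * Real.sqrt 2 ^ j + Real.sqrt (2 * n * L)) := by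
    intro j _
    have h1 : Real.sqrt (p + 2 * ((n / 2 ^ j : ℕ) : ℝ) * L + 2) ≤
        Real.sqrt (3 * p) + Real.sqrt (2 * ((n / 2 ^ j : ℕ) : ℝ) * L) := by
      refine (Real.sqrt_le_sqrt ?_).trans (sqrt_add_le (by positivity) (by positivity))
      linarith
    have h2 : Real.sqrt (2 * ((n / 2 ^ j : ℕ) : ℝ) * L) * Real.sqrt 2 ^ j ≤
        Real.sqrt (2 * n * L) := by
      refine Real.le_sqrt_of_sq_le ?_
      rw [mul_pow, Real.sq_sqrt (by positivity), ← pow_mul, mul_comm j 2, pow_mul, hs2]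
      have h3 : ((n / 2 ^ j : ℕ) : ℝ) * 2 ^ j ≤ n := by
        exact_mod_cast Nat.div_mul_le_self n (2 ^ j)
      calc 2 * ((n / 2 ^ j : ℕ) : ℝ) * L * 2 ^ j = 2 * L * (((n / 2 ^ j : ℕ) : ℝ) * 2 ^ j) := by
            ring
        _ ≤ 2 * L * n := mul_le_mul_of_nonneg_left h3 (by positivity)
        _ = 2 * n * L := by ring
    calc 5 * Real.sqrt (p + 2 * ((n / 2 ^ j : ℕ) : ℝ) * L + 2) *
          (15 * Real.sqrt (K / g) * Real.sqrt 2 ^ j)
        = 75 * Real.sqrt (K / g) *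
          (Real.sqrt (p + 2 * ((n / 2 ^ j : ℕ) : ℝ) * L + 2) * Real.sqrt 2 ^ j) := by ring
      _ ≤ 75 * Real.sqrt (K / g) * ((Real.sqrt (3 * p) +
          Real.sqrt (2 * ((n / 2 ^ j : ℕ) : ℝ) * L)) * Real.sqrt 2 ^ j) := by gcongr
      _ = 75 * Real.sqrt (K / g) * (Real.sqrt (3 * p) * Real.sqrt 2 ^ j +
          Real.sqrt (2 * ((n / 2 ^ j : ℕ) : ℝ) * L) * Real.sqrt 2 ^ j) := by ring
      _ ≤ _ := by gcongr
  refine (Finset.sum_le_sum hterm).trans ?_
  rw [← Finset.mul_sum, Finset.sum_add_distrib, ← Finset.mul_sum, Finset.sum_const,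
    Finset.card_range, nsmul_eq_mul]
  have h30 : Real.sqrt (K / g) ≤ Real.sqrt 30 * Real.sqrt (L / g) := by
    rw [← Real.sqrt_mul (by norm_num)]
    refine Real.sqrt_le_sqrt ?_
    rw [← mul_div_assoc]
    exact div_le_div_of_nonneg_right hK hg.le
  have hA : Real.sqrt (3 * p) * ∑ j ∈ range J, Real.sqrt 2 ^ j ≤
      3 * Real.sqrt 6 * (Real.sqrt p * Real.sqrt n) := by
    have h1 : Real.sqrt (3 * p) = Real.sqrt 3 * Real.sqrt p := Real.sqrt_mul (by norm_num) _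
    have h2 : Real.sqrt (2 * n) = Real.sqrt 2 * Real.sqrt n := Real.sqrt_mul (by norm_num) _
    have h3 : Real.sqrt 6 = Real.sqrt 3 * Real.sqrt 2 := by
      rw [← Real.sqrt_mul (by norm_num)]
      norm_num
    have h4 : ∑ j ∈ range J, Real.sqrt 2 ^ j ≤ 3 * (Real.sqrt 2 * Real.sqrt n) := by
      refine (sum_sqrt_two_pow J).trans ?_
      rw [← h2]
      exact mul_le_mul_of_nonneg_left hsJ (by norm_num)
    calc Real.sqrt (3 * p) * ∑ j ∈ range J, Real.sqrt 2 ^ j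
        ≤ (Real.sqrt 3 * Real.sqrt p) * (3 * (Real.sqrt 2 * Real.sqrt n)) := by
          rw [h1]
          exact mul_le_mul_of_nonneg_left h4 (by positivity)
      _ = _ := by
          rw [h3]
          ring
  have hB : (J : ℝ) * Real.sqrt (2 * n * L) ≤ 1.5 * Real.sqrt 2 * (Real.sqrt n * Real.sqrt (L ^ 3)) := by
    have h1 : Real.sqrt (2 * n * L) = Real.sqrt 2 * Real.sqrt n * Real.sqrt L := by
      rw [Real.sqrt_mul (by positivity), Real.sqrt_mul (by norm_num)]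
    have h2 : Real.sqrt (L ^ 3) = L * Real.sqrt L := by
      rw [show L ^ 3 = L ^ 2 * L by ring, Real.sqrt_mul (by positivity), Real.sqrt_sq hL0.le]
    rw [h1, h2]
    calc (J : ℝ) * (Real.sqrt 2 * Real.sqrt n * Real.sqrt L) ≤
          (1.5 * L) * (Real.sqrt 2 * Real.sqrt n * Real.sqrt L) := by gcongr
      _ = _ := by ring
  have hfirst : Real.sqrt (L / g) * (Real.sqrt p * Real.sqrt n) = Real.sqrt (n * L * p / g) := by
    rw [← Real.sqrt_mul (by positivity), ← Real.sqrt_mul (by positivity)]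
    congr 1
    ring
  have hsecond : Real.sqrt (L / g) * (Real.sqrt n * Real.sqrt (L ^ 3)) =
      Real.sqrt (n * L ^ 4 / g) := by
    rw [← Real.sqrt_mul (by positivity), ← Real.sqrt_mul (by positivity)]
    congr 1
    ring
  have hs30 : Real.sqrt 30 ≤ 5.478 := Real.sqrt_le_iff.2 ⟨by norm_num, by norm_num⟩
  have hs6 : Real.sqrt 6 ≤ 2.45 := Real.sqrt_le_iff.2 ⟨by norm_num, by norm_num⟩
  have hs2' : Real.sqrt 2 ≤ 1.4143 := Real.sqrt_le_iff.2 ⟨by norm_num, by norm_num⟩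
  calc 75 * Real.sqrt (K / g) * (Real.sqrt (3 * p) * ∑ j ∈ range J, Real.sqrt 2 ^ j +
        J * Real.sqrt (2 * n * L))
      ≤ 75 * (Real.sqrt 30 * Real.sqrt (L / g)) * (3 * Real.sqrt 6 * (Real.sqrt p * Real.sqrt n) +
        1.5 * Real.sqrt 2 * (Real.sqrt n * Real.sqrt (L ^ 3))) := by gcongr
    _ = (75 * Real.sqrt 30 * 3 * Real.sqrt 6) * (Real.sqrt (L / g) * (Real.sqrt p * Real.sqrt n)) +
        (75 * Real.sqrt 30 * 1.5 * Real.sqrt 2) *
          (Real.sqrt (L / g) * (Real.sqrt n * Real.sqrt (L ^ 3))) := by ring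
    _ ≤ (75 * 5.478 * 3 * 2.45) * (Real.sqrt (L / g) * (Real.sqrt p * Real.sqrt n)) +
        (75 * 5.478 * 1.5 * 1.4143) *
          (Real.sqrt (L / g) * (Real.sqrt n * Real.sqrt (L ^ 3))) := by gcongr
    _ ≤ 3100 * (Real.sqrt (L / g) * (Real.sqrt p * Real.sqrt n)) +
        900 * (Real.sqrt (L / g) * (Real.sqrt n * Real.sqrt (L ^ 3))) := by
        gcongr <;> norm_num
    _ = _ := by rw [hfirst, hsecond]

variable {X : Type*} [Fintype X] [DecidableEq X] [Nonempty X]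
variable {H : Type*} [NormedAddCommGroup H] [InnerProductSpace ℝ H] [CompleteSpace H]
variable {S : Type*} [Fintype S]
variable {W : Type*} [Fintype W] [Nonempty W]

/-- **The quadratic forms of a family of words.** -/
theorem nm_QQ_le (U : S → EuclideanSpace ℝ X →L[ℝ] H) {τ : ℝ} (hτ : 0 ≤ τ)
    (hU : ∀ s, ‖U s‖ ^ 2 ≤ τ) {n : ℕ} (hn : n ≠ 0) (a : W → ℕ → Option S)
    (ha : ∀ w, Below n (a w)) {c₀ : ℝ} (hc₀ : 0 ≤ c₀)
    (hA : ∀ w, HS (c₀ • OP U n (a w)) ≤ 1) {g : ℝ} (hg : 0 < g)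
    (hcg : c₀ ^ 2 * τ * n * g ≤ 1) {L : ℝ} (hL : 1 ≤ L) (hLS : Real.log (Fintype.card S + 1) ≤ L)
    (hLX : 1 + Real.log (Fintype.card X) ≤ L) (hLn : Real.log (2 * n) ≤ L) {p : ℕ} (hp : p ≠ 0)
    {γ : ℝ} (hγ : 3100 * Real.sqrt (n * L * p / g) + 900 * Real.sqrt (n * L ^ 4 / g) ≤ γ) :
    nm p (fun ω : X → Bool => QQ (fun w => c₀ • OP U n (a w)) (sv ω)) ≤ 8 * γ * (1 + 8 * γ) := by
  classical
  set A : W → EuclideanSpace ℝ X →L[ℝ] H := fun w => c₀ • OP U n (a w) with hAdef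
  have hX : (1 : ℝ) ≤ Fintype.card X := by exact_mod_cast Fintype.card_pos
  have hn0 : (0 : ℝ) < n := by exact_mod_cast Nat.pos_of_ne_zero hn
  set K : ℝ := 30 * (1 + Real.log (Fintype.card X)) with hK
  have hK0 : 0 ≤ K := by
    have := Real.log_nonneg hX
    positivity
  have hK30 : K ≤ 30 * L := by
    rw [hK]
    linarith
  have hs2 : Real.sqrt 2 ^ 2 = 2 := Real.sq_sqrt (by norm_num)
  have hs0 : 0 < Real.sqrt 2 := Real.sqrt_pos.2 (by norm_num)
  choose b hb0 hbB hbd using fun w => exists_seq U hτ hU n (a w) (ha w)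
  set J := Nat.log 2 n + 1 with hJ
  have hJn : n / 2 ^ J = 0 := Nat.div_eq_of_lt (by rw [hJ]; exact Nat.lt_pow_succ_log_self (by norm_num) n)
  -- the distance
  set d : ℝ := Real.sqrt (K / g) with hd
  have hdist : ∀ w j, ‖A w - (c₀ * 2 ^ j) • OP U n (b w j)‖ ≤ 3 * d * Real.sqrt 2 ^ j := by
    intro w j
    have h1 := hbd w j
    have h2 : A w - (c₀ * 2 ^ j) • OP U n (b w j) =
        c₀ • (OP U n (a w) - (2 : ℝ) ^ j • OP U n (b w j)) := by
      rw [smul_sub, smul_smul]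
    rw [h2, norm_smul, Real.norm_of_nonneg hc₀]
    have h3 : c₀ * Real.sqrt (K * n * τ) ≤ d := by
      rw [hd]
      refine Real.le_sqrt_of_sq_le ?_
      rw [mul_pow, Real.sq_sqrt (by positivity), le_div_iff₀ hg]
      calc c₀ ^ 2 * (K * n * τ) * g = K * (c₀ ^ 2 * τ * n * g) := by ring
        _ ≤ K * 1 := mul_le_mul_of_nonneg_left hcg hK0
        _ = K := mul_one K
    calc c₀ * ‖OP U n (a w) - (2 : ℝ) ^ j • OP U n (b w j)‖
        ≤ c₀ * (3 * Real.sqrt (K * n * τ) * Real.sqrt 2 ^ j) :=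
          mul_le_mul_of_nonneg_left h1 hc₀
      _ = 3 * (c₀ * Real.sqrt (K * n * τ)) * Real.sqrt 2 ^ j := by ring
      _ ≤ 3 * d * Real.sqrt 2 ^ j := by gcongr
  -- the classes
  let cl : ∀ j, W → (Fin (n / 2 ^ j) → Option S) := fun j w i => b w j i
  have hcl : ∀ j w w', cl j w = cl j w' → b w j = b w' j := by
    intro j w w' h
    funext i
    by_cases hi : i < n / 2 ^ j
    · exact congrFun h ⟨i, hi⟩
    · rw [hbB w j i (by omega), hbB w' j i (by omega)]
  let rep : ∀ j, W → W := fun j w => (⟨w, rfl⟩ : ∃ w', cl j w' = cl j w).choose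
  have hrep : ∀ j w, b (rep j w) j = b w j := fun j w =>
    hcl j _ _ (⟨w, rfl⟩ : ∃ w', cl j w' = cl j w).choose_spec
  have hrepc : ∀ j w w', cl j w = cl j w' → rep j w = rep j w' := by
    intro j w w' h
    simp only [rep]
    simp only [h]
  let P : ℕ → W → EuclideanSpace ℝ X →L[ℝ] H := fun j w => if j < J then A (rep j w) else 0
  have hPlt : ∀ j w, j < J → P j w = A (rep j w) := fun j w h => by
    simp only [P]
    rw [if_pos h]
  have hPge : ∀ j w, ¬ j < J → P j w = 0 := fun j w h => by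
    simp only [P]
    rw [if_neg h]
  have hP0 : ∀ w, P 0 w = A w := by
    intro w
    rw [hPlt 0 w (by omega)]
    have h1 := hrep 0 w
    rw [hb0, hb0] at h1
    simp only [hAdef, h1]
  have hPN : ∀ j w v, ‖P j w v‖ ≤ NN A v := by
    intro j w v
    by_cases h : j < J
    · rw [hPlt j w h]
      exact le_NN A v _
    · rw [hPge j w h, _root_.zero_apply, norm_zero]
      exact NN_nonneg A v
  have hdA : ∀ j ≤ J, ∀ w, ‖A w - P j w‖ ≤ 6 * d * Real.sqrt 2 ^ j := by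
    intro j hj w
    by_cases h : j < J
    · rw [hPlt j w h]
      have h1 := hdist w j
      have h2 := hdist (rep j w) j
      rw [hrep j w] at h2
      have h3 : A w - A (rep j w) = (A w - (c₀ * 2 ^ j) • OP U n (b w j)) -
          (A (rep j w) - (c₀ * 2 ^ j) • OP U n (b w j)) := by abel
      rw [h3]
      refine (norm_sub_le _ _).trans ?_
      linarith
    · have hjJ : j = J := by omega
      subst hjJ
      rw [hPge _ w h, sub_zero]
      have h1 := hdist w J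
      have h2 : OP U n (b w J) = 0 := by
        rw [OP_eq U (Nat.zero_le n) (by
          have := hbB w J
          rwa [hJn] at this)]
        simp
      rw [h2, smul_zero, sub_zero] at h1
      have h3 : 0 ≤ 3 * d * Real.sqrt 2 ^ J := by positivity
      linarith
  let δ : ℕ → ℝ := fun j => 15 * Real.sqrt (K / g) * Real.sqrt 2 ^ j
  have hδ : ∀ j < J, ∀ w, ‖P j w - P (j + 1) w‖ ≤ δ j := by
    intro j hj w
    have h1 := hdA j hj.le w
    have h2 := hdA (j + 1) hj w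
    have h3 : P j w - P (j + 1) w = (A w - P (j + 1) w) - (A w - P j w) := by abel
    rw [h3]
    refine (norm_sub_le _ _).trans ?_
    have h4 : Real.sqrt 2 ≤ 1.5 := Real.sqrt_le_iff.2 ⟨by norm_num, by norm_num⟩
    calc ‖A w - P (j + 1) w‖ + ‖A w - P j w‖ ≤
          6 * d * Real.sqrt 2 ^ (j + 1) + 6 * d * Real.sqrt 2 ^ j := add_le_add h2 h1
      _ = (6 * d * Real.sqrt 2 ^ j) * (Real.sqrt 2 + 1) := by ring
      _ ≤ (6 * d * Real.sqrt 2 ^ j) * 2.5 := by
          refine mul_le_mul_of_nonneg_left (by linarith) (by positivity)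
      _ = δ j := by
          simp only [δ]
          rw [← hd]
          ring
  have hcardc : ∀ j, (Fintype.card ((Fin (n / 2 ^ j) → Option S) ×
      (Fin (n / 2 ^ (j + 1)) → Option S)) : ℝ) ≤
      Real.exp (2 * ((n / 2 ^ j : ℕ) : ℝ) * L) := by
    intro j
    rw [Fintype.card_prod, Fintype.card_fun, Fintype.card_fun, Fintype.card_option,
      Fintype.card_fin, Fintype.card_fin]
    push_cast
    have h1 : ((Fintype.card S : ℝ) + 1) ≤ Real.exp L := by
      have h2 : (0 : ℝ) < (Fintype.card S : ℝ) + 1 := by positivity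
      rwa [← Real.log_le_iff_le_exp h2]
    have h3 : n / 2 ^ (j + 1) ≤ n / 2 ^ j :=
      Nat.div_le_div_left (Nat.pow_le_pow_right (by norm_num) (by omega)) (by positivity)
    have hE1 : (1 : ℝ) ≤ Real.exp L := Real.one_le_exp (by linarith)
    calc ((Fintype.card S : ℝ) + 1) ^ (n / 2 ^ j) * ((Fintype.card S : ℝ) + 1) ^ (n / 2 ^ (j + 1))
        ≤ Real.exp L ^ (n / 2 ^ j) * Real.exp L ^ (n / 2 ^ (j + 1)) := by gcongr
      _ ≤ Real.exp L ^ (n / 2 ^ j) * Real.exp L ^ (n / 2 ^ j) := by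
          refine mul_le_mul_of_nonneg_left (pow_le_pow_right₀ hE1 h3) (by positivity)
      _ = Real.exp (2 * ((n / 2 ^ j : ℕ) : ℝ) * L) := by
          rw [← pow_add, ← Real.exp_nat_mul]
          congr 1
          push_cast
          ring
  have hγ0 : 0 ≤ γ := le_trans (by positivity) hγ
  have hchain : ∀ I : Finset X, nm p (fun a : (X → Bool) × (X → Bool) =>
      SS A (res I (sv a.1)) (res Iᶜ (sv a.2))) ≤
      γ * (nm p (fun ω : X → Bool => NN A (res I (sv ω))) +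
        nm p (fun ω : X → Bool => NN A (res Iᶜ (sv ω)))) := by
    intro I
    have h1 := chain_bound A J P hP0 (fun w => hPge J w (lt_irrefl J)) hPN δ
      (fun j => 2 * ((n / 2 ^ j : ℕ) : ℝ) * L) hδ (fun j => by positivity) (fun j => by positivity)
      (fun j w => (cl j w, cl (j + 1) w)) (by
        intro j hj w w' h
        have e1 : cl j w = cl j w' := congrArg Prod.fst h
        have e2 : cl (j + 1) w = cl (j + 1) w' := congrArg Prod.snd h
        refine ⟨by rw [hPlt j w hj, hPlt j w' hj, hrepc j w w' e1], ?_⟩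
        by_cases h2 : j + 1 < J
        · rw [hPlt _ w h2, hPlt _ w' h2, hrepc _ w w' e2]
        · rw [hPge _ w h2, hPge _ w' h2]) (fun j _ => hcardc j) hp I
    refine h1.trans (mul_le_mul_of_nonneg_right ?_ (add_nonneg (nm_nonneg _ _) (nm_nonneg _ _)))
    exact (gamma_le hn hp hg hL hLn hK0 hK30).trans hγ
  exact chaos A hA hp hγ0 hchain

/-- **The restricted isometry property.** -/
theorem card_QQ_le (U : S → EuclideanSpace ℝ X →L[ℝ] H) {τ : ℝ} (hτ : 0 ≤ τ)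
    (hU : ∀ s, ‖U s‖ ^ 2 ≤ τ) {n : ℕ} (hn : n ≠ 0) (a : W → ℕ → Option S)
    (ha : ∀ w, Below n (a w)) {c₀ : ℝ} (hc₀ : 0 ≤ c₀)
    (hA : ∀ w, HS (c₀ • OP U n (a w)) ≤ 1) {g : ℝ} (hg : 0 < g)
    (hcg : c₀ ^ 2 * τ * n * g ≤ 1) {L : ℝ} (hL : 1 ≤ L) (hLS : Real.log (Fintype.card S + 1) ≤ L)
    (hLX : 1 + Real.log (Fintype.card X) ≤ L) (hLn : Real.log (2 * n) ≤ L) {p : ℕ} (hp : p ≠ 0)
    {t : ℝ} (ht : 0 < t) (ht1 : t ≤ 1)
    (h1 : 10 ^ 12 * (n * L * p) ≤ t ^ 2 * g) (h2 : 10 ^ 12 * (n * L ^ 4) ≤ t ^ 2 * g) :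
    ((Finset.univ.filter (fun ω : X → Bool =>
      t ≤ QQ (fun w => c₀ • OP U n (a w)) (sv ω))).card : ℝ) ≤
      2 ^ Fintype.card X * Real.exp (-p) := by
  have hs1 : Real.sqrt (n * L * p / g) ≤ t / 10 ^ 6 := by
    rw [Real.sqrt_le_left (by positivity), div_le_iff₀ hg, div_pow]
    linarith
  have hs2 : Real.sqrt (n * L ^ 4 / g) ≤ t / 10 ^ 6 := by
    rw [Real.sqrt_le_left (by positivity), div_le_iff₀ hg, div_pow]
    linarith
  have h3 := nm_QQ_le U hτ hU hn a ha hc₀ hA hg hcg hL hLS hLX hLn hp (γ := t / 200) (by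
    linarith)
  have h4 := card_le hp (fun ω : X → Bool => QQ (fun w => c₀ • OP U n (a w)) (sv ω)) ht
  have h5 : (Finset.univ.filter (fun ω : X → Bool =>
      t ≤ QQ (fun w => c₀ • OP U n (a w)) (sv ω))) = (Finset.univ.filter (fun ω : X → Bool =>
      t ≤ |QQ (fun w => c₀ • OP U n (a w)) (sv ω)|)) := by
    refine Finset.filter_congr fun ω _ => ?_
    rw [abs_of_nonneg (QQ_nonneg _ _)]
  rw [h5]
  refine h4.trans ?_
  rw [Fintype.card_fun, Fintype.card_bool]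
  push_cast
  refine mul_le_mul_of_nonneg_left ?_ (by positivity)
  have h6 : nm p (fun ω : X → Bool => QQ (fun w => c₀ • OP U n (a w)) (sv ω)) / t ≤
      Real.exp (-1) := by
    have hE : Real.exp 1 < 2.7182818286 := Real.exp_one_lt_d9
    have h7 : (1 : ℝ) / 3 ≤ Real.exp (-1) := by
      rw [Real.exp_neg, one_div]
      exact inv_anti₀ (Real.exp_pos 1) (by linarith)
    rw [div_le_iff₀ ht]
    refine h3.trans ?_
    calc 8 * (t / 200) * (1 + 8 * (t / 200)) ≤ 8 * (t / 200) * (1 + 8 * (1 / 200)) := by gcongr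
      _ ≤ 1 / 3 * t := by linarith
      _ ≤ Real.exp (-1) * t := mul_le_mul_of_nonneg_right h7 ht.le
  calc (nm p (fun ω : X → Bool => QQ (fun w => c₀ • OP U n (a w)) (sv ω)) / t) ^ p
      ≤ Real.exp (-1) ^ p := pow_le_pow_left₀ (div_nonneg (nm_nonneg _ _) ht.le) h6 p
    _ = Real.exp (-p) := by
        rw [← Real.exp_nat_mul]
        congr 1
        ring

end

end Pool.Agent.Q43.RP
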