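import Mathlib
import Pool.Agent.Q43.RP.Rip
import Pool.Agent.TH170.LV.Union

/-!
# Random half systems of a set with a group action
-/

set_option autoImplicit false
set_option linter.unusedSectionVars false

namespace Pool.Agent.Q43.RP

open Finset Pool.Agent.W548.Sh
open scoped RealInnerProductSpace

noncomputable section

variable {Y : Type*} [Fintype Y] [DecidableEq Y]
variable {G : Type*} [Group G] [Fintype G] [DecidableEq G] [MulAction G Y]

theorem HS_smul {X : Type*} [Fintype X] [DecidableEq X] {H : Type*} [NormedAddCommGroup H]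
    [InnerProductSpace ℝ H] (c : ℝ) (A : EuclideanSpace ℝ X →L[ℝ] H) :
    HS (c • A) = c ^ 2 * HS A := by
  unfold HS
  rw [Finset.mul_sum]
  refine Finset.sum_congr rfl fun x _ => ?_
  rw [_root_.smul_apply, norm_smul, mul_pow, Real.norm_eq_abs, sq_abs]

section half

variable {inv : Y → Y} {T₀ : Finset Y}

/-- the pair of a point, represented by its element in `T₀` -/
def cls (hinv : ∀ y, inv (inv y) = y) (hT₀ : T₀ ∈ Halves inv) (y : Y) : {y // y ∈ T₀} :=
  if h : y ∈ T₀ then ⟨y, h⟩ else ⟨inv y, by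
    rw [mem_Halves] at hT₀
    rw [hT₀, hinv]
    exact h⟩

theorem cls_coe (hinv : ∀ y, inv (inv y) = y) (hT₀ : T₀ ∈ Halves inv) (y : Y) :
    (cls hinv hT₀ y : Y) = if y ∈ T₀ then y else inv y := by
  unfold cls
  split_ifs <;> rfl

theorem eq_or_of_cls (hinv : ∀ y, inv (inv y) = y) (hT₀ : T₀ ∈ Halves inv) {y z : Y}
    (h : cls hinv hT₀ y = cls hinv hT₀ z) : y = z ∨ y = inv z := by
  have h1 : (cls hinv hT₀ y : Y) = cls hinv hT₀ z := by rw [h]
  rw [cls_coe, cls_coe] at h1
  split_ifs at h1 with h2 h3 h3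
  · exact Or.inl h1
  · exact Or.inr h1
  · right
    rw [← h1, hinv]
  · left
    rw [← hinv y, h1, hinv]

/-- the sign of a point -/
def sg₀ (T₀ : Finset Y) (y : Y) : ℝ := if y ∈ T₀ then 1 else -1

theorem sg₀_mul_self (y : Y) : sg₀ T₀ y * sg₀ T₀ y = 1 := by
  unfold sg₀
  split_ifs <;> norm_num

/-- the operator of a point, with weights `r` -/
def opU (G : Type*) [Group G] [Fintype G] [MulAction G Y]
    (hinv : ∀ y, inv (inv y) = y) (hT₀ : T₀ ∈ Halves inv) (r : Y → ℝ) (y : Y) :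
    EuclideanSpace ℝ {y // y ∈ T₀} →L[ℝ] EuclideanSpace ℝ G :=
  LinearMap.toContinuousLinearMap
    { toFun := fun v => WithLp.toLp 2
        (fun h => sg₀ T₀ (h • y) * r (h • y) * v (cls hinv hT₀ (h • y)))
      map_add' := fun u v => by
        ext h
        simp [mul_add]
      map_smul' := fun c v => by
        ext h
        simp
        ring }

theorem opU_apply (hinv : ∀ y, inv (inv y) = y) (hT₀ : T₀ ∈ Halves inv) (r : Y → ℝ) (y : Y)
    (v : EuclideanSpace ℝ {y // y ∈ T₀}) (h : G) :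
    opU G hinv hT₀ r y v h = sg₀ T₀ (h • y) * r (h • y) * v (cls hinv hT₀ (h • y)) := rfl

omit [DecidableEq G] in
theorem card_fiber_le {g : ℕ} (horb : ∀ y : Y, 2 * g ≤ (MulAction.orbit G y).ncard) (y z : Y) :
    2 * g * ((Finset.univ : Finset G).filter (fun h => h • y = z)).card ≤ Fintype.card G := by
  classical
  rcases (Finset.univ.filter (fun h : G => h • y = z)).eq_empty_or_nonempty with h0 | ⟨h₀, hh₀⟩
  · rw [h0]
    simp
  · have hh₀' := (Finset.mem_filter.1 hh₀).2
    have h1 : ((Finset.univ : Finset G).filter (fun h => h • y = z)).card ≤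
        Fintype.card (MulAction.stabilizer G y) := by
      rw [← Fintype.card_coe]
      refine Fintype.card_le_of_injective (fun h => (⟨h₀⁻¹ * h.1, by
        rw [MulAction.mem_stabilizer_iff, mul_smul, (Finset.mem_filter.1 h.2).2, ← hh₀',
          inv_smul_smul]⟩ : MulAction.stabilizer G y)) ?_
      intro a b hab
      have := congrArg Subtype.val hab
      exact Subtype.ext (mul_left_cancel this)
    have h2 := MulAction.card_orbit_mul_card_stabilizer_eq_card_group G y
    have h3 : (MulAction.orbit G y).ncard = Fintype.card (MulAction.orbit G y) := by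
      rw [← Nat.card_coe_set_eq, Nat.card_eq_fintype_card]
    have h4 := horb y
    rw [h3] at h4
    calc _ ≤ Fintype.card (MulAction.orbit G y) * Fintype.card (MulAction.stabilizer G y) :=
          Nat.mul_le_mul h4 h1
      _ = Fintype.card G := h2

theorem norm_opU_le (hinv : ∀ y, inv (inv y) = y) (hT₀ : T₀ ∈ Halves inv) {r : Y → ℝ}
    (hr0 : ∀ y, 0 ≤ r y) (hr1 : ∀ y, r y ≤ 1) {g : ℕ} (hg : 0 < g)
    (horb : ∀ y : Y, 2 * g ≤ (MulAction.orbit G y).ncard) (y : Y) :
    ‖opU G hinv hT₀ r y‖ ^ 2 ≤ Fintype.card G / g := by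
  have hg0 : (0 : ℝ) < g := by exact_mod_cast hg
  have hτ : (0 : ℝ) ≤ Fintype.card G / g := by positivity
  have h1 : ‖opU G hinv hT₀ r y‖ ≤ Real.sqrt (Fintype.card G / g) := by
    refine ContinuousLinearMap.opNorm_le_bound _ (Real.sqrt_nonneg _) fun v => ?_
    rw [EuclideanSpace.norm_eq, EuclideanSpace.norm_eq, ← Real.sqrt_mul hτ]
    refine Real.sqrt_le_sqrt ?_
    have h2 : ∀ h : G, ‖opU G hinv hT₀ r y v h‖ ^ 2 ≤ ‖v (cls hinv hT₀ (h • y))‖ ^ 2 := by
      intro h
      rw [opU_apply, norm_mul, norm_mul, mul_pow, mul_pow]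
      have h3 : ‖sg₀ T₀ (h • y)‖ ^ 2 = 1 := by
        rw [Real.norm_eq_abs, sq_abs, sq, sg₀_mul_self]
      have h4 : ‖r (h • y)‖ ^ 2 ≤ 1 := by
        rw [Real.norm_of_nonneg (hr0 _)]
        exact pow_le_one₀ (hr0 _) (hr1 _)
      rw [h3, one_mul]
      exact mul_le_of_le_one_left (by positivity) h4
    refine (Finset.sum_le_sum fun h _ => h2 h).trans ?_
    have h3 : ∑ h : G, ‖v (cls hinv hT₀ (h • y))‖ ^ 2 =
        ∑ x, ((Finset.univ.filter (fun h : G => cls hinv hT₀ (h • y) = x)).card : ℝ) *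
          ‖v x‖ ^ 2 := by
      rw [← Finset.sum_fiberwise (s := (Finset.univ : Finset G))
        (g := fun h => cls hinv hT₀ (h • y))]
      refine Finset.sum_congr rfl fun x _ => ?_
      rw [Finset.sum_congr rfl (g := fun _ => ‖v x‖ ^ 2) (fun h hh => by
        rw [(Finset.mem_filter.1 hh).2]), Finset.sum_const, nsmul_eq_mul]
    rw [h3, Finset.mul_sum]
    refine Finset.sum_le_sum fun x _ => mul_le_mul_of_nonneg_right ?_ (by positivity)
    rw [le_div_iff₀ hg0]
    have h4 : (Finset.univ.filter (fun h : G => cls hinv hT₀ (h • y) = x)) ⊆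
        (Finset.univ.filter (fun h : G => h • y = x.1)) ∪
          (Finset.univ.filter (fun h : G => h • y = inv x.1)) := by
      intro h hh
      have h5 := (Finset.mem_filter.1 hh).2
      have h6 : (cls hinv hT₀ (h • y) : Y) = x.1 := by rw [h5]
      rw [cls_coe] at h6
      rw [Finset.mem_union, Finset.mem_filter, Finset.mem_filter]
      split_ifs at h6
      · exact Or.inl ⟨Finset.mem_univ _, h6⟩
      · refine Or.inr ⟨Finset.mem_univ _, ?_⟩
        rw [← h6, hinv]
    have h5 := (Finset.card_le_card h4).trans (Finset.card_union_le _ _)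
    have h6 := card_fiber_le (G := G) horb y x.1
    have h7 := card_fiber_le (G := G) horb y (inv x.1)
    have h8 : (Finset.univ.filter (fun h : G => cls hinv hT₀ (h • y) = x)).card * g ≤
        Fintype.card G := by nlinarith
    exact_mod_cast h8
  calc ‖opU G hinv hT₀ r y‖ ^ 2 ≤ Real.sqrt (Fintype.card G / g) ^ 2 :=
        pow_le_pow_left₀ (norm_nonneg _) h1 2
    _ = Fintype.card G / g := Real.sq_sqrt hτ

/-- the number of pairs of equal letters -/
def eqPairs {n : ℕ} (a : Fin n → Y) : ℕ :=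
  (Finset.univ.filter (fun q : Fin n × Fin n => a q.1 = a q.2)).card

omit [Fintype Y] in
theorem le_eqPairs {n : ℕ} (a : Fin n → Y) : n ≤ eqPairs a := by
  unfold eqPairs
  have h1 : ((Finset.univ : Finset (Fin n)).image (fun l => (l, l))) ⊆
      Finset.univ.filter (fun q : Fin n × Fin n => a q.1 = a q.2) := by
    intro q hq
    obtain ⟨l, _, rfl⟩ := Finset.mem_image.1 hq
    exact Finset.mem_filter.2 ⟨Finset.mem_univ _, rfl⟩
  have h2 := Finset.card_le_card h1
  rw [Finset.card_image_of_injective _ (fun l l' h => congrArg Prod.fst h), Finset.card_univ,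
    Fintype.card_fin] at h2
  exact h2

omit [Fintype Y] in
theorem eqPairs_le {n : ℕ} (a : Fin n → Y) : eqPairs a ≤ n * n := by
  unfold eqPairs
  refine (Finset.card_filter_le _ _).trans (le_of_eq ?_)
  rw [Finset.card_univ, Fintype.card_prod, Fintype.card_fin]

/-- the word with blanks -/
def padW {n : ℕ} (a : Fin n → Y) (i : ℕ) : Option Y := if h : i < n then some (a ⟨i, h⟩) else none

theorem below_padW {n : ℕ} (a : Fin n → Y) : Below n (padW a) := by
  intro i hi
  unfold padW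
  rw [dif_neg (by omega)]

theorem OP_padW (hinv : ∀ y, inv (inv y) = y) (hT₀ : T₀ ∈ Halves inv) (r : Y → ℝ) {n : ℕ}
    (a : Fin n → Y) :
    OP (opU G hinv hT₀ r) n (padW a) = ∑ l, opU G hinv hT₀ r (a l) := by
  unfold OP
  rw [← Fin.sum_univ_eq_sum_range (fun i => Uo (opU G hinv hT₀ r) (padW a i)) n]
  refine Finset.sum_congr rfl fun l _ => ?_
  unfold padW
  rw [dif_pos l.2]
  rfl

/-- The Hilbert-Schmidt norm of a reduced word. -/
theorem hs_word (hinv : ∀ y, inv (inv y) = y) (hcomm : ∀ (h : G) (y : Y), inv (h • y) = h • inv y)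
    (hT₀ : T₀ ∈ Halves inv) (r : Y → ℝ) {n : ℕ} (a : Fin n → Y) (ha : ∀ l l', a l ≠ inv (a l')) :
    HS (OP (opU G hinv hT₀ r) n (padW a)) =
      ∑ h : G, ∑ l, ∑ l', if a l = a l' then r (h • a l) ^ 2 else 0 := by
  have h1 : ∀ x : {y // y ∈ T₀}, ∀ h : G, OP (opU G hinv hT₀ r) n (padW a) (ev x) h =
      ∑ l, if cls hinv hT₀ (h • a l) = x then sg₀ T₀ (h • a l) * r (h • a l) else 0 := by
    intro x h
    rw [OP_padW, _root_.sum_apply, WithLp.ofLp_sum, Finset.sum_apply]
    refine Finset.sum_congr rfl fun l _ => ?_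
    rw [opU_apply]
    simp only [ev, PiLp.single_apply]
    split_ifs <;> simp
  have h2 : ∀ x : {y // y ∈ T₀}, ‖OP (opU G hinv hT₀ r) n (padW a) (ev x)‖ ^ 2 =
      ∑ h : G, (∑ l, if cls hinv hT₀ (h • a l) = x then sg₀ T₀ (h • a l) * r (h • a l)
        else 0) ^ 2 := by
    intro x
    rw [EuclideanSpace.norm_eq, Real.sq_sqrt (Finset.sum_nonneg fun _ _ => by positivity)]
    refine Finset.sum_congr rfl fun h _ => ?_
    rw [h1, Real.norm_eq_abs, sq_abs]
  change ∑ x, ‖OP (opU G hinv hT₀ r) n (padW a) (ev x)‖ ^ 2 = _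
  rw [Finset.sum_congr rfl fun x _ => h2 x, Finset.sum_comm]
  refine Finset.sum_congr rfl fun h _ => ?_
  have h4 : ∀ x : {y // y ∈ T₀},
      (∑ l, if cls hinv hT₀ (h • a l) = x then sg₀ T₀ (h • a l) * r (h • a l) else 0) ^ 2 =
      ∑ l, ∑ l', if cls hinv hT₀ (h • a l) = x then
        (if cls hinv hT₀ (h • a l') = x then (sg₀ T₀ (h • a l) * r (h • a l)) *
          (sg₀ T₀ (h • a l') * r (h • a l')) else 0)
        else 0 := by
    intro x
    rw [sq, Finset.sum_mul_sum]
    refine Finset.sum_congr rfl fun l _ => Finset.sum_congr rfl fun l' _ => ?_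
    split_ifs <;> simp
  rw [Finset.sum_congr rfl fun x _ => h4 x, Finset.sum_comm]
  refine Finset.sum_congr rfl fun l _ => ?_
  rw [Finset.sum_comm]
  refine Finset.sum_congr rfl fun l' _ => ?_
  rw [Finset.sum_ite_eq Finset.univ (cls hinv hT₀ (h • a l)), if_pos (Finset.mem_univ _)]
  by_cases h6 : a l = a l'
  · rw [h6, if_pos rfl, if_pos rfl]
    calc (sg₀ T₀ (h • a l') * r (h • a l')) * (sg₀ T₀ (h • a l') * r (h • a l')) =
          (sg₀ T₀ (h • a l') * sg₀ T₀ (h • a l')) * r (h • a l') ^ 2 := by ring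
      _ = r (h • a l') ^ 2 := by rw [sg₀_mul_self, one_mul]
  · rw [if_neg h6, if_neg]
    intro h7
    rcases eq_or_of_cls hinv hT₀ h7 with h8 | h8
    · exact h6 (smul_left_cancel h h8.symm)
    · rw [hcomm] at h8
      exact ha l' l (smul_left_cancel h h8)

omit [Fintype Y] in
theorem sum_eqPairs {n : ℕ} (a : Fin n → Y) :
    ∑ l, ∑ l', (if a l = a l' then (1 : ℝ) else 0) = eqPairs a := by
  unfold eqPairs
  rw [← Fintype.sum_prod_type' (f := fun l l' => if a l = a l' then (1 : ℝ) else 0),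
    Finset.sum_boole]

theorem hs_le (hinv : ∀ y, inv (inv y) = y) (hcomm : ∀ (h : G) (y : Y), inv (h • y) = h • inv y)
    (hT₀ : T₀ ∈ Halves inv) {r : Y → ℝ} (hr0 : ∀ y, 0 ≤ r y) (hr1 : ∀ y, r y ≤ 1) {n : ℕ}
    (a : Fin n → Y) (ha : ∀ l l', a l ≠ inv (a l')) :
    HS (OP (opU G hinv hT₀ r) n (padW a)) ≤ Fintype.card G * eqPairs a := by
  rw [hs_word hinv hcomm hT₀ r a ha]
  calc ∑ h : G, ∑ l, ∑ l', (if a l = a l' then r (h • a l) ^ 2 else 0)
      ≤ ∑ _h : G, (eqPairs a : ℝ) := by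
        refine Finset.sum_le_sum fun h _ => ?_
        rw [← sum_eqPairs]
        refine Finset.sum_le_sum fun l _ => Finset.sum_le_sum fun l' _ => ?_
        split_ifs
        · exact pow_le_one₀ (hr0 _) (hr1 _)
        · exact le_rfl
    _ = _ := by rw [Finset.sum_const, Finset.card_univ, nsmul_eq_mul]

theorem le_hs (hinv : ∀ y, inv (inv y) = y) (hcomm : ∀ (h : G) (y : Y), inv (h • y) = h • inv y)
    (hT₀ : T₀ ∈ Halves inv) {r : Y → ℝ} {ρ : ℝ} (hρ : 0 ≤ ρ) (hr : ∀ y, ρ ≤ r y) {n : ℕ}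
    (a : Fin n → Y) (ha : ∀ l l', a l ≠ inv (a l')) :
    ρ ^ 2 * (Fintype.card G * eqPairs a) ≤ HS (OP (opU G hinv hT₀ r) n (padW a)) := by
  rw [hs_word hinv hcomm hT₀ r a ha]
  calc ρ ^ 2 * (Fintype.card G * eqPairs a) = ∑ _h : G, ρ ^ 2 * (eqPairs a : ℝ) := by
        rw [Finset.sum_const, Finset.card_univ, nsmul_eq_mul]
        ring
    _ ≤ _ := by
        refine Finset.sum_le_sum fun h _ => ?_
        rw [← sum_eqPairs, Finset.mul_sum]
        refine Finset.sum_le_sum fun l _ => ?_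
        rw [Finset.mul_sum]
        refine Finset.sum_le_sum fun l' _ => ?_
        split_ifs
        · rw [mul_one]
          exact pow_le_pow_left₀ hρ (hr _) 2
        · rw [mul_zero]

/-- the signs of a half system -/
def om (T₀ T : Finset Y) (x : {y // y ∈ T₀}) : Bool := decide (x.1 ∈ T)

theorem sgn_eq (hinv : ∀ y, inv (inv y) = y) (hT₀ : T₀ ∈ Halves inv) {T : Finset Y}
    (hT : T ∈ Halves inv) (y : Y) :
    sg₀ T₀ y * sg (om T₀ T (cls hinv hT₀ y)) = (sgn T y : ℝ) := by
  unfold om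
  rw [cls_coe]
  unfold sg₀ sg sgn
  have h1 := mem_Halves.1 hT y
  by_cases h2 : y ∈ T₀
  · by_cases h3 : y ∈ T <;> simp [h2, h3]
  · by_cases h3 : y ∈ T
    · have h4 := h1.1 h3
      simp [h2, h3, h4]
    · have h4 : inv y ∈ T := by
        by_contra h5
        exact h3 (h1.2 h5)
      simp [h2, h3, h4]

theorem OP_sv (hinv : ∀ y, inv (inv y) = y) (hT₀ : T₀ ∈ Halves inv) (r : Y → ℝ) {T : Finset Y}
    (hT : T ∈ Halves inv) {n : ℕ} (a : Fin n → Y) :
    ‖OP (opU G hinv hT₀ r) n (padW a) (sv (om T₀ T))‖ ^ 2 =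
      ∑ h : G, (∑ l, (sgn T (h • a l) : ℝ) * r (h • a l)) ^ 2 := by
  rw [EuclideanSpace.norm_eq, Real.sq_sqrt (Finset.sum_nonneg fun _ _ => by positivity)]
  refine Finset.sum_congr rfl fun h _ => ?_
  rw [Real.norm_eq_abs, sq_abs, OP_padW, _root_.sum_apply, WithLp.ofLp_sum, Finset.sum_apply]
  congr 1
  refine Finset.sum_congr rfl fun l _ => ?_
  rw [opU_apply, sv_apply, ← sgn_eq hinv hT₀ hT]
  ring

end half

open Classical in
/-- The half systems for which some reduced word of at most `k` letters has small sums of signs with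
weights `r`, the squares at most `ρ ^ 2 / 2` times the length. -/
def Long (G : Type*) [Group G] [Fintype G] [MulAction G Y] (inv : Y → Y) (r : Y → ℝ) (ρ : ℝ)
    (k : ℕ) : Finset (Finset Y) :=
  (Halves inv).filter (fun T => ∃ n ≤ k, n ≠ 0 ∧ ∃ a : Fin n → Y, (∀ l l', a l ≠ inv (a l')) ∧
    ∀ h : G, 2 * (∑ l, (sgn T (h • a l) : ℝ) * r (h • a l)) ^ 2 ≤ ρ ^ 2 * n)

theorem mem_Long {inv : Y → Y} {r : Y → ℝ} {ρ : ℝ} {k : ℕ} {T : Finset Y} :
    T ∈ Long G inv r ρ k ↔ T ∈ Halves inv ∧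
    ∃ n ≤ k, n ≠ 0 ∧ ∃ a : Fin n → Y, (∀ l l', a l ≠ inv (a l')) ∧
    ∀ h : G, 2 * (∑ l, (sgn T (h • a l) : ℝ) * r (h • a l)) ^ 2 ≤ ρ ^ 2 * n := by
  classical
  unfold Long
  rw [Finset.mem_filter]

theorem om_injOn (inv : Y → Y) (hinv : ∀ y, inv (inv y) = y) {T₀ : Finset Y}
    (hT₀ : T₀ ∈ Halves inv) : Set.InjOn (om T₀) (Halves inv : Set (Finset Y)) := by
  intro T hT T' hT' h
  rw [Finset.mem_coe] at hT hT'
  have h0 := mem_Halves.1 hT₀
  have h1 : ∀ y ∈ T₀, (y ∈ T ↔ y ∈ T') := by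
    intro y hy
    have h2 := congrFun h ⟨y, hy⟩
    unfold om at h2
    exact decide_eq_decide.1 h2
  ext y
  by_cases hy : y ∈ T₀
  · exact h1 y hy
  · have h3 : inv y ∈ T₀ := by
      rw [h0, hinv]
      exact hy
    have h4 := h1 _ h3
    rw [mem_Halves.1 hT y, mem_Halves.1 hT' y, h4]

/-- **Few half systems have reduced words of almost linear length with small sums.** -/
theorem card_Long_le {inv : Y → Y} (hinv : ∀ y, inv (inv y) = y)
    (hcomm : ∀ (h : G) (y : Y), inv (h • y) = h • inv y) {g N : ℕ} (hg : 0 < g)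
    (hN : Fintype.card Y = 2 * N) (hgN : g ≤ N)
    (horb : ∀ y : Y, 2 * g ≤ (MulAction.orbit G y).ncard) {r : Y → ℝ} {ρ : ℝ} (hρ : 0 < ρ)
    (hρ1 : ρ ≤ 1) (hr : ∀ y, ρ ≤ r y) (hr1 : ∀ y, r y ≤ 1) {k p : ℕ} (hk : k ≠ 0) (hp : p ≠ 0)
    (h1 : 4 * 10 ^ 12 * (k * Real.log (6 * N) * p) ≤ ρ ^ 4 * g)
    (h2 : 4 * 10 ^ 12 * (k * Real.log (6 * N) ^ 4) ≤ ρ ^ 4 * g) :
    ((Long G inv r ρ k).card : ℝ) ≤ 2 ^ N * (k ^ 3 * Real.exp (-p)) := by
  classical
  have hr0 : ∀ y, 0 ≤ r y := fun y => hρ.le.trans (hr y)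
  rcases (Long G inv r ρ k).eq_empty_or_nonempty with h0 | ⟨T₁, hT₁⟩
  · rw [h0, Finset.card_empty, Nat.cast_zero]
    positivity
  obtain ⟨hT₀, -⟩ := mem_Long.1 hT₁
  set T₀ := T₁ with hT₀def
  have hN0 : 0 < N := by omega
  have hNr : (1 : ℝ) ≤ N := by exact_mod_cast hN0
  have hgr : (0 : ℝ) < g := by exact_mod_cast hg
  -- the number of the coordinates
  have hcard : T₀.card = N := by
    have hS := mem_Halves.1 hT₀
    have h1 : (Finset.univ \ T₀).card = T₀.card := by
      have h2 : Finset.univ \ T₀ = T₀.image inv := by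
        ext x
        rw [Finset.mem_sdiff, Finset.mem_image]
        constructor
        · rintro ⟨_, hx⟩
          refine ⟨inv x, ?_, hinv x⟩
          rw [hS, hinv]
          exact hx
        · rintro ⟨a, ha, rfl⟩
          exact ⟨Finset.mem_univ _, (hS a).1 ha⟩
      rw [h2, Finset.card_image_of_injective]
      intro a b h
      rw [← hinv a, h, hinv]
    have h3 := Finset.card_sdiff_add_card_eq_card (Finset.subset_univ T₀)
    rw [h1, Finset.card_univ] at h3
    omega
  have hcardX : Fintype.card {y // y ∈ T₀} = N := by rw [Fintype.card_coe, hcard]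
  have hXne : Nonempty {y // y ∈ T₀} := by
    rw [← Fintype.card_pos_iff, hcardX]
    exact hN0
  -- the logarithm
  set L := Real.log (6 * N) with hL
  have hL1 : 1 ≤ L := by
    rw [hL, Real.le_log_iff_exp_le (by positivity)]
    have := Real.exp_one_lt_d9
    linarith
  have hLS : Real.log (Fintype.card Y + 1) ≤ L := by
    rw [hN]
    push_cast
    exact Real.log_le_log (by positivity) (by linarith)
  have hLX : 1 + Real.log (Fintype.card {y // y ∈ T₀}) ≤ L := by
    rw [hcardX, hL, Real.log_mul (by norm_num) (by positivity)]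
    have h6 : 1 ≤ Real.log 6 := by
      rw [Real.le_log_iff_exp_le (by norm_num)]
      have := Real.exp_one_lt_d9
      linarith
    linarith
  have hkN : (k : ℝ) ≤ N := by
    have h3 : (k : ℝ) ≤ 4 * 10 ^ 12 * (k * L ^ 4) := by
      have h4 : (1 : ℝ) ≤ L ^ 4 := one_le_pow₀ hL1
      have h5 : (0 : ℝ) ≤ k := Nat.cast_nonneg _
      nlinarith
    have h4 : (g : ℝ) ≤ N := by exact_mod_cast hgN
    have h5 : ρ ^ 4 * g ≤ 1 * (g : ℝ) :=
      mul_le_mul_of_nonneg_right (pow_le_one₀ hρ.le hρ1) hgr.le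
    linarith
  have hGr : (0 : ℝ) < Fintype.card G := by exact_mod_cast Fintype.card_pos
  -- the words of given length and number of pairs
  let bad : ℕ × ℕ → Finset ({y // y ∈ T₀} → Bool) := fun q =>
    if h : Nonempty {a : Fin q.1 → Y // (∀ l l', a l ≠ inv (a l')) ∧ eqPairs a = q.2} then
      Finset.univ.filter (fun ω => ρ ^ 2 / 2 ≤ QQ (fun w : {a : Fin q.1 → Y //
        (∀ l l', a l ≠ inv (a l')) ∧ eqPairs a = q.2} =>
          (1 / Real.sqrt (Fintype.card G * q.2)) • OP (opU G hinv hT₀ r) q.1 (padW w.1)) (sv ω))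
    else ∅
  have hbad : ∀ q : ℕ × ℕ, q.1 ≤ k → q.1 ≠ 0 →
      ((bad q).card : ℝ) ≤ 2 ^ N * Real.exp (-p) := by
    rintro ⟨n, Q⟩ hn hn0
    simp only at hn hn0
    by_cases h : Nonempty {a : Fin n → Y // (∀ l l', a l ≠ inv (a l')) ∧ eqPairs a = Q}
    · have hb : bad (n, Q) = Finset.univ.filter (fun ω => ρ ^ 2 / 2 ≤ QQ (fun w :
        {a : Fin n → Y // (∀ l l', a l ≠ inv (a l')) ∧ eqPairs a = Q} =>
          (1 / Real.sqrt (Fintype.card G * Q)) • OP (opU G hinv hT₀ r) n (padW w.1)) (sv ω)) := by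
        simp only [bad]
        rw [dif_pos h]
      rw [hb]
      have hnr : (0 : ℝ) < n := by exact_mod_cast Nat.pos_of_ne_zero hn0
      have hnk : (n : ℝ) ≤ k := by exact_mod_cast hn
      obtain ⟨w₀⟩ := h
      have hnQ : (n : ℝ) ≤ Q := by
        have h3 := le_eqPairs w₀.1
        rw [w₀.2.2] at h3
        exact_mod_cast h3
      have hQ : (0 : ℝ) < Q := by linarith
      have hne : Nonempty {a : Fin n → Y // (∀ l l', a l ≠ inv (a l')) ∧ eqPairs a = Q} := ⟨w₀⟩
      have hc2 : (1 / Real.sqrt (Fintype.card G * Q)) ^ 2 = 1 / (Fintype.card G * Q) := by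
        rw [div_pow, one_pow, Real.sq_sqrt (by positivity)]
      have h3 := card_QQ_le (W := {a : Fin n → Y // (∀ l l', a l ≠ inv (a l')) ∧ eqPairs a = Q})
        (opU G hinv hT₀ r) (τ := Fintype.card G / g) (by positivity)
        (norm_opU_le hinv hT₀ hr0 hr1 hg horb) hn0 (fun w => padW w.1) (fun w => below_padW w.1)
        (c₀ := 1 / Real.sqrt (Fintype.card G * Q)) (by positivity) (by
          intro w
          have h4 := hs_le (G := G) hinv hcomm hT₀ hr0 hr1 w.1 w.2.1
          rw [w.2.2] at h4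
          rw [HS_smul, hc2, one_div, inv_mul_le_iff₀ (by positivity), mul_one]
          exact h4) hgr (by
          rw [hc2]
          have h6 : 1 / (Fintype.card G * Q : ℝ) * (Fintype.card G / g) * n * g = n / Q := by
            field_simp
          rw [h6, div_le_one hQ]
          exact hnQ) hL1 hLS hLX (Real.log_le_log (by positivity) (by linarith)) hp
          (t := ρ ^ 2 / 2) (by positivity) (by
          have := pow_le_one₀ (n := 2) hρ.le hρ1
          linarith) (by
          have h7 : 10 ^ 12 * (n * L * p) ≤ 10 ^ 12 * (k * L * p) := by gcongr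
          have h8 : (ρ ^ 2 / 2) ^ 2 * g = ρ ^ 4 * g / 4 := by ring
          rw [h8]
          linarith) (by
          have h7 : 10 ^ 12 * (n * L ^ 4) ≤ 10 ^ 12 * (k * L ^ 4) := by gcongr
          have h8 : (ρ ^ 2 / 2) ^ 2 * g = ρ ^ 4 * g / 4 := by ring
          rw [h8]
          linarith)
      rw [hcardX] at h3
      exact h3
    · have hb : bad (n, Q) = ∅ := by
        simp only [bad]
        rw [dif_neg h]
      rw [hb, Finset.card_empty, Nat.cast_zero]
      positivity
  -- the union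
  have hsub : (Long G inv r ρ k).card ≤ ((Finset.Icc 1 k ×ˢ Finset.Icc 1 (k * k)).biUnion bad).card := by
    refine Finset.card_le_card_of_injOn (om T₀) ?_ ?_
    · intro T hT
      obtain ⟨hTH, n, hnk, hn0, a, ha, hsum⟩ := mem_Long.1 (Finset.mem_coe.1 hT)
      rw [Finset.mem_coe, Finset.mem_biUnion]
      have hle := le_eqPairs a
      have hle2 := eqPairs_le a
      refine ⟨(n, eqPairs a), ?_, ?_⟩
      · rw [Finset.mem_product, Finset.mem_Icc, Finset.mem_Icc]
        exact ⟨⟨by omega, hnk⟩, by omega, hle2.trans (Nat.mul_le_mul hnk hnk)⟩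
      · have hne : Nonempty {b : Fin n → Y // (∀ l l', b l ≠ inv (b l')) ∧
            eqPairs b = eqPairs a} := ⟨⟨a, ha, rfl⟩⟩
        simp only [bad]
        rw [dif_pos hne, Finset.mem_filter]
        refine ⟨Finset.mem_univ _, ?_⟩
        refine le_trans ?_ (le_QQ _ _ ⟨a, ha, rfl⟩)
        have hnr : (0 : ℝ) < n := by exact_mod_cast Nat.pos_of_ne_zero hn0
        have hnQ : (n : ℝ) ≤ eqPairs a := by exact_mod_cast hle
        have hQ : (0 : ℝ) < eqPairs a := by linarith
        have hlow := le_hs (G := G) hinv hcomm hT₀ hρ.le hr a ha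
        have h3 : ∑ h : G, (∑ l, (sgn T (h • a l) : ℝ) * r (h • a l)) ^ 2 ≤
            Fintype.card G * (ρ ^ 2 * eqPairs a / 2) := by
          calc ∑ h : G, (∑ l, (sgn T (h • a l) : ℝ) * r (h • a l)) ^ 2 ≤
                ∑ _h : G, ρ ^ 2 * (n : ℝ) / 2 := by
                refine Finset.sum_le_sum fun h _ => ?_
                have h4 := hsum h
                linarith
            _ = Fintype.card G * (ρ ^ 2 * n / 2) := by
                rw [Finset.sum_const, Finset.card_univ, nsmul_eq_mul]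
            _ ≤ Fintype.card G * (ρ ^ 2 * eqPairs a / 2) := by gcongr
        have h4 : ‖((1 / Real.sqrt (Fintype.card G * eqPairs a)) •
            OP (opU G hinv hT₀ r) n (padW a)) (sv (om T₀ T))‖ ^ 2 ≤ ρ ^ 2 / 2 := by
          rw [_root_.smul_apply, norm_smul, mul_pow, Real.norm_eq_abs, sq_abs, div_pow, one_pow,
            Real.sq_sqrt (by positivity), OP_sv hinv hT₀ r hTH a, one_div,
            inv_mul_le_iff₀ (by positivity)]
          refine h3.trans (le_of_eq ?_)
          ring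
        have h5 : ρ ^ 2 ≤ HS ((1 / Real.sqrt (Fintype.card G * eqPairs a)) •
            OP (opU G hinv hT₀ r) n (padW a)) := by
          rw [HS_smul, div_pow, one_pow, Real.sq_sqrt (by positivity), one_div,
            le_inv_mul_iff₀ (by positivity)]
          linarith
        rw [abs_sub_comm]
        refine le_trans ?_ (le_abs_self _)
        linarith
    · exact (om_injOn inv hinv hT₀).mono (fun T hT =>
        Finset.mem_coe.2 (mem_Long.1 (Finset.mem_coe.1 hT)).1)
  calc ((Long G inv r ρ k).card : ℝ) ≤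
        ((Finset.Icc 1 k ×ˢ Finset.Icc 1 (k * k)).biUnion bad).card := by exact_mod_cast hsub
    _ ≤ ∑ q ∈ Finset.Icc 1 k ×ˢ Finset.Icc 1 (k * k), ((bad q).card : ℝ) := by
        exact_mod_cast Finset.card_biUnion_le
    _ ≤ ∑ _q ∈ Finset.Icc 1 k ×ˢ Finset.Icc 1 (k * k), 2 ^ N * Real.exp (-p) := by
        refine Finset.sum_le_sum fun q hq => ?_
        rw [Finset.mem_product, Finset.mem_Icc, Finset.mem_Icc] at hq
        exact hbad q hq.1.2 (by omega)
    _ = 2 ^ N * (k ^ 3 * Real.exp (-p)) := by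
        rw [Finset.sum_const, Finset.card_product, Nat.card_Icc, Nat.card_Icc, nsmul_eq_mul,
          Nat.add_sub_cancel, Nat.add_sub_cancel]
        push_cast
        ring

end

end Pool.Agent.Q43.RP
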