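import Mathlib
import Pool.Agent.Q43.RP.Act
import Pool.Agent.TH170.LV.Types

/-!
# Families of CM types with short exceptional words
-/

set_option autoImplicit false
set_option linter.unusedSectionVars false

namespace Pool.Agent.Q43.RP

open Finset NumberField Pool.Agent.W548.Sh Pool.Agent.TH170.LV Pool.Agent.TH170.GH
  Pool.Agent.H204R3.CM

noncomputable section

section comb

variable {Y : Type*} [Fintype Y] [DecidableEq Y]
variable {G : Type*} [Group G] [Fintype G] [DecidableEq G] [MulAction G Y]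

/-- The estimate without the auxiliary exponent. -/
theorem card_Long_le' {inv : Y → Y} (hinv : ∀ y, inv (inv y) = y)
    (hcomm : ∀ (h : G) (y : Y), inv (h • y) = h • inv y) {g N : ℕ} (hg : 0 < g)
    (hN : Fintype.card Y = 2 * N) (hgN : g ≤ N)
    (horb : ∀ y : Y, 2 * g ≤ (MulAction.orbit G y).ncard) {r : Y → ℝ} {ρ : ℝ} (hρ : 0 < ρ)
    (hρ1 : ρ ≤ 1) (hr : ∀ y, ρ ≤ r y) (hr1 : ∀ y, r y ≤ 1) {k : ℕ} (hk : k ≠ 0)
    (h : 10 ^ 13 * (k * Real.log (6 * N) ^ 4) ≤ ρ ^ 4 * g) :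
    ((Long G inv r ρ k).card : ℝ) ≤
      2 ^ N * Real.exp (-(ρ ^ 4 * g / (10 ^ 13 * (k * Real.log (6 * N))))) := by
  have hN0 : 0 < N := by omega
  have hNr : (1 : ℝ) ≤ N := by exact_mod_cast hN0
  set L := Real.log (6 * N) with hL
  have hL17 : 1.7 ≤ L := by
    rw [hL, Real.le_log_iff_exp_le (by positivity)]
    have h1 : Real.exp 1.7 ≤ 6 := by
      have h2 : Real.exp 1.7 = Real.exp 1 * Real.exp 0.7 := by
        rw [← Real.exp_add]
        norm_num
      have h3 := Real.exp_one_lt_d9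
      have h4 : Real.exp 0.7 ≤ 2.04 := by
        have h5 := Real.exp_bound' (x := 0.7) (by norm_num) (by norm_num) (n := 4) (by norm_num)
        refine h5.trans ?_
        norm_num [Finset.sum_range_succ, Nat.factorial]
      rw [h2]
      nlinarith [Real.exp_pos 1, Real.exp_pos 0.7]
    linarith
  have hL0 : 0 < L := by linarith
  have hk0 : (0 : ℝ) < k := by exact_mod_cast Nat.pos_of_ne_zero hk
  set x : ℝ := ρ ^ 4 * g / (4 * 10 ^ 12 * (k * L)) with hx
  have hxL : 2.5 * L ^ 3 ≤ x := by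
    rw [hx, le_div_iff₀ (by positivity)]
    calc 2.5 * L ^ 3 * (4 * 10 ^ 12 * (k * L)) = 10 ^ 13 * (k * L ^ 4) := by ring
      _ ≤ ρ ^ 4 * g := h
  have hL2 : 2.89 ≤ L ^ 2 := by nlinarith
  have hL3 : 2.89 * L ≤ L ^ 3 := by
    calc 2.89 * L ≤ L ^ 2 * L := mul_le_mul_of_nonneg_right hL2 hL0.le
      _ = L ^ 3 := by ring
  set p : ℕ := ⌊x⌋₊ with hp
  have hx0 : 0 ≤ x := by linarith
  have hp1 : (p : ℝ) ≤ x := Nat.floor_le hx0
  have hp2 : x < p + 1 := Nat.lt_floor_add_one x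
  have hp0 : p ≠ 0 := by
    intro h0
    rw [h0, Nat.cast_zero] at hp2
    linarith
  have h1 := card_Long_le (G := G) hinv hcomm hg hN hgN horb hρ hρ1 hr hr1 hk hp0 (by
    rw [← hL]
    calc 4 * 10 ^ 12 * (k * L * p) = p * (4 * 10 ^ 12 * (k * L)) := by ring
      _ ≤ x * (4 * 10 ^ 12 * (k * L)) := mul_le_mul_of_nonneg_right hp1 (by positivity)
      _ = ρ ^ 4 * g := by
          rw [hx]
          field_simp) (by
    rw [← hL]
    have : (0 : ℝ) ≤ k * L ^ 4 := by positivity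
    linarith)
  refine h1.trans (mul_le_mul_of_nonneg_left ?_ (by positivity))
  have hkL : Real.log k ≤ L := by
    rw [hL]
    refine Real.log_le_log hk0 ?_
    have h3 : (k : ℝ) ≤ 10 ^ 13 * (k * L ^ 4) := by
      have h4 : (1 : ℝ) ≤ L ^ 4 := one_le_pow₀ (by linarith)
      nlinarith
    have h4 : (g : ℝ) ≤ N := by exact_mod_cast hgN
    have h5 : ρ ^ 4 * g ≤ 1 * (g : ℝ) :=
      mul_le_mul_of_nonneg_right (pow_le_one₀ hρ.le hρ1) (Nat.cast_nonneg _)
    linarith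
  have h2 : (k : ℝ) ^ 3 = Real.exp (3 * Real.log k) := by
    rw [mul_comm, Real.exp_mul, Real.exp_log hk0]
    norm_cast
  rw [h2, ← Real.exp_add]
  refine Real.exp_le_exp.2 ?_
  have h3 : ρ ^ 4 * g / (10 ^ 13 * (k * L)) = 0.4 * x := by
    rw [hx]
    field_simp
    norm_num
  rw [h3]
  linarith

theorem allBad_subset {inv : Y → Y} (k L : ℕ) :
    AllBad G inv L (Finset.range (k + 1)) ⊆
      AllBad G inv L (Finset.range (2 * L ^ 2 + 1)) ∪ Long G inv (fun _ => 1) 1 k := by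
  intro T hT
  obtain ⟨hTH, n, hn, B, hBL, hBn, a, ha, hsum⟩ := mem_AllBad.1 hT
  rw [Finset.mem_union]
  by_cases h : n ≤ 2 * L ^ 2
  · left
    exact mem_AllBad.2 ⟨hTH, n, Finset.mem_range.2 (by omega), B, hBL, hBn, a, ha, hsum⟩
  · right
    refine mem_Long.2 ⟨hTH, n, by have := Finset.mem_range.1 hn; omega, by omega, a, ha,
      fun σ => ?_⟩
    have h1 := hsum σ
    have h2 : (∑ l, sgn T (σ • a l)) ^ 2 ≤ (B : ℤ) ^ 2 := by
      rw [← sq_abs]
      exact pow_le_pow_left₀ (abs_nonneg _) h1 2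
    have h3 : (B : ℤ) ^ 2 ≤ (L : ℤ) ^ 2 := by
      have : (B : ℤ) ≤ L := by exact_mod_cast hBL
      exact pow_le_pow_left₀ (by positivity) this 2
    have h4 : ((2 * L ^ 2 : ℕ) : ℤ) < n := by
      push Not at h
      exact_mod_cast h
    push_cast at h4
    have h5 : 2 * (∑ l, sgn T (σ • a l)) ^ 2 ≤ (n : ℤ) := by linarith
    have h6 : ((2 * (∑ l, sgn T (σ • a l)) ^ 2 : ℤ) : ℝ) ≤ ((n : ℤ) : ℝ) := Int.cast_le.2 h5
    push_cast at h6
    simpa using h6

theorem allBad_zero {inv : Y → Y} (k : ℕ) :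
    AllBad G inv 0 (Finset.range (k + 1)) ⊆ Long G inv (fun _ => 1) 1 k := by
  intro T hT
  have h1 := allBad_subset (G := G) k 0 hT
  rw [Finset.mem_union] at h1
  rcases h1 with h1 | h1
  · obtain ⟨-, n, hn, B, -, hBn, -⟩ := mem_AllBad.1 h1
    have := Finset.mem_range.1 hn
    omega
  · exact h1

/-- The case of the weights one. -/
theorem card_Long_one {inv : Y → Y} (hinv : ∀ y, inv (inv y) = y)
    (hcomm : ∀ (h : G) (y : Y), inv (h • y) = h • inv y) {g N : ℕ} (hg : 0 < g)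
    (hN : Fintype.card Y = 2 * N) (hgN : g ≤ N)
    (horb : ∀ y : Y, 2 * g ≤ (MulAction.orbit G y).ncard) {k : ℕ} (hk : k ≠ 0)
    (h : 10 ^ 13 * (k * Real.log (6 * N) ^ 4) ≤ g) :
    ((Long G inv (fun _ => 1) 1 k).card : ℝ) ≤
      2 ^ N * Real.exp (-(g / (10 ^ 13 * (k * Real.log (6 * N))))) := by
  have h1 := card_Long_le' (G := G) hinv hcomm hg hN hgN horb (r := fun _ => 1) (ρ := 1)
    one_pos le_rfl (fun _ => le_rfl) (fun _ => le_rfl) hk (by
      rw [one_pow, one_mul]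
      exact h)
  rw [one_pow, one_mul] at h1
  exact h1

end comb

section types

variable {ι : Type*} [Fintype ι] (E : ι → Type*) [∀ i, Field (E i)]
    [∀ i, NumberField (E i)] [∀ i, IsCMField (E i)]

/-- **Few families of CM types have exceptional words of almost linear length.** -/
theorem ncard_levelFree_zero (g N k : ℕ) (hg0 : 0 < g)
    (hg : ∀ i, 2 * g ≤ Module.finrank ℚ (E i)) (hN : ∑ i, Module.finrank ℚ (E i) = 2 * N)
    (hgN : g ≤ N) (hk : k ≠ 0) (h : 10 ^ 13 * (k * Real.log (6 * N) ^ 4) ≤ g) :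
    ((({Φ : ∀ i, Set (E i →+* ℂ) | (∀ i, IsCMType (Φ i)) ∧ ¬ LevelFree Φ k 0}).ncard : ℕ) : ℝ) ≤
      2 ^ N * Real.exp (-(g / (10 ^ 13 * (k * Real.log (6 * N))))) := by
  classical
  obtain ⟨L, _, _, jj, hL⟩ := exists_galois E
  obtain ⟨h1, h2⟩ := setup jj hL g N hg hN
  refine (Nat.cast_le.2 (ncard_le_allBad jj hL k 0)).trans ?_
  refine (Nat.cast_le.2 (Finset.card_le_card (allBad_zero k))).trans ?_
  refine card_Long_one (G := L ≃ₐ[ℚ] L) ?_ ?_ hg0 h1 hgN h2 hk h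
  · rintro ⟨i, φ⟩
    simp only [cbar_cbar]
  · rintro g ⟨i, φ⟩
    rfl

/-- Few families of CM types have words of almost linear length and small level. -/
theorem ncard_levelFree (g N k M : ℕ) (hg0 : 0 < g)
    (hg : ∀ i, 2 * g ≤ Module.finrank ℚ (E i)) (hN : ∑ i, Module.finrank ℚ (E i) = 2 * N)
    (hgN : g ≤ N) (hk : k ≠ 0) (h : 10 ^ 13 * (k * Real.log (6 * N) ^ 4) ≤ g) :
    ((({Φ : ∀ i, Set (E i →+* ℂ) | (∀ i, IsCMType (Φ i)) ∧ ¬ LevelFree Φ k M}).ncard : ℕ) : ℝ) ≤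
      2 ^ N * ((2 * N + 1) ^ (2 * M ^ 2 + 1) *
        (1 - (1 / 2) ^ (M + 2)) ^ (2 * (g : ℝ) / ((M + 2) * (2 * M ^ 2 + 1))) +
        Real.exp (-(g / (10 ^ 13 * (k * Real.log (6 * N)))))) := by
  classical
  obtain ⟨L, _, _, jj, hL⟩ := exists_galois E
  obtain ⟨h1, h2⟩ := setup jj hL g N hg hN
  refine (Nat.cast_le.2 (ncard_le_allBad jj hL k M)).trans ?_
  refine (Nat.cast_le.2 ((Finset.card_le_card (allBad_subset k M)).trans
    (Finset.card_union_le _ _))).trans ?_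
  push_cast
  rw [mul_add]
  refine add_le_add ?_ ?_
  · have h3 := card_AllBad_one (G := L ≃ₐ[ℚ] L)
      (inv := fun y : Σ i, (E i →+* L) => (⟨y.1, cbar y.2⟩ : Σ i, (E i →+* L)))
      (by
        rintro ⟨i, φ⟩
        simp only [cbar_cbar]) (by
        rintro g ⟨i, φ⟩
        rfl) h1 h2 (2 * M ^ 2 + 1) M (Finset.range (2 * M ^ 2 + 1)) (fun n hn => by
        have := Finset.mem_range.1 hn
        omega)
    push_cast at h3
    exact h3
  · refine card_Long_one (G := L ≃ₐ[ℚ] L) ?_ ?_ hg0 h1 hgN h2 hk h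
    · rintro ⟨i, φ⟩
      simp only [cbar_cbar]
    · rintro g ⟨i, φ⟩
      rfl

end types

end

end Pool.Agent.Q43.RP
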