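import Mathlib
import Pool.Agent.Q43.RP.Types
import Pool.Agent.TH170.LV.Asym
import Pool.Agent.TH170.GH.Total

/-!
# The size of the bounds for almost linear length
-/

set_option autoImplicit false
set_option linter.unusedSectionVars false

namespace Pool.Agent.Q43.RP

open Filter Topology Module NumberField Pool.Agent.H204R3.CM Pool.Agent.TH170.LV

/-- The size of the exponent for one field. -/
theorem exp_bound {g k : ℕ} (hk : k ≠ 0) (hg : g ≠ 0)
    (h : 10 ^ 14 * (k * Real.log (6 * g) ^ 4) ≤ g) :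
    Real.exp (-(g / (10 ^ 13 * (k * Real.log (6 * g))))) ≤
      Real.exp (-(10 * Real.log (6 * g) ^ 3)) := by
  have hg1 : (1 : ℝ) ≤ g := by exact_mod_cast Nat.pos_of_ne_zero hg
  have hL : 0 < Real.log (6 * g) := Real.log_pos (by linarith)
  have hk0 : (0 : ℝ) < k := by exact_mod_cast Nat.pos_of_ne_zero hk
  refine Real.exp_le_exp.2 (neg_le_neg ?_)
  rw [le_div_iff₀ (by positivity)]
  calc 10 * Real.log (6 * g) ^ 3 * (10 ^ 13 * (k * Real.log (6 * g))) =
        10 ^ 14 * (k * Real.log (6 * g) ^ 4) := by ring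
    _ ≤ (g : ℝ) := h

/-- Numbers up to `g / (log g) ^ 5` satisfy the hypothesis for large `g`. -/
theorem exists_large (C : ℝ) : ∃ g₀ : ℕ, ∀ g : ℕ, g ≥ g₀ → C ≤ Real.log g ∧
    (1 : ℝ) ≤ g / Real.log g ^ 5 ∧
    ∀ k : ℕ, (k : ℝ) ≤ g / Real.log g ^ 5 → 10 ^ 14 * (k * Real.log (6 * g) ^ 4) ≤ g := by
  have hlog : Tendsto (fun g : ℕ => Real.log g) atTop atTop :=
    Real.tendsto_log_atTop.comp tendsto_natCast_atTop_atTop
  have h1 := hlog.eventually_ge_atTop (max C (16 * 10 ^ 14))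
  have h2 : ∀ᶠ g : ℕ in atTop, ‖Real.log g ^ 5‖ ≤ 1 * ‖(g : ℝ)‖ :=
    (((isLittleO_log_rpow_atTop (r := 1 / 5) (by norm_num)).pow (n := 5) (by norm_num)).bound
      one_pos |> fun h => by
        have h3 := tendsto_natCast_atTop_atTop (R := ℝ) |>.eventually h
        filter_upwards [h3, eventually_ge_atTop 1] with g hg hg1
        have h4 : ((g : ℝ) ^ (1 / 5 : ℝ)) ^ 5 = (g : ℝ) := by
          rw [← Real.rpow_natCast, ← Real.rpow_mul (Nat.cast_nonneg _)]
          norm_num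
        rwa [h4] at hg)
  obtain ⟨g₀, hg₀⟩ := eventually_atTop.1 (h1.and h2)
  refine ⟨max g₀ 6, fun g hg => ?_⟩
  obtain ⟨h3, h4⟩ := hg₀ g ((le_max_left _ _).trans hg)
  have hg6 : (6 : ℝ) ≤ g := by exact_mod_cast (le_max_right _ _).trans hg
  have h5 : C ≤ Real.log g := (le_max_left _ _).trans h3
  have h6 : 16 * 10 ^ 14 ≤ Real.log g := (le_max_right _ _).trans h3
  have hlp : 0 < Real.log g := by linarith
  refine ⟨h5, ?_, fun k hk => ?_⟩
  · rw [le_div_iff₀ (by positivity), one_mul]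
    rw [one_mul, Real.norm_of_nonneg (by positivity), Real.norm_of_nonneg (by positivity)] at h4
    exact h4
  · have h7 : Real.log (6 * g) ≤ 2 * Real.log g := by
      rw [Real.log_mul (by norm_num) (by positivity)]
      have := Real.log_le_log (by norm_num : (0 : ℝ) < 6) hg6
      linarith
    have h8 : 0 ≤ Real.log (6 * g) := Real.log_nonneg (by linarith)
    have h9 : Real.log (6 * g) ^ 4 ≤ 16 * Real.log g ^ 4 := by
      calc Real.log (6 * g) ^ 4 ≤ (2 * Real.log g) ^ 4 := pow_le_pow_left₀ h8 h7 4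
        _ = 16 * Real.log g ^ 4 := by ring
    have hk0 : (0 : ℝ) ≤ k := Nat.cast_nonneg k
    calc 10 ^ 14 * (k * Real.log (6 * g) ^ 4) ≤ 10 ^ 14 * (k * (16 * Real.log g ^ 4)) := by
          gcongr
      _ = (16 * 10 ^ 14) * (k * Real.log g ^ 4) := by ring
      _ ≤ Real.log g * (k * Real.log g ^ 4) := by gcongr
      _ = k * Real.log g ^ 5 := by ring
      _ ≤ g / Real.log g ^ 5 * Real.log g ^ 5 := by gcongr
      _ = g := by field_simp

/-- The bound for the levels below the logarithm and the degrees up to `g / (log g) ^ 5`. -/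
theorem bound_near (ε : ℝ) (hε : 0 < ε) (hε1 : ε < 1) :
    ∃ g₀ : ℕ, ∀ g : ℕ, g ≥ g₀ → g ≠ 0 ∧ ⌊g / Real.log g ^ 5⌋₊ ≠ 0 ∧
      10 ^ 14 * (⌊g / Real.log g ^ 5⌋₊ * Real.log (6 * g) ^ 4) ≤ (g : ℝ) ∧
      ∀ L : ℕ, (L : ℝ) ≤ (1 - ε) * Real.logb 2 g →
      ((2 * g + 1) ^ (2 * L ^ 2 + 1) *
        (1 - (1 / 2) ^ (L + 2)) ^ (2 * (g : ℝ) / ((L + 2) * (2 * L ^ 2 + 1))) +
          Real.exp (-(g / (10 ^ 13 * (⌊g / Real.log g ^ 5⌋₊ * Real.log (6 * g))))) : ℝ) ≤ ε := by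
  obtain ⟨g₁, hg₁⟩ := bound_le (ε / 2) (by linarith) (by linarith)
  obtain ⟨g₂, hg₂⟩ := exists_large (max 1 (-Real.log (ε / 2)))
  refine ⟨max (max g₁ g₂) 3, fun g hg => ?_⟩
  have hgg1 : g₁ ≤ g := ((le_max_left _ _).trans (le_max_left _ _)).trans hg
  have hgg2 : g₂ ≤ g := ((le_max_right _ _).trans (le_max_left _ _)).trans hg
  have hg3 : 3 ≤ g := (le_max_right _ _).trans hg
  have hg1 : (1 : ℝ) ≤ g := by
    have : 1 ≤ g := by omega
    exact_mod_cast this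
  obtain ⟨h1, h2, h3⟩ := hg₂ g hgg2
  have hk0 : ⌊g / Real.log g ^ 5⌋₊ ≠ 0 := by
    have : 1 ≤ ⌊g / Real.log g ^ 5⌋₊ := Nat.le_floor (by rw [Nat.cast_one]; exact h2)
    omega
  have hle : ((⌊g / Real.log g ^ 5⌋₊ : ℕ) : ℝ) ≤ g / Real.log g ^ 5 :=
    Nat.floor_le (by linarith)
  have h4 := h3 _ hle
  refine ⟨by omega, hk0, h4, fun L hL => ?_⟩
  have hlog1 : 1 ≤ Real.log g := (le_max_left _ _).trans h1
  have hlogε : -Real.log (ε / 2) ≤ Real.log g := (le_max_right _ _).trans h1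
  have h5 := exp_bound hk0 (by omega) h4
  have h6 : Real.exp (-(10 * Real.log (6 * g) ^ 3)) ≤ ε / 2 := by
    rw [← Real.exp_log (by linarith : 0 < ε / 2)]
    refine Real.exp_le_exp.2 ?_
    have h7 : Real.log g ≤ Real.log (6 * g) := Real.log_le_log (by linarith) (by linarith)
    have h8 : 1 ≤ Real.log (6 * g) := hlog1.trans h7
    have h9 : Real.log (6 * g) ≤ Real.log (6 * g) ^ 3 := le_self_pow₀ h8 (by norm_num)
    linarith
  have h7 := hg₁ g hgg1 L 1 (hL.trans (mul_le_mul_of_nonneg_right (by linarith)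
    (Real.logb_nonneg (by norm_num) hg1))) (by
      rw [Nat.cast_one]
      exact Real.one_le_rpow hg1 (by linarith)) le_rfl
  have hq2 : ((1 : ℝ) / 2) ^ (L + 2) < 1 := pow_lt_one₀ (by norm_num) (by norm_num) (by omega)
  have h8 : ((2 * g + 1) ^ (2 * L ^ 2 + 1) *
      (1 - (1 / 2) ^ (L + 2)) ^ (2 * (g : ℝ) / ((L + 2) * (2 * L ^ 2 + 1))) : ℝ) ≤
      (2 * g + 1) ^ (8 * L ^ 2 + 1) *
        (1 - (1 / 2) ^ (L + 2)) ^ (2 * (g : ℝ) / ((L + 2) * (8 * L ^ 2 + 1))) := by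
    refine mul_le_mul (pow_le_pow_right₀ (by linarith) ?_)
      (Real.rpow_le_rpow_of_exponent_ge (by linarith) (by
        have : (0 : ℝ) ≤ (1 / 2) ^ (L + 2) := by positivity
        linarith) ?_) (Real.rpow_nonneg (by linarith) _) (by positivity)
    · nlinarith [Nat.zero_le (L ^ 2)]
    · refine div_le_div_of_nonneg_left (by positivity) (by positivity) ?_
      refine mul_le_mul_of_nonneg_left ?_ (by positivity)
      nlinarith [sq_nonneg (L : ℝ)]
  have h9 : (0 : ℝ) ≤ (2 * g + 1) ^ 1 * (29 / 32) ^ ((g : ℝ) / (2 * (1 : ℕ))) := by positivity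
  linarith

end Pool.Agent.Q43.RP
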