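import Mathlib
import Pool.Agent.Q43.RP.Near

/-!
# Properties of almost all families of CM types, up to an almost linear length
-/

set_option autoImplicit false
set_option linter.unusedSectionVars false
set_option linter.unusedVariables false

namespace Pool.Agent.Q43.RP

open NumberField Module Pool.Agent.H204R3.CM Pool.Agent.TH170.LV

/-- A property that holds for the families of types without exceptional words of length at most `k`
fails for few families. -/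
theorem ncard_near (P : ∀ {ι : Type} {E : ι → Type} [∀ i, Field (E i)] [∀ i, NumberField (E i)]
      [∀ i, IsCMField (E i)], (∀ i, Set (E i →+* ℂ)) → ℕ → Prop)
    (hP : ∀ {ι : Type} [Fintype ι] {E : ι → Type} [∀ i, Field (E i)] [∀ i, NumberField (E i)]
      [∀ i, IsCMField (E i)] (Φ : ∀ i, Set (E i →+* ℂ)) (k : ℕ),
      (∀ i, IsCMType (Φ i)) → LevelFree Φ k 0 → P Φ k) :
    (∀ {ι : Type} [Fintype ι] [Nonempty ι] (E : ι → Type) [∀ i, Field (E i)]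
      [∀ i, NumberField (E i)] [∀ i, IsCMField (E i)] (g N : ℕ), (∀ i, 2 * g ≤ finrank ℚ (E i)) →
      ∑ i, finrank ℚ (E i) = 2 * N →
      {Φ : ∀ i, Set (E i →+* ℂ) | ∀ i, IsCMType (Φ i)}.ncard = 2 ^ N ∧
      ∀ k : ℕ, 0 < k → 10 ^ 13 * (k * Real.log (6 * N) ^ 4) ≤ g →
        ({Φ : ∀ i, Set (E i →+* ℂ) | (∀ i, IsCMType (Φ i)) ∧ ¬ P Φ k}.ncard : ℝ) ≤
          2 ^ N * Real.exp (-(g / (10 ^ 13 * (k * Real.log (6 * N)))))) ∧
    ∃ g₀ : ℕ, ∀ g ≥ g₀, ∀ (E : Type) [Field E] [NumberField E] [IsCMField E],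
      finrank ℚ E = 2 * g →
      ({Φ : Set (E →+* ℂ) | IsCMType Φ ∧
        ¬ P (fun _ : Unit => Φ) ⌊g / Real.log g ^ 5⌋₊}.ncard : ℝ) ≤
        2 ^ g * Real.exp (-(Real.log g ^ 3)) := by
  have hA : ∀ {ι : Type} [Fintype ι] [Nonempty ι] (E : ι → Type) [∀ i, Field (E i)]
      [∀ i, NumberField (E i)] [∀ i, IsCMField (E i)] (g N : ℕ), (∀ i, 2 * g ≤ finrank ℚ (E i)) →
      ∑ i, finrank ℚ (E i) = 2 * N →
      ∀ k : ℕ, 0 < k → 10 ^ 13 * (k * Real.log (6 * N) ^ 4) ≤ g →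
        ({Φ : ∀ i, Set (E i →+* ℂ) | (∀ i, IsCMType (Φ i)) ∧ ¬ P Φ k}.ncard : ℝ) ≤
          2 ^ N * Real.exp (-(g / (10 ^ 13 * (k * Real.log (6 * N))))) := by
    intro ι _ _ E _ _ _ g N hg hN k hk h
    have h1 : ({Φ : ∀ i, Set (E i →+* ℂ) | (∀ i, IsCMType (Φ i)) ∧ ¬ P Φ k}.ncard : ℝ) ≤
        ({Φ : ∀ i, Set (E i →+* ℂ) | (∀ i, IsCMType (Φ i)) ∧ ¬ LevelFree Φ k 0}.ncard : ℝ) := by
      rw [Nat.cast_le]
      refine Set.ncard_le_ncard ?_ (Set.toFinite _)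
      rintro Φ ⟨h1, h2⟩
      exact ⟨h1, fun h3 => h2 (hP Φ k h1 h3)⟩
    obtain ⟨i₀⟩ := (inferInstance : Nonempty ι)
    have hpos : 0 < finrank ℚ (E i₀) := finrank_pos
    have h2 : finrank ℚ (E i₀) ≤ 2 * N := by
      rw [← hN]
      exact Finset.single_le_sum (f := fun i => finrank ℚ (E i)) (fun _ _ => Nat.zero_le _)
        (Finset.mem_univ i₀)
    have h3 := hg i₀
    have hgN : g ≤ N := by omega
    have hN0 : 0 < N := by omega
    have hg0 : 0 < g := by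
      rcases Nat.eq_zero_or_pos g with h0 | h0
      · exfalso
        rw [h0, Nat.cast_zero] at h
        have h4 : (1 : ℝ) ≤ N := by exact_mod_cast hN0
        have h5 : 0 < Real.log (6 * N) := Real.log_pos (by linarith)
        have h6 : (0 : ℝ) < k := by exact_mod_cast hk
        have h7 : 0 < 10 ^ 13 * (k * Real.log (6 * N) ^ 4) := by positivity
        linarith
      · exact h0
    exact h1.trans (ncard_levelFree_zero E g N k hg0 hg hN hgN (by omega) h)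
  refine ⟨fun E _ _ _ g N hg hN => ⟨Pool.Agent.TH170.GH.ncard_types E N hN, hA E g N hg hN⟩, ?_⟩
  obtain ⟨g₀, hg₀⟩ := exists_large 1
  refine ⟨max g₀ 1, fun g hg E _ _ _ hE => ?_⟩
  have hg1' : 1 ≤ g := (le_max_right _ _).trans hg
  have hg1 : (1 : ℝ) ≤ g := by exact_mod_cast hg1'
  obtain ⟨h1, h2, h3⟩ := hg₀ g ((le_max_left _ _).trans hg)
  have hk0 : 0 < ⌊g / Real.log g ^ 5⌋₊ := Nat.floor_pos.2 h2
  have hle : ((⌊g / Real.log g ^ 5⌋₊ : ℕ) : ℝ) ≤ g / Real.log g ^ 5 :=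
    Nat.floor_le (by linarith)
  have h4 := h3 _ hle
  have h13 : 10 ^ 13 * (⌊g / Real.log g ^ 5⌋₊ * Real.log (6 * g) ^ 4) ≤ (g : ℝ) := by
    have : 0 ≤ (⌊g / Real.log g ^ 5⌋₊ : ℝ) * Real.log (6 * g) ^ 4 := by positivity
    linarith
  have h5 := hA (fun _ : Unit => E) g g (fun _ => hE.ge) (by rw [Fintype.sum_unique]; exact hE)
    _ hk0 h13
  have h6 : ({Φ : Set (E →+* ℂ) | IsCMType Φ ∧
      ¬ P (fun _ : Unit => Φ) ⌊g / Real.log g ^ 5⌋₊}.ncard : ℝ) ≤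
      ({Φ : ∀ _ : Unit, Set (E →+* ℂ) | (∀ i, IsCMType (Φ i)) ∧
        ¬ P Φ ⌊g / Real.log g ^ 5⌋₊}.ncard : ℝ) := by
    rw [Nat.cast_le]
    refine Set.ncard_le_ncard_of_injOn (fun Φ => fun _ : Unit => Φ) ?_ ?_ (Set.toFinite _)
    · rintro Φ ⟨h4, h5⟩
      exact ⟨fun _ => h4, h5⟩
    · intro Φ _ Φ' _ h4
      exact congrFun h4 ()
  refine h6.trans (h5.trans (mul_le_mul_of_nonneg_left ?_ (by positivity)))
  refine (exp_bound (by omega) (by omega) h4).trans (Real.exp_le_exp.2 ?_)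
  have h7 : Real.log g ≤ Real.log (6 * g) := Real.log_le_log (by linarith) (by linarith)
  have h8 : Real.log g ^ 3 ≤ Real.log (6 * g) ^ 3 := pow_le_pow_left₀ (by linarith) h7 3
  have h9 : 0 ≤ Real.log (6 * g) ^ 3 := pow_nonneg (by linarith) 3
  linarith

end Pool.Agent.Q43.RP
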