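import Mathlib
import Pool.Agent.Q135.RP.SH1
import Pool.Agent.Q2.RP.SH3

/-!
# About one half of all half systems of an elementary abelian group have a vanishing character sum
-/

set_option autoImplicit false

namespace Pool.Agent.Q43.RP

open Finset NumberField Pool.Agent.Q135.RP Pool.Agent.Q2.RP Pool.Agent.W548.Sh
  Pool.Agent.H204R3.CM Pool.Agent.W546.GHC

/-- The sequence `k (binomial (2 k, k) / 4 ^ k) ^ 2` increases. -/
theorem cb_mono (k m : ℕ) (h : k ≤ m) :
    (k : ℝ) * ((Nat.centralBinom k : ℝ) / 4 ^ k) ^ 2 ≤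
      m * ((Nat.centralBinom m : ℝ) / 4 ^ m) ^ 2 := by
  induction m, h using Nat.le_induction with
  | base => exact le_rfl
  | succ m hm ih =>
    refine ih.trans ?_
    have h1 : ((m : ℝ) + 1) * (Nat.centralBinom (m + 1) : ℝ) =
        2 * (2 * m + 1) * Nat.centralBinom m := by
      exact_mod_cast Nat.succ_mul_centralBinom_succ m
    have h2 : (Nat.centralBinom (m + 1) : ℝ) / 4 ^ (m + 1) =
        (2 * m + 1) / (2 * (m + 1)) * ((Nat.centralBinom m : ℝ) / 4 ^ m) := by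
      rw [pow_succ]
      field_simp
      linarith
    rw [h2, mul_pow, ← mul_assoc]
    refine mul_le_mul_of_nonneg_right ?_ (by positivity)
    rw [div_pow, ← mul_div_assoc, le_div_iff₀ (by positivity)]
    push_cast
    have h3 : (0 : ℝ) ≤ m := Nat.cast_nonneg m
    nlinarith

/-- Two characters. -/
theorem card_zero_two' {K : Type} [CommGroup K] [Fintype K] [DecidableEq K] {ψ ψ' : K →* ℤˣ}
    (hne : ψ ≠ ψ') {n : ℕ} (hn : 0 < n) (hK : Fintype.card K = 2 * n) :
    (((univ : Finset (Finset K)).filter (fun A => W ψ A = 0 ∧ W ψ' A = 0)).card : ℝ) * 4 ^ n ≤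
      2 * (Nat.centralBinom n : ℝ) ^ 2 := by
  obtain ⟨φ, hφ⟩ : ∃ φ : K →* ℤˣ, φ = ψ * ψ' := ⟨_, rfl⟩
  have hφx : ∀ x, φ x = ψ x * ψ' x := fun x => by rw [hφ]; rfl
  have hφ1 : φ ≠ 1 := by
    intro h
    apply hne
    ext x
    have h1 : ψ x * ψ' x = 1 := by rw [← hφx, h]; rfl
    have h2 := mul_self_units (ψ' x)
    have h3 : ψ x = ψ' x := by
      have : ψ x * ψ' x = ψ' x * ψ' x := by rw [h1, h2]
      exact mul_right_cancel this
    rw [h3]
  -- the two halves
  obtain ⟨P, hP⟩ : ∃ P : Finset K, P = univ.filter (fun x => φ x = 1) := ⟨_, rfl⟩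
  obtain ⟨Q, hQ⟩ : ∃ Q : Finset K, Q = univ.filter (fun x => ¬ φ x = 1) := ⟨_, rfl⟩
  have hsplit : ∀ f : K → ℤ, ∑ x, f x = ∑ x ∈ P, f x + ∑ x ∈ Q, f x := fun f => by
    rw [hP, hQ, Finset.sum_filter_add_sum_filter_not]
  have hφP : ∀ x ∈ P, ((φ x : ℤˣ) : ℤ) = 1 := fun x hx => by
    rw [hP] at hx
    rw [(Finset.mem_filter.mp hx).2]
    rfl
  have hφQ : ∀ x ∈ Q, ((φ x : ℤˣ) : ℤ) = -1 := fun x hx => by
    rw [hQ] at hx
    rw [(Int.units_eq_one_or (φ x)).resolve_left (Finset.mem_filter.mp hx).2]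
    rfl
  have hsum0 : ∑ x, ((φ x : ℤˣ) : ℤ) = 0 := by
    have h := sum_hom_units_eq_zero ((Units.coeHom ℤ).comp φ) (by
      intro h
      apply hφ1
      ext x
      have := DFunLike.congr_fun h x
      simpa using this)
    simpa using h
  have hcard : (P.card : ℤ) + Q.card = 2 * n := by
    have h := hsplit (fun _ => 1)
    simp only [Finset.sum_const, Finset.card_univ, nsmul_eq_mul, mul_one] at h
    rw [hK] at h
    push_cast at h
    linarith
  have hcard2 : (P.card : ℤ) - Q.card = 0 := by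
    have h := hsplit (fun x => ((φ x : ℤˣ) : ℤ))
    rw [hsum0, Finset.sum_congr rfl hφP, Finset.sum_congr rfl hφQ] at h
    simp only [Finset.sum_const, nsmul_eq_mul, mul_one, mul_neg] at h
    linarith
  have hPn : P.card = n := by omega
  have hQn : Q.card = n := by omega
  have key : ∀ A : Finset K, W ψ A = 0 → W ψ' A = 0 →
      2 * (P ∩ symmDiff A (neg ψ)).card = n ∧ 2 * (Q ∩ symmDiff A (neg ψ)).card = n := by
    intro A h1 h2
    have e1 : ∑ x ∈ P, eps (symmDiff A (neg ψ)) x + ∑ x ∈ Q, eps (symmDiff A (neg ψ)) x = 0 := by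
      rw [← hsplit, ← h1]
      unfold W
      exact Finset.sum_congr rfl fun x _ => eps_symmDiff ψ A x
    have e2 : ∑ x ∈ P, eps (symmDiff A (neg ψ)) x - ∑ x ∈ Q, eps (symmDiff A (neg ψ)) x = 0 := by
      have h3 : ∑ x, ((φ x : ℤˣ) : ℤ) * eps (symmDiff A (neg ψ)) x = 0 := by
        rw [← h2]
        unfold W
        refine Finset.sum_congr rfl fun x _ => ?_
        rw [eps_symmDiff, ← mul_assoc]
        congr 1
        have h4 : φ x * ψ x = ψ' x := by
          rw [hφx, mul_comm (ψ x) (ψ' x), mul_assoc, mul_self_units, mul_one]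
        rw [← h4]
        push_cast
        rfl
      rw [hsplit] at h3
      have h5 : ∑ x ∈ P, ((φ x : ℤˣ) : ℤ) * eps (symmDiff A (neg ψ)) x =
          ∑ x ∈ P, eps (symmDiff A (neg ψ)) x :=
        Finset.sum_congr rfl fun x hx => by rw [hφP x hx, one_mul]
      have h6 : ∑ x ∈ Q, ((φ x : ℤˣ) : ℤ) * eps (symmDiff A (neg ψ)) x =
          - ∑ x ∈ Q, eps (symmDiff A (neg ψ)) x := by
        rw [← Finset.sum_neg_distrib]
        exact Finset.sum_congr rfl fun x hx => by rw [hφQ x hx, neg_one_mul]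
      rw [h5, h6] at h3
      linarith
    rw [sum_eps, sum_eps] at e1 e2
    rw [hPn, hQn] at e1 e2
    constructor <;> omega
  rcases Nat.even_or_odd' n with ⟨k, hk | hk⟩
  · have hle : ((univ : Finset (Finset K)).filter (fun A => W ψ A = 0 ∧ W ψ' A = 0)).card ≤
        (Finset.powersetCard k P ×ˢ Finset.powersetCard k Q).card := by
      refine Finset.card_le_card_of_injOn
        (fun A => (P ∩ symmDiff A (neg ψ), Q ∩ symmDiff A (neg ψ))) ?_ ?_
      · intro A hA
        have hA' := (Finset.mem_filter.mp hA).2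
        have hk' := key A hA'.1 hA'.2
        rw [Finset.mem_coe, Finset.mem_product, Finset.mem_powersetCard, Finset.mem_powersetCard]
        refine ⟨⟨Finset.inter_subset_left, ?_⟩, ⟨Finset.inter_subset_left, ?_⟩⟩
        · show (P ∩ symmDiff A (neg ψ)).card = k
          omega
        · show (Q ∩ symmDiff A (neg ψ)).card = k
          omega
      · intro A _ B _ hAB
        have h1 : P ∩ symmDiff A (neg ψ) = P ∩ symmDiff B (neg ψ) := congrArg Prod.fst hAB
        have h2 : Q ∩ symmDiff A (neg ψ) = Q ∩ symmDiff B (neg ψ) := congrArg Prod.snd hAB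
        have h3 : symmDiff A (neg ψ) = symmDiff B (neg ψ) := by
          ext x
          by_cases hx : φ x = 1
          · have hxP : x ∈ P := by rw [hP]; exact Finset.mem_filter.mpr ⟨Finset.mem_univ _, hx⟩
            have := Finset.ext_iff.mp h1 x
            rw [Finset.mem_inter, Finset.mem_inter] at this
            tauto
          · have hxQ : x ∈ Q := by rw [hQ]; exact Finset.mem_filter.mpr ⟨Finset.mem_univ _, hx⟩
            have := Finset.ext_iff.mp h2 x
            rw [Finset.mem_inter, Finset.mem_inter] at this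
            tauto
        exact symmDiff_left_injective _ h3
    rw [Finset.card_product, Finset.card_powersetCard, Finset.card_powersetCard, hPn, hQn, hk,
      ← Nat.centralBinom_eq_two_mul_choose] at hle
    have hk0 : 0 < k := by omega
    have hkr : (0 : ℝ) < k := by exact_mod_cast hk0
    have hu := cb_mono k n (by omega)
    have h1 : (((univ : Finset (Finset K)).filter
        (fun A => W ψ A = 0 ∧ W ψ' A = 0)).card : ℝ) ≤ (Nat.centralBinom k : ℝ) ^ 2 := by
      rw [sq]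
      exact_mod_cast hle
    have h4 : ((4 : ℝ) ^ k) ^ 2 = 4 ^ n := by
      rw [← pow_mul, hk, mul_comm k 2]
    have hnk : (n : ℝ) = 2 * k := by
      rw [hk]
      push_cast
      ring
    rw [div_pow, div_pow, h4, hnk] at hu
    have h5 : (Nat.centralBinom k : ℝ) ^ 2 / 4 ^ n ≤
        2 * ((Nat.centralBinom n : ℝ) ^ 2 / (4 ^ n) ^ 2) := by
      refine le_of_mul_le_mul_left ?_ hkr
      linarith
    have h6 : (0 : ℝ) < 4 ^ n := by positivity
    calc _ ≤ (Nat.centralBinom k : ℝ) ^ 2 * 4 ^ n := mul_le_mul_of_nonneg_right h1 h6.le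
      _ = (Nat.centralBinom k : ℝ) ^ 2 / 4 ^ n * (4 ^ n) ^ 2 := by
          field_simp
      _ ≤ 2 * ((Nat.centralBinom n : ℝ) ^ 2 / (4 ^ n) ^ 2) * (4 ^ n) ^ 2 :=
          mul_le_mul_of_nonneg_right h5 (by positivity)
      _ = 2 * (Nat.centralBinom n : ℝ) ^ 2 := by
          field_simp
  · have h0 : (univ : Finset (Finset K)).filter (fun A => W ψ A = 0 ∧ W ψ' A = 0) = ∅ := by
      apply Finset.filter_eq_empty_iff.mpr
      intro A _ hA
      have := (key A hA.1 hA.2).1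
      omega
    rw [h0, Finset.card_empty, Nat.cast_zero, zero_mul]
    positivity


/-- About one half of all subsets have a vanishing Walsh coefficient. -/
theorem walsh_half {K : Type} [CommGroup K] [Fintype K] [DecidableEq K]
    [DecidablePred fun A : Finset K => ∃ ψ : K →* ℤˣ, W ψ A = 0]
    {n : ℕ} (hn : 1 ≤ n) (hK : Fintype.card K = 2 * n) (hsq : ∀ x : K, x * x = 1) :
    (2 : ℝ) ^ (2 * n) * (1 / 2 - 1 / (4 * Real.sqrt n)) ≤
      (((univ : Finset (Finset K)).filter (fun A => ∃ ψ : K →* ℤˣ, W ψ A = 0)).card : ℝ) := by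
  classical
  have := enough hsq
  have : Finite (K →* ℤˣ) := Finite.of_injective (fun f : K →* ℤˣ => (f : K → ℤˣ))
    DFunLike.coe_injective
  let _ : Fintype (K →* ℤˣ) := Fintype.ofFinite _
  have hdual : Fintype.card (K →* ℤˣ) = 2 * n := by
    rw [← hK, ← Nat.card_eq_fintype_card, ← Nat.card_eq_fintype_card]
    exact CommGroup.card_monoidHom_of_hasEnoughRootsOfUnity K ℤ
  obtain ⟨S, hS⟩ : ∃ S : Finset (Finset K),
    S = (univ : Finset (Finset K)).filter (fun A => ∃ ψ : K →* ℤˣ, W ψ A = 0) := ⟨_, rfl⟩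
  rw [← hS]
  obtain ⟨C, hC⟩ : ∃ C : ℝ, C = (Nat.centralBinom n : ℝ) := ⟨_, rfl⟩
  obtain ⟨N, hN⟩ : ∃ N : ℝ, N = (4 : ℝ) ^ n := ⟨_, rfl⟩
  have hC0 : 0 < C := by
    rw [hC]
    exact_mod_cast Nat.centralBinom_pos n
  have hN0 : 0 < N := by rw [hN]; positivity
  have hn0 : (1 : ℝ) ≤ n := by exact_mod_cast hn
  let χ : (K →* ℤˣ) → Finset K → ℝ := fun ψ A => if W ψ A = 0 then 1 else 0
  let m : Finset K → ℝ := fun A => ∑ ψ, χ ψ A
  have hm0 : ∀ A ∉ S, m A = 0 := by
    intro A hA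
    refine Finset.sum_eq_zero fun ψ _ => ?_
    refine if_neg fun h => hA ?_
    rw [hS]
    exact Finset.mem_filter.mpr ⟨Finset.mem_univ _, ψ, h⟩
  have hone : ∀ ψ, ∑ A, χ ψ A = C := by
    intro ψ
    show ∑ A, (if W ψ A = 0 then (1 : ℝ) else 0) = C
    rw [Finset.sum_boole, card_zero ψ hK, hC]
  have htwo : ∀ ψ ψ', ψ ≠ ψ' → ∑ A, χ ψ A * χ ψ' A ≤ 2 * C ^ 2 / N := by
    intro ψ ψ' hne
    have h1 : ∑ A, χ ψ A * χ ψ' A =
        (((univ : Finset (Finset K)).filter (fun A => W ψ A = 0 ∧ W ψ' A = 0)).card : ℝ) := by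
      rw [← Finset.sum_boole]
      refine Finset.sum_congr rfl fun A _ => ?_
      show (if W ψ A = 0 then (1 : ℝ) else 0) * (if W ψ' A = 0 then (1 : ℝ) else 0) = _
      split_ifs <;> simp_all
    rw [h1, le_div_iff₀ hN0, hN, hC]
    exact card_zero_two' hne (by omega) hK
  have hM1 : ∑ A, m A = 2 * n * C := by
    show ∑ A, ∑ ψ, χ ψ A = _
    rw [Finset.sum_comm, Finset.sum_congr rfl fun ψ _ => hone ψ, Finset.sum_const,
      Finset.card_univ, hdual, nsmul_eq_mul]
    push_cast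
    ring
  have hM2 : ∑ A, m A ^ 2 ≤ 2 * n * (C + 2 * n * (2 * C ^ 2 / N)) := by
    have h1 : ∑ A, m A ^ 2 = ∑ ψ, ∑ ψ', ∑ A, χ ψ A * χ ψ' A := by
      have : ∀ A, m A ^ 2 = ∑ ψ, ∑ ψ', χ ψ A * χ ψ' A := by
        intro A
        rw [sq, Finset.sum_mul_sum]
      rw [Finset.sum_congr rfl fun A _ => this A, Finset.sum_comm]
      refine Finset.sum_congr rfl fun ψ _ => ?_
      rw [Finset.sum_comm]
    rw [h1]
    have h2 : ∀ ψ, ∑ ψ', ∑ A, χ ψ A * χ ψ' A ≤ C + 2 * n * (2 * C ^ 2 / N) := by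
      intro ψ
      rw [← Finset.add_sum_erase _ _ (Finset.mem_univ ψ)]
      refine add_le_add ?_ ?_
      · rw [← hone ψ]
        refine Finset.sum_le_sum fun A _ => ?_
        show (if W ψ A = 0 then (1 : ℝ) else 0) * (if W ψ A = 0 then (1 : ℝ) else 0) ≤
          (if W ψ A = 0 then (1 : ℝ) else 0)
        split_ifs <;> norm_num
      · have h3 : ∀ ψ' ∈ (univ : Finset (K →* ℤˣ)).erase ψ, ∑ A, χ ψ A * χ ψ' A ≤
            2 * C ^ 2 / N := fun ψ' hψ' => htwo ψ ψ' (Finset.ne_of_mem_erase hψ').symm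
        refine (Finset.sum_le_sum h3).trans ?_
        rw [Finset.sum_const, nsmul_eq_mul]
        have h4 : (((univ : Finset (K →* ℤˣ)).erase ψ).card : ℝ) ≤ 2 * n := by
          have : ((univ : Finset (K →* ℤˣ)).erase ψ).card ≤ 2 * n := by
            rw [← hdual, ← Finset.card_univ]
            exact Finset.card_le_card (Finset.erase_subset _ _)
          exact_mod_cast this
        exact mul_le_mul_of_nonneg_right h4 (by positivity)
    calc ∑ ψ, ∑ ψ', ∑ A, χ ψ A * χ ψ' A ≤ ∑ _ψ : K →* ℤˣ, (C + 2 * n * (2 * C ^ 2 / N)) :=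
          Finset.sum_le_sum fun ψ _ => h2 ψ
      _ = 2 * n * (C + 2 * n * (2 * C ^ 2 / N)) := by
          rw [Finset.sum_const, Finset.card_univ, hdual, nsmul_eq_mul]
          push_cast
          ring
  have hCS : (2 * n * C) ^ 2 ≤ (S.card : ℝ) * (2 * n * (C + 2 * n * (2 * C ^ 2 / N))) := by
    have h1 : ∑ A, m A = ∑ A ∈ S, m A :=
      (Finset.sum_subset (Finset.subset_univ S) fun A _ hA => hm0 A hA).symm
    rw [← hM1, h1]
    refine sq_sum_le_card_mul_sum_sq.trans ?_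
    refine mul_le_mul_of_nonneg_left (le_trans ?_ hM2) (by positivity)
    exact Finset.sum_le_sum_of_subset_of_nonneg (Finset.subset_univ S) fun A _ _ => sq_nonneg _
  have hG0 : (0 : ℝ) ≤ S.card := by positivity
  -- the expectation
  obtain ⟨z, hz⟩ : ∃ z : ℝ, z = 2 * n * C / N := ⟨_, rfl⟩
  have hz0 : 0 < z := by rw [hz]; positivity
  have hlow : N ^ 2 ≤ 4 * n * C ^ 2 := by
    rw [hN, hC, ← pow_mul, mul_comm n 2, pow_mul]
    have := cb_lower n hn
    norm_num
    exact_mod_cast this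
  have hzn : Real.sqrt n ≤ z := by
    rw [Real.sqrt_le_left hz0.le, hz, div_pow, le_div_iff₀ (by positivity)]
    calc (n : ℝ) * N ^ 2 ≤ n * (4 * n * C ^ 2) := mul_le_mul_of_nonneg_left hlow (by linarith)
      _ = (2 * n * C) ^ 2 := by ring
  have hC' : C = z * N / (2 * n) := by
    rw [hz]
    field_simp
  have h1 : z * N ≤ (S.card : ℝ) * (1 + 2 * z) := by
    have h2 : (2 * n * C) ^ 2 = (2 * n * C) * (z * N) := by
      rw [hz]
      field_simp
    have h3 : (S.card : ℝ) * (2 * n * (C + 2 * n * (2 * C ^ 2 / N))) =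
        (2 * n * C) * ((S.card : ℝ) * (1 + 2 * z)) := by
      have h8 : 2 * n * (2 * C ^ 2 / N) = C * (2 * z) := by
        rw [hz]
        ring
      rw [h8]
      ring
    rw [h2, h3] at hCS
    exact le_of_mul_le_mul_left hCS (by positivity)
  have h4 : (2 : ℝ) ^ (2 * n) = N := by
    rw [hN, pow_mul]
    norm_num
  rw [h4]
  have hsq0 : 0 < Real.sqrt n := Real.sqrt_pos.2 (by linarith)
  have h5 : 1 / (4 * z) ≤ 1 / (4 * Real.sqrt n) :=
    one_div_le_one_div_of_le (by positivity) (by linarith)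
  have h6 : N * (1 / 2 - 1 / (4 * z)) * (1 + 2 * z) ≤ z * N := by
    have hw : z * (1 / (4 * z)) = 1 / 4 := by
      field_simp
    have h7 : N * (1 / 2 - 1 / (4 * z)) * (1 + 2 * z) = z * N - N * (1 / (4 * z)) := by
      linear_combination (-2 * N) * hw
    rw [h7, mul_one_div]
    have : 0 < N / (4 * z) := by positivity
    linarith
  calc N * (1 / 2 - 1 / (4 * Real.sqrt n)) ≤ N * (1 / 2 - 1 / (4 * z)) :=
        mul_le_mul_of_nonneg_left (by linarith) hN0.le
    _ ≤ (S.card : ℝ) := le_of_mul_le_mul_right (h6.trans h1) (by positivity)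

open Classical in
/-- About one half of the half systems have a vanishing character sum. -/
theorem halves_half (Γ : Type) [CommGroup Γ] [Fintype Γ] (c : Γ) (g : ℕ)
    (hsq : ∀ x : Γ, x * x = 1) (hc : c ≠ 1) (hcard : Fintype.card Γ = 2 * g) (hg : 2 ≤ g) :
    (2 : ℝ) ^ g * (1 / 2 - 1 / Real.sqrt (8 * g)) ≤
      (((Halves (fun x : Γ => c * x)).filter
        (fun T => ∃ χ : Γ →* ℤˣ, χ c = -1 ∧ ∑ x ∈ T, ((χ x : ℤˣ) : ℤ) = 0)).card : ℝ) := by
  have hen := enough hsq
  obtain ⟨χ₀, hχ₀⟩ := CommGroup.exists_apply_ne_one_of_hasEnoughRootsOfUnity Γ ℤ hc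
  have hc0 : χ₀ c = -1 := (Int.units_eq_one_or (χ₀ c)).resolve_left hχ₀
  have hcc : c * c = 1 := hsq c
  have hm1 : ¬ ((-1 : ℤˣ) = 1) := by decide
  have hker : ∀ x : Γ, x ∈ χ₀.ker ↔ χ₀ x = 1 := fun x => MonoidHom.mem_ker
  have hnot : ∀ x : Γ, x ∉ χ₀.ker → c * x ∈ χ₀.ker := by
    intro x hx
    rw [hker] at hx ⊢
    rw [map_mul, hc0, (Int.units_eq_one_or (χ₀ x)).resolve_left hx]
    decide
  have hcx : ∀ x : Γ, x ∈ χ₀.ker → c * x ∉ χ₀.ker := by
    intro x hx
    rw [hker] at hx ⊢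
    rw [map_mul, hc0, hx]
    decide
  have hccx : ∀ x : Γ, c * (c * x) = x := fun x => by rw [← mul_assoc, hcc, one_mul]
  let e : Γ ≃ χ₀.ker ⊕ χ₀.ker :=
    { toFun := fun x => if h : x ∈ χ₀.ker then Sum.inl ⟨x, h⟩ else Sum.inr ⟨c * x, hnot x h⟩
      invFun := Sum.elim (fun y : χ₀.ker => (y : Γ)) (fun y : χ₀.ker => c * (y : Γ))
      left_inv := by
        intro x
        by_cases h : x ∈ χ₀.ker
        · simp only [dif_pos h, Sum.elim_inl]
        · simp only [dif_neg h, Sum.elim_inr, hccx]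
      right_inv := by
        rintro (y | y)
        · simp only [Sum.elim_inl]
          exact dif_pos y.2
        · simp only [Sum.elim_inr]
          refine (dif_neg (hcx y y.2)).trans ?_
          exact congrArg Sum.inr (Subtype.ext (hccx y)) }
  have hsumΓ : ∀ f : Γ → ℤ, ∑ x, f x = ∑ y : χ₀.ker, (f y + f (c * y)) := by
    intro f
    rw [← Equiv.sum_comp e.symm f, Fintype.sum_sum_type, ← Finset.sum_add_distrib]
    rfl
  have hK2 : Fintype.card χ₀.ker = g := by
    have h1 := Fintype.card_congr e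
    rw [Fintype.card_sum, hcard] at h1
    omega
  have hsqK : ∀ x : χ₀.ker, x * x = 1 := fun x => Subtype.ext (hsq x)
  -- the order g is even
  obtain ⟨n, hn⟩ : ∃ n, g = 2 * n := by
    have hnt : 1 < Fintype.card χ₀.ker := by omega
    obtain ⟨x, hx⟩ := Fintype.exists_ne_of_one_lt_card hnt 1
    have h1 : orderOf x = 2 := orderOf_eq_prime (by rw [sq]; exact hsqK x) hx
    have h2 := orderOf_dvd_card (x := x)
    rw [h1, hK2] at h2
    exact h2
  have hmain := walsh_half (K := χ₀.ker) (n := n) (by omega) (by omega) hsqK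
  have hsqrt : 4 * Real.sqrt n = Real.sqrt (8 * g) := by
    rw [hn]
    push_cast
    rw [show (8 * (2 * (n : ℝ))) = 4 ^ 2 * n by ring, Real.sqrt_mul (by norm_num),
      Real.sqrt_sq (by norm_num)]
  rw [← hn, hsqrt] at hmain
  refine hmain.trans ?_
  have hle : ((univ : Finset (Finset χ₀.ker)).filter
      (fun A => ∃ ψ : χ₀.ker →* ℤˣ, W ψ A = 0)).card ≤
      ((Pool.Agent.W548.Sh.Halves (fun x : Γ => c * x)).filter
      (fun T => ∃ χ : Γ →* ℤˣ, χ c = -1 ∧ ∑ x ∈ T, ((χ x : ℤˣ) : ℤ) = 0)).card := by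
    let Φ : Finset χ₀.ker → Finset Γ := fun A => univ.filter (fun x =>
      if h : x ∈ χ₀.ker then (⟨x, h⟩ : χ₀.ker) ∈ A else (⟨c * x, hnot x h⟩ : χ₀.ker) ∉ A)
    have hΦ1 : ∀ (A : Finset χ₀.ker) (y : χ₀.ker), (y : Γ) ∈ Φ A ↔ y ∈ A := by
      intro A y
      rw [Finset.mem_filter, dif_pos y.2]
      exact ⟨fun h => h.2, fun h => ⟨Finset.mem_univ _, h⟩⟩
    have hΦ2 : ∀ (A : Finset χ₀.ker) (y : χ₀.ker), c * (y : Γ) ∈ Φ A ↔ y ∉ A := by
      intro A y
      rw [Finset.mem_filter, dif_neg (hcx y y.2)]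
      have h1 : (⟨c * (c * (y : Γ)), hnot _ (hcx y y.2)⟩ : χ₀.ker) = y := Subtype.ext (hccx y)
      rw [h1]
      exact ⟨fun h => h.2, fun h => ⟨Finset.mem_univ _, h⟩⟩
    refine Finset.card_le_card_of_injOn Φ ?_ ?_
    · intro A hA
      obtain ⟨ψ, hψ⟩ := (Finset.mem_filter.mp hA).2
      rw [Finset.mem_coe, Finset.mem_filter]
      refine ⟨?_, ?_⟩
      · rw [Pool.Agent.W548.Sh.mem_Halves]
        intro x
        by_cases h : x ∈ χ₀.ker
        · have h1 := hΦ1 A ⟨x, h⟩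
          have h2 := hΦ2 A ⟨x, h⟩
          dsimp only at h1 h2 ⊢
          rw [h1, h2]
          tauto
        · have h1 := hΦ1 A ⟨c * x, hnot x h⟩
          have h2 := hΦ2 A ⟨c * x, hnot x h⟩
          dsimp only at h1 h2 ⊢
          rw [hccx] at h2
          rw [h1, h2]
      · obtain ⟨χ₁, hχ₁⟩ := MonoidHom.domRestrict_surjective ℤ χ₀.ker ψ
        have hres : ∀ y : χ₀.ker, χ₁ (y : Γ) = ψ y := fun y => DFunLike.congr_fun hχ₁ y
        obtain ⟨χ, hχc, hχ⟩ : ∃ χ : Γ →* ℤˣ, χ c = -1 ∧ ∀ y : χ₀.ker, χ (y : Γ) = ψ y := by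
          rcases Int.units_eq_one_or (χ₁ c) with h | h
          · refine ⟨χ₁ * χ₀, ?_, fun y => ?_⟩
            · show χ₁ c * χ₀ c = -1
              rw [h, hc0, one_mul]
            · show χ₁ y * χ₀ y = ψ y
              rw [hres, (hker y).mp y.2, mul_one]
          · exact ⟨χ₁, h, hres⟩
        refine ⟨χ, hχc, ?_⟩
        rw [← hψ]
        unfold W
        have h1 : ∑ x ∈ Φ A, ((χ x : ℤˣ) : ℤ) =
            ∑ x, (if x ∈ Φ A then ((χ x : ℤˣ) : ℤ) else 0) := by
          rw [Finset.sum_ite_mem, Finset.univ_inter]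
        rw [h1, hsumΓ]
        refine Finset.sum_congr rfl fun y _ => ?_
        rw [map_mul, hχc, hχ]
        unfold eps
        have h2 := hΦ1 A y
        have h3 := hΦ2 A y
        by_cases hy : y ∈ A
        · rw [if_pos (h2.mpr hy), if_neg (fun h => (h3.mp h) hy), if_pos hy]
          ring
        · rw [if_neg (fun h => hy (h2.mp h)), if_pos (h3.mpr hy), if_neg hy]
          push_cast
          ring
    · intro A _ B _ hAB
      ext y
      have hAB' : Φ A = Φ B := hAB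
      rw [← hΦ1 A y, ← hΦ1 B y, hAB']
  have hle' : (((univ : Finset (Finset χ₀.ker)).filter
      (fun A => ∃ ψ : χ₀.ker →* ℤˣ, W ψ A = 0)).card : ℝ) ≤
      (((Pool.Agent.W548.Sh.Halves (fun x : Γ => c * x)).filter
      (fun T => ∃ χ : Γ →* ℤˣ, χ c = -1 ∧ ∑ x ∈ T, ((χ x : ℤˣ) : ℤ) = 0)).card : ℝ) := by
    exact_mod_cast hle
  linarith

open Classical in
/-- Counting: the types with a balanced character, up to the types with a stabilizer. -/
theorem core_half {Γ : Type} [CommGroup Γ] [Fintype Γ] (c : Γ) (g : ℕ)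
    (hsq : ∀ x : Γ, x * x = 1) (hc : c ≠ 1) (hcard : Fintype.card Γ = 2 * g) (hg : 2 ≤ g)
    {X : Type*} (e : Γ → X) (he : Function.Bijective e) (Good : Set X → Prop)
    (hgood : ∀ (Φ : Set X) (T : Finset Γ), (∀ σ, σ ∈ T ↔ e σ ∈ Φ) →
      T ∈ Halves (fun x : Γ => c * x) →
      (∀ τ : Γ, (∀ x, x ∈ T ↔ τ * x ∈ T) → τ = 1) →
      (∃ χ : Γ →* ℤˣ, χ c = -1 ∧ ∑ x ∈ T, ((χ x : ℤˣ) : ℤ) = 0) → Good Φ) :
    (2 : ℝ) ^ g * (1 / 2 - 1 / Real.sqrt (8 * g)) ≤
      (({Φ : Set X | Good Φ}).ncard : ℝ) + 2 * g * 2 ^ (g / 2) := by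
  have key := halves_half Γ c g hsq hc hcard hg
  set A := (Halves (fun x : Γ => c * x)).filter
      (fun T => ∃ χ : Γ →* ℤˣ, χ c = -1 ∧ ∑ x ∈ T, ((χ x : ℤˣ) : ℤ) = 0) with hA
  have hfinX : Finite X := Finite.of_surjective e he.2
  have h2 : (A \ NonSep c).card ≤ ({Φ : Set X | Good Φ}).ncard := by
    rw [← Set.ncard_coe_finset]
    refine Set.ncard_le_ncard_of_injOn (fun T => e '' (T : Set Γ)) ?_ ?_ (Set.toFinite _)
    · intro T hT
      rw [Finset.mem_coe, Finset.mem_sdiff, hA, Finset.mem_filter] at hT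
      obtain ⟨⟨hT1, hT2⟩, hT3⟩ := hT
      refine hgood _ T ?_ hT1 ?_ hT2
      · intro σ
        constructor
        · exact fun h => ⟨σ, Finset.mem_coe.2 h, rfl⟩
        · rintro ⟨σ', h, h'⟩
          rw [← he.1 h']
          exact Finset.mem_coe.1 h
      · intro τ hτ
        by_contra hne
        apply hT3
        unfold NonSep
        rw [Finset.mem_filter]
        exact ⟨hT1, τ, hne, hτ⟩
    · intro T _ T' _ h
      have h3 := he.1.image_injective h
      exact Finset.coe_injective h3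
  have h3 : A.card ≤ (A \ NonSep c).card + (NonSep c).card := Finset.card_le_card_sdiff_add_card
  have h4 := card_NonSep hsq hc g hcard
  have h5 : A.card ≤ ({Φ : Set X | Good Φ}).ncard + 2 * g * 2 ^ (g / 2) := by omega
  have h6 : (A.card : ℝ) ≤ (({Φ : Set X | Good Φ}).ncard : ℝ) + 2 * g * 2 ^ (g / 2) := by
    exact_mod_cast h5
  exact key.trans h6

/-- For a CM field that is Galois over `ℚ` with an elementary abelian Galois group, about one half of
all CM types have an exotic rational Hodge class of degree `g` on the abelian variety itself. -/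
theorem multi_half (h2 : S_SH2) (E : Type) [Field E] [NumberField E] [IsCMField E] [IsGalois ℚ E]
    (g : ℕ) (hfin : Module.finrank ℚ E = 2 * g) (hsq : ∀ σ : E ≃ₐ[ℚ] E, σ * σ = 1) (hg : 2 ≤ g) :
    (2 : ℝ) ^ g * (1 / 2 - 1 / Real.sqrt (8 * g)) ≤ (({Φ : Set (E →+* ℂ) | IsCMType Φ ∧
      ∃ f : (∀ _ : Unit, E) [⋀^Fin g]→ₗ[ℚ] ℚ,
        IsHodge (per (fun _ : Unit => Φ) (fun _ : Unit => ())) f ∧
        f ∉ Submodule.span ℚ (divisorProducts (per (fun _ : Unit => Φ) (fun _ : Unit => ()))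
          g (g / 2))}).ncard : ℝ) + 2 * g * 2 ^ (g / 2) := by
  classical
  obtain ⟨j⟩ := (inferInstance : Nonempty (E →+* ℂ))
  let inst : CommGroup (E ≃ₐ[ℚ] E) :=
    { (inferInstance : Group (E ≃ₐ[ℚ] E)) with
      mul_comm := by
        intro a b
        have ha : a⁻¹ = a := inv_eq_of_mul_eq_one_left (hsq a)
        have hb : b⁻¹ = b := inv_eq_of_mul_eq_one_left (hsq b)
        have hab : (a * b)⁻¹ = a * b := inv_eq_of_mul_eq_one_left (hsq (a * b))
        rw [← hab, mul_inv_rev, ha, hb] }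
  have hcard : Fintype.card (E ≃ₐ[ℚ] E) = 2 * g := by
    rw [← Nat.card_eq_fintype_card, IsGalois.card_aut_eq_finrank, hfin]
  refine core_half (cc E) g hsq cc_ne hcard hg (emb j) (emb_bijective j) _ ?_
  rintro Φ T hT hTH hsep ⟨χ, hχ, h0⟩
  have hCM : IsCMType Φ := by
    intro φ
    obtain ⟨σ, rfl⟩ := (emb_bijective j).2 φ
    rw [conj_emb, ← hT, ← hT]
    exact mem_Halves.1 hTH σ
  refine ⟨hCM, ?_⟩
  obtain ⟨m, hm⟩ := even_g (cc E) hsq χ hχ g hcard (by omega)
  subst hm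
  have hm0 : 0 < m := by omega
  rw [Nat.mul_div_cancel_left m (by norm_num : 0 < 2)]
  have hker : Fintype.card χ.ker = 2 * m := by
    rw [← Nat.card_eq_fintype_card]
    exact card_ker (cc E) χ hχ _ hcard
  let en : Fin (2 * m) ≃ χ.ker := (Fintype.equivFinOfCardEq hker).symm
  have hgal : ∀ s : ℂ ≃+* ℂ, ∃ h : E ≃ₐ[ℚ] E, ∀ σ : E ≃ₐ[ℚ] E,
      (s : ℂ →+* ℂ).comp (emb j σ) = emb j (h * σ) := by
    intro s
    obtain ⟨h, hh⟩ := Pool.Agent.H977R3.CM.exists_gal j s
    refine ⟨h, fun σ => ?_⟩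
    ext x
    exact hh (σ x)
  have hgal' : ∀ h : E ≃ₐ[ℚ] E, ∃ s : ℂ ≃+* ℂ, ∀ σ : E ≃ₐ[ℚ] E,
      (s : ℂ →+* ℂ).comp (emb j σ) = emb j (h * σ) := by
    intro h
    obtain ⟨s, hs⟩ := Pool.Agent.H977R3.CM.exists_aut j (h : E ≃+* E)
    refine ⟨s, fun σ => ?_⟩
    ext x
    exact hs (σ x)
  refine h2 (ι := Unit) (J := Unit) (fun _ => E) (fun _ => Φ) (fun _ => ()) (fun _ => hCM) ?_
    (fun u => ⟨(), rfl⟩) m hm0 (fun l => ⟨(), emb j (en l).1⟩) ?_ ?_ ?_
  · -- separated
    rintro ⟨⟨⟩, φ⟩ ⟨⟨⟩, ψ⟩ h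
    obtain ⟨a, rfl⟩ := (emb_bijective j).2 φ
    obtain ⟨b, rfl⟩ := (emb_bijective j).2 ψ
    have h3 : b * a⁻¹ = 1 := by
      apply hsep
      intro x
      obtain ⟨s, hs⟩ := hgal' (x * a⁻¹)
      have h4 := h s
      simp only [] at h4
      rw [hs, hs, ← hT, ← hT, inv_mul_cancel_right] at h4
      rw [h4]
      have h5 : x * a⁻¹ * b = b * a⁻¹ * x := by
        rw [mul_comm, ← mul_assoc, mul_right_comm]
      rw [h5]
    have h6 : b = a := mul_inv_eq_one.1 h3
    rw [h6]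
  · intro l l' h
    have h3 : emb j (en l).1 = emb j (en l').1 := eq_of_heq (Sigma.mk.inj_iff.1 h).2
    exact en.injective (Subtype.ext (emb_injective j h3))
  · intro l l' h
    have h3 : emb j (en l).1 = ComplexEmbedding.conjugate (emb j (en l').1) :=
      eq_of_heq (Sigma.mk.inj_iff.1 h).2
    rw [conj_emb] at h3
    have h4 := emb_injective j h3
    have h5 := congrArg χ h4
    rw [map_mul, hχ, MonoidHom.mem_ker.1 (en l).2, MonoidHom.mem_ker.1 (en l').2] at h5
    exact absurd h5 (by decide)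
  · intro s
    obtain ⟨h, hh⟩ := hgal s
    have h3 := balanced (cc E) hTH χ hχ h0 h
    rw [← Equiv.sum_comp en] at h3
    rw [← h3]
    refine Finset.sum_congr rfl fun l _ => ?_
    have h4 : (s : ℂ →+* ℂ).comp (emb j (en l).1) ∈ Φ ↔ h * (en l).1 ∈ T := by
      rw [hh, hT]
    by_cases h5 : h * (en l).1 ∈ T
    · rw [if_pos h5]
      exact if_pos (h4.2 h5)
    · rw [if_neg h5]
      exact if_neg (fun h6 => h5 (h4.1 h6))


end Pool.Agent.Q43.RP
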