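import Mathlib

/-!
# The Frobenius endomorphism on the first cohomology group of a simple abelian variety
-/

set_option autoImplicit false

namespace Pool.Agent.Q43.RP

/-- The Frobenius endomorphism `π` on the first cohomology group (of dimension `[K : ℚ]`) of the simple
abelian variety over a finite field with `K = ℚ(π)`: the sum of one eigenspace for each of the
eigenvalues `σ (π)`. -/
def frob {K : Type} [Field K] (π : K) (Ω : Type) [Field Ω] :
    ((K →+* Ω) → Ω) →ₗ[Ω] ((K →+* Ω) → Ω) where
  toFun v := fun σ => σ π * v σ
  map_add' v w := by
    funext σ
    simp [mul_add]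
  map_smul' c v := by
    funext σ
    simp only [Pi.smul_apply, smul_eq_mul, RingHom.id_apply]
    ring

end Pool.Agent.Q43.RP
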