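import Mathlib
import Pool.Agent.Q43.RP.Eqc
import Pool.Agent.Q43.RP.Dh
import Pool.Agent.Q251.RP.R2
import Pool.Agent.Q177.RP.Sh2
import Pool.Agent.TH170.TT.Small

/-!
# Exotic Hodge classes in the smallest possible codimension are Weil classes
-/

set_option autoImplicit false
set_option linter.unusedSectionVars false

namespace Pool.Agent.Q43.RP

open Finset NumberField Pool.Agent.W548.Sh Pool.Agent.TH170.LV Pool.Agent.TH170.GH
  Pool.Agent.H204R3.CM Pool.Agent.W546.GHC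

noncomputable section

/-- The number of the extensions of an embedding of a subfield. -/
theorem ncard_ext {E : Type} [Field E] [NumberField E] (F : IntermediateField ℚ E)
    (φ : E →+* ℂ) : {ψ : E →+* ℂ | ∀ x ∈ F, ψ x = φ x}.ncard = Module.finrank F E := by
  classical
  let _ : Algebra F ℂ := (φ.comp (algebraMap F E)).toAlgebra
  have hal : ∀ x : F, algebraMap F ℂ x = φ x := fun _ => rfl
  let e : (E →ₐ[F] ℂ) → (E →+* ℂ) := fun ψ => (ψ : E →+* ℂ)
  have he : Function.Injective e := fun ψ ψ' h => by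
    ext x
    exact RingHom.congr_fun h x
  have h1 : {ψ : E →+* ℂ | ∀ x ∈ F, ψ x = φ x} = Set.range e := by
    ext ψ
    constructor
    · intro h
      exact ⟨{ ψ with commutes' := fun x => h x.1 x.2 }, rfl⟩
    · rintro ⟨ψ', rfl⟩ x hx
      exact ψ'.commutes ⟨x, hx⟩
  rw [h1, Set.ncard_range_of_injective he, Nat.card_eq_fintype_card, AlgHom.card]

/-- **Exotic Hodge classes in the smallest possible codimension are Weil classes.** -/
theorem rigid (E : Type) [Field E] [NumberField E] [IsCMField E] (Φ : Set (E →+* ℂ))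
    (hΦ : IsCMType Φ) {g m D : ℕ} (hE : Module.finrank ℚ E = 2 * g)
    (hD : g + 1 ≤ mtDim (fun _ : Unit => Φ) + D) (hm : 2 ≤ m) (hmD : 2 * m * D = g) :
    (¬ LevelFree (fun _ : Unit => Φ) (2 * m) 0 → ∃ F : IntermediateField ℚ E,
      Module.finrank ℚ F = 2 * D ∧ (∃ x ∈ F, IsCMField.complexConj E x ≠ x) ∧
      ∀ φ : E →+* ℂ, {ψ : E →+* ℂ | ψ ∈ Φ ∧ ∀ x ∈ F, ψ x = φ x}.ncard = m) ∧
    ((∃ F : IntermediateField ℚ E,
      Module.finrank ℚ F = 2 * D ∧ (∃ x ∈ F, IsCMField.complexConj E x ≠ x) ∧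
      ∀ φ : E →+* ℂ, {ψ : E →+* ℂ | ψ ∈ Φ ∧ ∀ x ∈ F, ψ x = φ x}.ncard = m) →
      ∃ f : (∀ _ : Unit, E) [⋀^Fin (2 * m)]→ₗ[ℚ] ℚ,
        IsHodge (per (fun _ : Unit => Φ) (fun _ : Unit => ())) f ∧
        f ∉ Submodule.span ℚ (divisorProducts (per (fun _ : Unit => Φ) (fun _ : Unit => ()))
          (2 * m) m)) := by
  classical
  let _ : MulAction (ℂ ≃+* ℂ) (Σ _ : Unit, (E →+* ℂ)) := actC (fun _ : Unit => E)
  have hsm : ∀ (σ : ℂ ≃+* ℂ) (y : Σ _ : Unit, (E →+* ℂ)), σ • y =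
      ⟨y.1, (σ : ℂ →+* ℂ).comp y.2⟩ := fun _ _ => rfl
  let inv : (Σ _ : Unit, (E →+* ℂ)) → Σ _ : Unit, (E →+* ℂ) :=
    fun y => ⟨y.1, ComplexEmbedding.conjugate y.2⟩
  have hinv : ∀ y, inv (inv y) = y := by
    rintro ⟨i, φ⟩
    simp only [inv, conj_conj]
  have hcj : ∀ (φ : E →+* ℂ) (x : E), ComplexEmbedding.conjugate φ x =
      φ (IsCMField.complexConj E x) := fun φ x =>
    (IsCMField.complexEmbedding_complexConj E φ x).symm
  have hlift : ∀ (φ : E →+* ℂ) (σ : ℂ ≃+* ℂ),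
      (σ : ℂ →+* ℂ).comp (ComplexEmbedding.conjugate φ) =
        ComplexEmbedding.conjugate ((σ : ℂ →+* ℂ).comp φ) := by
    intro φ σ
    ext x
    rw [hcj]
    change σ (ComplexEmbedding.conjugate φ x) = σ (φ _)
    rw [hcj]
  have hcomm : ∀ (σ : ℂ ≃+* ℂ) (y : Σ _ : Unit, (E →+* ℂ)), inv (σ • y) = σ • inv y := by
    rintro σ ⟨i, φ⟩
    rw [hsm, hsm]
    simp only [inv]
    rw [hlift]
  have hcard : Fintype.card (Σ _ : Unit, (E →+* ℂ)) = 2 * g := by
    rw [Fintype.card_sigma, ← hE, Finset.univ_unique, Finset.sum_singleton, Embeddings.card]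
  have htr : ∀ φ ψ : E →+* ℂ, ∃ σ : ℂ ≃+* ℂ, (σ : ℂ →+* ℂ).comp φ = ψ := by
    intro φ ψ
    obtain ⟨L, _, _, jj, hL⟩ := exists_galois (fun _ : Unit => E)
    obtain ⟨φ', hφ'⟩ := hL () φ
    obtain ⟨ψ', hψ'⟩ := hL () ψ
    obtain ⟨s, hs⟩ := MulAction.exists_smul_eq (L ≃ₐ[ℚ] L) φ' ψ'
    obtain ⟨σ, hσ⟩ := Pool.Agent.H977R3.CM.exists_aut jj (s : L ≃+* L)
    refine ⟨σ, ?_⟩
    rw [← hφ', ← hψ', ← hs]
    ext x
    exact hσ _
  have htrans : MulAction.IsPretransitive (ℂ ≃+* ℂ) (Σ _ : Unit, (E →+* ℂ)) := by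
    refine ⟨?_⟩
    rintro ⟨⟨⟩, φ⟩ ⟨⟨⟩, ψ⟩
    obtain ⟨σ, hσ⟩ := htr φ ψ
    exact ⟨σ, by rw [hsm, hσ]⟩
  have horb : ∀ y : Σ _ : Unit, (E →+* ℂ), 2 * g ≤ (MulAction.orbit (ℂ ≃+* ℂ) y).ncard := by
    intro y
    rw [MulAction.orbit_eq_univ, Set.ncard_univ, Nat.card_eq_fintype_card, hcard]
  let T : Finset (Σ _ : Unit, (E →+* ℂ)) := univ.filter (fun y => y.2 ∈ Φ)
  have hT : ∀ y, y ∈ T ↔ y.2 ∈ Φ := fun y => by
    simp only [T, Finset.mem_filter, Finset.mem_univ, true_and]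
  have hTH : T ∈ Halves inv := by
    rw [mem_Halves]
    intro y
    rw [hT, hT]
    exact hΦ y.2
  have hrank : Set.range (ind (G := (ℂ ≃+* ℂ)) T) =
      Set.range (fun (σ : ℂ ≃+* ℂ) (y : Σ _ : Unit, (E →+* ℂ)) =>
        if (σ : ℂ →+* ℂ).comp y.2 ∈ Φ then (1 : ℚ) else 0) := by
    congr 1
    funext σ y
    unfold ind
    by_cases h : (σ : ℂ →+* ℂ).comp y.2 ∈ Φ
    · rw [if_pos h, if_pos ((hT _).2 h)]
    · rw [if_neg h, if_neg (fun h' => h ((hT _).1 h'))]
  have hsgn : ∀ {n : ℕ} (a : Fin n → Σ _ : Unit, (E →+* ℂ)) (σ : ℂ ≃+* ℂ),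
      ∑ l, (if (σ : ℂ →+* ℂ).comp (a l).2 ∈ Φ then (1 : ℤ) else -1) =
        ∑ l, sgn T (σ • a l) := by
    intro n a σ
    refine Finset.sum_congr rfl fun l _ => ?_
    unfold sgn
    by_cases h : (σ : ℂ →+* ℂ).comp (a l).2 ∈ Φ
    · rw [if_pos h, if_pos ((hT _).2 h)]
    · rw [if_neg h, if_neg (fun h' => h ((hT _).1 h'))]
  have hD' : g + 1 ≤ Module.finrank ℚ (Submodule.span ℚ (Set.range (ind (G := (ℂ ≃+* ℂ)) T))) +
      D := by
    rw [hrank]
    exact hD
  have hg : 0 < g := by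
    have h1 := Module.finrank_pos (R := ℚ) (M := E)
    omega
  have hlen : ∀ {n : ℕ} (a : Fin n → Σ _ : Unit, (E →+* ℂ)), (∀ l l', a l ≠ inv (a l')) →
      n ≠ 0 → (∀ σ : ℂ ≃+* ℂ, ∑ l, sgn T (σ • a l) = 0) → g ≤ D * n :=
    fun a h1 h2 h3 => le_length_half (G := (ℂ ≃+* ℂ)) hinv hcomm hcard horb hTH hD' a h1 h2 h3
  have hD0 : 0 < D := Nat.pos_of_ne_zero (by
    rintro rfl
    omega)
  have hinvne : ∀ y, inv y ≠ y := by
    rintro ⟨⟨⟩, φ⟩ h
    exact conjugate_ne φ (eq_of_heq (Sigma.mk.inj_iff.1 h).2)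
  refine ⟨fun hcon => ?_, ?_⟩
  · unfold LevelFree at hcon
    push Not at hcon
    obtain ⟨n, hn, B, hB, hBn, a, ha, hsum⟩ := hcon
    have hB0 : B = 0 := by omega
    subst hB0
    have hsum' : ∀ σ : ℂ ≃+* ℂ, ∑ l, sgn T (σ • a l) = 0 := by
      intro σ
      have h2 := hsum σ
      rw [← hsgn]
      have h4 := abs_nonneg (∑ l, (if (σ : ℂ →+* ℂ).comp (a l).2 ∈ Φ then (1 : ℤ) else -1))
      rw [← abs_eq_zero]
      push_cast at h2
      omega
    have h1 := hlen a ha (by omega) hsum'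
    have h2 : n = 2 * m := by
      have h3 : 2 * m * D ≤ n * D := by
        rw [hmD, mul_comm n D]
        exact h1
      have h4 := Nat.le_of_mul_le_mul_right h3 hD0
      omega
    subst h2
    obtain ⟨r, hr1, hr2, hr3, hr4, hr5⟩ := blocks (G := (ℂ ≃+* ℂ)) hinv hcomm htrans hg hcard
      hTH hD' hmD a ha hsum'
    obtain ⟨F, hF1, hF2⟩ := Pool.Agent.Q251.RP.r2 E
      (fun φ ψ => r ⟨(), φ⟩ ⟨(), ψ⟩) ⟨fun _ => hr1.refl _, fun h => hr1.symm h,
        fun h h' => hr1.trans h h'⟩ (fun σ φ ψ h => hr2 σ _ _ h)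
    have hinj : Function.Injective (fun ψ : E →+* ℂ => (⟨(), ψ⟩ : Σ _ : Unit, (E →+* ℂ))) :=
      fun ψ ψ' hh => by simpa using hh
    have hcl : ∀ φ : E →+* ℂ, {ψ : E →+* ℂ | r ⟨(), φ⟩ ⟨(), ψ⟩}.ncard = 2 * m := by
      intro φ
      rw [← hr4 ⟨(), φ⟩, ← Set.ncard_image_of_injective _ hinj]
      congr 1
      ext ⟨⟨⟩, ψ⟩
      constructor
      · rintro ⟨ψ', h1, h2⟩
        rw [← h2]
        exact h1
      · exact fun h => ⟨ψ, h, rfl⟩
    refine ⟨F, ?_, ?_, ?_⟩
    · obtain ⟨φ⟩ := (inferInstance : Nonempty (E →+* ℂ))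
      have h3 := hF2 φ
      rw [hcl] at h3
      have h4 := Module.finrank_mul_finrank ℚ F E
      rw [← h3, hE, ← hmD] at h4
      have h5 : Module.finrank ℚ F * (2 * m) = (2 * D) * (2 * m) := by
        rw [h4]
        ring
      exact Nat.eq_of_mul_eq_mul_right (by omega) h5
    · obtain ⟨φ⟩ := (inferInstance : Nonempty (E →+* ℂ))
      by_contra hno
      push Not at hno
      refine hr3 ⟨(), φ⟩ ((hF1 φ (ComplexEmbedding.conjugate φ)).2 fun x hx => ?_)
      rw [hcj, hno x hx]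
    · intro φ
      have h3 := hr5 ⟨(), φ⟩
      have h4 : {z | r ⟨(), φ⟩ z ∧ z ∈ T}.ncard =
          {ψ : E →+* ℂ | ψ ∈ Φ ∧ ∀ x ∈ F, ψ x = φ x}.ncard := by
        rw [← Set.ncard_image_of_injective _ hinj]
        congr 1
        ext ⟨⟨⟩, ψ⟩
        constructor
        · rintro ⟨h1, h2⟩
          exact ⟨ψ, ⟨(hT _).1 h2, fun x hx => ((hF1 φ ψ).1 h1 x hx).symm⟩, rfl⟩
        · rintro ⟨ψ', ⟨h1, h2⟩, h3⟩
          rw [← h3]
          exact ⟨(hF1 φ ψ').2 fun x hx => (h2 x hx).symm, (hT _).2 h1⟩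
      rw [← h4]
      omega
  · rintro ⟨F, hF, ⟨x₀, hx₀, hx₀'⟩, hbal⟩
    obtain ⟨φ₀⟩ := (inferInstance : Nonempty (E →+* ℂ))
    have hFE : Module.finrank F E = 2 * m := by
      have h4 := Module.finrank_mul_finrank ℚ F E
      rw [hF, hE, ← hmD] at h4
      have h5 : (2 * D) * Module.finrank F E = (2 * D) * (2 * m) := by
        rw [h4]
        ring
      exact Nat.eq_of_mul_eq_mul_left (by omega) h5
    have hblock : ∀ φ : E →+* ℂ, Fintype.card {ψ : E →+* ℂ // ∀ x ∈ F, ψ x = φ x} = 2 * m := by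
      intro φ
      rw [← hFE, ← ncard_ext F φ, ← Nat.card_eq_fintype_card]
      rfl
    let en : Fin (2 * m) ≃ {ψ : E →+* ℂ // ∀ x ∈ F, ψ x = φ₀ x} :=
      (Fintype.equivFinOfCardEq (hblock φ₀)).symm
    refine Pool.Agent.Q177.RP.sh2 (ι := Unit) (J := Unit) (fun _ => E) (fun _ => Φ) (fun _ => ())
      (fun _ => hΦ) ?_ (fun u => ⟨(), rfl⟩) m (by omega) (fun l => ⟨(), (en l).1⟩) ?_ ?_ ?_
    · -- separated
      intro y z hyz
      by_contra hne
      have h1 := hlen (n := 2) ![y, inv z] ?_ (by norm_num) ?_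
      · rw [← hmD] at h1
        have h2 : m ≤ 1 := by
          have h3 : (2 * D) * m ≤ (2 * D) * 1 := by
            calc (2 * D) * m = 2 * m * D := by ring
              _ ≤ D * 2 := h1
              _ = (2 * D) * 1 := by ring
          exact Nat.le_of_mul_le_mul_left h3 (by omega)
        omega
      · intro l l'
        fin_cases l <;> fin_cases l'
        · exact (hinvne y).symm
        · change y ≠ inv (inv z)
          rw [hinv]
          exact hne
        · change inv z ≠ inv y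
          intro h
          exact hne (by rw [← hinv y, ← h, hinv])
        · change inv z ≠ inv (inv z)
          rw [hinv]
          exact hinvne z
      · intro σ
        rw [Fin.sum_univ_two]
        change sgn T (σ • y) + sgn T (σ • inv z) = 0
        rw [← hcomm, sgn_inv hTH]
        have h1 := hyz σ
        have h2 : σ • y ∈ T ↔ σ • z ∈ T := by
          rw [hT, hT]
          exact h1
        unfold sgn
        by_cases h3 : σ • y ∈ T
        · rw [if_pos h3, if_pos (h2.1 h3)]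
          norm_num
        · rw [if_neg h3, if_neg (fun h => h3 (h2.2 h))]
          norm_num
    · intro l l' h
      have h3 : (en l).1 = (en l').1 := eq_of_heq (Sigma.mk.inj_iff.1 h).2
      exact en.injective (Subtype.ext h3)
    · intro l l' h
      have h3 : (en l).1 = ComplexEmbedding.conjugate (en l').1 :=
        eq_of_heq (Sigma.mk.inj_iff.1 h).2
      have h4 : φ₀ x₀ = ComplexEmbedding.conjugate φ₀ x₀ := by
        have h5 := (en l).2 x₀ hx₀
        have h6 := (en l').2 x₀ hx₀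
        rw [h3, ComplexEmbedding.conjugate_coe_eq, h6] at h5
        rw [ComplexEmbedding.conjugate_coe_eq]
        exact h5.symm
      rw [hcj] at h4
      exact hx₀' (φ₀.injective h4).symm
    · intro σ
      have hS : (univ.filter (fun l : Fin (2 * m) => (σ : ℂ →+* ℂ).comp (en l).1 ∈ Φ)).card = m := by
        refine Eq.trans ?_ (hbal ((σ : ℂ →+* ℂ).comp φ₀))
        rw [← Set.ncard_coe_finset,
          ← Set.ncard_image_of_injective (f := fun l => (σ : ℂ →+* ℂ).comp (en l).1)]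
        · congr 1
          ext ψ
          constructor
          · rintro ⟨l, hl, rfl⟩
            rw [Finset.mem_coe, Finset.mem_filter] at hl
            refine ⟨hl.2, fun x hx => ?_⟩
            change σ ((en l).1 x) = σ (φ₀ x)
            rw [(en l).2 x hx]
          · rintro ⟨h1, h2⟩
            have h3 : ∀ x ∈ F, ((σ.symm : ℂ ≃+* ℂ) : ℂ →+* ℂ).comp ψ x = φ₀ x := by
              intro x hx
              change σ.symm (ψ x) = φ₀ x
              rw [h2 x hx]
              exact σ.symm_apply_apply _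
            have h4 : (σ : ℂ →+* ℂ).comp (((σ.symm : ℂ ≃+* ℂ) : ℂ →+* ℂ).comp ψ) = ψ := by
              ext x
              exact σ.apply_symm_apply _
            refine ⟨en.symm ⟨_, h3⟩, ?_, ?_⟩
            · rw [Finset.mem_coe, Finset.mem_filter, Equiv.apply_symm_apply]
              refine ⟨Finset.mem_univ _, ?_⟩
              rw [h4]
              exact h1
            · beta_reduce
              rw [Equiv.apply_symm_apply]
              exact h4
        · intro l l' h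
          have h1 : (en l).1 = (en l').1 := by
            ext x
            have h2 := RingHom.congr_fun h x
            exact σ.injective h2
          exact en.injective (Subtype.ext h1)
      have h4 : ∀ l, (if (σ : ℂ →+* ℂ).comp (en l).1 ∈ Φ then (1 : ℤ) else -1) =
          2 * (if (σ : ℂ →+* ℂ).comp (en l).1 ∈ Φ then 1 else 0) - 1 := by
        intro l
        split_ifs <;> norm_num
      rw [Finset.sum_congr rfl fun l _ => h4 l, Finset.sum_sub_distrib, ← Finset.mul_sum,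
        Finset.sum_boole, hS]
      simp

end

end Pool.Agent.Q43.RP
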