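import Mathlib
import Pool.Agent.Q43.RP.Ang
import Pool.Agent.Q43.RP.Rig
import Pool.Agent.Q43.RP.Frob

/-!
# Exotic Tate classes in the smallest possible codimension
-/

set_option autoImplicit false
set_option linter.unusedSectionVars false

namespace Pool.Agent.Q43.RP

open Finset NumberField Module Pool.Agent.H925R2 Pool.Agent.H485R3 Pool.Agent.H204R3.CM
  Pool.Agent.H868R3.TwoOdd Pool.Agent.W548.Tt

noncomputable section

section blocks

variable {Y : Type*} [Fintype Y] [DecidableEq Y] {G : Type*} [Group G] [MulAction G Y]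

/-- Blocks from an integral function of minimal norm. -/
theorem blocks0 {inv : Y → Y} (hinv : ∀ y, inv (inv y) = y)
    (hcomm : ∀ (h : G) (y : Y), inv (h • y) = h • inv y)
    (K : Submodule ℝ (EuclideanSpace ℝ Y))
    (hK : ∀ h : G, ∀ f ∈ K, trl h f ∈ K) {g D n : ℕ} (hn : n * D = g) (hg : 0 < g)
    (htrans : MulAction.IsPretransitive G Y)
    (horb : ∀ y : Y, 2 * g ≤ (MulAction.orbit G y).ncard) (hD : Module.finrank ℝ K ≤ D)
    (a : Y → ℤ) (ha : a ≠ 0) (hodd : ∀ y, a (inv y) = - a y)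
    (haK : (WithLp.toLp 2 (fun y => (a y : ℝ)) : EuclideanSpace ℝ Y) ∈ K)
    (hsum : ∑ y, |(a y : ℝ)| ≤ 2 * n) :
    ∃ r : Y → Y → Prop, Equivalence r ∧ (∀ (h : G) (y z : Y), r y z → r (h • y) (h • z)) ∧
      (∀ y, ¬ r y (inv y)) ∧ (∀ y, a y = 0 ∨ a y = 1 ∨ a y = -1) ∧
      (∀ y, {z | r y z}.ncard = n) ∧ ∀ y, ∃ h : G, ∀ z, r y z ↔ a (h • z) = 1 := by
  classical
  obtain ⟨r, hr1, hr2, hr3, hval, hsq, hr4⟩ := eq_case (G := G) hcomm K hK hn hg htrans horb
    hD a ha hodd haK hsum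
  refine ⟨r, hr1, hr2, hr3, hval, ?_, hr4⟩
  set P : Finset Y := univ.filter (fun z => a z = 1) with hP
  set M : Finset Y := univ.filter (fun z => a z = -1) with hM
  have hPM : M = P.image inv := by
    ext z
    rw [Finset.mem_image, hM, Finset.mem_filter]
    constructor
    · rintro ⟨-, h⟩
      refine ⟨inv z, ?_, hinv z⟩
      rw [hP, Finset.mem_filter, hodd, h]
      exact ⟨Finset.mem_univ _, rfl⟩
    · rintro ⟨w, hw, rfl⟩
      rw [hP, Finset.mem_filter] at hw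
      rw [hodd, hw.2]
      exact ⟨Finset.mem_univ _, rfl⟩
  have hinj : Function.Injective inv := fun x y h => by rw [← hinv x, h, hinv]
  have hMcard : M.card = P.card := by rw [hPM, Finset.card_image_of_injective _ hinj]
  have hPcard : P.card = n := by
    have h1 : ∀ y, (a y : ℝ) ^ 2 = (if a y = 1 then 1 else 0) + (if a y = -1 then 1 else 0) := by
      intro y
      rcases hval y with h | h | h
      · rw [h]
        norm_num
      · rw [h]
        norm_num
      · rw [h]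
        norm_num
    rw [Finset.sum_congr rfl fun y _ => h1 y, Finset.sum_add_distrib, Finset.sum_boole,
      Finset.sum_boole] at hsq
    change (P.card : ℝ) + M.card = 2 * n at hsq
    rw [hMcard] at hsq
    have h6 : (n : ℝ) = P.card := by linarith
    exact_mod_cast h6.symm
  intro y
  obtain ⟨h, hh⟩ := hr4 y
  have h1 : {z | r y z} = ((P.image (fun z => h⁻¹ • z) : Finset Y) : Set Y) := by
    ext z
    rw [Set.mem_ofPred_eq, hh, Finset.mem_coe, Finset.mem_image]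
    constructor
    · intro h2
      exact ⟨h • z, by rw [hP, Finset.mem_filter]; exact ⟨Finset.mem_univ _, h2⟩,
        inv_smul_smul _ _⟩
    · rintro ⟨w, hw, rfl⟩
      rw [smul_inv_smul]
      exact (Finset.mem_filter.1 hw).2
  rw [h1, Set.ncard_coe_finset, Finset.card_image_of_injective _
    (fun x y hxy => smul_left_cancel _ hxy), hPcard]

end blocks

section field

/-- The product over the extensions of an embedding of a subfield. -/
theorem prod_ext {K : Type} [Field K] [NumberField K] (F : IntermediateField ℚ K)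
    {Ω : Type*} [Field Ω] [IsAlgClosed Ω] [CharZero Ω] (φ : K →+* Ω) (x : K)
    [Fintype {ψ : K →+* Ω // ∀ y ∈ F, ψ y = φ y}] :
    ∏ ψ : {ψ : K →+* Ω // ∀ y ∈ F, ψ y = φ y}, ψ.1 x = φ (Algebra.norm F x : F) := by
  classical
  let _ : Algebra F Ω := (φ.comp (algebraMap F K)).toAlgebra
  have hal : ∀ x : F, algebraMap F Ω x = φ x := fun _ => rfl
  let e : (K →ₐ[F] Ω) ≃ {ψ : K →+* Ω // ∀ y ∈ F, ψ y = φ y} :=
    { toFun := fun f => ⟨(f : K →+* Ω), fun x hx => f.commutes ⟨x, hx⟩⟩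
      invFun := fun ψ => { ψ.1 with commutes' := fun x => ψ.2 x.1 x.2 }
      left_inv := fun f => by ext x; rfl
      right_inv := fun ψ => by ext x; rfl }
  rw [← hal, Algebra.norm_eq_prod_embeddings, ← Equiv.prod_comp e]
  rfl

variable (K : Type) [Field K] [NumberField K] [IsCMField K]

open Classical in
theorem prod_of_relSet {q : ℚ} (hq : 0 < q) (π : K)
    (hweil : ∀ φ : K →+* ℂ, ‖φ π‖ ^ 2 = (q : ℝ)) (f : (Σ _ : Unit, (K →+* ℂ)) → ℤ)
    (hf : f ∈ relSet (fun _ : Unit => K) (fun _ => π))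
    (hval : ∀ y, f y = 0 ∨ f y = 1 ∨ f y = -1) :
    ∃ s : ℕ, 0 < s ∧ (∏ z ∈ univ.filter (fun z => f z = 1), z.2 π) ^ (2 * s) =
      (q : ℂ) ^ ((univ.filter (fun z => f z = 1)).card * s) := by
  obtain ⟨hodd, s, hs, h⟩ := hf
  refine ⟨s, hs, ?_⟩
  have hodd' : ∀ y, f (invC (fun _ : Unit => K) y) = - f y := hodd
  have hii : ∀ y, invC (fun _ : Unit => K) (invC (fun _ : Unit => K) y) = y :=
    invC_invC (fun _ : Unit => K)
  have hw : ∀ z : Σ _ : Unit, (K →+* ℂ), z.2 π * (invC (fun _ : Unit => K) z).2 π = (q : ℂ) :=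
    fun z => weil_mul z.2 (hweil z.2)
  have hq0 : (q : ℂ) ≠ 0 := by exact_mod_cast hq.ne'
  have hne : ∀ z : Σ _ : Unit, (K →+* ℂ), z.2 π ≠ 0 := fun z h0 => by
    have h1 := hw z
    rw [h0, zero_mul] at h1
    exact hq0 h1.symm
  have h1 : ∀ z : Σ _ : Unit, (K →+* ℂ), z.2 π ^ f z =
      (if f z = 1 then z.2 π else 1) * (if f z = -1 then (z.2 π)⁻¹ else 1) := by
    intro z
    rcases hval z with h | h | h
    · rw [h]
      norm_num
    · rw [h]
      norm_num
    · rw [h]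
      norm_num
  have h2 : ∏ z ∈ univ.filter (fun z => f z = -1), (z.2 π)⁻¹ =
      ∏ z ∈ univ.filter (fun z => f z = 1), (z.2 π / q) := by
    refine Finset.prod_nbij' (invC (fun _ : Unit => K)) (invC (fun _ : Unit => K)) ?_ ?_ ?_ ?_ ?_
    · intro z hz
      rw [Finset.mem_filter] at hz ⊢
      exact ⟨Finset.mem_univ _, by rw [hodd', hz.2]; norm_num⟩
    · intro z hz
      rw [Finset.mem_filter] at hz ⊢
      exact ⟨Finset.mem_univ _, by rw [hodd', hz.2]⟩
    · exact fun z _ => hii z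
    · exact fun z _ => hii z
    · intro z _
      rw [← hw z, div_mul_cancel_right₀]
      intro h0
      have h3 := hw z
      rw [h0, mul_zero] at h3
      exact hq0 h3.symm
  have h3 : ∏ z : Σ _ : Unit, (K →+* ℂ), z.2 π ^ f z =
      (∏ z ∈ univ.filter (fun z => f z = 1), z.2 π) ^ 2 /
        (q : ℂ) ^ (univ.filter (fun z => f z = 1)).card := by
    rw [Finset.prod_congr rfl fun z _ => h1 z, Finset.prod_mul_distrib, ← Finset.prod_filter,
      ← Finset.prod_filter, h2, Finset.prod_div_distrib, Finset.prod_const]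
    ring
  have h4 : ((∏ z ∈ univ.filter (fun z => f z = 1), z.2 π) ^ 2 /
        (q : ℂ) ^ (univ.filter (fun z => f z = 1)).card) ^ s = 1 := by
    rw [← h3]
    exact h
  rw [div_pow, div_eq_one_iff_eq (pow_ne_zero _ (pow_ne_zero _ hq0))] at h4
  rw [pow_mul, h4, ← pow_mul]

open Classical in
/-- **A relation of minimal length is a Weil relation.** -/
theorem weil_of_rel {q : ℚ} (hq : 0 < q) (π : K)
    (hweil : ∀ φ : K →+* ℂ, ‖φ π‖ ^ 2 = (q : ℝ)) {g m D : ℕ} (hK : finrank ℚ K = 2 * g)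
    (hD : finrank ℤ (relLat (fun _ : Unit => K) (fun _ => π)) ≤ D) (hmD : 2 * m * D = g)
    (a : Fin (2 * m) → Σ _ : Unit, (K →+* ℂ)) (hne : exc (invC (fun _ : Unit => K)) a ≠ 0)
    (s : ℕ) (hs : 0 < s) (h : (∏ l, (a l).2 π) ^ (2 * s) = ((q : ℂ) ^ (2 * m)) ^ s) :
    ∃ F : IntermediateField ℚ K, finrank ℚ F = 2 * D ∧
      (∃ x ∈ F, IsCMField.complexConj K x ≠ x) ∧
      ∃ s : ℕ, 0 < s ∧ Algebra.norm F π ^ s = (q : F) ^ (m * s) := by
  let _ : MulAction (ℂ ≃+* ℂ) (Σ _ : Unit, (K →+* ℂ)) := actC (fun _ : Unit => K)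
  have hsm : ∀ (σ : ℂ ≃+* ℂ) (y : Σ _ : Unit, (K →+* ℂ)), σ • y =
      ⟨y.1, (σ : ℂ →+* ℂ).comp y.2⟩ := fun _ _ => rfl
  set inv := invC (fun _ : Unit => K) with hinvdef
  have hinv : ∀ y, inv (inv y) = y := invC_invC (fun _ : Unit => K)
  have hcomm : ∀ (σ : ℂ ≃+* ℂ) (y : Σ _ : Unit, (K →+* ℂ)), inv (σ • y) = σ • inv y := by
    rintro σ ⟨i, φ⟩
    exact congrArg (Sigma.mk i) (conj_comp φ σ)
  have hcard : Fintype.card (Σ _ : Unit, (K →+* ℂ)) = 2 * g := by
    rw [Fintype.card_sigma, ← hK, Finset.univ_unique, Finset.sum_singleton, Embeddings.card]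
  have hg : 0 < g := by
    have h1 := Module.finrank_pos (R := ℚ) (M := K)
    omega
  have hD0 : 0 < D := Nat.pos_of_ne_zero (by
    rintro rfl
    omega)
  have horb := orb_le (fun _ : Unit => K) (g := g) (fun _ => hK.ge)
  have htrans : MulAction.IsPretransitive (ℂ ≃+* ℂ) (Σ _ : Unit, (K →+* ℂ)) := by
    refine ⟨?_⟩
    intro y z
    have h1 := horb y
    have h2 : (MulAction.orbit (ℂ ≃+* ℂ) y) = Set.univ := by
      refine Set.eq_of_subset_of_ncard_le (Set.subset_univ _) ?_ (Set.toFinite _)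
      rw [Set.ncard_univ, Nat.card_eq_fintype_card, hcard]
      exact h1
    have h3 : z ∈ MulAction.orbit (ℂ ≃+* ℂ) y := by
      rw [h2]
      exact Set.mem_univ _
    exact h3
  obtain ⟨Kr, hKinv, hKD, hKmem⟩ := exists_realZ (G := (ℂ ≃+* ℂ))
    (relLat (fun _ : Unit => K) (fun _ => π))
    (fun σ f hf => relLat_inv (fun _ : Unit => K) (fun _ => π) σ f hf)
  have hrel : exc inv a ∈ relSet (fun _ : Unit => K) (fun _ => π) :=
    exc_mem_relSet (fun _ : Unit => K) (fun _ => q) (fun _ => hq) (fun _ => π)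
      (fun _ => hweil) a s hs (by
        rw [h, Finset.prod_const, Finset.card_univ, Fintype.card_fin])
  obtain ⟨r, hr1, hr2, hr3, hval, hr4, hr5⟩ := blocks0 (G := (ℂ ≃+* ℂ)) hinv hcomm Kr hKinv
    (n := 2 * m) hmD hg htrans horb (hKD.trans hD) (exc inv a) hne hrel.1
    (hKmem _ (Submodule.subset_span hrel)) (sum_abs_exc hinv a)
  obtain ⟨F, hF1, hF2⟩ := Pool.Agent.Q251.RP.r2 K
    (fun φ ψ => r ⟨(), φ⟩ ⟨(), ψ⟩) ⟨fun _ => hr1.refl _, fun h => hr1.symm h,
      fun h h' => hr1.trans h h'⟩ (fun σ φ ψ h => hr2 σ _ _ h)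
  have hinj : Function.Injective (fun ψ : K →+* ℂ => (⟨(), ψ⟩ : Σ _ : Unit, (K →+* ℂ))) :=
    fun ψ ψ' hh => by simpa using hh
  have hcl : ∀ φ : K →+* ℂ, {ψ : K →+* ℂ | r ⟨(), φ⟩ ⟨(), ψ⟩}.ncard = 2 * m := by
    intro φ
    rw [← hr4 ⟨(), φ⟩, ← Set.ncard_image_of_injective _ hinj]
    congr 1
    ext ⟨⟨⟩, ψ⟩
    constructor
    · rintro ⟨ψ', h1, h2⟩
      rw [← h2]
      exact h1
    · exact fun h => ⟨ψ, h, rfl⟩
  obtain ⟨φ⟩ := (inferInstance : Nonempty (K →+* ℂ))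
  have hcj : ∀ (φ : K →+* ℂ) (x : K), ComplexEmbedding.conjugate φ x =
      φ (IsCMField.complexConj K x) := fun φ x =>
    (IsCMField.complexEmbedding_complexConj K φ x).symm
  refine ⟨F, ?_, ?_, ?_⟩
  · have h3 := hF2 φ
    rw [hcl] at h3
    have h4 := Module.finrank_mul_finrank ℚ F K
    rw [← h3, hK, ← hmD] at h4
    have h5 : Module.finrank ℚ F * (2 * m) = (2 * D) * (2 * m) := by
      rw [h4]
      ring
    refine Nat.eq_of_mul_eq_mul_right (Nat.pos_of_ne_zero fun h0 => ?_) h5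
    rw [h0, zero_mul] at hmD
    omega
  · by_contra hno
    push Not at hno
    refine hr3 ⟨(), φ⟩ ((hF1 φ (ComplexEmbedding.conjugate φ)).2 fun x hx => ?_)
    rw [hcj, hno x hx]
  · obtain ⟨σ, hσ⟩ := hr5 ⟨(), φ⟩
    have hσrel : (fun y : Σ _ : Unit, (K →+* ℂ) => exc inv a (σ • y)) ∈
        relSet (fun _ : Unit => K) (fun _ => π) :=
      relSet_inv (fun _ : Unit => K) (fun _ => π) σ _ hrel
    obtain ⟨s', hs', h6⟩ := prod_of_relSet K hq π hweil _ hσrel (fun y => hval (σ • y))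
    have hset : ∀ ψ : K →+* ℂ, exc inv a (σ • (⟨(), ψ⟩ : Σ _ : Unit, (K →+* ℂ))) = 1 ↔
        ∀ x ∈ F, ψ x = φ x := by
      intro ψ
      rw [← hσ, hF1]
      exact ⟨fun h x hx => (h x hx).symm, fun h x hx => (h x hx).symm⟩
    have h7 : ∏ z ∈ univ.filter (fun z : Σ _ : Unit, (K →+* ℂ) => exc inv a (σ • z) = 1), z.2 π =
        φ (Algebra.norm F π : F) := by
      rw [← prod_ext F φ π]
      refine Finset.prod_bij' (fun z hz => (⟨z.2, (hset z.2).1 (Finset.mem_filter.1 hz).2⟩ :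
        {ψ : K →+* ℂ // ∀ y ∈ F, ψ y = φ y})) (fun ψ _ => ⟨(), ψ.1⟩) ?_ ?_ ?_ ?_ ?_
      · exact fun _ _ => Finset.mem_univ _
      · exact fun ψ _ => Finset.mem_filter.2 ⟨Finset.mem_univ _, (hset ψ.1).2 ψ.2⟩
      · exact fun _ _ => rfl
      · exact fun _ _ => rfl
      · exact fun _ _ => rfl
    have h8 : (univ.filter (fun z : Σ _ : Unit, (K →+* ℂ) => exc inv a (σ • z) = 1)).card =
        2 * m := by
      refine Eq.trans ?_ (hr4 ⟨(), φ⟩)
      rw [← Set.ncard_coe_finset]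
      congr 1
      ext z
      rw [Finset.mem_coe, Finset.mem_filter, Set.mem_ofPred_eq, hσ]
      exact ⟨fun h => h.2, fun h => ⟨Finset.mem_univ _, h⟩⟩
    rw [h7, h8] at h6
    refine ⟨2 * s', by omega, ?_⟩
    have h9 : φ ((Algebra.norm F π ^ (2 * s') : F) : K) = φ (((q : F) ^ (m * (2 * s')) : F) : K) := by
      push_cast
      rw [map_pow, map_pow, map_ratCast, h6]
      congr 1
      ring
    exact Subtype.ext (φ.injective h9)

theorem frob_pow {K : Type} [Field K] (π : K) (Ω : Type) [Field Ω] (s : ℕ)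
    (v : (K →+* Ω) → Ω) (σ : K →+* Ω) : (frob π Ω ^ s) v σ = σ π ^ s * v σ := by
  induction s generalizing v with
  | zero => simp
  | succ s ih =>
    rw [pow_succ, Module.End.mul_apply, ih]
    change σ π ^ s * (σ π * v σ) = σ π ^ (s + 1) * v σ
    ring

theorem relSet_pow {I : Type} [Fintype I] (K : I → Type) [∀ i, Field (K i)]
    [∀ i, NumberField (K i)] (π : ∀ i, K i) (s : ℕ) (hs : 0 < s) :
    relSet K (fun i => π i ^ s) = relSet K π := by
  have h1 : ∀ a : (Σ i, (K i →+* ℂ)) → ℤ,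
      (∏ y : Σ i, (K i →+* ℂ), y.2 (π y.1 ^ s) ^ a y) =
        (∏ y : Σ i, (K i →+* ℂ), y.2 (π y.1) ^ a y) ^ s := by
    intro a
    rw [← Finset.prod_pow]
    refine Finset.prod_congr rfl fun y _ => ?_
    rw [map_pow, ← zpow_natCast, ← zpow_natCast, ← zpow_mul, ← zpow_mul, mul_comm]
  ext a
  unfold relSet
  rw [Set.mem_ofPred_eq, Set.mem_ofPred_eq, h1]
  refine and_congr_right fun _ => ⟨?_, ?_⟩
  · rintro ⟨s', hs', h⟩
    exact ⟨s * s', Nat.mul_pos hs hs', by rw [pow_mul, h]⟩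
  · rintro ⟨s', hs', h⟩
    exact ⟨s', hs', by rw [← pow_mul, mul_comm, pow_mul, h, one_pow]⟩

theorem gen_pow {I : Type} [Fintype I] (K : I → Type) [∀ i, Field (K i)]
    [∀ i, NumberField (K i)] [∀ i, IsCMField (K i)] {g : ℕ}
    (hg : ∀ i, 2 * g ≤ Module.finrank ℚ (K i)) (q : I → ℚ)
    (hq : ∀ i, 0 < q i) (π : ∀ i, K i)
    (hweil : ∀ i, ∀ φ : K i →+* ℂ, ‖φ (π i)‖ ^ 2 = (q i : ℝ))
    (h2 : 2 * Module.finrank ℤ (relLat K π) < g) (i : I) (s : ℕ) (hs : 0 < s) :
    IntermediateField.adjoin ℚ {π i ^ s} = ⊤ := by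
  refine gen_of_defect K hg (fun i => q i ^ s) (fun i => pow_pos (hq i) s) (fun i => π i ^ s)
    (fun i φ => ?_) ?_ i
  · rw [map_pow, norm_pow, ← pow_mul, mul_comm, pow_mul, hweil]
    push_cast
    rfl
  · unfold relLat
    rw [relSet_pow K π s hs]
    exact h2

/-- **Weil classes are exotic Tate classes.** -/
theorem exotic_of_weil {q : ℚ} (hq : 0 < q) (π : K)
    (hweil : ∀ φ : K →+* ℂ, ‖φ π‖ ^ 2 = (q : ℝ))
    (hgen : ∀ s : ℕ, 0 < s → IntermediateField.adjoin ℚ {π ^ s} = ⊤)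
    {m : ℕ} (hm : 0 < m) (F : IntermediateField ℚ K) (hFK : finrank F K = 2 * m)
    (hF : ∃ x ∈ F, IsCMField.complexConj K x ≠ x)
    (hN : ∃ s : ℕ, 0 < s ∧ Algebra.norm F π ^ s = (q : F) ^ (m * s))
    (Ω : Type) [Field Ω] [IsAlgClosed Ω] [CharZero Ω] :
    ∃ s : ℕ, 0 < s ∧ ∃ f : ((K →+* Ω) → Ω) [⋀^Fin (2 * m)]→ₗ[Ω] Ω,
      (∀ v, f (fun l => (frob π Ω ^ s) (v l)) = ((q : Ω) ^ m) ^ s * f v) ∧
      ∀ s' : ℕ, 0 < s' → f.toMultilinearMap ∉ Submodule.span Ω {ψ | IsProductOfPairings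
        (fun _ : Unit => (K →+* Ω) → Ω) (fun _ => frob π Ω ^ s') (fun _ => (q : Ω) ^ s')
        (fun _ : Fin (2 * m) => ()) ψ} := by
  classical
  obtain ⟨s, hs, hN⟩ := hN
  obtain ⟨x₀, hx₀, hx₀'⟩ := hF
  let φ₀ : K →+* Ω := ((IsAlgClosed.lift : K →ₐ[ℚ] Ω) : K →+* Ω)
  let _ : Algebra F Ω := (φ₀.comp (algebraMap F K)).toAlgebra
  let e : (K →ₐ[F] Ω) ≃ {ψ : K →+* Ω // ∀ y ∈ F, ψ y = φ₀ y} :=
    { toFun := fun f => ⟨(f : K →+* Ω), fun x hx => f.commutes ⟨x, hx⟩⟩
      invFun := fun ψ => { ψ.1 with commutes' := fun x => ψ.2 x.1 x.2 }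
      left_inv := fun f => by ext x; rfl
      right_inv := fun ψ => by ext x; rfl }
  let _ : Fintype {ψ : K →+* Ω // ∀ y ∈ F, ψ y = φ₀ y} := Fintype.ofEquiv _ e
  have hcard : Fintype.card {ψ : K →+* Ω // ∀ y ∈ F, ψ y = φ₀ y} = 2 * m := by
    rw [← Fintype.card_congr e, AlgHom.card, hFK]
  let en : Fin (2 * m) ≃ {ψ : K →+* Ω // ∀ y ∈ F, ψ y = φ₀ y} :=
    (Fintype.equivFinOfCardEq hcard).symm
  let f : ((K →+* Ω) → Ω) [⋀^Fin (2 * m)]→ₗ[Ω] Ω :=
    (Matrix.detRowAlternating (n := Fin (2 * m)) (R := Ω)).compLinearMap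
      (LinearMap.funLeft Ω Ω (fun l => (en l).1))
  have hf : ∀ v : Fin (2 * m) → ((K →+* Ω) → Ω),
      f v = Matrix.det (fun i l => v i (en l).1 : Matrix (Fin (2 * m)) (Fin (2 * m)) Ω) :=
    fun v => rfl
  refine ⟨s, hs, f, fun v => ?_, fun s' hs' => ?_⟩
  · rw [hf, hf]
    have h1 := Matrix.det_mul_row (fun l => (en l).1 π ^ s)
      (fun i l => v i (en l).1 : Matrix (Fin (2 * m)) (Fin (2 * m)) Ω)
    have h2 : ∏ l, (en l).1 π ^ s = ((q : Ω) ^ m) ^ s := by
      rw [Finset.prod_pow, Equiv.prod_comp en (fun ψ => ψ.1 π), prod_ext F φ₀ π]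
      have h3 := congrArg (fun y : F => φ₀ (y : K)) hN
      beta_reduce at h3
      push_cast at h3
      rw [map_pow, map_pow, map_ratCast] at h3
      rw [h3, pow_mul]
    rw [← h2, ← h1]
    congr 1
    ext i l
    rw [Matrix.of_apply]
    exact frob_pow π Ω s (v i) (en l).1
  · intro hmem
    let w : Fin (2 * m) → ((K →+* Ω) → Ω) := fun k => Pi.single (en k).1 1
    let ev : MultilinearMap Ω (fun _ : Fin (2 * m) => (K →+* Ω) → Ω) Ω →ₗ[Ω] Ω :=
      { toFun := fun ψ => ψ w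
        map_add' := fun _ _ => rfl
        map_smul' := fun _ _ => rfl }
    have hw : ∀ k, (frob π Ω ^ s') (w k) = ((en k).1 π ^ s') • w k := by
      intro k
      funext σ
      rw [frob_pow]
      change σ π ^ s' * (Pi.single (en k).1 (1 : Ω) : (K →+* Ω) → Ω) σ =
        (en k).1 π ^ s' * (Pi.single (en k).1 (1 : Ω) : (K →+* Ω) → Ω) σ
      by_cases h : σ = (en k).1
      · rw [h]
      · rw [Pi.single_eq_of_ne h, mul_zero, mul_zero]
    have hcc : π * IsCMField.complexConj K π = (q : K) := by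
      obtain ⟨φ⟩ := (inferInstance : Nonempty (K →+* ℂ))
      apply φ.injective
      rw [map_mul, map_ratCast, IsCMField.complexEmbedding_complexConj]
      exact weil_mul φ (hweil φ)
    have hprod : ∀ k k' : Fin (2 * m), (en k).1 π ^ s' * (en k').1 π ^ s' ≠ (q : Ω) ^ s' := by
      intro k k' h
      have h1 : (en k').1 (π ^ s') =
          ((en k).1.comp (IsCMField.complexConj K : K →+* K)) (π ^ s') := by
        have h2 : (en k).1 π ^ s' ≠ 0 := by
          intro h0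
          rw [h0, zero_mul] at h
          have h5 : (q : Ω) ≠ 0 := by exact_mod_cast hq.ne'
          exact pow_ne_zero s' h5 h.symm
        apply mul_left_cancel₀ h2
        rw [map_pow, h, RingHom.comp_apply]
        change _ = (en k).1 π ^ s' * (en k).1 (IsCMField.complexConj K (π ^ s'))
        rw [map_pow, map_pow, ← mul_pow, ← map_mul, hcc, map_ratCast]
      have h3 := hom_ext_of_gen (hgen s' hs') h1
      have h4 := (en k').2 x₀ hx₀
      rw [h3] at h4
      change (en k).1 (IsCMField.complexConj K x₀) = φ₀ x₀ at h4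
      rw [← (en k).2 x₀ hx₀] at h4
      exact hx₀' ((en k).1.injective h4)
    have hzero : Submodule.span Ω {ψ | IsProductOfPairings
        (fun _ : Unit => (K →+* Ω) → Ω) (fun _ => frob π Ω ^ s') (fun _ => (q : Ω) ^ s')
        (fun _ : Fin (2 * m) => ()) ψ} ≤ LinearMap.ker ev := by
      refine Submodule.span_le.2 ?_
      rintro ψ ⟨τ, B, -, hτ, -, hB, hψ⟩
      rw [SetLike.mem_coe, LinearMap.mem_ker]
      change ψ w = 0
      rw [hψ]
      have hm' : 0 < 2 * m := by omega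
      let k₀ : Fin (2 * m) := ⟨0, hm'⟩
      have hk₀ : k₀ < τ k₀ := by
        rw [Fin.lt_def]
        have h1 := hτ k₀
        have h2 : (τ k₀).1 ≠ 0 := fun h => h1 (Fin.ext h)
        change 0 < (τ k₀).1
        omega
      refine Finset.prod_eq_zero (Finset.mem_filter.2 ⟨Finset.mem_univ k₀, hk₀⟩) ?_
      have h1 := hB k₀ (w k₀) (w (τ k₀))
      rw [hw, hw] at h1
      rw [LinearMap.map_smul, LinearMap.map_smul, LinearMap.smul_apply, smul_eq_mul,
        smul_eq_mul, ← mul_assoc] at h1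
      by_contra hne
      exact hprod _ _ (mul_right_cancel₀ hne (by rw [mul_comm ((en k₀).1 π ^ s')]; exact h1))
    have h1 := hzero hmem
    rw [LinearMap.mem_ker] at h1
    change f w = 0 at h1
    rw [hf] at h1
    have h2 : (fun i l => w i (en l).1 : Matrix (Fin (2 * m)) (Fin (2 * m)) Ω) =
        (1 : Matrix (Fin (2 * m)) (Fin (2 * m)) Ω) := by
      ext i l
      change (Pi.single (en i).1 (1 : Ω) : (K →+* Ω) → Ω) (en l).1 = _
      by_cases h : i = l
      · rw [h, Pi.single_eq_same, Matrix.one_apply_eq]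
      · rw [Matrix.one_apply_ne h, Pi.single_eq_of_ne]
        intro h3
        exact h (en.injective (Subtype.ext h3)).symm
    rw [h2, Matrix.det_one] at h1
    exact one_ne_zero h1

theorem span_frob (π : K) (Ω : Type) [Field Ω] [CharZero Ω] :
    Submodule.span Ω {v : (K →+* Ω) → Ω | ∃ σ : K →+* Ω, frob π Ω v = σ π • v} = ⊤ := by
  classical
  rw [eq_top_iff]
  intro v _
  have h1 : v = ∑ σ : K →+* Ω, v σ • (Pi.single σ 1 : (K →+* Ω) → Ω) := by
    funext τ
    rw [Finset.sum_apply, Finset.sum_eq_single τ]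
    · simp
    · intro σ _ hσ
      rw [Pi.smul_apply, Pi.single_eq_of_ne hσ.symm, smul_zero]
    · exact fun h => absurd (Finset.mem_univ _) h
  rw [h1]
  refine Submodule.sum_mem _ fun σ _ => Submodule.smul_mem _ _ (Submodule.subset_span ⟨σ, ?_⟩)
  funext τ
  change τ π * (Pi.single σ (1 : Ω) : (K →+* Ω) → Ω) τ =
    σ π * (Pi.single σ (1 : Ω) : (K →+* Ω) → Ω) τ
  by_cases h : τ = σ
  · rw [h]
  · rw [Pi.single_eq_of_ne h, mul_zero, mul_zero]

/-- **Exotic Tate classes of minimal codimension are Weil classes.** -/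
theorem weil_of_exotic {q : ℚ} (hq : 0 < q) (π : K)
    (hweil : ∀ φ : K →+* ℂ, ‖φ π‖ ^ 2 = (q : ℝ)) {g m D : ℕ} (hK : finrank ℚ K = 2 * g)
    (hD : finrank ℤ (relLat (fun _ : Unit => K) (fun _ => π)) ≤ D) (hmD : 2 * m * D = g)
    (hgen : IntermediateField.adjoin ℚ {π} = ⊤)
    {Ω : Type} [Field Ω] [IsAlgClosed Ω] [CharZero Ω] (V : Type) [AddCommGroup V] [Module Ω V]
    [FiniteDimensional Ω V] (Fr : V →ₗ[Ω] V)
    (hF : Submodule.span Ω {v : V | ∃ σ : K →+* Ω, Fr v = σ π • v} = ⊤)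
    (s : ℕ) (hs : 0 < s) (φ : MultilinearMap Ω (fun _ : Fin (2 * m) => V) Ω)
    (hφ : ∀ v : Fin (2 * m) → V, φ (fun a => (Fr ^ s) (v a)) = ((q : Ω) ^ m) ^ s * φ v)
    (hn : φ ∉ Submodule.span Ω {ψ | IsProductOfPairings (fun _ : Unit => V) (fun _ => Fr)
      (fun _ => (q : Ω)) (fun _ : Fin (2 * m) => ()) ψ}) :
    ∃ F : IntermediateField ℚ K, finrank ℚ F = 2 * D ∧
      (∃ x ∈ F, IsCMField.complexConj K x ≠ x) ∧
      ∃ s : ℕ, 0 < s ∧ Algebra.norm F π ^ s = (q : F) ^ (m * s) := by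
  classical
  by_contra hcon
  refine hn (form_mem' (fun _ : Unit => K) (fun _ => q) (fun _ => hq) (fun _ => π) (fun _ => hgen)
    (fun _ => hweil) (fun _ : Unit => V) (fun _ => Fr) (fun _ => hF) (fun _ : Fin (2 * m) => ())
    ?_ s hs ((q : Ω) ^ m) ?_ φ hφ)
  · rintro W ⟨s', hs', hrel⟩ i ψ
    by_contra hne
    refine hcon (weil_of_rel K hq π hweil hK hD hmD (fun a => ⟨(), W a⟩) (fun h0 => hne ?_) s' hs'
      ?_)
    · have h4 := congrFun h0 (⟨i, ψ⟩ : Σ _ : Unit, (K →+* ℂ))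
      unfold exc at h4
      simp only [Pi.zero_apply] at h4
      rw [Nat.card_eq_fintype_card, Nat.card_eq_fintype_card, Fintype.card_subtype,
        Fintype.card_subtype]
      have h5 : (univ.filter (fun l : Fin (2 * m) => (⟨(), W l⟩ : Σ _ : Unit, (K →+* ℂ)) =
          invC (fun _ : Unit => K) ⟨i, ψ⟩)) =
          univ.filter (fun l : Fin (2 * m) => (⟨(), W l⟩ : Σ _ : Unit, (K →+* ℂ)) =
          ⟨i, ComplexEmbedding.conjugate ψ⟩) := rfl
      rw [h5] at h4
      omega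
    · rw [hrel, Finset.prod_const, Finset.card_univ, Fintype.card_fin]
  · rw [Finset.prod_const, Finset.card_univ, Fintype.card_fin, ← pow_mul, mul_comm]

end field

end

end Pool.Agent.Q43.RP
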