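import Mathlib
import Pool.Agent.Q43.RP.Types
import Pool.Agent.W548.Tt.Final

/-!
# Reduced words and half systems with signed weights
-/

set_option autoImplicit false
set_option linter.unusedSectionVars false

namespace Pool.Agent.Q43.RP

open Finset Pool.Agent.W548.Sh Pool.Agent.W548.Tt

noncomputable section

section reduce

variable {X : Type*} [Fintype X] [DecidableEq X]

theorem sum_antisymm {inv : X → X} (hinv : ∀ x, inv (inv x) = x) (u : X → ℝ)
    (hu : ∀ y, u (inv y) = - u y) : ∑ y, u y = 0 := by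
  have h1 : ∑ y, u (inv y) = ∑ y, u y :=
    Equiv.sum_comp (Function.Involutive.toPerm inv hinv) u
  rw [Finset.sum_congr rfl fun y _ => hu y, Finset.sum_neg_distrib] at h1
  linarith

/-- A word which is not balanced has a nonempty reduced part with the same sums of odd functions. -/
theorem exists_reduced {inv : X → X} (hinv : ∀ x, inv (inv x) = x) {n : ℕ} (x : Fin n → X)
    (y₀ : X) (hy : (univ.filter (fun b => x b = y₀)).card ≠
      (univ.filter (fun b => x b = inv y₀)).card) :
    ∃ n' ≤ n, n' ≠ 0 ∧ ∃ a : Fin n' → X, (∀ l l', a l ≠ inv (a l')) ∧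
      ∀ f : X → ℝ, (∀ y, f (inv y) = - f y) → ∑ l, f (a l) = ∑ b, f (x b) := by
  set c : X → ℕ := fun y => (univ.filter (fun b => x b = y)).card with hc
  set d : X → ℕ := fun y => c y - c (inv y) with hd
  have hcard : Fintype.card (Σ y, Fin (d y)) = ∑ y, d y := by
    rw [Fintype.card_sigma]
    exact Finset.sum_congr rfl fun y _ => Fintype.card_fin _
  have hcn : ∑ y, c y = n := by
    have h1 := Finset.card_eq_sum_card_fiberwise (s := (univ : Finset (Fin n)))
      (t := (univ : Finset X)) (f := x) (fun _ _ => Finset.mem_coe.2 (Finset.mem_univ _))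
    rw [Finset.card_univ, Fintype.card_fin] at h1
    exact h1.symm
  let e : Fin (Fintype.card (Σ y, Fin (d y))) ≃ Σ y, Fin (d y) := (Fintype.equivFin _).symm
  refine ⟨Fintype.card (Σ y, Fin (d y)), ?_, ?_, fun l => (e l).1, ?_, ?_⟩
  · rw [hcard]
    calc ∑ y, d y ≤ ∑ y, c y := Finset.sum_le_sum fun y _ => Nat.sub_le _ _
      _ = n := hcn
  · rw [hcard]
    intro h0
    rw [Finset.sum_eq_zero_iff] at h0
    have h1 : ∀ y, c y ≤ c (inv y) := fun y => by
      have := h0 y (Finset.mem_univ _)
      simp only [hd] at this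
      omega
    have h2 := h1 y₀
    have h3 := h1 (inv y₀)
    rw [hinv] at h3
    exact hy (le_antisymm h2 h3)
  · intro l l' h
    have h1 : 0 < d (e l).1 := (e l).2.pos
    have h2 : 0 < d (e l').1 := (e l').2.pos
    simp only [hd] at h1 h2
    have h3 : (e l).1 = inv (e l').1 := h
    rw [h3, hinv] at h1
    omega
  · intro f hf
    have h1 : ∑ l, f (e l).1 = ∑ y, (d y : ℝ) * f y := by
      rw [Equiv.sum_comp e (fun s => f s.1), Fintype.sum_sigma]
      refine Finset.sum_congr rfl fun y _ => ?_
      change ∑ _i : Fin (d y), f y = _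
      rw [Finset.sum_const, Finset.card_univ, Fintype.card_fin, nsmul_eq_mul]
    have h2 : ∑ b, f (x b) = ∑ y, (c y : ℝ) * f y := by
      rw [← Finset.sum_fiberwise (s := (univ : Finset (Fin n))) (g := x)]
      refine Finset.sum_congr rfl fun y _ => ?_
      rw [Finset.sum_congr rfl (g := fun _ => f y) (fun b hb => by
        rw [(Finset.mem_filter.1 hb).2]), Finset.sum_const, nsmul_eq_mul]
    have h3 : ∑ y, ((min (c y) (c (inv y)) : ℕ) : ℝ) * f y = 0 := by
      refine sum_antisymm hinv _ fun y => ?_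
      rw [hinv, hf, min_comm]
      ring
    rw [h1, h2]
    have h4 : ∀ y, (c y : ℝ) * f y = (d y : ℝ) * f y +
        ((min (c y) (c (inv y)) : ℕ) : ℝ) * f y := by
      intro y
      rw [← add_mul]
      congr 1
      have h5 : c y - c (inv y) + min (c y) (c (inv y)) = c y := by omega
      have h6 : ((c y - c (inv y) + min (c y) (c (inv y)) : ℕ) : ℝ) = c y := by rw [h5]
      rw [← h6]
      push_cast
      rfl
    rw [Finset.sum_congr rfl fun y _ => h4 y, Finset.sum_add_distrib, h3, add_zero]

open Classical in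
/-- The half system with the signs of `M` absorbed. -/
def twist (M : X → ℝ) (S : Finset X) : Finset X :=
  univ.filter (fun x => if 0 < M x then x ∈ S else x ∉ S)

theorem mem_twist {M : X → ℝ} {S : Finset X} {x : X} :
    x ∈ twist M S ↔ (if 0 < M x then x ∈ S else x ∉ S) := by
  classical
  unfold twist
  rw [Finset.mem_filter]
  exact ⟨fun h => h.2, fun h => ⟨Finset.mem_univ _, h⟩⟩

theorem sgn_twist {M : X → ℝ} (hM0 : ∀ x, M x ≠ 0) (S : Finset X) (x : X) :
    (sgn (twist M S) x : ℝ) * |M x| = ws M S x := by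
  unfold sgn ws
  by_cases h : 0 < M x
  · rw [abs_of_pos h]
    by_cases h1 : x ∈ S
    · rw [if_pos (mem_twist.2 (by rw [if_pos h]; exact h1)), if_pos h1]
      push_cast
      ring
    · rw [if_neg (fun h2 => h1 (by have := mem_twist.1 h2; rwa [if_pos h] at this)), if_neg h1]
      push_cast
      ring
  · have h0 : M x < 0 := lt_of_le_of_ne (not_lt.1 h) (hM0 x)
    rw [abs_of_neg h0]
    by_cases h1 : x ∈ S
    · rw [if_neg (fun h2 => by
        have := mem_twist.1 h2
        rw [if_neg h] at this
        exact this h1), if_pos h1]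
      push_cast
      ring
    · rw [if_pos (mem_twist.2 (by rw [if_neg h]; exact h1)), if_neg h1]
      push_cast
      ring

theorem twist_mem {inv : X → X} {M : X → ℝ} (hM : ∀ x, M (inv x) = M x) {S : Finset X}
    (hS : S ∈ Halves inv) : twist M S ∈ Halves inv := by
  rw [mem_Halves] at hS ⊢
  intro x
  rw [mem_twist, mem_twist, hM]
  split_ifs
  · exact hS x
  · rw [hS x]

theorem twist_inj {M : X → ℝ} {S S' : Finset X} (h : twist M S = twist M S') : S = S' := by
  ext x
  have h1 : x ∈ twist M S ↔ x ∈ twist M S' := by rw [h]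
  rw [mem_twist, mem_twist] at h1
  split_ifs at h1
  · exact h1
  · exact not_iff_not.1 h1

variable {G : Type*} [Group G] [Fintype G] [DecidableEq G] [MulAction G X]

/-- If a word is not balanced and all its sums vanish, the half system belongs to `Long`. -/
theorem twist_mem_Long {inv : X → X} (hinv : ∀ x, inv (inv x) = x)
    (hcomm : ∀ (h : G) (y : X), inv (h • y) = h • inv y) {M : X → ℝ} (hM : ∀ x, M (inv x) = M x)
    (hM0 : ∀ x, M x ≠ 0) {S : Finset X} (hS : S ∈ Halves inv) {k n : ℕ} (hn : n ≤ k)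
    (x : Fin n → X) (hx : ∀ σ : G, ∑ b, ws M S (σ • x b) = 0) (y₀ : X)
    (hy : (univ.filter (fun b => x b = y₀)).card ≠ (univ.filter (fun b => x b = inv y₀)).card)
    (m₁ ρ : ℝ) :
    twist M S ∈ Long G inv (fun y => |M y| / m₁) ρ k := by
  obtain ⟨n', hn', hn0, a, ha, hsum⟩ := exists_reduced hinv x y₀ hy
  refine mem_Long.2 ⟨twist_mem hM hS, n', hn'.trans hn, hn0, a, ha, fun σ => ?_⟩
  have h1 : ∑ l, (sgn (twist M S) (σ • a l) : ℝ) * (|M (σ • a l)| / m₁) = 0 := by
    have h2 : ∀ l, (sgn (twist M S) (σ • a l) : ℝ) * (|M (σ • a l)| / m₁) =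
        ws M S (σ • a l) / m₁ := by
      intro l
      rw [← sgn_twist hM0]
      ring
    rw [Finset.sum_congr rfl fun l _ => h2 l, ← Finset.sum_div]
    have h3 := hsum (fun y => ws M S (σ • y)) (fun y => by
      rw [← hcomm]
      exact ws_inv hM hS _)
    rw [h3, hx σ, zero_div]
  rw [h1]
  have : (0 : ℝ) ≤ ρ ^ 2 * n' := by positivity
  linarith

end reduce

end

end Pool.Agent.Q43.RP
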