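import Mathlib

/-!
# Statements: block systems of complex embeddings and subfields
-/

set_option autoImplicit false

namespace Pool.Agent.Q43.RP

/-- An equivalence relation on the complex embeddings of a number field which is invariant under the
automorphisms of `ℂ` belongs to a subfield. -/
def S_R2 : Prop :=
  ∀ (E : Type) [Field E] [NumberField E] (r : (E →+* ℂ) → (E →+* ℂ) → Prop), Equivalence r →
    (∀ (σ : ℂ ≃+* ℂ) (φ ψ : E →+* ℂ), r φ ψ →
      r ((σ : ℂ →+* ℂ).comp φ) ((σ : ℂ →+* ℂ).comp ψ)) →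
    ∃ F : IntermediateField ℚ E, (∀ φ ψ : E →+* ℂ, r φ ψ ↔ ∀ x ∈ F, φ x = ψ x) ∧
      ∀ φ : E →+* ℂ, {ψ : E →+* ℂ | r φ ψ}.ncard = Module.finrank F E

end Pool.Agent.Q43.RP
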