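import Mathlib
import Pool.Agent.Q43.RP.Red
import Pool.Agent.Q43.RP.Near

/-!
# Slope types with short exceptional relations
-/

set_option autoImplicit false
set_option linter.unusedSectionVars false

namespace Pool.Agent.Q43.RP

open Finset NumberField Module Pool.Agent.H925R2 Pool.Agent.H485R3 Pool.Agent.H204R3.CM
  Pool.Agent.H868R3.TwoOdd Pool.Agent.W548.Ab Pool.Agent.W548.Sh Pool.Agent.W548.Tt

section padic

variable {I : Type} [Fintype I] (p : ℕ) [Fact p.Prime] (K : I → Type) [∀ i, Field (K i)]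
  [∀ i, NumberField (K i)] [∀ i, IsCMField (K i)]

theorem ncard_tt_aux {L : Type} [Field L] [NumberField L] [IsGalois ℚ L] (j : L →+* ℂ)
    (hj : ∀ i, ∀ ψ : K i →+* ℂ, ∃ φ : K i →+* L, j.comp φ = ψ)
    (g N k : ℕ) (hg0 : 0 < g) (hgN : g ≤ N) (hg : ∀ i, 2 * g ≤ finrank ℚ (K i))
    (hN : ∑ i, finrank ℚ (K i) = 2 * N) (hk : 2 ≤ k) (M : ∀ i, (K i →+* PadicAlgCl p) → ℝ)
    (hM : ∀ i τ, M i (cbar τ) = M i τ) (m₀ m₁ : ℝ) (hm₀ : 0 < m₀)
    (hm : ∀ i τ, m₀ ≤ |M i τ| ∧ |M i τ| ≤ m₁) (hm01 : m₀ ≤ m₁)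
    (h : 10 ^ 13 * (k * Real.log (6 * N) ^ 4) ≤ (m₀ / m₁) ^ 4 * g) :
    ({Φ : ∀ i, Set (K i →+* PadicAlgCl p) | (∀ i, IsPadicType p (Φ i)) ∧
      ¬ TateUpTo p K M Φ k}.ncard : ℝ) ≤
      2 ^ N * Real.exp (-((m₀ / m₁) ^ 4 * g / (10 ^ 13 * (k * Real.log (6 * N))))) := by
  classical
  have hcard : ∀ i, Fintype.card (K i →+* L) = finrank ℚ (K i) := fun i => card_emb j (hj i)
  let e : L →ₐ[ℚ] PadicAlgCl p := IsAlgClosed.lift
  let X : Type _ := Σ i, (K i →+* L)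
  let inv : X → X := fun x => ⟨x.1, cbar x.2⟩
  have hinv : ∀ x, inv (inv x) = x := by
    rintro ⟨i, φ⟩
    simp only [inv, cbar_cbar]
  have hcomm : ∀ (σ : L ≃ₐ[ℚ] L) (x : X), inv (σ • x) = σ • inv x := by
    rintro σ ⟨i, φ⟩
    rfl
  have hX : Fintype.card X = 2 * N := by
    rw [Fintype.card_sigma, ← hN]
    exact Finset.sum_congr rfl fun i _ => hcard i
  have horb : ∀ x : X, 2 * g ≤ (MulAction.orbit (L ≃ₐ[ℚ] L) x).ncard := by
    rintro ⟨i, φ⟩
    refine le_trans (hg i) ?_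
    rw [← hcard i, ← Nat.card_eq_fintype_card, ← Set.ncard_univ]
    refine Set.ncard_le_ncard_of_injOn (fun ψ : K i →+* L => (⟨i, ψ⟩ : X)) ?_ ?_
      (Set.toFinite _)
    · intro ψ _
      obtain ⟨σ, hσ⟩ := MulAction.exists_smul_eq (L ≃ₐ[ℚ] L) φ ψ
      refine ⟨σ, ?_⟩
      change (⟨i, σ • φ⟩ : X) = ⟨i, ψ⟩
      rw [hσ]
    · intro ψ _ ψ' _ h
      exact eq_of_heq (Sigma.mk.inj h).2
  have hnon : ∀ i, Nonempty (K i →+* L) := by
    intro i
    rw [← Fintype.card_pos_iff, hcard i]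
    exact finrank_pos
  let base : I → X := fun i => ⟨i, (hnon i).some⟩
  have hbase : ∀ x : X, ∃ (i : I) (σ : L ≃ₐ[ℚ] L), σ • x = base i := by
    rintro ⟨i, φ⟩
    obtain ⟨σ, hσ⟩ := MulAction.exists_smul_eq (L ≃ₐ[ℚ] L) φ (hnon i).some
    refine ⟨i, σ, ?_⟩
    change (⟨i, σ • φ⟩ : X) = ⟨i, (hnon i).some⟩
    rw [hσ]
  let ML : X → ℝ := fun x => M x.1 ((e : L →+* PadicAlgCl p).comp x.2)
  have hML : ∀ x, ML (inv x) = ML x := by
    rintro ⟨i, φ⟩
    exact hM i ((e : L →+* PadicAlgCl p).comp φ)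
  have hML0 : ∀ x, ML x ≠ 0 := fun x h0 => by
    have h1 := (hm x.1 ((e : L →+* PadicAlgCl p).comp x.2)).1
    change m₀ ≤ |ML x| at h1
    rw [h0, abs_zero] at h1
    linarith
  have hm₁ : 0 < m₁ := hm₀.trans_le hm01
  have hmain := card_Long_le' (G := L ≃ₐ[ℚ] L) hinv hcomm hg0 hX hgN horb
    (r := fun y => |ML y| / m₁) (ρ := m₀ / m₁) (div_pos hm₀ hm₁) ((div_le_one hm₁).2 hm01)
    (fun y => div_le_div_of_nonneg_right (hm _ _).1 hm₁.le)
    (fun y => (div_le_one hm₁).2 (hm _ _).2) (k := k) (by omega) h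
  refine le_trans ?_ hmain
  rw [Nat.cast_le, ← Set.ncard_coe_finset]
  refine Set.ncard_le_ncard_of_injOn
    (fun Φ => twist ML (Finset.univ.filter
      (fun x : X => (e : L →+* PadicAlgCl p).comp x.2 ∈ Φ x.1))) ?_ ?_
    (Finset.finite_toSet _)
  · rintro Φ ⟨hΦ, hnot⟩
    rw [Finset.mem_coe]
    set S : Finset X := Finset.univ.filter
      (fun x : X => (e : L →+* PadicAlgCl p).comp x.2 ∈ Φ x.1) with hS
    have hmem : ∀ x : X, x ∈ S ↔ (e : L →+* PadicAlgCl p).comp x.2 ∈ Φ x.1 := fun x => by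
      rw [hS, Finset.mem_filter]
      exact ⟨fun h => h.2, fun h => ⟨Finset.mem_univ _, h⟩⟩
    have hST : S ∈ Halves inv := by
      rw [mem_Halves]
      rintro ⟨i, φ⟩
      rw [hmem, hmem]
      exact hΦ i ((e : L →+* PadicAlgCl p).comp φ)
    by_contra hbad
    apply hnot
    -- consequences of not being bad
    have hfree : ∀ {n : ℕ} (_ : n ≤ k) (x : Fin n → X),
        (∀ σ : L ≃ₐ[ℚ] L, ∑ b, ws ML S (σ • x b) = 0) → ∀ y,
          (Finset.univ.filter (fun b => x b = y)).card =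
            (Finset.univ.filter (fun b => x b = inv y)).card := by
      intro n hn x hx
      by_contra hcon
      push Not at hcon
      obtain ⟨y, hy⟩ := hcon
      exact hbad (twist_mem_Long hinv hcomm hML hML0 hST hn x hx y hy m₁ (m₀ / m₁))
    intro m π κ hκ hweil hslope Ω _ _ _ V _ _ _ F hF n t s c hn hs hc φ hφ
    have hq : ∀ i, (0 : ℚ) < (p : ℚ) ^ m i :=
      fun i => pow_pos (by exact_mod_cast (Fact.out : p.Prime).pos) _
    have hp1 : (1 : ℝ) < p := by exact_mod_cast (Fact.out : p.Prime).one_lt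
    have hlogp : (- Real.log p : ℝ) ≠ 0 := neg_ne_zero.2 (Real.log_pos hp1).ne'
    have h1 : ∀ i, - Real.logb p ‖((((p : ℚ) ^ m i : ℚ)) : PadicAlgCl p)‖ = m i := by
      intro i
      rw [norm_pow_cast, Real.logb_inv, Real.logb_pow, Real.logb_self_eq_one hp1]
      ring
    have hweil' : ∀ i, ∀ φ : K i →+* ℂ, ‖φ (π i)‖ ^ 2 = (((p : ℚ) ^ m i : ℚ) : ℝ) := by
      intro i φ
      rw [hweil i φ]
      push_cast
      rfl
    -- the deviation
    have hdev : ∀ (x : X) (σ : L ≃ₐ[ℚ] L), dev p ((p : ℚ) ^ m x.1) (e (σ (x.2 (π x.1)))) =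
        (- Real.log p * κ) * ws ML S (σ • x) := by
      rintro ⟨i, φ⟩ σ
      rw [dev_eq_val, h1]
      have h2 := hslope i ((e : L →+* PadicAlgCl p).comp (σ • φ))
      have h3 : ((e : L →+* PadicAlgCl p).comp (σ • φ)) (π i) = e (σ (φ (π i))) := rfl
      rw [h3] at h2
      change - Real.log p * (2 * (- Real.logb p ‖e (σ (φ (π i)))‖) - m i) = _
      rw [h2]
      unfold ws
      have h4 : σ • (⟨i, φ⟩ : X) ∈ S ↔ (e : L →+* PadicAlgCl p).comp (σ • φ) ∈ Φ i := hmem _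
      by_cases h5 : (e : L →+* PadicAlgCl p).comp (σ • φ) ∈ Φ i
      · rw [if_pos h5, if_pos (h4.2 h5)]
        change - Real.log p * (κ * M i ((e : L →+* PadicAlgCl p).comp (σ • φ))) =
          - Real.log p * κ * M i ((e : L →+* PadicAlgCl p).comp (σ • φ))
        ring
      · rw [if_neg h5, if_neg (fun h6 => h5 (h4.1 h6))]
        change - Real.log p * (κ * - M i ((e : L →+* PadicAlgCl p).comp (σ • φ))) =
          - Real.log p * κ * - M i ((e : L →+* PadicAlgCl p).comp (σ • φ))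
        ring
    have hfac : (- Real.log p * κ) ≠ 0 := mul_ne_zero hlogp hκ
    -- the field is generated
    have hgen : ∀ i, IntermediateField.adjoin ℚ {π i} = ⊤ := by
      intro i
      let τ₀ : K i →ₐ[ℚ] PadicAlgCl p := IsAlgClosed.lift
      rw [Field.primitive_element_iff_algHom_eq_of_eval ℚ (PadicAlgCl p)
        (fun x => IsAlgClosed.splits _) (π i) τ₀]
      intro τ hτ
      obtain ⟨φ, hφ1⟩ := lift_of K j hj e i (τ₀ : K i →+* PadicAlgCl p)
      obtain ⟨ψ, hψ1⟩ := lift_of K j hj e i (τ : K i →+* PadicAlgCl p)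
      have hφψ : φ (π i) = ψ (π i) := by
        apply e.injective
        have h2 := RingHom.congr_fun hφ1 (π i)
        have h3 := RingHom.congr_fun hψ1 (π i)
        exact (h2.trans hτ).trans h3.symm
      have hx := hfree (n := 2) hk ![⟨i, φ⟩, inv ⟨i, ψ⟩] (fun σ => by
        rw [Fin.sum_univ_two]
        change ws ML S (σ • (⟨i, φ⟩ : X)) + ws ML S (σ • inv (⟨i, ψ⟩ : X)) = 0
        rw [← hcomm, ws_inv hML hST]
        have h2 := hdev ⟨i, φ⟩ σ
        have h3 := hdev ⟨i, ψ⟩ σ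
        change dev p _ (e (σ (φ (π i)))) = _ at h2
        change dev p _ (e (σ (ψ (π i)))) = _ at h3
        rw [hφψ] at h2
        have h4 : (- Real.log p * κ) * ws ML S (σ • (⟨i, φ⟩ : X)) =
            (- Real.log p * κ) * ws ML S (σ • (⟨i, ψ⟩ : X)) := h2.symm.trans h3
        rw [mul_left_cancel₀ hfac h4]
        ring) ⟨i, φ⟩
      have hpos : 0 < (Finset.univ.filter (fun b : Fin 2 =>
          (![⟨i, φ⟩, inv ⟨i, ψ⟩] : Fin 2 → X) b = ⟨i, φ⟩)).card := by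
        rw [Finset.card_pos]
        exact ⟨0, by rw [Finset.mem_filter]; exact ⟨Finset.mem_univ _, rfl⟩⟩
      rw [hx, Finset.card_pos] at hpos
      obtain ⟨b, hb⟩ := hpos
      rw [Finset.mem_filter] at hb
      have hb2 := hb.2
      have hφψ' : φ = ψ := by
        fin_cases b
        · exact absurd (eq_of_heq (Sigma.mk.inj hb2).2).symm (cbar_ne φ)
        · have h2 : cbar ψ = cbar φ := eq_of_heq (Sigma.mk.inj hb2).2
          rw [← cbar_cbar φ, ← h2, cbar_cbar]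
      ext x
      have h2 := RingHom.congr_fun hφ1 x
      have h3 := RingHom.congr_fun hψ1 x
      rw [hφψ'] at h2
      exact h2.symm.trans h3
    have hcast : ∀ i, (((p : ℚ) ^ m i : ℚ) : Ω) = (p : Ω) ^ m i := by
      intro i
      push_cast
      rfl
    have h2 : (fun i => (p : Ω) ^ m i) = fun i => (((p : ℚ) ^ m i : ℚ) : Ω) :=
      funext fun i => (hcast i).symm
    rw [h2]
    refine form_mem p K j hj e (fun i => (p : ℚ) ^ m i) hq π hgen hweil' V F hF t ?_ s hs c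
      (by rw [hc]; exact Finset.prod_congr rfl fun l _ => (hcast _).symm) φ hφ
    intro W hW i ψ
    have hcnt := hfree hn (fun b => (⟨t b, W b⟩ : X)) (fun σ => by
      have h3 := hW σ
      have h4 : ∀ b, dev p ((p : ℚ) ^ m (t b)) (e (σ (W b (π (t b))))) =
          (- Real.log p * κ) * ws ML S (σ • (⟨t b, W b⟩ : X)) := fun b => hdev ⟨t b, W b⟩ σ
      rw [Finset.sum_congr rfl (fun b _ => h4 b), ← Finset.mul_sum] at h3
      exact (mul_eq_zero.1 h3).resolve_left hfac) ⟨i, ψ⟩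
    rw [Nat.card_eq_fintype_card, Nat.card_eq_fintype_card, Fintype.card_subtype,
      Fintype.card_subtype]
    exact hcnt
  · rintro Φ - Φ' - heq
    funext i
    ext ψ
    obtain ⟨φ, rfl⟩ := lift_of K j hj e i ψ
    have h3 : Finset.univ.filter (fun x : X => (e : L →+* PadicAlgCl p).comp x.2 ∈ Φ x.1) =
      Finset.univ.filter (fun x : X => (e : L →+* PadicAlgCl p).comp x.2 ∈ Φ' x.1) :=
      twist_inj heq
    have h2 : (⟨i, φ⟩ : X) ∈
          Finset.univ.filter (fun x : X => (e : L →+* PadicAlgCl p).comp x.2 ∈ Φ x.1) ↔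
        (⟨i, φ⟩ : X) ∈
          Finset.univ.filter (fun x : X => (e : L →+* PadicAlgCl p).comp x.2 ∈ Φ' x.1) := by
      rw [h3]
    rw [Finset.mem_filter, Finset.mem_filter] at h2
    simpa using h2


/-- **Few families of slope types have Tate classes in almost linearly many variables that are not
generated by pairings.** -/
theorem ncard_tt [Nonempty I] (g N k : ℕ) (hg : ∀ i, 2 * g ≤ finrank ℚ (K i))
    (hN : ∑ i, finrank ℚ (K i) = 2 * N) (hk : 2 ≤ k) (M : ∀ i, (K i →+* PadicAlgCl p) → ℝ)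
    (hM : ∀ i τ, M i (cbar τ) = M i τ) (m₀ m₁ : ℝ) (hm₀ : 0 < m₀)
    (hm : ∀ i τ, m₀ ≤ |M i τ| ∧ |M i τ| ≤ m₁)
    (h : 10 ^ 13 * (k * Real.log (6 * N) ^ 4) ≤ (m₀ / m₁) ^ 4 * g) :
    ({Φ : ∀ i, Set (K i →+* PadicAlgCl p) | (∀ i, IsPadicType p (Φ i)) ∧
      ¬ TateUpTo p K M Φ k}.ncard : ℝ) ≤
      2 ^ N * Real.exp (-((m₀ / m₁) ^ 4 * g / (10 ^ 13 * (k * Real.log (6 * N))))) := by
  obtain ⟨i₀⟩ := (inferInstance : Nonempty I)
  have hpos : 0 < finrank ℚ (K i₀) := finrank_pos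
  have h1 : finrank ℚ (K i₀) ≤ 2 * N := by
    rw [← hN]
    exact Finset.single_le_sum (f := fun i => finrank ℚ (K i)) (fun _ _ => Nat.zero_le _)
      (Finset.mem_univ i₀)
  have h2 := hg i₀
  have hgN : g ≤ N := by omega
  have hN0 : 0 < N := by omega
  have hg0 : 0 < g := by
    rcases Nat.eq_zero_or_pos g with h0 | h0
    · exfalso
      rw [h0, Nat.cast_zero, mul_zero] at h
      have h3 : (1 : ℝ) ≤ N := by exact_mod_cast hN0
      have h4 : 0 < Real.log (6 * N) := Real.log_pos (by linarith)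
      have h5 : (0 : ℝ) < k := by
        have : 0 < k := by omega
        exact_mod_cast this
      have h6 : 0 < 10 ^ 13 * (k * Real.log (6 * N) ^ 4) := by positivity
      linarith
    · exact h0
  let τ₀ : K i₀ →ₐ[ℚ] PadicAlgCl p := IsAlgClosed.lift
  have hm01 : m₀ ≤ m₁ := (hm i₀ (τ₀ : K i₀ →+* PadicAlgCl p)).1.trans
    (hm i₀ (τ₀ : K i₀ →+* PadicAlgCl p)).2
  obtain ⟨L, _, _, j, hj⟩ := exists_galois K
  exact ncard_tt_aux p K j hj g N k hg0 hgN hg hN hk M hM m₀ m₁ hm₀ hm hm01 h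

theorem ncard_padic (N : ℕ) (hN : ∑ i, finrank ℚ (K i) = 2 * N) :
    {Φ : ∀ i, Set (K i →+* PadicAlgCl p) | ∀ i, IsPadicType p (Φ i)}.ncard = 2 ^ N := by
  classical
  let inv : (Σ i, (K i →+* PadicAlgCl p)) → Σ i, (K i →+* PadicAlgCl p) :=
    fun y => ⟨y.1, cbar y.2⟩
  have hinv : ∀ x, inv (inv x) = x := by
    rintro ⟨i, φ⟩
    simp only [inv, cbar_cbar]
  have hne : ∀ x, inv x ≠ x := by
    rintro ⟨i, φ⟩ hy
    simp only [inv, Sigma.mk.injEq, heq_eq_eq, true_and] at hy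
    exact cbar_ne φ hy
  have hX : Fintype.card (Σ i, (K i →+* PadicAlgCl p)) = 2 * N := by
    rw [Fintype.card_sigma, ← hN]
    exact Finset.sum_congr rfl fun i _ => Embeddings.card (K i) (PadicAlgCl p)
  rw [← Pool.Agent.TH170.GH.ncard_odd inv hinv hne hX]
  let u : (∀ i, Set (K i →+* PadicAlgCl p)) → (Σ i, (K i →+* PadicAlgCl p)) → Bool :=
    fun Φ y => decide (y.2 ∈ Φ y.1)
  have hu : ∀ Φ y, u Φ y = true ↔ y.2 ∈ Φ y.1 := fun Φ y => decide_eq_true_iff
  have hu' : ∀ Φ y, u Φ y = false ↔ ¬ y.2 ∈ Φ y.1 := fun Φ y => decide_eq_false_iff_not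
  have huinj : Function.Injective u := by
    intro Φ Ψ hh
    funext i
    ext ψ
    have h1 : u Φ ⟨i, ψ⟩ = true ↔ u Ψ ⟨i, ψ⟩ = true := by rw [hh]
    rw [hu, hu] at h1
    exact h1
  rw [← Set.ncard_image_of_injective _ huinj]
  congr 1
  ext v
  constructor
  · rintro ⟨Φ, hΦ, rfl⟩ x
    have h1 := hΦ x.1 x.2
    have h2 : u Φ (inv x) = true ↔ cbar x.2 ∈ Φ x.1 := hu Φ (inv x)
    by_cases h3 : x.2 ∈ Φ x.1
    · rw [(hu Φ x).2 h3, Bool.not_true]
      by_contra h4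
      rw [Bool.not_eq_false, h2] at h4
      exact (h1.1 h3) h4
    · rw [(hu' Φ x).2 h3, Bool.not_false, h2]
      by_contra h4
      exact h3 (h1.2 h4)
  · intro hv
    let Φ₀ : ∀ i, Set (K i →+* PadicAlgCl p) := fun i => {φ | v ⟨i, φ⟩ = true}
    have h0 : ∀ x : Σ i, (K i →+* PadicAlgCl p), x.2 ∈ Φ₀ x.1 ↔ v x = true := fun x => Iff.rfl
    refine ⟨Φ₀, fun i φ => ?_, ?_⟩
    · have h1 : v ⟨i, cbar φ⟩ = ! v ⟨i, φ⟩ := hv ⟨i, φ⟩
      change v ⟨i, φ⟩ = true ↔ ¬ v ⟨i, cbar φ⟩ = true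
      rw [h1]
      simp
    · funext x
      by_cases h : v x = true
      · rw [h]
        exact (hu Φ₀ x).2 ((h0 x).2 h)
      · have h' : v x = false := by
          rw [Bool.not_eq_true] at h
          exact h
        rw [h']
        exact (hu' Φ₀ x).2 (fun h2 => h ((h0 x).1 h2))

/-- The case of one field and constant weights. -/
theorem ncard_tt_one (q : ℕ) [Fact q.Prime] {F : Type} [Field F] [NumberField F] [IsCMField F]
    (g k : ℕ) (hF : finrank ℚ F = 2 * g) (hk : 2 ≤ k)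
    (h : 10 ^ 14 * (k * Real.log (6 * g) ^ 4) ≤ g) :
    ({Φ : Set (F →+* PadicAlgCl q) | IsPadicType q Φ ∧
      ¬ TateUpTo q (fun _ : Unit => F) (fun _ _ => 1) (fun _ => Φ) k}.ncard : ℝ) ≤
      2 ^ g * Real.exp (-(10 * Real.log (6 * g) ^ 3)) := by
  have hg0 : g ≠ 0 := by
    rintro rfl
    have := finrank_pos (R := ℚ) (M := F)
    omega
  have h13 : 10 ^ 13 * (k * Real.log (6 * g) ^ 4) ≤ (g : ℝ) := by
    have : 0 ≤ k * Real.log (6 * g) ^ 4 := by positivity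
    linarith
  have h1 := ncard_tt q (fun _ : Unit => F) g g k (fun _ => hF.ge)
    (by rw [Fintype.sum_unique]; exact hF) hk (fun _ _ => 1) (fun _ _ => rfl) 1 1 one_pos
    (fun _ _ => by rw [abs_one]; exact ⟨le_rfl, le_rfl⟩) (by
      rw [div_one, one_pow, one_mul]
      exact h13)
  rw [div_one, one_pow, one_mul] at h1
  have h2 : ({Φ : Set (F →+* PadicAlgCl q) | IsPadicType q Φ ∧
      ¬ TateUpTo q (fun _ : Unit => F) (fun _ _ => 1) (fun _ => Φ) k}.ncard : ℝ) ≤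
      ({Φ : ∀ _ : Unit, Set (F →+* PadicAlgCl q) | (∀ i, IsPadicType q (Φ i)) ∧
        ¬ TateUpTo q (fun _ : Unit => F) (fun _ _ => 1) Φ k}.ncard : ℝ) := by
    rw [Nat.cast_le]
    refine Set.ncard_le_ncard_of_injOn (fun Φ => fun _ : Unit => Φ) ?_ ?_ (Set.toFinite _)
    · rintro Φ ⟨h4, h5⟩
      exact ⟨fun _ => h4, h5⟩
    · intro Φ _ Φ' _ h4
      exact congrFun h4 ()
  exact h2.trans (h1.trans (mul_le_mul_of_nonneg_left (exp_bound (by omega) hg0 h)
    (by positivity)))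

end padic

end Pool.Agent.Q43.RP
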