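import Mathlib
import Pool.Agent.W548.Tt.Final
import Pool.Agent.Q43.RP.Ttw

/-!
# Slope types with short relations: the union bound
-/

set_option autoImplicit false
set_option linter.unusedSectionVars false

namespace Pool.Agent.Q43.RP

open NumberField Module Pool.Agent.H925R2 Pool.Agent.H485R3 Pool.Agent.H204R3.CM
  Pool.Agent.H868R3.TwoOdd Pool.Agent.W548.Ab Pool.Agent.W548.Sh Pool.Agent.W548.Tt

variable {I : Type} [Fintype I] (p : ℕ) [Fact p.Prime] (K : I → Type) [∀ i, Field (K i)]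
  [∀ i, NumberField (K i)] [∀ i, IsCMField (K i)]

theorem ncard_uw_aux {L : Type} [Field L] [NumberField L] [IsGalois ℚ L] (j : L →+* ℂ)
    (hj : ∀ i, ∀ ψ : K i →+* ℂ, ∃ φ : K i →+* L, j.comp φ = ψ)
    (g N k : ℕ) (hg : ∀ i, 2 * g ≤ finrank ℚ (K i))
    (hN : ∑ i, finrank ℚ (K i) = 2 * N) (hk : 2 ≤ k) (M : ∀ i, (K i →+* PadicAlgCl p) → ℝ)
    (hM : ∀ i τ, M i (cbar τ) = M i τ) (hM0 : ∀ i τ, M i τ ≠ 0) :
    ({Φ : ∀ i, Set (K i →+* PadicAlgCl p) | (∀ i, IsPadicType p (Φ i)) ∧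
      ¬ WordsUpTo p K M Φ k}.ncard : ℝ) ≤
      2 ^ N * (Fintype.card I * (2 * N + 1) ^ (k - 1) * (3 * k / 2 + 1) ^ (-(g / (2 * k) : ℝ))) := by
  classical
  have hcard : ∀ i, Fintype.card (K i →+* L) = finrank ℚ (K i) := fun i => card_emb j (hj i)
  let e : L →ₐ[ℚ] PadicAlgCl p := IsAlgClosed.lift
  let X : Type _ := Σ i, (K i →+* L)
  let inv : X → X := fun x => ⟨x.1, cbar x.2⟩
  have hinv : ∀ x, inv (inv x) = x := by
    rintro ⟨i, φ⟩
    simp only [inv, cbar_cbar]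
  have hcomm : ∀ (σ : L ≃ₐ[ℚ] L) (x : X), inv (σ • x) = σ • inv x := by
    rintro σ ⟨i, φ⟩
    rfl
  have hX : Fintype.card X = 2 * N := by
    rw [Fintype.card_sigma, ← hN]
    exact Finset.sum_congr rfl fun i _ => hcard i
  have horb : ∀ x : X, 2 * g ≤ (MulAction.orbit (L ≃ₐ[ℚ] L) x).ncard := by
    rintro ⟨i, φ⟩
    refine le_trans (hg i) ?_
    rw [← hcard i, ← Nat.card_eq_fintype_card, ← Set.ncard_univ]
    refine Set.ncard_le_ncard_of_injOn (fun ψ : K i →+* L => (⟨i, ψ⟩ : X)) ?_ ?_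
      (Set.toFinite _)
    · intro ψ _
      obtain ⟨σ, hσ⟩ := MulAction.exists_smul_eq (L ≃ₐ[ℚ] L) φ ψ
      refine ⟨σ, ?_⟩
      change (⟨i, σ • φ⟩ : X) = ⟨i, ψ⟩
      rw [hσ]
    · intro ψ _ ψ' _ h
      exact eq_of_heq (Sigma.mk.inj h).2
  have hnon : ∀ i, Nonempty (K i →+* L) := by
    intro i
    rw [← Fintype.card_pos_iff, hcard i]
    exact finrank_pos
  let base : I → X := fun i => ⟨i, (hnon i).some⟩
  have hbase : ∀ x : X, ∃ (i : I) (σ : L ≃ₐ[ℚ] L), σ • x = base i := by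
    rintro ⟨i, φ⟩
    obtain ⟨σ, hσ⟩ := MulAction.exists_smul_eq (L ≃ₐ[ℚ] L) φ (hnon i).some
    refine ⟨i, σ, ?_⟩
    change (⟨i, σ • φ⟩ : X) = ⟨i, (hnon i).some⟩
    rw [hσ]
  let ML : X → ℝ := fun x => M x.1 ((e : L →+* PadicAlgCl p).comp x.2)
  have hML : ∀ x, ML (inv x) = ML x := by
    rintro ⟨i, φ⟩
    exact hM i ((e : L →+* PadicAlgCl p).comp φ)
  have hML0 : ∀ x, ML x ≠ 0 := fun x => hM0 _ _
  have hk' : (0 : ℝ) < k := by
    have h1 : 0 < k := by omega
    exact_mod_cast h1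
  set γ : ℝ := (3 * k / 2 + 1 : ℝ) ^ (-(1 / (2 * k : ℝ))) with hγ
  have hγ0 : 0 < γ := Real.rpow_pos_of_pos (by positivity) _
  have hγ1 : γ ≤ 1 := Real.rpow_le_one_of_one_le_of_nonpos (by linarith) (by
    rw [neg_nonpos]
    positivity)
  have hγg : γ ^ g = (3 * k / 2 + 1 : ℝ) ^ (-(g / (2 * k) : ℝ)) := by
    rw [hγ, ← Real.rpow_natCast, ← Real.rpow_mul (by positivity)]
    congr 1
    ring
  have hmain := card_Bad_le (G := L ≃ₐ[ℚ] L) (κ := Fin k) hinv hcomm ML base hbase k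
    (Fintype.card_fin k) (by omega) N hX (2 ^ N * γ ^ g) (by positivity) (fun a x₀ hx₀ => by
      refine le_trans (card_BadW_le hinv hcomm hML hML0 g horb a k (Fintype.card_fin k) γ hγ0 hγ1
        (fun n hn => beta_le_rpow k n (by omega) hn) x₀ hx₀) ?_
      refine mul_le_mul_of_nonneg_right ?_ (by positivity)
      exact_mod_cast card_Halves_le hinv N hX)
  rw [← hγg]
  refine le_trans ?_ (le_trans hmain (le_of_eq (by ring)))
  rw [Nat.cast_le, ← Set.ncard_coe_finset]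
  refine Set.ncard_le_ncard_of_injOn
    (fun Φ => Finset.univ.filter (fun x : X => (e : L →+* PadicAlgCl p).comp x.2 ∈ Φ x.1)) ?_ ?_
    (Finset.finite_toSet _)
  · rintro Φ ⟨hΦ, hnot⟩
    rw [Finset.mem_coe]
    set S : Finset X := Finset.univ.filter
      (fun x : X => (e : L →+* PadicAlgCl p).comp x.2 ∈ Φ x.1) with hS
    have hmem : ∀ x : X, x ∈ S ↔ (e : L →+* PadicAlgCl p).comp x.2 ∈ Φ x.1 := fun x => by
      rw [hS, Finset.mem_filter]
      exact ⟨fun h => h.2, fun h => ⟨Finset.mem_univ _, h⟩⟩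
    have hST : S ∈ Halves inv := by
      rw [mem_Halves]
      rintro ⟨i, φ⟩
      rw [hmem, hmem]
      exact hΦ i ((e : L →+* PadicAlgCl p).comp φ)
    by_contra hbad
    apply hnot
    -- consequences of not being bad
    have hfree : ∀ {n : ℕ} (_ : n ≤ k) (x : Fin n → X),
        (∀ σ : L ≃ₐ[ℚ] L, ∑ b, ws ML S (σ • x b) = 0) → ∀ y,
          (Finset.univ.filter (fun b => x b = y)).card =
            (Finset.univ.filter (fun b => x b = inv y)).card := by
      intro n hn x hx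
      by_contra hcon
      push Not at hcon
      obtain ⟨y, hy⟩ := hcon
      apply hbad
      rw [Pool.Agent.W548.Tt.mem_Bad]
      refine ⟨hST, pad k x, ⟨y, ?_⟩, fun σ => ?_⟩
      · rw [cnt_pad hn, cnt_pad hn]
        exact_mod_cast hy
      · rw [sum_pad hn x (fun z => Pool.Agent.W548.Tt.ev (ws ML S) σ z) rfl]
        exact hx σ
    intro m π κ hκ hweil hslope n hn w s hs hrelw
    have hq : (0 : ℚ) < (p : ℚ) ^ m :=
      pow_pos (by exact_mod_cast (Fact.out : p.Prime).pos) _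
    have hp1 : (1 : ℝ) < p := by exact_mod_cast (Fact.out : p.Prime).one_lt
    have hlogp : (- Real.log p : ℝ) ≠ 0 := neg_ne_zero.2 (Real.log_pos hp1).ne'
    have h1 : - Real.logb p ‖((((p : ℚ) ^ m : ℚ)) : PadicAlgCl p)‖ = m := by
      rw [norm_pow_cast, Real.logb_inv, Real.logb_pow, Real.logb_self_eq_one hp1]
      ring
    have hweil' : ∀ i, ∀ φ : K i →+* ℂ, ‖φ (π i)‖ ^ 2 = (((p : ℚ) ^ m : ℚ) : ℝ) := by
      intro i φ
      rw [hweil i φ]
      push_cast
      rfl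
    -- the deviation
    have hdev : ∀ (x : X) (σ : L ≃ₐ[ℚ] L), dev p ((p : ℚ) ^ m) (e (σ (x.2 (π x.1)))) =
        (- Real.log p * κ) * ws ML S (σ • x) := by
      rintro ⟨i, φ⟩ σ
      rw [dev_eq_val, h1]
      have h2 := hslope i ((e : L →+* PadicAlgCl p).comp (σ • φ))
      have h3 : ((e : L →+* PadicAlgCl p).comp (σ • φ)) (π i) = e (σ (φ (π i))) := rfl
      rw [h3] at h2
      change - Real.log p * (2 * (- Real.logb p ‖e (σ (φ (π i)))‖) - m) = _
      rw [h2]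
      unfold ws
      have h4 : σ • (⟨i, φ⟩ : X) ∈ S ↔ (e : L →+* PadicAlgCl p).comp (σ • φ) ∈ Φ i := hmem _
      by_cases h5 : (e : L →+* PadicAlgCl p).comp (σ • φ) ∈ Φ i
      · rw [if_pos h5, if_pos (h4.2 h5)]
        change - Real.log p * (κ * M i ((e : L →+* PadicAlgCl p).comp (σ • φ))) =
          - Real.log p * κ * M i ((e : L →+* PadicAlgCl p).comp (σ • φ))
        ring
      · rw [if_neg h5, if_neg (fun h6 => h5 (h4.1 h6))]
        change - Real.log p * (κ * - M i ((e : L →+* PadicAlgCl p).comp (σ • φ))) =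
          - Real.log p * κ * - M i ((e : L →+* PadicAlgCl p).comp (σ • φ))
        ring
    have hfac : (- Real.log p * κ) ≠ 0 := mul_ne_zero hlogp hκ
    -- lift the word
    choose W hW using fun l => hj (w l).1 (w l).2
    have hval : ∀ l, j (W l (π (w l).1)) = (w l).2 (π (w l).1) := by
      intro l
      rw [← hW l]
      rfl
    have hrel : (∏ l, W l (π (w l).1)) ^ (2 * s) =
        (∏ _l : Fin n, (((p : ℚ) ^ m : ℚ) : L)) ^ s := by
      apply j.injective
      rw [map_pow, map_prod, map_pow, map_prod]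
      simp only [hval, map_ratCast]
      rw [hrelw, Finset.prod_const, Finset.card_univ, Fintype.card_fin]
    have hcnt := hfree hn (fun b => (⟨(w b).1, W b⟩ : X)) (fun σ => by
      have h3 : ∑ l, dev p ((p : ℚ) ^ m) (e (σ (W l (π (w l).1)))) = 0 :=
        sum_dev p (fun l => (w l).1) (fun _ => (p : ℚ) ^ m) (fun _ => hq)
          (fun a => σ (W a (π (w a).1)))
          (fun a => (map_ne_zero σ).2 ((map_ne_zero _).2 (weil_ne hq (hweil' _)))) s hs (by
            rw [← map_prod, ← map_pow, hrel, map_pow, map_prod]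
            simp only [map_ratCast]) e
      have h4 : ∀ b, dev p ((p : ℚ) ^ m) (e (σ (W b (π (w b).1)))) =
          (- Real.log p * κ) * ws ML S (σ • (⟨(w b).1, W b⟩ : X)) := fun b => hdev ⟨(w b).1, W b⟩ σ
      rw [Finset.sum_congr rfl (fun b _ => h4 b), ← Finset.mul_sum] at h3
      exact (mul_eq_zero.1 h3).resolve_left hfac)
    funext y
    obtain ⟨i, ψ⟩ := y
    obtain ⟨φ, rfl⟩ := hj i ψ
    have h5 := hcnt ⟨i, φ⟩
    let J : X → Σ i, (K i →+* ℂ) := fun x => ⟨x.1, j.comp x.2⟩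
    have hJ : Function.Injective J := by
      rintro ⟨i, φ⟩ ⟨i', φ'⟩ h6
      have h7 : i = i' := congrArg Sigma.fst h6
      subst h7
      have h8 : j.comp φ = j.comp φ' := eq_of_heq (Sigma.mk.inj_iff.1 h6).2
      have h9 : φ = φ' := RingHom.ext fun x => j.injective (RingHom.congr_fun h8 x)
      rw [h9]
    have hJw : ∀ l, J (⟨(w l).1, W l⟩ : X) = w l := by
      intro l
      change (⟨(w l).1, j.comp (W l)⟩ : Σ i, (K i →+* ℂ)) = w l
      rw [hW l]
    have hjj : ∀ (i : I) (ψ : K i →+* L) (l : Fin n),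
        w l = (⟨i, j.comp ψ⟩ : Σ i, (K i →+* ℂ)) ↔ (⟨(w l).1, W l⟩ : X) = ⟨i, ψ⟩ := by
      intro i ψ l
      constructor
      · intro h6
        apply hJ
        rw [hJw]
        exact h6
      · intro h6
        rw [← hJw, h6]
    unfold exc
    rw [Pi.zero_apply, sub_eq_zero, Nat.cast_inj]
    have h6 : invC K (⟨i, j.comp φ⟩ : Σ i, (K i →+* ℂ)) = ⟨i, j.comp (cbar φ)⟩ :=
      congrArg (Sigma.mk i) (comp_cbar j φ).symm
    rw [h6]
    simp only [hjj]
    convert h5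
  · rintro Φ - Φ' - heq
    funext i
    ext ψ
    obtain ⟨φ, rfl⟩ := lift_of K j hj e i ψ
    have h3 : Finset.univ.filter (fun x : X => (e : L →+* PadicAlgCl p).comp x.2 ∈ Φ x.1) =
      Finset.univ.filter (fun x : X => (e : L →+* PadicAlgCl p).comp x.2 ∈ Φ' x.1) := heq
    have h2 : (⟨i, φ⟩ : X) ∈
          Finset.univ.filter (fun x : X => (e : L →+* PadicAlgCl p).comp x.2 ∈ Φ x.1) ↔
        (⟨i, φ⟩ : X) ∈
          Finset.univ.filter (fun x : X => (e : L →+* PadicAlgCl p).comp x.2 ∈ Φ' x.1) := by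
      rw [h3]
    rw [Finset.mem_filter, Finset.mem_filter] at h2
    simpa using h2

/-- The number of families of slope types with relations of at most `k` letters. -/
theorem ncard_uw (g N k : ℕ) (hg : ∀ i, 2 * g ≤ finrank ℚ (K i))
    (hN : ∑ i, finrank ℚ (K i) = 2 * N) (hk : 2 ≤ k) (M : ∀ i, (K i →+* PadicAlgCl p) → ℝ)
    (hM : ∀ i τ, M i (cbar τ) = M i τ) (hM0 : ∀ i τ, M i τ ≠ 0) :
    ({Φ : ∀ i, Set (K i →+* PadicAlgCl p) | (∀ i, IsPadicType p (Φ i)) ∧
      ¬ WordsUpTo p K M Φ k}.ncard : ℝ) ≤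
      2 ^ N * (Fintype.card I * (2 * N + 1) ^ (k - 1) * (3 * k / 2 + 1) ^ (-(g / (2 * k) : ℝ))) := by
  obtain ⟨L, _, _, j, hj⟩ := exists_galois K
  exact ncard_uw_aux p K j hj g N k hg hN hk M hM hM0


end Pool.Agent.Q43.RP
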